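import Mathlib

set_option autoImplicit false

open Set Metric Matrix
open scoped ContDiff ComplexConjugate

namespace Pool.Agent.Helper87.VT

/-- `κ = kap`: the surface is close to the unit sphere with a small hole, parameter disc
`‖t‖ ≤ 1`; everything for one fixed `ε > 0`. -/
noncomputable def nu (κ : ℂ → ℂ) (ε : ℝ) (t : ℂ) : ℝ := ε ^ 2 * ‖κ t‖ ^ 2 + ‖t‖ ^ 2
noncomputable def rho (κ : ℂ → ℂ) (t : ℂ) : ℂ := κ t - t * deriv κ t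
noncomputable def pp (κ : ℂ → ℂ) (ε : ℝ) (t : ℂ) : ℂ := (ε : ℂ) * rho κ t / (nu κ ε t : ℂ)
noncomputable def qq (κ h : ℂ → ℂ) (ε : ℝ) (t : ℂ) : ℂ := -((ε : ℂ) * (nu κ ε t : ℂ) * h t)

/-- diag(1,-1) -/
def sg : Matrix (Fin 2) (Fin 2) ℂ := !![1, 0; 0, -1]
/-- the Sym formula -/
noncomputable def symM (φ χ : Matrix (Fin 2) (Fin 2) ℂ) : Matrix (Fin 2) (Fin 2) ℂ :=
  (2 : ℂ) • (χ * φ⁻¹) + φ * sg * φ⁻¹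
/-- the normal -/
noncomputable def norM (φ : Matrix (Fin 2) (Fin 2) ℂ) : Matrix (Fin 2) (Fin 2) ℂ :=
  φ * sg * φ⁻¹
/-- the undeformed frame -/
noncomputable def N0 (κ : ℂ → ℂ) (ε : ℝ) (t : ℂ) : Matrix (Fin 2) (Fin 2) ℂ :=
  !![(ε : ℂ) * conj (κ t), t; - conj t, (ε : ℂ) * κ t]

/-- the holomorphic data -/
structure KData (η : ℝ) (κ h : ℂ → ℂ) : Prop where
  κ_hol : DifferentiableOn ℂ κ (ball 0 (3 / 2))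
  h_hol : DifferentiableOn ℂ h (ball 0 (3 / 2))
  κ_close : ∀ t : ℂ, ‖t‖ < 3 / 2 → ‖κ t - 1‖ ≤ η ∧ ‖deriv κ t‖ ≤ η
  h_small : ∀ t : ℂ, ‖t‖ < 3 / 2 → ‖h t‖ ≤ η
  κ_conj : ∀ t : ℂ, ‖t‖ < 3 / 2 → κ (conj t) = conj (κ t)
  h_conj : ∀ t : ℂ, ‖t‖ < 3 / 2 → h (conj t) = conj (h t)
  κ_neg : ∀ t : ℂ, ‖t‖ < 3 / 2 → κ (-t) = κ t
  h_neg : ∀ t : ℂ, ‖t‖ < 3 / 2 → h (-t) = h t

/-- the frame (value `φ` and derivative `χ` at loop parameter 1), fixed `ε` -/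
structure Frame (ε η : ℝ) (κ h : ℂ → ℂ) (φ χ : ℂ → Matrix (Fin 2) (Fin 2) ℂ)
    (m0 m1 : ℂ → ℝ) : Prop where
  ε_pos : 0 < ε
  ε_le : ε ≤ 1 / 2
  η_pos : 0 < η
  η_le : η ≤ 1 / 100
  kd : KData η κ h
  smφ : ∀ i j, ContDiffOn ℝ ∞ (fun t => φ t i j) (ball 0 (13 / 10))
  smχ : ∀ i j, ContDiffOn ℝ ∞ (fun t => χ t i j) (ball 0 (13 / 10))
  smm0 : ContDiffOn ℝ ∞ m0 (ball 0 (13 / 10))
  smm1 : ContDiffOn ℝ ∞ m1 (ball 0 (13 / 10))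
  unit : ∀ t : ℂ, ‖t‖ < 13 / 10 → (φ t)ᴴ * φ t =
    !![((nu κ ε t * m0 t : ℝ) : ℂ), 0; 0, ((nu κ ε t * m1 t : ℝ) : ℂ)]
  bm0 : ∀ t : ℂ, ‖t‖ < 13 / 10 → |m0 t - 1| ≤ η * ε
  bm1 : ∀ t : ℂ, ‖t‖ < 13 / 10 → |m1 t - 1| ≤ η * ε
  close : ∀ t : ℂ, ‖t‖ < 13 / 10 → ∀ i j,
    ‖φ t i j - N0 κ ε t i j‖ ≤ η * ε * Real.sqrt (nu κ ε t)
  deriv : ∀ t : ℂ, ‖t‖ < 13 / 10 → ∀ v : ℂ, ∃ δ0 δ1 : ℂ,
    (∀ i j, fderiv ℝ (fun s => φ s i j) t v =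
      (φ t * !![δ0, v * pp κ ε t - conj v * ((m1 t / m0 t : ℝ) : ℂ) * conj (qq κ h ε t);
        v * qq κ h ε t - conj v * ((m0 t / m1 t : ℝ) : ℂ) * conj (pp κ ε t), δ1]) i j) ∧
    (∀ i j, fderiv ℝ (fun s => χ s i j) t v =
      (χ t * !![δ0, v * pp κ ε t - conj v * ((m1 t / m0 t : ℝ) : ℂ) * conj (qq κ h ε t);
        v * qq κ h ε t - conj v * ((m0 t / m1 t : ℝ) : ℂ) * conj (pp κ ε t), δ1]
       + φ t * !![0, - (conj v * ((m1 t / m0 t : ℝ) : ℂ) * conj (qq κ h ε t));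
          - (v * qq κ h ε t), 0]) i j)
  sconj : ∀ t : ℂ, ‖t‖ < 13 / 10 → ∀ i j,
    φ (conj t) i j = conj (φ t i j) ∧ χ (conj t) i j = conj (χ t i j)
  sneg : ∀ t : ℂ, ‖t‖ < 13 / 10 →
    φ (-t) = sg * φ t * sg ∧ χ (-t) = sg * χ t * sg

/-- the surface and its normal in coordinates -/
noncomputable def X01 (φ χ : ℂ → Matrix (Fin 2) (Fin 2) ℂ) (t : ℂ) : ℂ :=
  symM (φ t) (χ t) 0 1
noncomputable def X00 (φ χ : ℂ → Matrix (Fin 2) (Fin 2) ℂ) (t : ℂ) : ℝ :=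
  (symM (φ t) (χ t) 0 0).re
noncomputable def n01 (φ : ℂ → Matrix (Fin 2) (Fin 2) ℂ) (t : ℂ) : ℂ := norM (φ t) 0 1
noncomputable def n00 (φ : ℂ → Matrix (Fin 2) (Fin 2) ℂ) (t : ℂ) : ℝ := (norM (φ t) 0 0).re
noncomputable def pos (φ χ : ℂ → Matrix (Fin 2) (Fin 2) ℂ) (t : ℂ) :
    EuclideanSpace ℝ (Fin 3) :=
  !₂[(X01 φ χ t).re, (X01 φ χ t).im, X00 φ χ t]
noncomputable def nor (φ : ℂ → Matrix (Fin 2) (Fin 2) ℂ) (t : ℂ) :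
    EuclideanSpace ℝ (Fin 3) :=
  !₂[(n01 φ t).re, (n01 φ t).im, n00 φ t]

/-- boundary conditions on the unit circle: constant height, and horizontal position on
`2 ε` times the ellipse `(1 - δ) x² + (1 + δ) y² = 1` -/
structure BC (ε δ : ℝ) (φ χ : ℂ → Matrix (Fin 2) (Fin 2) ℂ) : Prop where
  height : ∀ θ : ℝ, X00 φ χ (Complex.exp (θ * Complex.I)) = X00 φ χ 1
  ellipse : ∀ θ : ℝ, (1 - δ) * (X01 φ χ (Complex.exp (θ * Complex.I))).re ^ 2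
    + (1 + δ) * (X01 φ χ (Complex.exp (θ * Complex.I))).im ^ 2 = (2 * ε) ^ 2

/-- `Ψ`, restricted to the closed unit disc, is a smooth embedded disc in `ℝ³` with constant mean
curvature `H` (see MP_479d4c). -/
def IsEmbeddedCmcDisc (Ψ : ℂ → EuclideanSpace ℝ (Fin 3)) (H : ℝ) : Prop :=
  ∃ V : Set ℂ, IsOpen V ∧ closedBall (0 : ℂ) 1 ⊆ V ∧ ContDiffOn ℝ ∞ Ψ V ∧
    (∀ z ∈ V, Function.Injective (fderiv ℝ Ψ z)) ∧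
    InjOn Ψ (closedBall 0 1) ∧
    ∃ n : ℂ → EuclideanSpace ℝ (Fin 3), ContDiffOn ℝ ∞ n V ∧
      ∀ z ∈ V, ‖n z‖ = 1 ∧ (∀ v : ℂ, inner ℝ (fderiv ℝ Ψ z v) (n z) = 0) ∧
        ∃ S : ℂ →L[ℝ] ℂ, (∀ v : ℂ, fderiv ℝ n z v = - fderiv ℝ Ψ z (S v)) ∧
          LinearMap.trace ℝ ℂ (S : ℂ →ₗ[ℝ] ℂ) = 2 * H

/-- algebraic volume enclosed by the disc and the plane `x₃ = 0` (up to orientation):
`(1/3) ∫ ⟨Ψ, Ψ_x × Ψ_y⟩ dx dy` -/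
noncomputable def volume (Ψ : ℂ → EuclideanSpace ℝ (Fin 3)) : ℝ :=
  |(1 / 3) * ∫ z in closedBall (0 : ℂ) 1, Matrix.det (Matrix.of ![(Ψ z : Fin 3 → ℝ),
    (fderiv ℝ Ψ z 1 : Fin 3 → ℝ), (fderiv ℝ Ψ z Complex.I : Fin 3 → ℝ)])|


end Pool.Agent.Helper87.VT
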