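import Pool.Agent.Helper87.CMC.Defs
import Pool.Agent.Helper87.VT.Defs

set_option autoImplicit false

open Set Metric Matrix
open scoped ContDiff ComplexConjugate

namespace Pool.Agent.Helper87.VT

open Pool.Agent.Helper87.CMC (LoopAlg)

/-! pointwise loop data for fixed `ε`, general holomorphic `κ, h` -/
section
variable {A : Type} [NormedRing A] [NormedAlgebra ℂ A] (L : LoopAlg A)

/-- the potential divided by `ε h` -/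
noncomputable def MM (κ : ℂ → ℂ) (ε : ℝ) (t : ℂ) : A :=
  (t ^ 2) • (L.S * L.E 0 1) + ((ε : ℂ) * κ t * t) • (L.S * (L.E 1 1 - L.E 0 0))
    - ((ε : ℂ) ^ 2 * κ t ^ 2) • (L.S * L.E 1 0)

noncomputable def NN (κ : ℂ → ℂ) (ε : ℝ) (t : ℂ) : A :=
  ((ε : ℂ) * conj (κ t)) • L.E 0 0 + t • L.E 0 1 - (conj t) • L.E 1 0
    + ((ε : ℂ) * κ t) • L.E 1 1

/-- diagonal and positive part of `N⁻¹ dN` -/
noncomputable def ZZ (κ : ℂ → ℂ) (ε : ℝ) (t v : ℂ) : A :=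
  (v * ((conj t + (ε : ℂ) ^ 2 * conj (κ t) * deriv κ t) / (nu κ ε t : ℂ))) • L.E 1 1
  + (conj v) • (((t + (ε : ℂ) ^ 2 * κ t * conj (deriv κ t)) / (nu κ ε t : ℂ)) • L.E 0 0
    - conj (pp κ ε t) • L.E 1 0)

/-- the solution `F` of the holomorphic ODE, `G = 1 + ε F` -/
structure FData (ε η : ℝ) (κ h : ℂ → ℂ) (F : ℂ → A) : Prop where
  zero : F 0 = 0
  ode : ∀ z : ℂ, ‖z‖ < 3 / 2 →
    HasDerivAt F (h z • ((1 + (ε : ℂ) • F z) * MM L κ ε z)) z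
  bound : ∀ z : ℂ, ‖z‖ < 3 / 2 → ‖F z‖ ≤ η

/-- output of the factorisation theorem for the bound `C = 1` -/
structure XData (ε0 C1 : ℝ) (Xh : ℝ × A → A) : Prop where
  ε0_pos : 0 < ε0
  ε0_le : ε0 ≤ 1 / 2
  C1_pos : 0 < C1
  smooth : ContDiffOn ℝ ∞ Xh (Ioo (-ε0) ε0 ×ˢ ball (0 : A) 1)
  Pp_eq : ∀ (ε : ℝ) (g : A), |ε| < ε0 → ‖g‖ < 1 → L.Pp (Xh (ε, g)) = Xh (ε, g)
  bound : ∀ (ε : ℝ) (g : A), |ε| < ε0 → ‖g‖ < 1 → ‖Xh (ε, g)‖ ≤ C1 * ‖g‖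
  char : ∀ (ε : ℝ) (g : A), |ε| < ε0 → ‖g‖ < 1 → ∀ Y : A,
    (Y + (ε : ℂ) • L.Pp ((g + L.st g + (ε : ℂ) • (L.st g * g)) * Y)
            = - L.Pp (g + L.st g + (ε : ℂ) • (L.st g * g)) ↔ Y = Xh (ε, g))
  fac : ∀ (ε : ℝ) (g D X P : A), |ε| < ε0 → ‖g‖ < 1 → D = 1 + (ε : ℂ) • g →
        X = 1 + (ε : ℂ) • Xh (ε, g) → P = L.st D * D →
        L.Pp (P * X) = 0 ∧
        L.st X * P * X = L.P0 (P * X) ∧
        (∀ i, (L.d i (P * X)).im = 0 ∧ |(L.d i (P * X)).re - 1| ≤ C1 * |ε| * ‖g‖ ∧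
          1 / 2 < (L.d i (P * X)).re ∧ (L.d i (P * X)).re < 2) ∧
        IsUnit D ∧ IsUnit X

variable (κ : ℂ → ℂ) (ε : ℝ) (F : ℂ → A) (Xh : ℝ × A → A)

noncomputable def GG (t : ℂ) : A := 1 + (ε : ℂ) • F t
noncomputable def gg (t : ℂ) : A :=
  ((nu κ ε t : ℂ)⁻¹) • (L.st (NN L κ ε t) * F t * NN L κ ε t)
noncomputable def DD (t : ℂ) : A := 1 + (ε : ℂ) • gg L κ ε F t
noncomputable def XX (t : ℂ) : A := 1 + (ε : ℂ) • Xh (ε, gg L κ ε F t)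
noncomputable def PP (t : ℂ) : A := L.st (DD L κ ε F t) * DD L κ ε F t
noncomputable def Phi (t : ℂ) : A := GG ε F t * NN L κ ε t * XX L κ ε F Xh t
/-- `Phi = NN 0 + ε PhiH` -/
noncomputable def PhiH (t : ℂ) : A :=
  (conj (κ t)) • L.E 0 0 + (κ t) • L.E 1 1 + F t * NN L κ ε t
    + GG ε F t * NN L κ ε t * Xh (ε, gg L κ ε F t)
noncomputable def mm (i : Fin 2) (t : ℂ) : ℝ := (L.d i (PP L κ ε F t * XX L κ ε F Xh t)).re
/-- value and derivative at loop parameter `1` -/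
noncomputable def phM (t : ℂ) : Matrix (Fin 2) (Fin 2) ℂ :=
  Matrix.of fun i j => L.ev i j (Phi L κ ε F Xh t)
noncomputable def chM (t : ℂ) : Matrix (Fin 2) (Fin 2) ℂ :=
  Matrix.of fun i j => L.dv i j (Phi L κ ε F Xh t)

end


end Pool.Agent.Helper87.VT
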