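import Pool.Agent.Helper87.CMC.Defs

set_option autoImplicit false

open Set Metric Matrix
open scoped ContDiff ComplexConjugate

namespace Pool.Agent.Helper87.VT

open Pool.Agent.Helper87.CMC (LoopAlg)

/-! two-variable loop algebra: Laurent series in `T` and in a variable `t` on the unit circle -/

/-- real `ℓ¹` sequences -/
abbrev X1 : Type := lp (fun _ : ℕ => ℝ) 1

/-- the functions of `z`, `‖z‖ < 2`, given by sequences `x` (coefficients `x n / 4 ^ (n + 1)`) -/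
noncomputable def kapF (x : X1) (z : ℂ) : ℂ :=
  ∑' n : ℕ, (((x n / 4 ^ (n + 1) / (2 * n + 2) : ℝ)) : ℂ) * z ^ (2 * n + 2)
noncomputable def thF (x : X1) (z : ℂ) : ℂ :=
  ∑' n : ℕ, (((x n / 4 ^ (n + 1) : ℝ)) : ℂ) * z ^ (2 * n + 2)
noncomputable def QF (x : X1) (z : ℂ) : ℂ :=
  ∑' n : ℕ, (((x n / 4 ^ (n + 1) : ℝ)) : ℂ) * z ^ (2 * n + 1)
noncomputable def hF (x : X1) (z : ℂ) : ℂ :=
  ∑' n : ℕ, (((x n / 4 ^ (n + 1) * (2 * n + 1) : ℝ)) : ℂ) * z ^ (2 * n)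

/-- `B`: Wiener algebra of Laurent series in `t` (weights `2^|n|`), `A`: `2 × 2` matrices over the
Wiener algebra of Laurent series in `T, t` (weights `2^|m| 2^|n|`), `A1` with `L`: the loop algebra
in `T`. `τ n = t ^ n`. -/
structure TwoAlg (A1 : Type) [NormedRing A1] [NormedAlgebra ℂ A1] (L : LoopAlg A1)
    (B : Type) [NormedCommRing B] [NormedAlgebra ℂ B]
    (A : Type) [NormedRing A] [NormedAlgebra ℂ A] where
  -- the algebra `B`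
  τ : ℤ → B
  τ_zero : τ 0 = 1
  τ_add : ∀ m n, τ (m + n) = τ m * τ n
  sB : B →L[ℝ] B
  sB_mul : ∀ x y, sB (x * y) = sB x * sB y
  sB_sB : ∀ x, sB (sB x) = x
  sB_smul : ∀ (c : ℂ) x, sB (c • x) = (conj c) • sB x
  sB_τ : ∀ n, sB (τ n) = τ (-n)
  -- Fourier coefficients
  co : ℤ → B →L[ℂ] ℂ
  co_τ : ∀ m n, co m (τ n) = if m = n then 1 else 0
  ext : ∀ x y, (∀ n, co n x = co n y) → x = y
  co_sB : ∀ n x, co n (sB x) = conj (co (-n) x)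
  -- primitive with respect to the angle, without constant term
  Int : B →L[ℂ] B
  co_Int : ∀ n x, co n (Int x) = if n = 0 then 0 else co n x / (Complex.I * n)
  -- evaluation on the circle
  e : ℂ → B →L[ℂ] ℂ
  e_mul : ∀ z, ‖z‖ = 1 → ∀ x y, e z (x * y) = e z x * e z y
  e_τ : ∀ z, ‖z‖ = 1 → ∀ n : ℤ, e z (τ n) = z ^ n
  e_sB : ∀ z, ‖z‖ = 1 → ∀ x, e z (sB x) = conj (e z x)
  e_sum : ∀ z, ‖z‖ = 1 → ∀ x, HasSum (fun n : ℤ => co n x * z ^ n) (e z x)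
  -- unknowns
  kL : X1 →L[ℝ] B
  thL : X1 →L[ℝ] B
  QL : X1 →L[ℝ] B
  co_kL : ∀ (x : X1) (m : ℤ), co m (kL x) =
    if 0 < m ∧ Even m then (((x (m.toNat / 2 - 1) / 4 ^ (m.toNat / 2) / m : ℝ)) : ℂ) else 0
  co_thL : ∀ (x : X1) (m : ℤ), co m (thL x) =
    if 0 < m ∧ Even m then (((x (m.toNat / 2 - 1) / 4 ^ (m.toNat / 2) : ℝ)) : ℂ) else 0
  co_QL : ∀ (x : X1) (m : ℤ), co m (QL x) =
    if 0 < m ∧ Odd m then (((x (m.toNat / 2) / 4 ^ (m.toNat / 2 + 1) : ℝ)) : ℂ) else 0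
  QL_sum : ∀ x : X1, HasSum (fun n : ℕ => (((x n / 4 ^ (n + 1) : ℝ)) : ℂ) • τ (2 * n + 1)) (QL x)
  e_kL : ∀ (x : X1) z, ‖z‖ = 1 → e z (kL x) = kapF x z
  e_thL : ∀ (x : X1) z, ‖z‖ = 1 → e z (thL x) = thF x z
  -- coefficient extraction: imaginary parts of the coefficients of `t ^ (2 n + 2)`
  cf : B →L[ℝ] X1
  cf_apply : ∀ (x : B) (n : ℕ), cf x n = 4 ^ (n + 1) * (co (2 * n + 2) x).im
  -- the algebra `A`
  E : Fin 2 → Fin 2 → A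
  E_mul : ∀ i j k l, E i j * E k l = if j = k then E i l else 0
  E_one : E 0 0 + E 1 1 = 1
  S : A
  S_comm : ∀ x, S * x = x * S
  ι : B →L[ℂ] A
  ι_one : ι 1 = 1
  ι_mul : ∀ x y, ι (x * y) = ι x * ι y
  ι_comm : ∀ b x, ι b * x = x * ι b
  st : A →L[ℝ] A
  st_mul : ∀ x y, st (x * y) = st y * st x
  st_st : ∀ x, st (st x) = x
  st_smul : ∀ (c : ℂ) x, st (c • x) = (conj c) • st x
  st_E : ∀ i j, st (E i j) = E j i
  st_ι : ∀ b, st (ι b) = ι (sB b)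
  T_mul_S : st S * S = 1
  Pp : A →L[ℂ] A
  Pp_ι : ∀ b x, Pp (ι b * x) = ι b * Pp x
  Pp_SE : Pp (S * E 1 0) = 0
  Pp_TE : Pp (st S * E 0 1) = st S * E 0 1
  d : Fin 2 → A →L[ℂ] B
  d_one : ∀ i, d i 1 = 1
  ev : Fin 2 → Fin 2 → A →L[ℂ] B
  ev_mul : ∀ i j x y, ev i j (x * y) = ev i 0 x * ev 0 j y + ev i 1 x * ev 1 j y
  ev_E : ∀ i j k l, ev i j (E k l) = if i = k ∧ j = l then 1 else 0
  ev_ι : ∀ i j b, ev i j (ι b) = if i = j then b else 0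
  ev_S : ∀ i j, ev i j S = if i = j then 1 else 0
  ev_st : ∀ i j x, ev i j (st x) = sB (ev j i x)
  -- Stieltjes integral `∫₀ᵗ x dQ`
  J : A →L[ℂ] B →L[ℂ] A
  J_τ : ∀ (m n : ℕ) (i j : Fin 2), J (ι (τ m) * (S * E i j)) (τ (n + 1)) =
    (((n : ℂ) + 1) / ((m : ℂ) + n + 1)) • (ι (τ (m + n + 1)) * (S * E i j))
  -- nonnegative powers of `t`
  pos : A → Prop
  pos_E : ∀ i j, pos (E i j)
  pos_S : pos S
  pos_ι : ∀ n : ℕ, pos (ι (τ n))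
  pos_kL : ∀ x, pos (ι (kL x))
  pos_mul : ∀ x y, pos x → pos y → pos (x * y)
  pos_add : ∀ x y, pos x → pos y → pos (x + y)
  pos_smul : ∀ (c : ℂ) x, pos x → pos (c • x)
  pos_closed : IsClosed {x | pos x}
  pos_J : ∀ x Q, pos (J x Q)
  -- evaluation on the circle
  π : ℂ → A →L[ℂ] A1
  π_mul : ∀ z, ‖z‖ = 1 → ∀ x y, π z (x * y) = π z x * π z y
  π_E : ∀ z, ‖z‖ = 1 → ∀ i j, π z (E i j) = L.E i j
  π_S : ∀ z, ‖z‖ = 1 → π z S = L.S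
  π_ι : ∀ z, ‖z‖ = 1 → ∀ b, π z (ι b) = e z b • 1
  π_st : ∀ z, ‖z‖ = 1 → ∀ x, π z (st x) = L.st (π z x)
  π_Pp : ∀ z, ‖z‖ = 1 → ∀ x, π z (Pp x) = L.Pp (π z x)
  π_d : ∀ z, ‖z‖ = 1 → ∀ i x, e z (d i x) = L.d i (π z x)
  π_ev : ∀ z, ‖z‖ = 1 → ∀ i j x, e z (ev i j x) = L.ev i j (π z x)
  π_norm : ∀ z, ‖z‖ = 1 → ∀ x, ‖π z x‖ ≤ ‖x‖
  -- evaluation of elements with nonnegative powers inside the disc of radius 2
  πp : ℂ → A →L[ℂ] A1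
  πp_norm : ∀ z, ‖z‖ < 2 → ∀ x, ‖πp z x‖ ≤ ‖x‖
  πp_eq : ∀ z, ‖z‖ = 1 → ∀ x, pos x → πp z x = π z x
  πp_mul : ∀ z, ‖z‖ < 2 → ∀ x y, pos x → pos y → πp z (x * y) = πp z x * πp z y
  πp_E : ∀ z, ‖z‖ < 2 → ∀ i j, πp z (E i j) = L.E i j
  πp_S : ∀ z, ‖z‖ < 2 → πp z S = L.S
  πp_τ : ∀ z, ‖z‖ < 2 → ∀ n : ℕ, πp z (ι (τ n)) = (z ^ n) • 1
  πp_kL : ∀ z, ‖z‖ < 2 → ∀ x, πp z (ι (kL x)) = kapF x z • 1
  πp_J : ∀ z, ‖z‖ < 2 → ∀ x (y : X1), pos x →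
    HasDerivAt (fun w => πp w (J x (QL y))) (hF y z • πp z x) z
  πp_J0 : ∀ x Q, πp 0 (J x Q) = 0

/-! the boundary map -/

/-- the unknowns `(α, x, y)`: `κ = 1 + α + kL x`, `Q = QL y` -/
abbrev E0 : Type := ℝ × X1 × X1

section
variable {A1 : Type} [NormedRing A1] [NormedAlgebra ℂ A1] {L : LoopAlg A1}
  {B : Type} [NormedCommRing B] [NormedAlgebra ℂ B]
  {A : Type} [NormedRing A] [NormedAlgebra ℂ A] (M : TwoAlg A1 L B A)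

noncomputable def kB (u : E0) : B := ((1 + u.1 : ℝ) : ℂ) • 1 + M.kL u.2.1
noncomputable def rB (u : E0) : B := kB M u - M.thL u.2.1
noncomputable def QB (u : E0) : B := M.QL u.2.2
noncomputable def MB (p : ℝ × E0) : A :=
  M.ι (M.τ 2) * (M.S * M.E 0 1) + ((p.1 : ℂ) • M.ι (kB M p.2 * M.τ 1)) * (M.S * (M.E 1 1 - M.E 0 0))
    - (((p.1 : ℂ) ^ 2) • M.ι (kB M p.2 ^ 2)) * (M.S * M.E 1 0)
noncomputable def N2 (p : ℝ × E0) : A :=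
  ((p.1 : ℂ) • M.ι (M.sB (kB M p.2))) * M.E 0 0 + M.ι (M.τ 1) * M.E 0 1
    - M.ι (M.τ (-1)) * M.E 1 0 + ((p.1 : ℂ) • M.ι (kB M p.2)) * M.E 1 1
noncomputable def nB (p : ℝ × E0) : B := 1 + ((p.1 : ℂ) ^ 2) • (kB M p.2 * M.sB (kB M p.2))
noncomputable def niB (p : ℝ × E0) : B := Ring.inverse (nB M p)
/-- real part of an element of `B` -/
noncomputable def reB (x : B) : B := (1 / 2 : ℂ) • (x + M.sB x)

/-- `F2` solves the integral equation near `0` -/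
structure F2Data (r C : ℝ) (F2 : ℝ × E0 → A) : Prop where
  r_pos : 0 < r
  C_pos : 0 < C
  smooth : ContDiffOn ℝ ∞ F2 (ball 0 r)
  eq : ∀ p ∈ ball (0 : ℝ × E0) r, F2 p = M.J ((1 + (p.1 : ℂ) • F2 p) * MB M p) (QB M p.2)
  bound : ∀ p ∈ ball (0 : ℝ × E0) r, ‖F2 p‖ ≤ C * ‖p.2.2.2‖

/-- `X2` solves the factorisation equation near `0` -/
structure X2Data (r : ℝ) (X2 : ℝ × A → A) : Prop where
  r_pos : 0 < r
  smooth : ContDiffOn ℝ ∞ X2 (ball 0 r)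
  eq : ∀ q ∈ ball (0 : ℝ × A) r,
    X2 q + (q.1 : ℂ) • M.Pp ((q.2 + M.st q.2 + (q.1 : ℂ) • (M.st q.2 * q.2)) * X2 q)
      = - M.Pp (q.2 + M.st q.2 + (q.1 : ℂ) • (M.st q.2 * q.2))

variable (F2 : ℝ × E0 → A) (X2 : ℝ × A → A)

noncomputable def g2 (p : ℝ × E0) : A :=
  M.ι (niB M p) * (M.st (N2 M p) * F2 p * N2 M p)
noncomputable def X2h (p : ℝ × E0) : A := X2 (p.1, g2 M F2 p)
noncomputable def Phi2 (p : ℝ × E0) : A :=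
  (1 + (p.1 : ℂ) • F2 p) * N2 M p * (1 + (p.1 : ℂ) • X2h M F2 X2 p)
noncomputable def PhiH2 (p : ℝ × E0) : A :=
  M.ι (M.sB (kB M p.2)) * M.E 0 0 + M.ι (kB M p.2) * M.E 1 1 + F2 p * N2 M p
    + (1 + (p.1 : ℂ) • F2 p) * N2 M p * X2h M F2 X2 p
noncomputable def m1B (p : ℝ × E0) : B :=
  M.d 1 (M.st (1 + (p.1 : ℂ) • g2 M F2 p) * (1 + (p.1 : ℂ) • g2 M F2 p)
    * (1 + (p.1 : ℂ) • X2h M F2 X2 p))
/-- angular derivative of the rescaled height -/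
noncomputable def Wb (p : ℝ × E0) : B :=
  (-2 : ℂ) • (Ring.inverse (nB M p * m1B M F2 X2 p) *
    reB M (Complex.I • (M.τ 1 * rB M p.2 * niB M p * M.ev 0 0 (PhiH2 M F2 X2 p)
      * M.sB (M.ev 0 1 (Phi2 M F2 X2 p)))))
/-- angular derivative of the rescaled horizontal position -/
noncomputable def Zb (p : ℝ × E0) : B :=
  Ring.inverse (nB M p * m1B M F2 X2 p) *
    (Complex.I • (M.τ 1 * rB M p.2 * niB M p * M.ev 0 0 (Phi2 M F2 X2 p)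
        * M.sB (M.ev 1 1 (Phi2 M F2 X2 p)))
      + M.sB (Complex.I • (M.τ 1 * rB M p.2 * niB M p)) * M.ev 0 1 (Phi2 M F2 X2 p)
        * M.sB (M.ev 1 0 (Phi2 M F2 X2 p)))
noncomputable def Z2 (p : ℝ × E0) : B := M.Int (Zb M F2 X2 p)
/-- the boundary map -/
noncomputable def fB (q : ℝ × ℝ × E0) : ℝ × X1 × X1 :=
  ((1 - q.2.1) * (M.e 1 (Z2 M F2 X2 (q.1, q.2.2))).re ^ 2 - 1,
    M.cf (reB M (Zb M F2 X2 (q.1, q.2.2) * (M.sB (Z2 M F2 X2 (q.1, q.2.2))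
      - (q.2.1 : ℂ) • Z2 M F2 X2 (q.1, q.2.2)))),
    M.cf (Wb M F2 X2 (q.1, q.2.2)))

end


end Pool.Agent.Helper87.VT
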