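import Pool.Agent.Helper87.CMC.Defs
import Pool.Agent.Helper87.VT.Point
import Pool.Agent.Helper87.VT.Two

set_option autoImplicit false

open Set Metric Matrix
open scoped ContDiff ComplexConjugate

namespace Pool.Agent.Helper87.VT

open Pool.Agent.Helper87.CMC (LoopAlg)

/-- pointwise angular derivative of the rescaled height -/
noncomputable def Wth (κ : ℂ → ℂ) (ε : ℝ) (φ : ℂ → Matrix (Fin 2) (Fin 2) ℂ) (m1 : ℂ → ℝ)
    (φH : ℂ → ℂ) (z : ℂ) : ℝ :=
  -(2 / (nu κ ε z * m1 z)) *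
    (Complex.I * z * (rho κ z / (nu κ ε z : ℂ)) * φH z * conj (φ z 0 1)).re
/-- pointwise angular derivative of the rescaled horizontal position -/
noncomputable def Zth (κ : ℂ → ℂ) (ε : ℝ) (φ : ℂ → Matrix (Fin 2) (Fin 2) ℂ) (m1 : ℂ → ℝ)
    (z : ℂ) : ℂ :=
  (1 / ((nu κ ε z * m1 z : ℝ) : ℂ)) *
    (Complex.I * z * (rho κ z / (nu κ ε z : ℂ)) * φ z 0 0 * conj (φ z 1 1)
      + conj (Complex.I * z) * (conj (rho κ z) / (nu κ ε z : ℂ)) * φ z 0 1 * conj (φ z 1 0))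

/-- the holomorphic functions of the unknown `u = (α, x, y)` -/
noncomputable def kapU (u : E0) (z : ℂ) : ℂ := ((1 + u.1 : ℝ) : ℂ) + kapF u.2.1 z
noncomputable def hU (u : E0) (z : ℂ) : ℂ := hF u.2.2 z


end Pool.Agent.Helper87.VT
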