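import Mathlib
import Pool.Agent.Helper87.VT.Point

set_option autoImplicit false

open Set Metric Matrix
open scoped ContDiff ComplexConjugate

namespace Pool.Agent.Helper87.VT

open Pool.Agent.Helper87.CMC (LoopAlg)

theorem j1_st {A : Type} [NormedRing A] [NormedAlgebra ℂ A] (L : LoopAlg A) (κ : ℂ → ℂ)
    (ε : ℝ) (t : ℂ) :
    L.st (NN L κ ε t) = ((ε : ℂ) * κ t) • L.E 0 0 + (conj t) • L.E 1 0 - t • L.E 0 1
      + ((ε : ℂ) * conj (κ t)) • L.E 1 1 := by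
  unfold NN
  simp only [map_add, map_sub, L.st_smul, L.st_E, map_mul, Complex.conj_ofReal, Complex.conj_conj]

theorem j1_nu (κ : ℂ → ℂ) (ε : ℝ) (t : ℂ) :
    (nu κ ε t : ℂ) = (ε : ℂ) ^ 2 * (κ t * conj (κ t)) + t * conj t := by
  unfold nu
  rw [Complex.mul_conj, Complex.mul_conj, Complex.normSq_eq_norm_sq, Complex.normSq_eq_norm_sq]
  push_cast
  ring

/-- JOB PJ1. -/
theorem NN_unitary {A : Type} [NormedRing A] [NormedAlgebra ℂ A] [CompleteSpace A] (L : LoopAlg A) (κ : ℂ → ℂ) (ε : ℝ) (t : ℂ) :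
    L.st (NN L κ ε t) * NN L κ ε t = (nu κ ε t : ℂ) • 1 ∧
    NN L κ ε t * L.st (NN L κ ε t) = (nu κ ε t : ℂ) • 1 := by
  rw [j1_st, j1_nu, ← L.E_one]
  have h00 := L.E_mul 0 0 0 0
  have h01 := L.E_mul 0 0 0 1
  have h02 := L.E_mul 0 0 1 0
  have h03 := L.E_mul 0 0 1 1
  have h10 := L.E_mul 0 1 0 0
  have h11 := L.E_mul 0 1 0 1
  have h12 := L.E_mul 0 1 1 0
  have h13 := L.E_mul 0 1 1 1
  have h20 := L.E_mul 1 0 0 0
  have h21 := L.E_mul 1 0 0 1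
  have h22 := L.E_mul 1 0 1 0
  have h23 := L.E_mul 1 0 1 1
  have h30 := L.E_mul 1 1 0 0
  have h31 := L.E_mul 1 1 0 1
  have h32 := L.E_mul 1 1 1 0
  have h33 := L.E_mul 1 1 1 1
  simp only [if_true, if_pos, one_ne_zero, zero_ne_one, if_false] at h00 h01 h02 h03 h10 h11 h12 h13 h20 h21 h22 h23 h30 h31 h32 h33
  unfold NN
  constructor
  · simp only [mul_add, add_mul, mul_sub, sub_mul, smul_mul_assoc, mul_smul_comm, smul_add, smul_sub,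
      h00, h01, h02, h03, h10, h11, h12, h13, h20, h21, h22, h23, h30, h31, h32, h33, smul_zero]
    module
  · simp only [mul_add, add_mul, mul_sub, sub_mul, smul_mul_assoc, mul_smul_comm, smul_add, smul_sub,
      h00, h01, h02, h03, h10, h11, h12, h13, h20, h21, h22, h23, h30, h31, h32, h33, smul_zero]
    module

theorem j1_sq (κ : ℂ → ℂ) (ε : ℝ) (t : ℂ) : |ε| * ‖κ t‖ ≤ Real.sqrt (nu κ ε t) ∧
    ‖t‖ ≤ Real.sqrt (nu κ ε t) := by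
  constructor
  · apply Real.le_sqrt_of_sq_le
    unfold nu
    rw [mul_pow, sq_abs]
    nlinarith [sq_nonneg ‖t‖]
  · apply Real.le_sqrt_of_sq_le
    unfold nu
    nlinarith [mul_nonneg (sq_nonneg ε) (sq_nonneg ‖κ t‖)]

/-- JOB PJ1. -/
theorem NN_bound {A : Type} [NormedRing A] [NormedAlgebra ℂ A] [CompleteSpace A] (L : LoopAlg A) : ∃ c : ℝ, 0 < c ∧ ∀ (κ : ℂ → ℂ) (ε : ℝ) (t : ℂ),
    ‖NN L κ ε t‖ ≤ c * Real.sqrt (nu κ ε t) ∧ ‖L.st (NN L κ ε t)‖ ≤ c * Real.sqrt (nu κ ε t) := by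
  refine ⟨‖L.E 0 0‖ + ‖L.E 0 1‖ + ‖L.E 1 0‖ + ‖L.E 1 1‖ + 1, by positivity, ?_⟩
  intro κ ε t
  obtain ⟨h1, h2⟩ := j1_sq κ ε t
  have hs : 0 ≤ Real.sqrt (nu κ ε t) := Real.sqrt_nonneg _
  have key : ∀ (a b c d : ℂ), ‖a‖ ≤ Real.sqrt (nu κ ε t) → ‖b‖ ≤ Real.sqrt (nu κ ε t) →
      ‖c‖ ≤ Real.sqrt (nu κ ε t) → ‖d‖ ≤ Real.sqrt (nu κ ε t) → ∀ x y z w : A,
      ‖a • x + b • y - c • z + d • w‖ ≤ Real.sqrt (nu κ ε t) * (‖x‖ + ‖y‖ + ‖z‖ + ‖w‖) := by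
    intro a b c d ha hb hc hd x y z w
    calc ‖a • x + b • y - c • z + d • w‖ ≤ ‖a • x + b • y - c • z‖ + ‖d • w‖ := norm_add_le _ _
      _ ≤ ‖a • x + b • y‖ + ‖c • z‖ + ‖d • w‖ := by gcongr; exact norm_sub_le _ _
      _ ≤ ‖a • x‖ + ‖b • y‖ + ‖c • z‖ + ‖d • w‖ := by gcongr; exact norm_add_le _ _
      _ = ‖a‖ * ‖x‖ + ‖b‖ * ‖y‖ + ‖c‖ * ‖z‖ + ‖d‖ * ‖w‖ := by simp only [norm_smul]
      _ ≤ Real.sqrt (nu κ ε t) * ‖x‖ + Real.sqrt (nu κ ε t) * ‖y‖ + Real.sqrt (nu κ ε t) * ‖z‖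
          + Real.sqrt (nu κ ε t) * ‖w‖ := by gcongr
      _ = _ := by ring
  have k1 : ‖(ε : ℂ) * κ t‖ ≤ Real.sqrt (nu κ ε t) := by
    rw [norm_mul, Complex.norm_real, Real.norm_eq_abs]; exact h1
  have k2 : ‖(ε : ℂ) * conj (κ t)‖ ≤ Real.sqrt (nu κ ε t) := by
    rw [norm_mul, Complex.norm_real, Real.norm_eq_abs, RCLike.norm_conj]; exact h1
  have k3 : ‖conj t‖ ≤ Real.sqrt (nu κ ε t) := by rw [RCLike.norm_conj]; exact h2
  constructor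
  · unfold NN
    refine (key _ _ _ _ k2 h2 k3 k1 _ _ _ _).trans ?_
    nlinarith
  · rw [j1_st]
    refine (key _ _ _ _ k1 k3 h2 k2 _ _ _ _).trans ?_
    nlinarith

/-- JOB PJ1. -/
theorem nu_pos {η ε : ℝ} {κ h : ℂ → ℂ} (hk : KData η κ h) (hη : η ≤ 1 / 2) (hε : ε ≠ 0) {t : ℂ}
    (ht : ‖t‖ < 3 / 2) : 0 < nu κ ε t := by
  have h1 := (hk.κ_close t ht).1
  have h2 : 1 ≤ ‖κ t‖ + ‖κ t - 1‖ := by
    have := norm_sub_le (κ t) (κ t - 1)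
    rw [sub_sub_cancel, norm_one] at this
    exact this
  have h3 : 0 < ‖κ t‖ := by linarith
  unfold nu
  positivity

/-- JOB PJ1. -/
theorem gg_bound {A : Type} [NormedRing A] [NormedAlgebra ℂ A] [CompleteSpace A] (L : LoopAlg A) : ∃ c : ℝ, 0 < c ∧ ∀ (κ : ℂ → ℂ) (ε : ℝ) (F : ℂ → A) (t : ℂ),
    ‖gg L κ ε F t‖ ≤ c * ‖F t‖ := by
  obtain ⟨c, hc, hN⟩ := NN_bound L
  refine ⟨c ^ 2, by positivity, fun κ ε F t => ?_⟩
  obtain ⟨h1, h2⟩ := hN κ ε t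
  have hnu : 0 ≤ nu κ ε t := by unfold nu; positivity
  unfold gg
  rw [norm_smul, norm_inv, Complex.norm_real, Real.norm_eq_abs, abs_of_nonneg hnu]
  rcases eq_or_lt_of_le hnu with h0 | h0
  · rw [← h0]
    have : 0 ≤ c ^ 2 * ‖F t‖ := by positivity
    simpa using this
  · calc (nu κ ε t)⁻¹ * ‖L.st (NN L κ ε t) * F t * NN L κ ε t‖
        ≤ (nu κ ε t)⁻¹ * ((c * Real.sqrt (nu κ ε t)) * ‖F t‖ * (c * Real.sqrt (nu κ ε t))) := by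
          gcongr
          refine (norm_mul_le _ _).trans ?_
          gcongr
          refine (norm_mul_le _ _).trans ?_
          gcongr
      _ = (nu κ ε t)⁻¹ * (c ^ 2 * ‖F t‖ * (Real.sqrt (nu κ ε t) * Real.sqrt (nu κ ε t))) := by ring
      _ = c ^ 2 * ‖F t‖ := by
          rw [Real.mul_self_sqrt hnu]
          field_simp



end Pool.Agent.Helper87.VT
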