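import Mathlib
import Pool.Agent.Helper87.VT.Point
import Pool.Agent.Helper87.VT.MPJ1

set_option autoImplicit false

open Set Metric Matrix
open scoped ContDiff ComplexConjugate

namespace Pool.Agent.Helper87.VT

open Pool.Agent.Helper87.CMC (LoopAlg)



/-- JOB PJ3. -/
theorem smooth_all {A : Type} [NormedRing A] [NormedAlgebra ℂ A] [CompleteSpace A] (L : LoopAlg A) (ε0 C1 : ℝ) (Xh : ℝ × A → A) (hX : XData L ε0 C1 Xh)
    (ε η : ℝ) (κ h : ℂ → ℂ) (F : ℂ → A) (hε : 0 < ε) (hε0 : ε < ε0) (hη : η ≤ 1 / 2)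
    (hk : KData η κ h) (hF : FData L ε η κ h F)
    (hg : ∀ t : ℂ, ‖t‖ < 3 / 2 → ‖gg L κ ε F t‖ < 1) :
    ContDiffOn ℝ ∞ F (ball 0 (3 / 2)) ∧
    ContDiffOn ℝ ∞ (nu κ ε) (ball 0 (3 / 2)) ∧
    ContDiffOn ℝ ∞ (gg L κ ε F) (ball 0 (3 / 2)) ∧
    ContDiffOn ℝ ∞ (XX L κ ε F Xh) (ball 0 (3 / 2)) ∧
    ContDiffOn ℝ ∞ (PP L κ ε F) (ball 0 (3 / 2)) ∧
    ContDiffOn ℝ ∞ (Phi L κ ε F Xh) (ball 0 (3 / 2)) ∧
    (∀ i, ContDiffOn ℝ ∞ (mm L κ ε F Xh i) (ball 0 (3 / 2))) := by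
  have hB : IsOpen (ball (0 : ℂ) (3 / 2)) := isOpen_ball
  have hκ : ContDiffOn ℝ ∞ κ (ball 0 (3 / 2)) :=
    (hk.κ_hol.contDiffOn (n := ∞) hB).restrict_scalars ℝ
  have hFs : ContDiffOn ℝ ∞ F (ball 0 (3 / 2)) := by
    have h1 : DifferentiableOn ℂ F (ball 0 (3 / 2)) := fun z hz =>
      ((hF.ode z (mem_ball_zero_iff.1 hz)).differentiableAt).differentiableWithinAt
    exact (h1.contDiffOn (n := ∞) hB).restrict_scalars ℝ
  have hid : ContDiffOn ℝ ∞ (fun t : ℂ => t) (ball 0 (3 / 2)) := contDiffOn_id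
  have hconj : ∀ {f : ℂ → ℂ}, ContDiffOn ℝ ∞ f (ball 0 (3 / 2)) →
      ContDiffOn ℝ ∞ (fun q => conj (f q)) (ball 0 (3 / 2)) :=
    fun hf => Complex.conjCLE.contDiff.comp_contDiffOn hf
  have hst : ∀ {f : ℂ → A}, ContDiffOn ℝ ∞ f (ball 0 (3 / 2)) →
      ContDiffOn ℝ ∞ (fun q => L.st (f q)) (ball 0 (3 / 2)) :=
    fun hf => L.st.contDiff.comp_contDiffOn hf
  have hsm : ∀ {f : ℂ → ℂ} {g : ℂ → A}, ContDiffOn ℝ ∞ f (ball 0 (3 / 2)) →
      ContDiffOn ℝ ∞ g (ball 0 (3 / 2)) → ContDiffOn ℝ ∞ (fun q => f q • g q) (ball 0 (3 / 2)) :=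
    fun hf hg => hf.smul hg
  have hnu : ContDiffOn ℝ ∞ (nu κ ε) (ball 0 (3 / 2)) := by
    unfold nu
    exact (contDiffOn_const.mul (hκ.norm_sq ℝ)).add (hid.norm_sq ℝ)
  have hnui : ContDiffOn ℝ ∞ (fun t : ℂ => ((nu κ ε t : ℝ) : ℂ)⁻¹) (ball 0 (3 / 2)) := by
    apply ContDiffOn.inv
    · exact Complex.ofRealCLM.contDiff.comp_contDiffOn hnu
    · intro q hq h0
      exact (nu_pos hk hη hε.ne' (mem_ball_zero_iff.1 hq)).ne' (Complex.ofReal_eq_zero.mp h0)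
  have hNN : ContDiffOn ℝ ∞ (fun t : ℂ => NN L κ ε t) (ball 0 (3 / 2)) := by
    unfold NN
    apply ContDiffOn.add
    · apply ContDiffOn.sub
      · apply ContDiffOn.add
        · exact hsm (contDiffOn_const.mul (hconj hκ)) contDiffOn_const
        · exact hsm hid contDiffOn_const
      · exact hsm (hconj hid) contDiffOn_const
    · exact hsm (contDiffOn_const.mul hκ) contDiffOn_const
  have hgg : ContDiffOn ℝ ∞ (gg L κ ε F) (ball 0 (3 / 2)) := by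
    unfold gg
    exact hsm hnui (((hst hNN).mul hFs).mul hNN)
  have hXh : ContDiffOn ℝ ∞ (fun q : ℂ => Xh (ε, gg L κ ε F q)) (ball 0 (3 / 2)) := by
    have h1 : ContDiffOn ℝ ∞ (fun q : ℂ => (ε, gg L κ ε F q)) (ball 0 (3 / 2)) :=
      contDiffOn_const.prodMk hgg
    refine hX.smooth.comp h1 ?_
    intro q hq
    refine ⟨⟨by linarith, hε0⟩, ?_⟩
    rw [mem_ball_zero_iff]
    exact hg q (mem_ball_zero_iff.1 hq)
  have hXX : ContDiffOn ℝ ∞ (XX L κ ε F Xh) (ball 0 (3 / 2)) := by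
    unfold XX
    exact contDiffOn_const.add (hsm contDiffOn_const hXh)
  have hDD : ContDiffOn ℝ ∞ (DD L κ ε F) (ball 0 (3 / 2)) := by
    unfold DD
    exact contDiffOn_const.add (hsm contDiffOn_const hgg)
  have hGG : ContDiffOn ℝ ∞ (GG ε F) (ball 0 (3 / 2)) := by
    unfold GG
    exact contDiffOn_const.add (hsm contDiffOn_const hFs)
  have hPP : ContDiffOn ℝ ∞ (PP L κ ε F) (ball 0 (3 / 2)) := by
    unfold PP
    exact (hst hDD).mul hDD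
  refine ⟨hFs, hnu, hgg, hXX, hPP, ?_, ?_⟩
  · unfold Phi
    exact (hGG.mul hNN).mul hXX
  · intro i
    unfold mm
    exact Complex.reCLM.contDiff.comp_contDiffOn
      (((L.d i).restrictScalars ℝ).contDiff.comp_contDiffOn (hPP.mul hXX))



end Pool.Agent.Helper87.VT
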