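import Mathlib
import Pool.Agent.Helper87.VT.Point

set_option autoImplicit false

open Set Metric Matrix
open scoped ContDiff ComplexConjugate

namespace Pool.Agent.Helper87.VT

open Pool.Agent.Helper87.CMC (LoopAlg)

section J13041

variable {A : Type} [NormedRing A] [NormedAlgebra ℂ A] (L : LoopAlg A)

/-- constant matrices -/
noncomputable def theta_deriv_M (a b c d : ℂ) : A :=
  a • L.E 0 0 + b • L.E 0 1 + c • L.E 1 0 + d • L.E 1 1

theorem theta_deriv_M_mul (a b c d a' b' c' d' : ℂ) :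
    theta_deriv_M L a b c d * theta_deriv_M L a' b' c' d' =
      theta_deriv_M L (a * a' + b * c') (a * b' + b * d') (c * a' + d * c') (c * b' + d * d') := by
  simp only [theta_deriv_M, mul_add, add_mul, smul_mul_smul_comm, L.E_mul]
  simp
  module

theorem theta_deriv_M_S (a b c d : ℂ) :
    theta_deriv_M L a b c d * L.S = L.S * theta_deriv_M L a b c d := by
  simp only [theta_deriv_M, mul_add, add_mul, smul_mul_assoc, mul_smul_comm, L.S_comm]

theorem theta_deriv_M_smul (v a b c d : ℂ) :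
    v • theta_deriv_M L a b c d = theta_deriv_M L (v * a) (v * b) (v * c) (v * d) := by
  simp only [theta_deriv_M]
  module

theorem theta_deriv_K (κ : ℂ → ℂ) (ε : ℝ) (t : ℂ) :
    MM L κ ε t = L.S * theta_deriv_M L (-((ε : ℂ) * κ t * t)) (t ^ 2)
        (-((ε : ℂ) ^ 2 * κ t ^ 2)) ((ε : ℂ) * κ t * t) := by
  simp only [MM, theta_deriv_M, mul_add, mul_sub, mul_smul_comm]
  module

theorem theta_deriv_N (κ : ℂ → ℂ) (ε : ℝ) (t : ℂ) :
    NN L κ ε t = theta_deriv_M L ((ε : ℂ) * conj (κ t)) t (-conj t) ((ε : ℂ) * κ t) := by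
  simp only [NN, theta_deriv_M]
  module

theorem theta_deriv_Z (κ : ℂ → ℂ) (ε : ℝ) (t v : ℂ) :
    ZZ L κ ε t v = theta_deriv_M L
      (conj v * ((t + (ε : ℂ) ^ 2 * κ t * conj (deriv κ t)) / (nu κ ε t : ℂ))) 0
      (-(conj v * conj (pp κ ε t)))
      (v * ((conj t + (ε : ℂ) ^ 2 * conj (κ t) * deriv κ t) / (nu κ ε t : ℂ))) := by
  simp only [ZZ, theta_deriv_M]
  module

theorem theta_deriv_Q (κ h : ℂ → ℂ) (ε : ℝ) (t v : ℂ) :
    v • (pp κ ε t • L.E 0 1 + qq κ h ε t • (L.S * L.E 1 0)) + ZZ L κ ε t v =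
      L.S * theta_deriv_M L 0 0 (v * qq κ h ε t) 0 + theta_deriv_M L
      (conj v * ((t + (ε : ℂ) ^ 2 * κ t * conj (deriv κ t)) / (nu κ ε t : ℂ))) (v * pp κ ε t)
      (-(conj v * conj (pp κ ε t)))
      (v * ((conj t + (ε : ℂ) ^ 2 * conj (κ t) * deriv κ t) / (nu κ ε t : ℂ))) := by
  rw [theta_deriv_Z]
  simp only [theta_deriv_M, mul_add, mul_smul_comm]
  module

theorem theta_deriv_nu (κ : ℂ → ℂ) (ε : ℝ) (t : ℂ) :
    (nu κ ε t : ℂ) = (ε : ℂ) ^ 2 * (κ t * conj (κ t)) + t * conj t := by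
  rw [Complex.mul_conj, Complex.mul_conj, nu, Complex.normSq_eq_norm_sq, Complex.normSq_eq_norm_sq]
  push_cast
  ring

theorem theta_deriv_alg (κ h : ℂ → ℂ) (ε : ℝ) (t v : ℂ) (hν : 0 < nu κ ε t) :
    v • (((ε : ℂ) • (h t • MM L κ ε t)) * NN L κ ε t) +
      theta_deriv_M L ((ε : ℂ) * conj (deriv κ t * v)) v (-conj v) ((ε : ℂ) * (deriv κ t * v)) =
    NN L κ ε t * (v • (pp κ ε t • L.E 0 1 + qq κ h ε t • (L.S * L.E 1 0)) + ZZ L κ ε t v) := by
  have hn : (nu κ ε t : ℂ) ≠ 0 := by exact_mod_cast hν.ne'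
  have hnu := theta_deriv_nu κ ε t
  have hS : ∀ (a b c d : ℂ) (x : A), theta_deriv_M L a b c d * (L.S * x) =
      L.S * (theta_deriv_M L a b c d * x) := by
    intro a b c d x
    rw [← mul_assoc, theta_deriv_M_S, mul_assoc]
  rw [theta_deriv_Q, theta_deriv_K, theta_deriv_N, mul_add, theta_deriv_M_mul, hS,
    theta_deriv_M_mul, smul_smul, smul_mul_assoc, mul_assoc L.S, theta_deriv_M_mul,
    smul_smul, ← mul_smul_comm, theta_deriv_M_smul]
  congr 1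
  · congr 1
    congr 1
    · simp only [qq]; rw [hnu]; ring
    · ring
    · simp only [qq]; rw [hnu]; ring
    · ring
  · congr 1
    · simp only [pp, rho, map_div₀, map_mul, map_sub, Complex.conj_ofReal]
      field_simp
      rw [hnu]; ring
    · simp only [pp, rho]
      field_simp
      rw [hnu]; ring
    · simp only [pp, rho, map_div₀, map_mul, map_sub, Complex.conj_ofReal]
      field_simp
      rw [hnu]; ring
    · simp only [pp, rho]
      field_simp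
      rw [hnu]; ring

theorem theta_deriv_NN (κ : ℂ → ℂ) (ε : ℝ) (t : ℂ) (hk0 : HasDerivAt κ (deriv κ t) t) :
    ∃ N' : ℂ →L[ℝ] A, HasFDerivAt (fun s => NN L κ ε s) N' t ∧
      ∀ v, N' v = theta_deriv_M L ((ε : ℂ) * conj (deriv κ t * v)) v (-conj v)
        ((ε : ℂ) * (deriv κ t * v)) := by
  have hid : HasFDerivAt (fun s : ℂ => s) (ContinuousLinearMap.id ℝ ℂ) t := hasFDerivAt_id t
  have hcj : HasFDerivAt (fun s : ℂ => conj s) (Complex.conjCLE : ℂ →L[ℝ] ℂ) t :=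
    (Complex.conjCLE : ℂ →L[ℝ] ℂ).hasFDerivAt
  have hk : HasFDerivAt κ ((ContinuousLinearMap.smulRight (1 : ℂ →L[ℂ] ℂ)
      (deriv κ t)).restrictScalars ℝ) t := hk0.hasFDerivAt.restrictScalars ℝ
  have hkc : HasFDerivAt (fun s => conj (κ s)) ((Complex.conjCLE : ℂ →L[ℝ] ℂ).comp
      ((ContinuousLinearMap.smulRight (1 : ℂ →L[ℂ] ℂ) (deriv κ t)).restrictScalars ℝ)) t :=
    ((Complex.conjCLE : ℂ →L[ℝ] ℂ).hasFDerivAt (x := κ t)).comp t hk
  have h1 := (hkc.const_mul (ε : ℂ)).smul_const (L.E 0 0)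
  have h2 := hid.smul_const (L.E 0 1)
  have h3 := hcj.smul_const (L.E 1 0)
  have h4 := (hk.const_mul (ε : ℂ)).smul_const (L.E 1 1)
  refine ⟨_, ((h1.add h2).sub h3).add h4, fun v => ?_⟩
  simp [theta_deriv_M, mul_comm, mul_left_comm]
  module

end J13041

/-- JOB PJ0. -/
theorem theta_deriv {A : Type} [NormedRing A] [NormedAlgebra ℂ A] [CompleteSpace A] (L : LoopAlg A) (ε η : ℝ) (κ h : ℂ → ℂ) (F : ℂ → A) (hF : FData L ε η κ h F)
    (hκ : DifferentiableOn ℂ κ (ball 0 (3 / 2))) (t : ℂ) (ht : ‖t‖ < 3 / 2)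
    (hν : 0 < nu κ ε t) :
    ∃ Θ' : ℂ →L[ℝ] A, HasFDerivAt (fun s => GG ε F s * NN L κ ε s) Θ' t ∧
      ∀ v, Θ' v = GG ε F t * NN L κ ε t *
        (v • (pp κ ε t • L.E 0 1 + qq κ h ε t • (L.S * L.E 1 0)) + ZZ L κ ε t v) := by
  have hk0 : HasDerivAt κ (deriv κ t) t :=
    (hκ.differentiableAt (isOpen_ball.mem_nhds (by rwa [mem_ball_zero_iff]))).hasDerivAt
  obtain ⟨N', hN', hN'v⟩ := theta_deriv_NN L κ ε t hk0
  have hF1 := hF.ode t ht
  have hG0 : HasDerivAt (fun s => GG ε F s) ((ε : ℂ) • (h t • ((1 + (ε : ℂ) • F t) *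
      MM L κ ε t))) t :=
    (hF1.const_smul (ε : ℂ)).const_add (1 : A)
  have hG : HasFDerivAt (fun s => GG ε F s) ((ContinuousLinearMap.smulRight (1 : ℂ →L[ℂ] ℂ)
      ((ε : ℂ) • (h t • ((1 + (ε : ℂ) • F t) * MM L κ ε t)))).restrictScalars ℝ) t :=
    hG0.hasFDerivAt.restrictScalars ℝ
  refine ⟨_, hG.mul' hN', fun v => ?_⟩
  rw [mul_assoc, ← theta_deriv_alg L κ h ε t v hν]
  rw [← hN'v v]
  refine Eq.trans (b := GG ε F t * N' v + (v • ((ε : ℂ) • (h t • ((1 + (ε : ℂ) • F t) *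
      MM L κ ε t)))) * NN L κ ε t) rfl ?_
  refine Eq.trans ?_ (mul_add (GG ε F t) _ _).symm
  refine Eq.trans (add_comm _ _) ?_
  congr 1
  simp only [GG, smul_mul_assoc, mul_smul_comm, mul_assoc]

/-- JOB PJ0. -/
theorem ZZ_Pm {A : Type} [NormedRing A] [NormedAlgebra ℂ A] [CompleteSpace A] (L : LoopAlg A) (κ : ℂ → ℂ) (ε : ℝ) (t v : ℂ) : L.Pm (ZZ L κ ε t v) = 0 := by
  have h0 : L.Pm (L.E 0 0) = 0 := by
    have := L.Pm_P0 (L.E 0 0)
    rwa [L.P0_E] at this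
  have h1 : L.Pm (L.E 1 1) = 0 := by
    have := L.Pm_P0 (L.E 1 1)
    rwa [L.P0_E] at this
  have h2 : L.Pm (L.E 1 0) = 0 := by
    have := L.Pm_Pp (L.E 1 0)
    rwa [L.Pp_E] at this
  simp [ZZ, h0, h1, h2]



end Pool.Agent.Helper87.VT
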