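import Mathlib
import Pool.Agent.Helper87.VT.Point
import Pool.Agent.Helper87.VT.MPJ0
import Pool.Agent.Helper87.VT.MPJ1
import Pool.Agent.Helper87.VT.MPJ3
import Pool.Agent.Helper87.CMC.DerD1

set_option autoImplicit false

open Set Metric Matrix
open scoped ContDiff ComplexConjugate

namespace Pool.Agent.Helper87.VT

open Pool.Agent.Helper87.CMC (LoopAlg derivative_form)













theorem phi_structure_pt {A : Type} [NormedRing A] [NormedAlgebra ℂ A] [CompleteSpace A]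
    (L : LoopAlg A) (ε0 C1 : ℝ) (Xh : ℝ × A → A) (hX : XData L ε0 C1 Xh)
    (ε η : ℝ) (κ h : ℂ → ℂ) (F : ℂ → A) (hε : 0 < ε) (hε0 : ε < ε0) (hη : η ≤ 1 / 2)
    (hk : KData η κ h)
    (hg : ∀ t : ℂ, ‖t‖ < 3 / 2 → ‖gg L κ ε F t‖ < 1) (t : ℂ) (ht : ‖t‖ < 3 / 2) :
    L.st (GG ε F t * NN L κ ε t) * (GG ε F t * NN L κ ε t) = (nu κ ε t : ℂ) • PP L κ ε F t ∧
    L.Pp (PP L κ ε F t * XX L κ ε F Xh t) = 0 ∧
    L.P0 (PP L κ ε F t * XX L κ ε F Xh t) =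
      (mm L κ ε F Xh 0 t : ℂ) • L.E 0 0 + (mm L κ ε F Xh 1 t : ℂ) • L.E 1 1 ∧
    L.st (XX L κ ε F Xh t) * PP L κ ε F t * XX L κ ε F Xh t =
      (mm L κ ε F Xh 0 t : ℂ) • L.E 0 0 + (mm L κ ε F Xh 1 t : ℂ) • L.E 1 1 ∧
    (∀ i, |mm L κ ε F Xh i t - 1| ≤ C1 * ε * ‖gg L κ ε F t‖ ∧ 1 / 2 < mm L κ ε F Xh i t ∧
      mm L κ ε F Xh i t < 2) ∧
    IsUnit (GG ε F t * NN L κ ε t * XX L κ ε F Xh t) ∧
    L.Pp (XX L κ ε F Xh t - 1) = XX L κ ε F Xh t - 1 := by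
  have hν : 0 < nu κ ε t := nu_pos hk hη hε.ne' ht
  have hν' : (nu κ ε t : ℂ) ≠ 0 := by exact_mod_cast hν.ne'
  have hεa : |ε| < ε0 := by rw [abs_of_pos hε]; exact hε0
  have hgt := hg t ht
  obtain ⟨f1, f2, f3, f4, f5⟩ := hX.fac ε (gg L κ ε F t) (DD L κ ε F t) (XX L κ ε F Xh t)
    (PP L κ ε F t) hεa hgt rfl rfl rfl
  obtain ⟨u1, u2⟩ := NN_unitary L κ ε t
  have hND : GG ε F t * NN L κ ε t = NN L κ ε t * DD L κ ε F t := by
    unfold DD GG gg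
    have h1 : NN L κ ε t * (L.st (NN L κ ε t) * F t * NN L κ ε t) =
        (nu κ ε t : ℂ) • (F t * NN L κ ε t) := by
      rw [← mul_assoc, ← mul_assoc, u2, smul_mul_assoc, one_mul, smul_mul_assoc]
    rw [mul_add, mul_one, add_mul, one_mul, mul_smul_comm, mul_smul_comm, smul_mul_assoc, h1,
      smul_smul ((nu κ ε t : ℂ)⁻¹), inv_mul_cancel₀ hν', one_smul]
  have hd : ∀ i, L.d i (PP L κ ε F t * XX L κ ε F Xh t) = (mm L κ ε F Xh i t : ℂ) := by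
    intro i
    refine Complex.ext ?_ ?_
    · rw [Complex.ofReal_re]; rfl
    · rw [Complex.ofReal_im]; exact (f3 i).1
  have hP0 : L.P0 (PP L κ ε F t * XX L κ ε F Xh t) =
      (mm L κ ε F Xh 0 t : ℂ) • L.E 0 0 + (mm L κ ε F Xh 1 t : ℂ) • L.E 1 1 := by
    rw [L.P0_eq, hd, hd]
  have hNu : IsUnit (NN L κ ε t) := by
    refine ⟨⟨NN L κ ε t, (nu κ ε t : ℂ)⁻¹ • L.st (NN L κ ε t), ?_, ?_⟩, rfl⟩
    · rw [mul_smul_comm, u2, smul_smul, inv_mul_cancel₀ hν', one_smul]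
    · rw [smul_mul_assoc, u1, smul_smul, inv_mul_cancel₀ hν', one_smul]
  refine ⟨?_, f1, hP0, f2.trans hP0, fun i => ?_, ?_, ?_⟩
  · rw [hND, L.st_mul]
    have h1 : L.st (DD L κ ε F t) * L.st (NN L κ ε t) * (NN L κ ε t * DD L κ ε F t) =
        L.st (DD L κ ε F t) * (L.st (NN L κ ε t) * NN L κ ε t) * DD L κ ε F t := by
      simp only [mul_assoc]
    rw [h1, u1, mul_smul_comm, mul_one, smul_mul_assoc]
    rfl
  · have h1 := (f3 i).2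
    rw [abs_of_pos hε] at h1
    exact h1
  · rw [hND]
    exact (hNu.mul f4).mul f5
  · have h1 : XX L κ ε F Xh t - 1 = (ε : ℂ) • Xh (ε, gg L κ ε F t) := by
      unfold XX
      rw [add_sub_cancel_left]
    rw [h1, map_smul, hX.Pp_eq ε _ hεa hgt]

theorem phi_structure_diff {V : Type} [NormedAddCommGroup V] [NormedSpace ℝ V]
    {f : ℂ → V} (hf : ContDiffOn ℝ ∞ f (ball 0 (3 / 2))) (t : ℂ)
    (ht : t ∈ ball (0 : ℂ) (3 / 2)) : DifferentiableAt ℝ f t :=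
  (hf.contDiffAt (isOpen_ball.mem_nhds ht)).differentiableAt (by simp)

/-- JOB PJ4. -/
theorem phi_structure {A : Type} [NormedRing A] [NormedAlgebra ℂ A] [CompleteSpace A] (L : LoopAlg A) (ε0 C1 : ℝ) (Xh : ℝ × A → A) (hX : XData L ε0 C1 Xh)
    (ε η : ℝ) (κ h : ℂ → ℂ) (F : ℂ → A) (hε : 0 < ε) (hε0 : ε < ε0) (hη : η ≤ 1 / 2)
    (hk : KData η κ h) (hF : FData L ε η κ h F)
    (hg : ∀ t : ℂ, ‖t‖ < 3 / 2 → ‖gg L κ ε F t‖ < 1) (t : ℂ) (ht : ‖t‖ < 3 / 2) :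
      L.st (Phi L κ ε F Xh t) * Phi L κ ε F Xh t =
        ((nu κ ε t * mm L κ ε F Xh 0 t : ℝ) : ℂ) • L.E 0 0
        + ((nu κ ε t * mm L κ ε F Xh 1 t : ℝ) : ℂ) • L.E 1 1 ∧
      (∀ i, |mm L κ ε F Xh i t - 1| ≤ C1 * ε * ‖gg L κ ε F t‖ ∧ 1 / 2 < mm L κ ε F Xh i t ∧
        mm L κ ε F Xh i t < 2) ∧
      (∀ v : ℂ, ∃ δ0 δ1 : ℂ,
        fderiv ℝ (Phi L κ ε F Xh) t v = Phi L κ ε F Xh t *
        (v • (pp κ ε t • L.E 0 1 + qq κ h ε t • (L.S * L.E 1 0))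
          - (conj v) • (((mm L κ ε F Xh 0 t / mm L κ ε F Xh 1 t : ℝ) : ℂ) •
              (conj (pp κ ε t)) • L.E 1 0
            + ((mm L κ ε F Xh 1 t / mm L κ ε F Xh 0 t : ℝ) : ℂ) •
              (conj (qq κ h ε t)) • (L.T * L.E 0 1))
          + δ0 • L.E 0 0 + δ1 • L.E 1 1)) := by
  obtain ⟨a1, a2, a3, a4, a5, a6, a7⟩ :=
    phi_structure_pt L ε0 C1 Xh hX ε η κ h F hε hε0 hη hk hg t ht
  refine ⟨?_, a5, ?_⟩
  · unfold Phi
    rw [L.st_mul]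
    have h1 : L.st (XX L κ ε F Xh t) * L.st (GG ε F t * NN L κ ε t) *
        (GG ε F t * NN L κ ε t * XX L κ ε F Xh t) =
        L.st (XX L κ ε F Xh t) * (L.st (GG ε F t * NN L κ ε t) * (GG ε F t * NN L κ ε t)) *
          XX L κ ε F Xh t := by
      simp only [mul_assoc]
    rw [h1, a1, mul_smul_comm, smul_mul_assoc, a4, smul_add, smul_smul, smul_smul]
    push_cast
    rfl
  · intro v
    have hpt : ∀ s ∈ ball (0 : ℂ) (3 / 2), _ := fun s hs =>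
      phi_structure_pt L ε0 C1 Xh hX ε η κ h F hε hε0 hη hk hg s (mem_ball_zero_iff.mp hs)
    obtain ⟨s1, s2, s3, s4, s5, s6, s7⟩ := smooth_all L ε0 C1 Xh hX ε η κ h F hε hε0 hη hk hF hg
    exact derivative_form L (U := ball (0 : ℂ) (3 / 2)) isOpen_ball
      (fun s => GG ε F s * NN L κ ε s) (fun s => XX L κ ε F Xh s) (fun s => PP L κ ε F s)
      (nu κ ε) (mm L κ ε F Xh 0) (mm L κ ε F Xh 1) (pp κ ε) (qq κ h ε) (ZZ L κ ε)
      (fun s hs => theta_deriv L ε η κ h F hF hk.κ_hol s (mem_ball_zero_iff.mp hs)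
        (nu_pos hk hη hε.ne' (mem_ball_zero_iff.mp hs)))
      (fun s _ v => ZZ_Pm L κ ε s v)
      (fun s hs => phi_structure_diff s4 s hs)
      (fun s hs => (hpt s hs).2.2.2.2.2.2)
      (fun s hs => phi_structure_diff s2 s hs)
      (fun s hs => nu_pos hk hη hε.ne' (mem_ball_zero_iff.mp hs))
      (fun s hs => phi_structure_diff (s7 0) s hs)
      (fun s hs => lt_trans (by norm_num) ((hpt s hs).2.2.2.2.1 0).2.1)
      (fun s hs => phi_structure_diff (s7 1) s hs)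
      (fun s hs => lt_trans (by norm_num) ((hpt s hs).2.2.2.2.1 1).2.1)
      (fun s hs => (hpt s hs).1)
      (fun s hs => (hpt s hs).2.1)
      (fun s hs => (hpt s hs).2.2.1)
      (fun s hs => (hpt s hs).2.2.2.1)
      (fun s hs => (hpt s hs).2.2.2.2.2.1)
      t (mem_ball_zero_iff.mpr ht) v



end Pool.Agent.Helper87.VT
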