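import Mathlib
import Pool.Agent.Helper87.VT.Point

set_option autoImplicit false

open Set Metric Matrix
open scoped ContDiff ComplexConjugate

namespace Pool.Agent.Helper87.VT

open Pool.Agent.Helper87.CMC (LoopAlg)

section symPJ6x
variable {A : Type} [NormedRing A] [NormedAlgebra ℂ A] (L : LoopAlg A)

/-- the reflection -/
noncomputable def sgPJ6x : A := L.E 0 0 - L.E 1 1

theorem sg_sqPJ6x : sgPJ6x L * sgPJ6x L = 1 := by
  unfold sgPJ6x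
  rw [← L.E_one]
  simp only [mul_sub, sub_mul, L.E_mul]
  simp

theorem sg_SPJ6x : sgPJ6x L * L.S = L.S * sgPJ6x L := by
  unfold sgPJ6x
  rw [mul_sub, sub_mul, L.S_comm, L.S_comm]

theorem st_sgPJ6x : L.st (sgPJ6x L) = sgPJ6x L := by
  unfold sgPJ6x
  rw [map_sub, L.st_E, L.st_E]

theorem cj_onePJ6x : L.cj 1 = 1 := by
  rw [← L.E_one, map_add, L.cj_E, L.cj_E]

theorem sg_E01_PJ6x : sgPJ6x L * L.E 0 1 * sgPJ6x L = - L.E 0 1 := by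
  unfold sgPJ6x
  simp only [mul_sub, sub_mul, L.E_mul]
  simp [L.E_mul]

theorem sg_E10_PJ6x : sgPJ6x L * L.E 1 0 * sgPJ6x L = - L.E 1 0 := by
  unfold sgPJ6x
  simp only [mul_sub, sub_mul, L.E_mul]
  simp [L.E_mul]

theorem sg_EiiPJ6x (i : Fin 2) : sgPJ6x L * L.E i i * sgPJ6x L = L.E i i := by
  unfold sgPJ6x
  fin_cases i
  · simp only [mul_sub, sub_mul, L.E_mul]
    simp [L.E_mul]
  · simp only [mul_sub, sub_mul, L.E_mul]
    simp [L.E_mul]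

theorem sg_mulPJ6x (x y : A) : sgPJ6x L * (x * y) * sgPJ6x L =
    (sgPJ6x L * x * sgPJ6x L) * (sgPJ6x L * y * sgPJ6x L) := by
  calc sgPJ6x L * (x * y) * sgPJ6x L = sgPJ6x L * x * (1 * y) * sgPJ6x L := by
        rw [one_mul]; simp only [mul_assoc]
    _ = sgPJ6x L * x * ((sgPJ6x L * sgPJ6x L) * y) * sgPJ6x L := by rw [sg_sqPJ6x]
    _ = _ := by simp only [mul_assoc]

theorem st_conjPJ6x (x : A) : L.st (sgPJ6x L * x * sgPJ6x L) = sgPJ6x L * L.st x * sgPJ6x L := by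
  rw [L.st_mul, L.st_mul, st_sgPJ6x, mul_assoc]

theorem sg_expPJ6x (x : A) : sgPJ6x L * x * sgPJ6x L =
    L.E 0 0 * x * L.E 0 0 - L.E 0 0 * x * L.E 1 1 - L.E 1 1 * x * L.E 0 0 + L.E 1 1 * x * L.E 1 1 := by
  unfold sgPJ6x
  noncomm_ring

theorem Pp_fixPJ6x (y : A) (hy : L.Pp y = y) : L.Pp (sgPJ6x L * y * sgPJ6x L) = sgPJ6x L * y * sgPJ6x L := by
  have h : ∀ i j, L.Pp (L.E i i * y * L.E j j) = L.E i i * y * L.E j j :=
    fun i j => L.Pp_mul_E j _ (L.Pp_E_mul i y hy)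
  rw [sg_expPJ6x]
  simp only [map_add, map_sub, h]

theorem Pm_fixPJ6x (y : A) (hy : L.Pm y = y) : L.Pm (sgPJ6x L * y * sgPJ6x L) = sgPJ6x L * y * sgPJ6x L := by
  have h1 : L.Pp (L.st y) = L.st y := by rw [← L.st_Pm, hy]
  have h2 := Pp_fixPJ6x L (L.st y) h1
  have h3 := congrArg L.st h2
  rw [L.st_Pp, st_conjPJ6x, L.st_st] at h3
  exact h3

theorem P0_fixPJ6x (x : A) : sgPJ6x L * L.P0 x * sgPJ6x L = L.P0 x := by
  rw [L.P0_eq]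
  simp only [mul_add, add_mul, mul_smul_comm, smul_mul_assoc, sg_EiiPJ6x]

theorem Pp_conjPJ6x (x : A) : L.Pp (sgPJ6x L * x * sgPJ6x L) = sgPJ6x L * L.Pp x * sgPJ6x L := by
  have h : sgPJ6x L * x * sgPJ6x L = sgPJ6x L * L.Pm x * sgPJ6x L + L.P0 x + sgPJ6x L * L.Pp x * sgPJ6x L := by
    have h1 := L.P_sum x
    calc sgPJ6x L * x * sgPJ6x L = sgPJ6x L * (L.Pm x + L.P0 x + L.Pp x) * sgPJ6x L := by rw [h1]
      _ = _ := by
        rw [mul_add, mul_add, add_mul, add_mul, P0_fixPJ6x]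
  rw [h, map_add, map_add, Pp_fixPJ6x L _ (L.Pp_Pp x), L.Pp_P0, ← Pm_fixPJ6x L _ (L.Pm_Pm x), L.Pp_Pm]
  simp

theorem P0_conjPJ6x (x : A) : L.P0 (sgPJ6x L * x * sgPJ6x L) = L.P0 x := by
  have h : sgPJ6x L * x * sgPJ6x L = sgPJ6x L * L.Pm x * sgPJ6x L + L.P0 x + sgPJ6x L * L.Pp x * sgPJ6x L := by
    have h1 := L.P_sum x
    calc sgPJ6x L * x * sgPJ6x L = sgPJ6x L * (L.Pm x + L.P0 x + L.Pp x) * sgPJ6x L := by rw [h1]
      _ = _ := by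
        rw [mul_add, mul_add, add_mul, add_mul, P0_fixPJ6x]
  rw [h, map_add, map_add, L.P0_P0, ← Pm_fixPJ6x L _ (L.Pm_Pm x), L.P0_Pm,
    ← Pp_fixPJ6x L _ (L.Pp_Pp x), L.P0_Pp]
  simp

theorem d_eqPJ6x (i : Fin 2) (x : A) : L.d i x = L.ev i i (L.P0 x) := by
  rw [L.P0_eq]
  simp only [map_add, map_smul, L.ev_E]
  fin_cases i <;> simp

theorem d_conjPJ6x (i : Fin 2) (x : A) : L.d i (sgPJ6x L * x * sgPJ6x L) = L.d i x := by
  rw [d_eqPJ6x, d_eqPJ6x, P0_conjPJ6x]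

theorem d_cjPJ6x (i : Fin 2) (x : A) : L.d i (L.cj x) = conj (L.d i x) := by
  rw [d_eqPJ6x, d_eqPJ6x, ← L.cj_P0, L.ev_cj]


end symPJ6x

section funPJ6x
variable {A : Type} [NormedRing A] [NormedAlgebra ℂ A] (L : LoopAlg A)

theorem nu_conjPJ6x {η : ℝ} {κ h : ℂ → ℂ} (hk : KData η κ h) (ε : ℝ) (t : ℂ) (ht : ‖t‖ < 3 / 2) :
    nu κ ε (conj t) = nu κ ε t := by
  unfold nu
  rw [hk.κ_conj t ht, RCLike.norm_conj, RCLike.norm_conj]

theorem nu_negPJ6x {η : ℝ} {κ h : ℂ → ℂ} (hk : KData η κ h) (ε : ℝ) (t : ℂ) (ht : ‖t‖ < 3 / 2) :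
    nu κ ε (-t) = nu κ ε t := by
  unfold nu
  rw [hk.κ_neg t ht, norm_neg]

theorem MM_conjPJ6x {η : ℝ} {κ h : ℂ → ℂ} (hk : KData η κ h) (ε : ℝ) (t : ℂ) (ht : ‖t‖ < 3 / 2) :
    MM L κ ε (conj t) = L.cj (MM L κ ε t) := by
  unfold MM
  rw [hk.κ_conj t ht]
  simp only [map_add, map_sub, L.cj_smul, L.cj_mul, L.cj_S, L.cj_E, map_mul, map_pow,
    Complex.conj_ofReal]

theorem MM_negPJ6x {η : ℝ} {κ h : ℂ → ℂ} (hk : KData η κ h) (ε : ℝ) (t : ℂ) (ht : ‖t‖ < 3 / 2) :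
    sgPJ6x L * MM L κ ε (-t) * sgPJ6x L = - MM L κ ε t := by
  unfold MM
  rw [hk.κ_neg t ht]
  have e1 : sgPJ6x L * (L.S * L.E 0 1) * sgPJ6x L = -(L.S * L.E 0 1) := by
    rw [← mul_assoc (sgPJ6x L), sg_SPJ6x, mul_assoc L.S, mul_assoc L.S, sg_E01_PJ6x, mul_neg]
  have e2 : sgPJ6x L * (L.S * (L.E 1 1 - L.E 0 0)) * sgPJ6x L = L.S * (L.E 1 1 - L.E 0 0) := by
    rw [← mul_assoc (sgPJ6x L), sg_SPJ6x, mul_assoc L.S, mul_assoc L.S, mul_sub, sub_mul,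
      sg_EiiPJ6x, sg_EiiPJ6x]
  have e3 : sgPJ6x L * (L.S * L.E 1 0) * sgPJ6x L = -(L.S * L.E 1 0) := by
    rw [← mul_assoc (sgPJ6x L), sg_SPJ6x, mul_assoc L.S, mul_assoc L.S, sg_E10_PJ6x, mul_neg]
  rw [mul_sub, mul_add, sub_mul, add_mul, mul_smul_comm, smul_mul_assoc, e1, mul_smul_comm,
    smul_mul_assoc, e2, mul_smul_comm, smul_mul_assoc, e3, neg_sq, mul_neg, neg_smul, smul_neg,
    smul_neg]
  abel

theorem NN_conjPJ6x {η : ℝ} {κ h : ℂ → ℂ} (hk : KData η κ h) (ε : ℝ) (t : ℂ) (ht : ‖t‖ < 3 / 2) :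
    NN L κ ε (conj t) = L.cj (NN L κ ε t) := by
  unfold NN
  rw [hk.κ_conj t ht]
  simp only [map_add, map_sub, L.cj_smul, L.cj_E, map_mul, Complex.conj_ofReal, Complex.conj_conj]

theorem NN_negPJ6x {η : ℝ} {κ h : ℂ → ℂ} (hk : KData η κ h) (ε : ℝ) (t : ℂ) (ht : ‖t‖ < 3 / 2) :
    NN L κ ε (-t) = sgPJ6x L * NN L κ ε t * sgPJ6x L := by
  unfold NN
  rw [hk.κ_neg t ht]
  simp only [mul_add, add_mul, mul_sub, sub_mul, mul_smul_comm, smul_mul_assoc, sg_EiiPJ6x,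
    sg_E01_PJ6x, sg_E10_PJ6x]
  simp

theorem MM_boundPJ6x {η : ℝ} {κ h : ℂ → ℂ} (hk : KData η κ h) (ε : ℝ) :
    ∃ M0 : ℝ, 0 ≤ M0 ∧ ∀ z : ℂ, ‖z‖ < 3 / 2 → ‖MM L κ ε z‖ ≤ M0 := by
  have hη : 0 ≤ η := (norm_nonneg _).trans (hk.h_small 0 (by simp))
  refine ⟨(3 / 2) ^ 2 * ‖L.S * L.E 0 1‖ + (|ε| * (1 + η) * (3 / 2)) *
    ‖L.S * (L.E 1 1 - L.E 0 0)‖ + (|ε| ^ 2 * (1 + η) ^ 2) * ‖L.S * L.E 1 0‖, by positivity, ?_⟩
  intro z hz
  have hκ : ‖κ z‖ ≤ 1 + η := by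
    have h1 := (hk.κ_close z hz).1
    calc ‖κ z‖ = ‖(κ z - 1) + 1‖ := by ring_nf
      _ ≤ ‖κ z - 1‖ + ‖(1:ℂ)‖ := norm_add_le _ _
      _ ≤ 1 + η := by rw [norm_one]; linarith
  unfold MM
  refine (norm_sub_le _ _).trans (add_le_add ((norm_add_le _ _).trans (add_le_add ?_ ?_)) ?_)
  · refine (norm_smul_le _ _).trans (mul_le_mul_of_nonneg_right ?_ (norm_nonneg _))
    rw [norm_pow]
    exact pow_le_pow_left₀ (norm_nonneg _) hz.le 2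
  · refine (norm_smul_le _ _).trans (mul_le_mul_of_nonneg_right ?_ (norm_nonneg _))
    rw [norm_mul, norm_mul, Complex.norm_real, Real.norm_eq_abs]
    gcongr
  · refine (norm_smul_le _ _).trans (mul_le_mul_of_nonneg_right ?_ (norm_nonneg _))
    rw [norm_mul, norm_pow, norm_pow, Complex.norm_real, Real.norm_eq_abs]
    gcongr

/-- uniqueness for the linear ODE -/
theorem uniqPJ6x {η : ℝ} {κ h : ℂ → ℂ} (hk : KData η κ h) (ε : ℝ) (F G : ℂ → A)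
    (hF0 : F 0 = 0) (hG0 : G 0 = 0)
    (hF : ∀ z : ℂ, ‖z‖ < 3 / 2 → HasDerivAt F (h z • ((1 + (ε : ℂ) • F z) * MM L κ ε z)) z)
    (hG : ∀ z : ℂ, ‖z‖ < 3 / 2 → HasDerivAt G (h z • ((1 + (ε : ℂ) • G z) * MM L κ ε z)) z)
    (t : ℂ) (ht : ‖t‖ < 3 / 2) : G t = F t := by
  obtain ⟨M0, hM0, hM⟩ := MM_boundPJ6x L hk ε
  have hη : 0 ≤ η := (norm_nonneg _).trans (hk.h_small 0 (by simp))
  have hball : ∀ τ : ℝ, τ ∈ Icc (0:ℝ) 1 → ‖(τ : ℂ) * t‖ < 3 / 2 := by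
    intro τ hτ
    rw [norm_mul, Complex.norm_real, Real.norm_eq_abs, abs_of_nonneg hτ.1]
    calc τ * ‖t‖ ≤ 1 * ‖t‖ := mul_le_mul_of_nonneg_right hτ.2 (norm_nonneg _)
      _ = ‖t‖ := one_mul _
      _ < 3 / 2 := ht
  have hder : ∀ τ : ℝ, τ ∈ Icc (0:ℝ) 1 → HasDerivAt (fun τ : ℝ => G ((τ : ℂ) * t) - F ((τ : ℂ) * t))
      (t • (h ((τ : ℂ) * t) • (((ε : ℂ) • (G ((τ : ℂ) * t) - F ((τ : ℂ) * t))) *
        MM L κ ε ((τ : ℂ) * t)))) τ := by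
    intro τ hτ
    have hc : HasDerivAt (fun τ : ℝ => (τ : ℂ) * t) t τ := by
      have h1 := ((hasDerivAt_id τ).ofReal_comp).mul_const t
      simpa using h1
    have h1 := HasDerivAt.scomp τ (hG _ (hball τ hτ)) hc
    have h2 := HasDerivAt.scomp τ (hF _ (hball τ hτ)) hc
    have h3 := h1.sub h2
    have h4 : t • (h ((τ : ℂ) * t) • (((ε : ℂ) • (G ((τ : ℂ) * t) - F ((τ : ℂ) * t))) *
        MM L κ ε ((τ : ℂ) * t))) =
        t • (h ((τ : ℂ) * t) • ((1 + (ε : ℂ) • G ((τ : ℂ) * t)) * MM L κ ε ((τ : ℂ) * t))) -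
        t • (h ((τ : ℂ) * t) • ((1 + (ε : ℂ) • F ((τ : ℂ) * t)) * MM L κ ε ((τ : ℂ) * t))) := by
      rw [← smul_sub, ← smul_sub, ← sub_mul, smul_sub]
      congr 3
      abel
    rw [h4]
    exact h3
  have hz := eq_zero_of_abs_deriv_le_mul_abs_self_of_eq_zero_right
    (f := fun τ : ℝ => G ((τ : ℂ) * t) - F ((τ : ℂ) * t))
    (f' := fun τ : ℝ => t • (h ((τ : ℂ) * t) • (((ε : ℂ) • (G ((τ : ℂ) * t) - F ((τ : ℂ) * t))) *
        MM L κ ε ((τ : ℂ) * t))))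
    (K := ‖t‖ * (η * (|ε| * M0))) (a := 0) (b := 1)
    (fun τ hτ => (hder τ hτ).continuousAt.continuousWithinAt)
    (fun τ hτ => (hder τ ⟨hτ.1, hτ.2.le⟩).hasDerivWithinAt)
    (by simp [hF0, hG0])
    (by
      intro τ hτ
      have hb := hball τ ⟨hτ.1, hτ.2.le⟩
      calc _ ≤ ‖t‖ * ‖h ((τ : ℂ) * t) • (((ε : ℂ) • (G ((τ : ℂ) * t) - F ((τ : ℂ) * t))) *
            MM L κ ε ((τ : ℂ) * t))‖ := norm_smul_le _ _
        _ ≤ ‖t‖ * (η * ((|ε| * ‖G ((τ : ℂ) * t) - F ((τ : ℂ) * t)‖) * M0)) := by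
            apply mul_le_mul_of_nonneg_left _ (norm_nonneg _)
            refine (norm_smul_le _ _).trans ?_
            apply mul_le_mul (hk.h_small _ hb) _ (norm_nonneg _) hη
            refine (norm_mul_le _ _).trans ?_
            apply mul_le_mul _ (hM _ hb) (norm_nonneg _) (by positivity)
            refine (norm_smul_le _ _).trans ?_
            rw [Complex.norm_real, Real.norm_eq_abs]
        _ = _ := by ring)
    1 (by simp)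
  simp only [Complex.ofReal_one, one_mul] at hz
  exact sub_eq_zero.mp hz

end funPJ6x

section derPJ6x
open Asymptotics Filter Topology

variable {A : Type} [NormedRing A] [NormedAlgebra ℂ A] (L : LoopAlg A)

theorem deriv_cjPJ6x (f : ℂ → A) (f' : A) (z : ℂ) (h : HasDerivAt f f' (conj z)) :
    HasDerivAt (fun w => L.cj (f (conj w))) (L.cj f') z := by
  rw [hasDerivAt_iff_isLittleO] at h ⊢
  have hc : Tendsto (fun w : ℂ => conj w) (𝓝 z) (𝓝 (conj z)) := Complex.continuous_conj.tendsto z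
  have h1 := h.comp_tendsto hc
  have h2 : (fun w : ℂ => L.cj (f (conj w)) - L.cj (f (conj z)) - (w - z) • L.cj f') =
      fun w => L.cj (f (conj w) - f (conj z) - (conj w - conj z) • f') := by
    funext w
    rw [map_sub, map_sub, L.cj_smul]
    simp
  rw [h2]
  have h3 : (fun w : ℂ => L.cj (f (conj w) - f (conj z) - (conj w - conj z) • f')) =O[𝓝 z]
      (fun w : ℂ => f (conj w) - f (conj z) - (conj w - conj z) • f') :=
    L.cj.isBigO_comp _ _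
  refine (h3.trans_isLittleO h1).trans_isBigO ?_
  refine IsBigO.of_bound 1 (Filter.Eventually.of_forall fun w => ?_)
  simp only [Function.comp_apply]
  rw [← map_sub, RCLike.norm_conj, one_mul]

theorem deriv_negPJ6x (f : ℂ → A) (f' : A) (z : ℂ) (h : HasDerivAt f f' (-z)) (s : A) :
    HasDerivAt (fun w => s * f (-w) * s) (-(s * f' * s)) z := by
  have h1 : HasDerivAt (fun w : ℂ => f (-w)) (-f') z := by
    have h2 : HasDerivAt (fun w : ℂ => -w) (-1) z := (hasDerivAt_id z).neg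
    have h3 := HasDerivAt.scomp z h h2
    rw [neg_smul, one_smul] at h3
    exact h3
  have h4 := (h1.const_mul s).mul_const s
  simpa using h4

end derPJ6x

section finPJ6x
variable {A : Type} [NormedRing A] [NormedAlgebra ℂ A] (L : LoopAlg A)

theorem F_conjPJ6x {η ε : ℝ} {κ h : ℂ → ℂ} (hk : KData η κ h) (F : ℂ → A)
    (hF : FData L ε η κ h F) (t : ℂ) (ht : ‖t‖ < 3 / 2) : F (conj t) = L.cj (F t) := by
  have hb : ∀ z : ℂ, ‖z‖ < 3 / 2 → ‖conj z‖ < 3 / 2 := by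
    intro z hz
    rwa [RCLike.norm_conj]
  have h := uniqPJ6x L hk ε F (fun z => L.cj (F (conj z))) hF.zero (by simp [hF.zero]) hF.ode (by
    intro z hz
    have h1 := deriv_cjPJ6x L F _ z (hF.ode (conj z) (hb z hz))
    convert h1 using 1
    rw [L.cj_smul, L.cj_mul, map_add, cj_onePJ6x, L.cj_smul, MM_conjPJ6x L hk ε z hz,
      L.cj_cj, hk.h_conj z hz]
    simp) (conj t) (hb t ht)
  simp only [Complex.conj_conj] at h
  exact h.symm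

theorem F_negPJ6x {η ε : ℝ} {κ h : ℂ → ℂ} (hk : KData η κ h) (F : ℂ → A)
    (hF : FData L ε η κ h F) (t : ℂ) (ht : ‖t‖ < 3 / 2) :
    F (-t) = sgPJ6x L * F t * sgPJ6x L := by
  have hb : ∀ z : ℂ, ‖z‖ < 3 / 2 → ‖-z‖ < 3 / 2 := by
    intro z hz
    rwa [norm_neg]
  have h := uniqPJ6x L hk ε F (fun z => sgPJ6x L * F (-z) * sgPJ6x L) hF.zero
    (by simp [hF.zero]) hF.ode (by
    intro z hz
    have h1 := deriv_negPJ6x F _ z (hF.ode (-z) (hb z hz)) (sgPJ6x L)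
    convert h1 using 1
    have hF1 : sgPJ6x L * (1 + (ε : ℂ) • F (-z)) * sgPJ6x L =
        1 + (ε : ℂ) • (sgPJ6x L * F (-z) * sgPJ6x L) := by
      simp only [mul_add, add_mul, mul_smul_comm, smul_mul_assoc, mul_one, sg_sqPJ6x]
    rw [mul_smul_comm, smul_mul_assoc, sg_mulPJ6x, MM_negPJ6x L hk ε z hz, hF1, mul_neg,
      smul_neg, neg_neg, hk.h_neg z hz]) (-t) (hb t ht)
  simp only [neg_neg] at h
  exact h.symm

theorem gg_conjPJ6x {η ε : ℝ} {κ h : ℂ → ℂ} (hk : KData η κ h) (F : ℂ → A)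
    (hF : FData L ε η κ h F) (t : ℂ) (ht : ‖t‖ < 3 / 2) :
    gg L κ ε F (conj t) = L.cj (gg L κ ε F t) := by
  unfold gg
  rw [nu_conjPJ6x hk ε t ht, NN_conjPJ6x L hk ε t ht, F_conjPJ6x L hk F hF t ht, L.cj_smul,
    L.cj_mul, L.cj_mul, L.cj_st]
  simp

theorem gg_negPJ6x {η ε : ℝ} {κ h : ℂ → ℂ} (hk : KData η κ h) (F : ℂ → A)
    (hF : FData L ε η κ h F) (t : ℂ) (ht : ‖t‖ < 3 / 2) :
    gg L κ ε F (-t) = sgPJ6x L * gg L κ ε F t * sgPJ6x L := by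
  unfold gg
  rw [nu_negPJ6x hk ε t ht, NN_negPJ6x L hk ε t ht, F_negPJ6x L hk F hF t ht, mul_smul_comm,
    smul_mul_assoc, st_conjPJ6x, sg_mulPJ6x, sg_mulPJ6x]

theorem Xh_conjPJ6x (ε0 C1 : ℝ) (Xh : ℝ × A → A) (hX : XData L ε0 C1 Xh) (ε : ℝ) (hε : |ε| < ε0)
    (g : A) (hg : ‖g‖ < 1) (hg' : ‖L.cj g‖ < 1) : Xh (ε, L.cj g) = L.cj (Xh (ε, g)) := by
  symm
  rw [← hX.char ε (L.cj g) hε hg']
  have h := congrArg L.cj ((hX.char ε g hε hg (Xh (ε, g))).mpr rfl)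
  simp only [map_add, map_neg, L.cj_smul, L.cj_Pp, L.cj_mul, L.cj_st] at h ⊢
  simpa using h

theorem Xh_negPJ6x (ε0 C1 : ℝ) (Xh : ℝ × A → A) (hX : XData L ε0 C1 Xh) (ε : ℝ) (hε : |ε| < ε0)
    (g : A) (hg : ‖g‖ < 1) (hg' : ‖sgPJ6x L * g * sgPJ6x L‖ < 1) :
    Xh (ε, sgPJ6x L * g * sgPJ6x L) = sgPJ6x L * Xh (ε, g) * sgPJ6x L := by
  symm
  rw [← hX.char ε _ hε hg']
  have h := congrArg (fun x => sgPJ6x L * x * sgPJ6x L) ((hX.char ε g hε hg (Xh (ε, g))).mpr rfl)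
  have hQ : sgPJ6x L * g * sgPJ6x L + L.st (sgPJ6x L * g * sgPJ6x L) +
      (ε : ℂ) • (L.st (sgPJ6x L * g * sgPJ6x L) * (sgPJ6x L * g * sgPJ6x L)) =
      sgPJ6x L * (g + L.st g + (ε : ℂ) • (L.st g * g)) * sgPJ6x L := by
    rw [st_conjPJ6x, ← sg_mulPJ6x]
    simp only [mul_add, add_mul, mul_smul_comm, smul_mul_assoc]
  rw [hQ, ← sg_mulPJ6x, Pp_conjPJ6x, Pp_conjPJ6x]
  simp only [mul_add, add_mul, mul_smul_comm, smul_mul_assoc, mul_neg, neg_mul] at h ⊢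
  exact h

end finPJ6x

/-- JOB PJ6. -/
theorem symmetries {A : Type} [NormedRing A] [NormedAlgebra ℂ A] [CompleteSpace A] (L : LoopAlg A) (ε0 C1 : ℝ) (Xh : ℝ × A → A) (hX : XData L ε0 C1 Xh)
    (ε η : ℝ) (κ h : ℂ → ℂ) (F : ℂ → A) (hε : 0 < ε) (hε0 : ε < ε0) (hη : η ≤ 1 / 2)
    (hk : KData η κ h) (hF : FData L ε η κ h F)
    (hg : ∀ t : ℂ, ‖t‖ < 3 / 2 → ‖gg L κ ε F t‖ < 1) (t : ℂ) (ht : ‖t‖ < 3 / 2) :
    Phi L κ ε F Xh (conj t) = L.cj (Phi L κ ε F Xh t) ∧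
    Phi L κ ε F Xh (-t) = (L.E 0 0 - L.E 1 1) * Phi L κ ε F Xh t * (L.E 0 0 - L.E 1 1) ∧
    (∀ i, mm L κ ε F Xh i (conj t) = mm L κ ε F Xh i t) ∧
    (∀ i, mm L κ ε F Xh i (-t) = mm L κ ε F Xh i t) := by
  have hεa : |ε| < ε0 := by rwa [abs_of_pos hε]
  have hgt := hg t ht
  have hgc : ‖L.cj (gg L κ ε F t)‖ < 1 := by
    rw [← gg_conjPJ6x L hk F hF t ht]
    exact hg _ (by rwa [RCLike.norm_conj])
  have hgn : ‖sgPJ6x L * gg L κ ε F t * sgPJ6x L‖ < 1 := by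
    rw [← gg_negPJ6x L hk F hF t ht]
    exact hg _ (by rwa [norm_neg])
  have hXXc : XX L κ ε F Xh (conj t) = L.cj (XX L κ ε F Xh t) := by
    unfold XX
    rw [gg_conjPJ6x L hk F hF t ht, Xh_conjPJ6x L ε0 C1 Xh hX ε hεa _ hgt hgc, map_add,
      cj_onePJ6x, L.cj_smul]
    simp
  have hXXn : XX L κ ε F Xh (-t) = sgPJ6x L * XX L κ ε F Xh t * sgPJ6x L := by
    unfold XX
    rw [gg_negPJ6x L hk F hF t ht, Xh_negPJ6x L ε0 C1 Xh hX ε hεa _ hgt hgn]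
    simp only [mul_add, add_mul, mul_smul_comm, smul_mul_assoc, mul_one, sg_sqPJ6x]
  have hGGc : GG ε F (conj t) = L.cj (GG ε F t) := by
    unfold GG
    rw [F_conjPJ6x L hk F hF t ht, map_add, cj_onePJ6x, L.cj_smul]
    simp
  have hGGn : GG ε F (-t) = sgPJ6x L * GG ε F t * sgPJ6x L := by
    unfold GG
    rw [F_negPJ6x L hk F hF t ht]
    simp only [mul_add, add_mul, mul_smul_comm, smul_mul_assoc, mul_one, sg_sqPJ6x]
  have hDDc : DD L κ ε F (conj t) = L.cj (DD L κ ε F t) := by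
    unfold DD
    rw [gg_conjPJ6x L hk F hF t ht, map_add, cj_onePJ6x, L.cj_smul]
    simp
  have hDDn : DD L κ ε F (-t) = sgPJ6x L * DD L κ ε F t * sgPJ6x L := by
    unfold DD
    rw [gg_negPJ6x L hk F hF t ht]
    simp only [mul_add, add_mul, mul_smul_comm, smul_mul_assoc, mul_one, sg_sqPJ6x]
  refine ⟨?_, ?_, ?_, ?_⟩
  · unfold Phi
    rw [hGGc, NN_conjPJ6x L hk ε t ht, hXXc, L.cj_mul, L.cj_mul]
  · show _ = sgPJ6x L * Phi L κ ε F Xh t * sgPJ6x L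
    unfold Phi
    rw [hGGn, NN_negPJ6x L hk ε t ht, hXXn, sg_mulPJ6x, sg_mulPJ6x]
  · intro i
    unfold mm PP
    rw [hDDc, hXXc, ← L.cj_st, ← L.cj_mul, ← L.cj_mul, d_cjPJ6x, Complex.conj_re]
  · intro i
    unfold mm PP
    rw [hDDn, hXXn, st_conjPJ6x, ← sg_mulPJ6x, ← sg_mulPJ6x, d_conjPJ6x]



end Pool.Agent.Helper87.VT
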