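import Mathlib
import Pool.Agent.Helper87.VT.Point
import Pool.Agent.Helper87.VT.MPJ1

set_option autoImplicit false

open Set Metric Matrix
open scoped ContDiff ComplexConjugate

namespace Pool.Agent.Helper87.VT

open Pool.Agent.Helper87.CMC (LoopAlg)







theorem ev_NN {A : Type} [NormedRing A] [NormedAlgebra ℂ A] (L : LoopAlg A) (κ : ℂ → ℂ) (ε : ℝ)
    (t : ℂ) (i j : Fin 2) : L.ev i j (NN L κ ε t) = N0 κ ε t i j := by
  unfold NN N0
  rw [map_add, map_sub, map_add, map_smul, map_smul, map_smul, map_smul, L.ev_E, L.ev_E, L.ev_E,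
    L.ev_E]
  fin_cases i <;> fin_cases j <;> simp

/-- JOB PJ7. -/
theorem phi_close {A : Type} [NormedRing A] [NormedAlgebra ℂ A] [CompleteSpace A] (L : LoopAlg A) (ε0 C1 : ℝ) (Xh : ℝ × A → A) (hX : XData L ε0 C1 Xh) :
    ∃ C2 : ℝ, 0 < C2 ∧ ∀ (ε η : ℝ) (κ h : ℂ → ℂ) (F : ℂ → A), 0 < ε → ε < ε0 → 0 < η →
      η ≤ 1 / 2 → KData η κ h → FData L ε η κ h F →
      (∀ t : ℂ, ‖t‖ < 3 / 2 → ‖gg L κ ε F t‖ < 1) → ∀ t : ℂ, ‖t‖ < 3 / 2 →
      ∀ i j, ‖L.ev i j (Phi L κ ε F Xh t) - N0 κ ε t i j‖ ≤ C2 * η * ε * Real.sqrt (nu κ ε t) := by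
  obtain ⟨c, hc, hN⟩ := NN_bound L
  obtain ⟨c', hc', hg'⟩ := gg_bound L
  have hC1 := hX.C1_pos
  have h10 : 0 ≤ ‖(1 : A)‖ := norm_nonneg _
  set B : ℝ := c + (‖(1 : A)‖ + 1) * c * (C1 * c') with hB
  have hB0 : 0 < B := by positivity
  have key : ∀ (ε η : ℝ) (κ h : ℂ → ℂ) (F : ℂ → A), 0 < ε → ε < ε0 → 0 < η →
      η ≤ 1 / 2 → FData L ε η κ h F →
      (∀ t : ℂ, ‖t‖ < 3 / 2 → ‖gg L κ ε F t‖ < 1) → ∀ t : ℂ, ‖t‖ < 3 / 2 →
      ‖Phi L κ ε F Xh t - NN L κ ε t‖ ≤ B * η * ε * Real.sqrt (nu κ ε t) := by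
    intro ε η κ h F hε hε0 hη hη2 hF hgg t ht
    have hεa : |ε| = ε := abs_of_pos hε
    have hε2 : ε ≤ 1 / 2 := hε0.le.trans hX.ε0_le
    have hf := hF.bound t ht
    have hg := hg' κ ε F t
    have hx := hX.bound ε (gg L κ ε F t) (by rw [hεa]; exact hε0) (hgg t ht)
    have hx2 : ‖Xh (ε, gg L κ ε F t)‖ ≤ C1 * c' * η := by
      refine hx.trans ?_
      rw [mul_assoc]
      refine mul_le_mul_of_nonneg_left (hg.trans ?_) hC1.le
      exact mul_le_mul_of_nonneg_left hf hc'.le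
    have hn := (hN κ ε t).1
    have hs := Real.sqrt_nonneg (nu κ ε t)
    have heps : ‖(ε : ℂ)‖ = ε := by rw [Complex.norm_real, Real.norm_eq_abs, hεa]
    have hG : ‖GG ε F t‖ ≤ ‖(1 : A)‖ + 1 := by
      unfold GG
      refine (norm_add_le _ _).trans ?_
      have h1 : ‖(ε : ℂ) • F t‖ ≤ 1 := by
        rw [norm_smul, heps]
        have h3 := norm_nonneg (F t)
        calc ε * ‖F t‖ ≤ (1 / 2) * (1 / 2) := mul_le_mul hε2 (hf.trans hη2) h3 (by norm_num)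
          _ ≤ 1 := by norm_num
      linarith
    have e : Phi L κ ε F Xh t - NN L κ ε t =
        (ε : ℂ) • (F t * NN L κ ε t + GG ε F t * NN L κ ε t * Xh (ε, gg L κ ε F t)) := by
      have h1 : Phi L κ ε F Xh t = GG ε F t * NN L κ ε t +
          (ε : ℂ) • (GG ε F t * NN L κ ε t * Xh (ε, gg L κ ε F t)) := by
        unfold Phi XX
        rw [mul_add, mul_one, mul_smul_comm]
      have h2 : GG ε F t * NN L κ ε t = NN L κ ε t + (ε : ℂ) • (F t * NN L κ ε t) := by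
        unfold GG
        rw [add_mul, one_mul, smul_mul_assoc]
      rw [h1, smul_add]
      nth_rewrite 1 [h2]
      abel
    rw [e, norm_smul, heps]
    have h3 : ‖F t * NN L κ ε t + GG ε F t * NN L κ ε t * Xh (ε, gg L κ ε F t)‖ ≤
        B * η * Real.sqrt (nu κ ε t) := by
      refine (norm_add_le _ _).trans ?_
      have h4 : ‖F t * NN L κ ε t‖ ≤ η * (c * Real.sqrt (nu κ ε t)) :=
        (norm_mul_le _ _).trans (mul_le_mul hf hn (norm_nonneg _) hη.le)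
      have h5 : ‖GG ε F t * NN L κ ε t * Xh (ε, gg L κ ε F t)‖ ≤
          (‖(1 : A)‖ + 1) * (c * Real.sqrt (nu κ ε t)) * (C1 * c' * η) := by
        have h6 : ‖GG ε F t * NN L κ ε t‖ ≤ (‖(1 : A)‖ + 1) * (c * Real.sqrt (nu κ ε t)) :=
          (norm_mul_le _ _).trans (mul_le_mul hG hn (norm_nonneg _) (by positivity))
        exact (norm_mul_le _ _).trans (mul_le_mul h6 hx2 (norm_nonneg _) (by positivity))
      calc _ ≤ η * (c * Real.sqrt (nu κ ε t)) +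
            (‖(1 : A)‖ + 1) * (c * Real.sqrt (nu κ ε t)) * (C1 * c' * η) := add_le_add h4 h5
        _ = B * η * Real.sqrt (nu κ ε t) := by rw [hB]; ring
    calc ε * ‖F t * NN L κ ε t + GG ε F t * NN L κ ε t * Xh (ε, gg L κ ε F t)‖ ≤
          ε * (B * η * Real.sqrt (nu κ ε t)) := mul_le_mul_of_nonneg_left h3 hε.le
      _ = _ := by ring
  set M : ℝ := ∑ i, ∑ j, ‖L.ev i j‖ with hM
  have hM0 : 0 ≤ M := Finset.sum_nonneg fun i _ => Finset.sum_nonneg fun j _ => norm_nonneg _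
  have hMij : ∀ i j, ‖L.ev i j‖ ≤ M := fun i j => by
    calc ‖L.ev i j‖ ≤ ∑ j, ‖L.ev i j‖ :=
          Finset.single_le_sum (f := fun j => ‖L.ev i j‖) (fun _ _ => norm_nonneg _) (Finset.mem_univ j)
      _ ≤ M := Finset.single_le_sum (f := fun i => ∑ j, ‖L.ev i j‖)
          (fun _ _ => Finset.sum_nonneg fun _ _ => norm_nonneg _) (Finset.mem_univ i)
  refine ⟨B * (1 + M), by positivity, ?_⟩
  intro ε η κ h F hε hε0 hη hη2 _ hF hgg t ht i j
  have hk := key ε η κ h F hε hε0 hη hη2 hF hgg t ht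
  have hs := Real.sqrt_nonneg (nu κ ε t)
  have hb : 0 ≤ B * η * ε * Real.sqrt (nu κ ε t) := by positivity
  rw [← ev_NN L κ ε t i j, ← map_sub]
  calc ‖L.ev i j (Phi L κ ε F Xh t - NN L κ ε t)‖ ≤
        ‖L.ev i j‖ * ‖Phi L κ ε F Xh t - NN L κ ε t‖ := (L.ev i j).le_opNorm _
    _ ≤ M * (B * η * ε * Real.sqrt (nu κ ε t)) := mul_le_mul (hMij i j) hk (norm_nonneg _) hM0
    _ ≤ B * η * ε * Real.sqrt (nu κ ε t) + M * (B * η * ε * Real.sqrt (nu κ ε t)) := by linarith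
    _ = _ := by ring



end Pool.Agent.Helper87.VT
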