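import Mathlib
import Pool.Agent.Helper87.VT.Point
import Pool.Agent.Helper87.VT.MPJ1
import Pool.Agent.Helper87.VT.MPJ3
import Pool.Agent.Helper87.VT.MPJ4
import Pool.Agent.Helper87.VT.MPJ6
import Pool.Agent.Helper87.VT.MPJ7

set_option autoImplicit false

open Set Metric Matrix
open scoped ContDiff ComplexConjugate

namespace Pool.Agent.Helper87.VT

open Pool.Agent.Helper87.CMC (LoopAlg)













section fr2
variable {A : Type} [NormedRing A] [NormedAlgebra ℂ A] (L : LoopAlg A)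

theorem ev_NN_fr2 (κ : ℂ → ℂ) (ε : ℝ) (t : ℂ) (i j : Fin 2) :
    L.ev i j (NN L κ ε t) = N0 κ ε t i j := by
  unfold NN N0
  fin_cases i <;> fin_cases j <;> simp [L.ev_E]

theorem ev_SE_fr2 (i j : Fin 2) : L.ev i j (L.S * L.E 1 0) = if i = 1 ∧ j = 0 then 1 else 0 := by
  rw [L.ev_mul]
  fin_cases i <;> fin_cases j <;> simp [L.ev_E, L.ev_S]

theorem ev_TE_fr2 (i j : Fin 2) : L.ev i j (L.T * L.E 0 1) = if i = 0 ∧ j = 1 then 1 else 0 := by
  rw [L.ev_mul]
  fin_cases i <;> fin_cases j <;> simp [L.ev_E, L.ev_T]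

theorem dv_SE_fr2 (i j : Fin 2) : L.dv i j (L.S * L.E 1 0) = if i = 1 ∧ j = 0 then -1 else 0 := by
  rw [L.dv_mul]
  fin_cases i <;> fin_cases j <;> simp [L.ev_E, L.dv_S, L.dv_E]

theorem dv_TE_fr2 (i j : Fin 2) : L.dv i j (L.T * L.E 0 1) = if i = 0 ∧ j = 1 then 1 else 0 := by
  rw [L.dv_mul]
  fin_cases i <;> fin_cases j <;> simp [L.ev_E, L.dv_T, L.dv_E]

/-- the connection form -/
noncomputable def beta_fr2 (v p q cp cq r0 r1 δ0 δ1 : ℂ) : A :=
  v • (p • L.E 0 1 + q • (L.S * L.E 1 0))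
          - (conj v) • (r0 • cp • L.E 1 0
            + r1 • cq • (L.T * L.E 0 1))
          + δ0 • L.E 0 0 + δ1 • L.E 1 1

theorem ev_beta_fr2 (v p q cp cq r0 r1 δ0 δ1 : ℂ) (i j : Fin 2) :
    L.ev i j (beta_fr2 L v p q cp cq r0 r1 δ0 δ1) =
      !![δ0, v * p - conj v * r1 * cq; v * q - conj v * r0 * cp, δ1] i j := by
  unfold beta_fr2
  simp only [map_add, map_sub, map_smul, smul_eq_mul, ev_SE_fr2, ev_TE_fr2, L.ev_E]
  fin_cases i <;> fin_cases j <;> simp <;> ring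

theorem dv_beta_fr2 (v p q cp cq r0 r1 δ0 δ1 : ℂ) (i j : Fin 2) :
    L.dv i j (beta_fr2 L v p q cp cq r0 r1 δ0 δ1) =
      !![0, - (conj v * r1 * cq); - (v * q), 0] i j := by
  unfold beta_fr2
  simp only [map_add, map_sub, map_smul, smul_eq_mul, dv_SE_fr2, dv_TE_fr2, L.dv_E]
  fin_cases i <;> fin_cases j <;> simp <;> ring

theorem phi_expand_fr2 (a N1 F X : A) (e : ℂ) :
    (1 + e • F) * (a + e • N1) * (1 + e • X) =
      a + e • (N1 + F * (a + e • N1) + (1 + e • F) * (a + e • N1) * X) := by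
  rw [mul_add ((1 + e • F) * (a + e • N1)) 1 (e • X), mul_one, mul_smul_comm, smul_add, smul_add,
    add_mul 1 (e • F) (a + e • N1), one_mul, smul_mul_assoc]
  abel

theorem phi_zero_fr2 (κ : ℂ → ℂ) (ε : ℝ) (F : ℂ → A) (Xh : ℝ × A → A) (t : ℂ) :
    Phi L κ ε F Xh t = (t • L.E 0 1 - (conj t) • L.E 1 0) + (ε : ℂ) • PhiH L κ ε F Xh t := by
  have hN : NN L κ ε t = (t • L.E 0 1 - (conj t) • L.E 1 0) +
      (ε : ℂ) • ((conj (κ t)) • L.E 0 0 + (κ t) • L.E 1 1) := by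
    unfold NN
    rw [smul_add, smul_smul, smul_smul]
    abel
  unfold Phi PhiH XX GG
  rw [hN]
  exact phi_expand_fr2 _ _ _ _ _

end fr2

theorem KData_mono_fr2 {η η' : ℝ} {κ h : ℂ → ℂ} (hk : KData η κ h) (hle : η ≤ η') :
    KData η' κ h :=
  { κ_hol := hk.κ_hol
    h_hol := hk.h_hol
    κ_close := fun t ht => ⟨(hk.κ_close t ht).1.trans hle, (hk.κ_close t ht).2.trans hle⟩
    h_small := fun t ht => (hk.h_small t ht).trans hle
    κ_conj := hk.κ_conj
    h_conj := hk.h_conj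
    κ_neg := hk.κ_neg
    h_neg := hk.h_neg }

/-- JOB PFR. -/
theorem frame_of_data {A : Type} [NormedRing A] [NormedAlgebra ℂ A] [CompleteSpace A] (L : LoopAlg A) (ε0 C1 : ℝ) (Xh : ℝ × A → A) (hX : XData L ε0 C1 Xh) :
    ∃ C η1 : ℝ, 1 ≤ C ∧ 0 < η1 ∧ ∀ (ε η : ℝ) (κ h : ℂ → ℂ) (F : ℂ → A), 0 < ε → ε < ε0 → 0 < η →
      η < η1 → KData η κ h → FData L ε η κ h F →
      (∀ t : ℂ, ‖t‖ < 3 / 2 → ‖gg L κ ε F t‖ < 1) ∧
      Frame ε (C * η) κ h (phM L κ ε F Xh) (chM L κ ε F Xh) (mm L κ ε F Xh 0)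
        (mm L κ ε F Xh 1) ∧
      (∀ t : ℂ, ‖t‖ < 3 / 2 → phM L κ ε F Xh t 0 0 = (ε : ℂ) * L.ev 0 0 (PhiH L κ ε F Xh t)) := by
  obtain ⟨c, hc, hgg⟩ := gg_bound L
  obtain ⟨C2, hC2, hclose⟩ := phi_close L ε0 C1 Xh hX
  have hC1 : 0 < C1 := hX.C1_pos
  obtain ⟨C, hC1', hCa, hCb⟩ : ∃ C : ℝ, 1 ≤ C ∧ C1 * c ≤ C ∧ C2 ≤ C :=
    ⟨max 1 (max (C1 * c) C2), le_max_left _ _, (le_max_left _ _).trans (le_max_right _ _),
      (le_max_right _ _).trans (le_max_right _ _)⟩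
  have hC0 : 0 < C := by linarith
  refine ⟨C, 1 / (100 * C * (c + 1)), hC1', by positivity, ?_⟩
  intro ε η κ h F hε hε0 hη hη1 hk hF
  have hη2 : η * (100 * C * (c + 1)) < 1 := by
    rwa [lt_div_iff₀ (by positivity)] at hη1
  have hη3 : C * η ≤ 1 / 100 := by
    have : 0 < C * η * c := by positivity
    nlinarith
  have hη4 : c * η < 1 := by
    have h1 : c * η ≤ C * (c * η) := by
      have : 0 < c * η := by positivity
      nlinarith
    have h2 : 0 < C * η := by positivity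
    nlinarith
  have hη5 : η ≤ C * η := by nlinarith
  have hη6 : η ≤ 1 / 2 := by linarith
  have hgb : ∀ t : ℂ, ‖t‖ < 3 / 2 → ‖gg L κ ε F t‖ ≤ c * η := fun t ht =>
    (hgg κ ε F t).trans (mul_le_mul_of_nonneg_left (hF.bound t ht) hc.le)
  have hg : ∀ t : ℂ, ‖t‖ < 3 / 2 → ‖gg L κ ε F t‖ < 1 := fun t ht => lt_of_le_of_lt (hgb t ht) hη4
  obtain ⟨_, _, _, _, _, smPhi, smm⟩ := smooth_all L ε0 C1 Xh hX ε η κ h F hε hε0 hη6 hk hF hg
  have hst := phi_structure L ε0 C1 Xh hX ε η κ h F hε hε0 hη6 hk hF hg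
  have hsym := symmetries L ε0 C1 Xh hX ε η κ h F hε hε0 hη6 hk hF hg
  have hcl := hclose ε η κ h F hε hε0 hη hη6 hk hF hg
  have hlt : ∀ t : ℂ, ‖t‖ < 13 / 10 → ‖t‖ < 3 / 2 := fun t ht => by linarith
  have hsub : ball (0 : ℂ) (13 / 10) ⊆ ball 0 (3 / 2) := ball_subset_ball (by norm_num)
  have hdiff : ∀ t : ℂ, ‖t‖ < 3 / 2 → DifferentiableAt ℝ (Phi L κ ε F Xh) t := by
    intro t ht
    have hmem : t ∈ ball (0 : ℂ) (3 / 2) := by simpa using ht
    exact (smPhi.contDiffAt (isOpen_ball.mem_nhds hmem)).differentiableAt (by simp)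
  have hfd : ∀ (ℓ : A →L[ℂ] ℂ) (t : ℂ), ‖t‖ < 3 / 2 → ∀ v : ℂ,
      fderiv ℝ (fun s => ℓ (Phi L κ ε F Xh s)) t v =
        ℓ (fderiv ℝ (Phi L κ ε F Xh) t v) := by
    intro ℓ t ht v
    have h1 := ((ℓ.restrictScalars ℝ).hasFDerivAt (x := Phi L κ ε F Xh t)).comp t
      (hdiff t ht).hasFDerivAt
    have h2 : fderiv ℝ (fun s => ℓ (Phi L κ ε F Xh s)) t =
      (ℓ.restrictScalars ℝ).comp (fderiv ℝ (Phi L κ ε F Xh) t) := h1.fderiv
    rw [h2]
    rfl
  have hmb : ∀ i, ∀ t : ℂ, ‖t‖ < 3 / 2 → |mm L κ ε F Xh i t - 1| ≤ C * η * ε := by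
    intro i t ht
    obtain ⟨_, h2, _⟩ := hst t ht
    refine (h2 i).1.trans ?_
    calc C1 * ε * ‖gg L κ ε F t‖ ≤ C1 * ε * (c * η) :=
          mul_le_mul_of_nonneg_left (hgb t ht) (by positivity)
      _ = (C1 * c) * η * ε := by ring
      _ ≤ C * η * ε := by
          apply mul_le_mul_of_nonneg_right _ hε.le
          exact mul_le_mul_of_nonneg_right hCa hη.le
  refine ⟨hg, ?_, ?_⟩
  · refine
      { ε_pos := hε
        ε_le := by linarith [hX.ε0_le]
        η_pos := by positivity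
        η_le := hη3
        kd := KData_mono_fr2 hk hη5
        smφ := fun i j => (((L.ev i j).restrictScalars ℝ).contDiff.comp_contDiffOn smPhi).mono hsub
        smχ := fun i j => (((L.dv i j).restrictScalars ℝ).contDiff.comp_contDiffOn smPhi).mono hsub
        smm0 := (smm 0).mono hsub
        smm1 := (smm 1).mono hsub
        unit := ?_
        bm0 := fun t ht => hmb 0 t (hlt t ht)
        bm1 := fun t ht => hmb 1 t (hlt t ht)
        close := ?_
        deriv := ?_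
        sconj := ?_
        sneg := ?_ }
    · intro t ht
      obtain ⟨h1, _, _⟩ := hst t (hlt t ht)
      ext i j
      have h2 : ((phM L κ ε F Xh t)ᴴ * (phM L κ ε F Xh t)) i j =
          L.ev i j (L.st (Phi L κ ε F Xh t) * Phi L κ ε F Xh t) := by
        unfold phM
        rw [L.ev_mul, L.ev_st, L.ev_st, Matrix.mul_apply, Fin.sum_univ_two]
        simp [Matrix.conjTranspose_apply]
      rw [h2, h1, map_add, map_smul, map_smul, L.ev_E, L.ev_E]
      fin_cases i <;> fin_cases j <;> simp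
    · intro t ht i j
      have h1 := hcl t (hlt t ht) i j
      refine h1.trans ?_
      apply mul_le_mul_of_nonneg_right _ (Real.sqrt_nonneg _)
      apply mul_le_mul_of_nonneg_right _ hε.le
      exact mul_le_mul_of_nonneg_right hCb hη.le
    · intro t ht v
      obtain ⟨_, _, h3⟩ := hst t (hlt t ht)
      obtain ⟨δ0, δ1, h4⟩ := h3 v
      have h5 : fderiv ℝ (Phi L κ ε F Xh) t v = Phi L κ ε F Xh t *
          beta_fr2 L v (pp κ ε t) (qq κ h ε t) (conj (pp κ ε t)) (conj (qq κ h ε t))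
            ((mm L κ ε F Xh 0 t / mm L κ ε F Xh 1 t : ℝ) : ℂ)
            ((mm L κ ε F Xh 1 t / mm L κ ε F Xh 0 t : ℝ) : ℂ) δ0 δ1 := h4
      refine ⟨δ0, δ1, ?_, ?_⟩
      · intro i j
        change fderiv ℝ (fun s => L.ev i j (Phi L κ ε F Xh s)) t v = _
        rw [hfd _ t (hlt t ht), h5, L.ev_mul, ev_beta_fr2, ev_beta_fr2, Matrix.mul_apply,
          Fin.sum_univ_two]
        rfl
      · intro i j
        change fderiv ℝ (fun s => L.dv i j (Phi L κ ε F Xh s)) t v = _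
        rw [hfd _ t (hlt t ht), h5, L.dv_mul, ev_beta_fr2, ev_beta_fr2, dv_beta_fr2, dv_beta_fr2,
          Matrix.add_apply, Matrix.mul_apply, Matrix.mul_apply,
          Fin.sum_univ_two, Fin.sum_univ_two]
        rfl
    · intro t ht i j
      obtain ⟨h1, _, _, _⟩ := hsym t (hlt t ht)
      constructor
      · change L.ev i j (Phi L κ ε F Xh (conj t)) = conj (L.ev i j (Phi L κ ε F Xh t))
        rw [h1, L.ev_cj]
      · change L.dv i j (Phi L κ ε F Xh (conj t)) = conj (L.dv i j (Phi L κ ε F Xh t))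
        rw [h1, L.dv_cj]
    · intro t ht
      obtain ⟨_, h2, _, _⟩ := hsym t (hlt t ht)
      constructor
      · ext i j
        change L.ev i j (Phi L κ ε F Xh (-t)) = (sg * phM L κ ε F Xh t * sg) i j
        rw [h2, L.ev_mul, L.ev_mul, L.ev_mul, Matrix.mul_apply, Fin.sum_univ_two, Matrix.mul_apply,
          Matrix.mul_apply, Fin.sum_univ_two, Fin.sum_univ_two]
        unfold phM
        fin_cases i <;> fin_cases j <;> simp [sg, L.ev_E]
      · ext i j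
        change L.dv i j (Phi L κ ε F Xh (-t)) = (sg * chM L κ ε F Xh t * sg) i j
        rw [h2, L.dv_mul, L.dv_mul, L.dv_mul, L.ev_mul, L.ev_mul, Matrix.mul_apply,
          Fin.sum_univ_two, Matrix.mul_apply,
          Matrix.mul_apply, Fin.sum_univ_two, Fin.sum_univ_two]
        unfold chM
        fin_cases i <;> fin_cases j <;> simp [sg, L.ev_E, L.dv_E]
  · intro t _
    change L.ev 0 0 (Phi L κ ε F Xh t) = _
    rw [phi_zero_fr2, map_add, map_smul, smul_eq_mul, map_sub, map_smul, map_smul, L.ev_E, L.ev_E]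
    simp



end Pool.Agent.Helper87.VT
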