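import Mathlib
import Pool.Agent.Helper87.VT.Point
import Pool.Agent.Helper87.CMC.FacC

set_option autoImplicit false

open Set Metric Matrix
open scoped ContDiff ComplexConjugate

namespace Pool.Agent.Helper87.VT

open Pool.Agent.Helper87.CMC (LoopAlg factorisation)



/-- JOB PX. -/
theorem exists_XData {A : Type} [NormedRing A] [NormedAlgebra ℂ A] [CompleteSpace A] (L : LoopAlg A) :
    ∃ (ε0 C1 : ℝ) (Xh : ℝ × A → A), XData L ε0 C1 Xh := by
  obtain ⟨e0, c1, Xh, he0, he01, hc1, hsm, H⟩ := factorisation L 1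
  have st1 : L.st 1 = 1 := by
    rw [← L.E_one, map_add, L.st_E, L.st_E]
  have d1 : ∀ i, L.d i 1 = 1 := by
    have h0 : L.P0 1 = 1 := by
      rw [← L.E_one, map_add, L.P0_E, L.P0_E]
    have h1 := L.P0_eq 1
    rw [h0] at h1
    intro i
    have h2 := congrArg (fun x => L.ev i i x) h1
    have h3 : L.ev i i (1 : A) = 1 := by
      rw [← L.E_one, map_add, L.ev_E, L.ev_E]
      fin_cases i <;> simp
    simp only [map_add, map_smul, L.ev_E] at h2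
    rw [h3] at h2
    fin_cases i
    · simpa using h2.symm
    · simpa using h2.symm
  set Kp : ℝ := ‖L.Pp‖ with hKp
  have hKp0 : 0 ≤ Kp := norm_nonneg _
  set Ks : ℝ := ‖L.st‖ with hKs
  have hKs0 : 0 ≤ Ks := norm_nonneg _
  set Kd : ℝ := ‖L.d 0‖ + ‖L.d 1‖ with hKd
  have hKd0 : 0 ≤ Kd := by positivity
  have hKdi : ∀ i, ‖L.d i‖ ≤ Kd := by
    intro i
    fin_cases i
    · simp only [hKd]
      exact le_add_of_nonneg_right (norm_nonneg _)
    · simp only [hKd]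
      exact le_add_of_nonneg_left (norm_nonneg _)
  set C' : ℝ := 1 + 2 * Ks with hC'
  have hC'1 : 1 ≤ C' := by rw [hC']; linarith
  have hC'0 : 0 ≤ C' := by linarith
  set B : ℝ := 2 * Kp * C' with hB
  have hB0 : 0 ≤ B := by positivity
  set W : ℝ := C' + B + C' * B with hW
  have hW0 : 0 ≤ W := by positivity
  -- the constants
  set e1 : ℝ := min e0 (min (1 / 2) (1 / (2 * (Kp * C' + 1)))) with he1
  have hpos : 0 < Kp * C' + 1 := by positivity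
  have he1pos : 0 < e1 := by
    rw [he1]
    refine lt_min he0 (lt_min (by norm_num) ?_)
    positivity
  have he1a : e1 ≤ e0 := min_le_left _ _
  have he1b : e1 ≤ 1 / 2 := (min_le_right _ _).trans (min_le_left _ _)
  have he1c : e1 * (Kp * C') ≤ 1 / 2 := by
    have h1 : e1 ≤ 1 / (2 * (Kp * C' + 1)) := (min_le_right _ _).trans (min_le_right _ _)
    have h2 : e1 * (2 * (Kp * C' + 1)) ≤ 1 := by
      rw [le_div_iff₀ (by positivity)] at h1
      exact h1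
    nlinarith
  have cbound : ∀ (ε : ℝ) (g : A), |ε| < e1 → ‖g‖ < 1 →
      ‖g + L.st g + (ε : ℂ) • (L.st g * g)‖ ≤ C' * ‖g‖ := by
    intro ε g hε hg
    have h1 : ‖L.st g‖ ≤ Ks * ‖g‖ := L.st.le_opNorm g
    have h2 : ‖(ε : ℂ) • (L.st g * g)‖ ≤ Ks * ‖g‖ := by
      rw [norm_smul, Complex.norm_real, Real.norm_eq_abs]
      have h3 : ‖L.st g * g‖ ≤ Ks * ‖g‖ := by
        calc ‖L.st g * g‖ ≤ ‖L.st g‖ * ‖g‖ := norm_mul_le _ _
          _ ≤ ‖L.st g‖ * 1 := by gcongr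
          _ ≤ Ks * ‖g‖ := by rw [mul_one]; exact h1
      calc |ε| * ‖L.st g * g‖ ≤ 1 * ‖L.st g * g‖ := by
            gcongr
            linarith
        _ ≤ Ks * ‖g‖ := by rw [one_mul]; exact h3
    calc ‖g + L.st g + (ε : ℂ) • (L.st g * g)‖
        ≤ ‖g‖ + ‖L.st g‖ + ‖(ε : ℂ) • (L.st g * g)‖ := norm_add₃_le
      _ ≤ ‖g‖ + Ks * ‖g‖ + Ks * ‖g‖ := by gcongr
      _ = C' * ‖g‖ := by rw [hC']; ring
  have ybound : ∀ (ε : ℝ) (g : A), |ε| < e1 → ‖g‖ < 1 → ‖Xh (ε, g)‖ ≤ B * ‖g‖ := by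
    intro ε g hε hg
    obtain ⟨-, -, h3, -⟩ := H ε g _ _ _ (lt_of_lt_of_le hε he1a) hg rfl rfl rfl
    have h4 := (h3 (Xh (ε, g))).2 rfl
    set Y := Xh (ε, g) with hY
    set c := g + L.st g + (ε : ℂ) • (L.st g * g) with hc
    have hcb : ‖c‖ ≤ C' * ‖g‖ := cbound ε g hε hg
    have hcb1 : ‖c‖ ≤ C' := by
      calc ‖c‖ ≤ C' * ‖g‖ := hcb
        _ ≤ C' * 1 := by gcongr
        _ = C' := mul_one _
    have h5 : Y = - L.Pp c - (ε : ℂ) • L.Pp (c * Y) := by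
      rw [← h4]; abel
    have h6 : ‖Y‖ ≤ Kp * (C' * ‖g‖) + |ε| * (Kp * (C' * ‖Y‖)) := by
      calc ‖Y‖ = ‖- L.Pp c - (ε : ℂ) • L.Pp (c * Y)‖ := by rw [← h5]
        _ ≤ ‖- L.Pp c‖ + ‖(ε : ℂ) • L.Pp (c * Y)‖ := norm_sub_le _ _
        _ = ‖L.Pp c‖ + |ε| * ‖L.Pp (c * Y)‖ := by
            rw [norm_neg, norm_smul, Complex.norm_real, Real.norm_eq_abs]
        _ ≤ Kp * ‖c‖ + |ε| * (Kp * ‖c * Y‖) := by
            gcongr
            · exact L.Pp.le_opNorm c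
            · exact L.Pp.le_opNorm _
        _ ≤ Kp * (C' * ‖g‖) + |ε| * (Kp * (C' * ‖Y‖)) := by
            gcongr
            calc ‖c * Y‖ ≤ ‖c‖ * ‖Y‖ := norm_mul_le _ _
              _ ≤ C' * ‖Y‖ := by gcongr
    have h7 : |ε| * (Kp * (C' * ‖Y‖)) ≤ 1 / 2 * ‖Y‖ := by
      calc |ε| * (Kp * (C' * ‖Y‖)) = |ε| * (Kp * C') * ‖Y‖ := by ring
        _ ≤ e1 * (Kp * C') * ‖Y‖ := by gcongr
        _ ≤ 1 / 2 * ‖Y‖ := by gcongr
    have h8 : ‖Y‖ ≤ 2 * (Kp * (C' * ‖g‖)) := by linarith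
    calc ‖Y‖ ≤ 2 * (Kp * (C' * ‖g‖)) := h8
      _ = B * ‖g‖ := by rw [hB]; ring
  refine ⟨e1, 1 + B + Kd * W, Xh, ?_⟩
  refine
    { ε0_pos := he1pos
      ε0_le := he1b
      C1_pos := by positivity
      smooth := ?_
      Pp_eq := ?_
      bound := ?_
      char := ?_
      fac := ?_ }
  · refine hsm.mono ?_
    rintro ⟨ε, g⟩ ⟨h1, h2⟩
    refine ⟨⟨?_, ?_⟩, h2⟩
    · exact lt_of_le_of_lt (neg_le_neg he1a) h1.1
    · exact lt_of_lt_of_le h1.2 he1a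
  · intro ε g hε hg
    exact (H ε g _ _ _ (lt_of_lt_of_le hε he1a) hg rfl rfl rfl).1
  · intro ε g hε hg
    calc ‖Xh (ε, g)‖ ≤ B * ‖g‖ := ybound ε g hε hg
      _ ≤ (1 + B + Kd * W) * ‖g‖ := by
          gcongr
          have : 0 ≤ Kd * W := by positivity
          linarith
  · intro ε g hε hg
    exact (H ε g _ _ _ (lt_of_lt_of_le hε he1a) hg rfl rfl rfl).2.2.1
  · intro ε g D X P hε hg hD hX hP
    obtain ⟨-, -, -, h4, h5, h6, h7, h8⟩ := H ε g D X P (lt_of_lt_of_le hε he1a) hg hD hX hP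
    refine ⟨h4, h5, ?_, h7, h8⟩
    intro i
    refine ⟨(h6 i).1, ?_, (h6 i).2.2⟩
    set Y := Xh (ε, g) with hY
    set c := g + L.st g + (ε : ℂ) • (L.st g * g) with hc
    have hcb : ‖c‖ ≤ C' * ‖g‖ := cbound ε g hε hg
    have hcb1 : ‖c‖ ≤ C' := by
      calc ‖c‖ ≤ C' * ‖g‖ := hcb
        _ ≤ C' * 1 := by gcongr
        _ = C' := mul_one _
    have hYb : ‖Y‖ ≤ B * ‖g‖ := ybound ε g hε hg
    have hPc : P = 1 + (ε : ℂ) • c := by
      rw [hP, hD, map_add, st1, L.st_smul, Complex.conj_ofReal, hc]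
      simp only [add_mul, mul_add, one_mul, mul_one, smul_add, smul_mul_assoc, mul_smul_comm]
      abel
    have hPX : P * X = 1 + (ε : ℂ) • (c + Y + (ε : ℂ) • (c * Y)) := by
      rw [hPc, hX]
      simp only [add_mul, mul_add, one_mul, mul_one, smul_add, smul_mul_assoc, mul_smul_comm]
      abel
    have hdi : L.d i (P * X) - 1 = (ε : ℂ) * L.d i (c + Y + (ε : ℂ) • (c * Y)) := by
      rw [hPX, map_add, d1, map_smul, smul_eq_mul]
      ring
    have hin : ‖c + Y + (ε : ℂ) • (c * Y)‖ ≤ W * ‖g‖ := by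
      calc ‖c + Y + (ε : ℂ) • (c * Y)‖ ≤ ‖c‖ + ‖Y‖ + ‖(ε : ℂ) • (c * Y)‖ := norm_add₃_le
        _ = ‖c‖ + ‖Y‖ + |ε| * ‖c * Y‖ := by
            rw [norm_smul, Complex.norm_real, Real.norm_eq_abs]
        _ ≤ C' * ‖g‖ + B * ‖g‖ + 1 * (C' * (B * ‖g‖)) := by
            gcongr
            · linarith
            · calc ‖c * Y‖ ≤ ‖c‖ * ‖Y‖ := norm_mul_le _ _
                _ ≤ C' * (B * ‖g‖) := by gcongr
        _ = W * ‖g‖ := by rw [hW]; ring
    have hre : (L.d i (P * X)).re - 1 = (L.d i (P * X) - 1).re := by simp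
    rw [hre]
    calc |(L.d i (P * X) - 1).re| ≤ ‖L.d i (P * X) - 1‖ := Complex.abs_re_le_norm _
      _ = |ε| * ‖L.d i (c + Y + (ε : ℂ) • (c * Y))‖ := by
          rw [hdi, norm_mul, Complex.norm_real, Real.norm_eq_abs]
      _ ≤ |ε| * (Kd * (W * ‖g‖)) := by
          gcongr
          calc ‖L.d i (c + Y + (ε : ℂ) • (c * Y))‖ ≤ ‖L.d i‖ * ‖c + Y + (ε : ℂ) • (c * Y)‖ :=
                (L.d i).le_opNorm _
            _ ≤ Kd * (W * ‖g‖) := by
                gcongr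
                exact hKdi i
      _ = (Kd * W) * |ε| * ‖g‖ := by ring
      _ ≤ (1 + B + Kd * W) * |ε| * ‖g‖ := by
          gcongr
          linarith



end Pool.Agent.Helper87.VT
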