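import Mathlib
import Pool.Agent.Helper87.VT.Two

set_option autoImplicit false

open Set Metric Matrix
open scoped ContDiff ComplexConjugate

namespace Pool.Agent.Helper87.VT

open Pool.Agent.Helper87.CMC (LoopAlg)

section Wiener

/-- Laurent polynomials -/
abbrev LaG : Type := AddMonoidAlgebra ℂ ℤ

/-- the weight -/
noncomputable def laW (n : ℤ) : ℝ := 2 ^ n.natAbs

lemma laW_pos (n : ℤ) : 0 < laW n := by unfold laW; positivity

lemma laW_nonneg (n : ℤ) : 0 ≤ laW n := (laW_pos n).le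

lemma laW_add (m n : ℤ) : laW (m + n) ≤ laW m * laW n := by
  unfold laW
  rw [← pow_add]
  exact pow_le_pow_right₀ (by norm_num) (Int.natAbs_add_le m n)

/-- the weighted norm -/
noncomputable def laN (P : LaG) : ℝ := ∑ n ∈ P.coeff.support, ‖P.coeff n‖ * laW n

lemma laN_eq_of_subset (P : LaG) (t : Finset ℤ) (h : P.coeff.support ⊆ t) :
    laN P = ∑ n ∈ t, ‖P.coeff n‖ * laW n := by
  unfold laN
  apply Finset.sum_subset h
  intro n _ hn
  rw [Finsupp.notMem_support_iff] at hn
  rw [hn]; simp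

lemma laN_zero : laN 0 = 0 := by
  unfold laN; simp

lemma laN_add (P Q : LaG) : laN (P + Q) ≤ laN P + laN Q := by
  classical
  rw [laN_eq_of_subset (P + Q) (P.coeff.support ∪ Q.coeff.support)
      (by rw [AddMonoidAlgebra.coeff_add]; exact Finsupp.support_add),
    laN_eq_of_subset P _ Finset.subset_union_left,
    laN_eq_of_subset Q _ Finset.subset_union_right, ← Finset.sum_add_distrib]
  apply Finset.sum_le_sum
  intro n _
  rw [AddMonoidAlgebra.coeff_add, Finsupp.add_apply, ← add_mul]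
  exact mul_le_mul_of_nonneg_right (norm_add_le _ _) (laW_nonneg n)

lemma laN_smul (c : ℂ) (P : LaG) : laN (c • P) = ‖c‖ * laN P := by
  rw [laN_eq_of_subset (c • P) P.coeff.support
      (by rw [AddMonoidAlgebra.coeff_smul]; exact Finsupp.support_smul), laN, Finset.mul_sum]
  apply Finset.sum_congr rfl
  intro n _
  rw [AddMonoidAlgebra.coeff_smul, Finsupp.smul_apply, smul_eq_mul, norm_mul]
  ring

lemma laN_single (n : ℤ) (c : ℂ) :
    laN (AddMonoidAlgebra.single n c) = ‖c‖ * laW n := by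
  rw [laN_eq_of_subset (AddMonoidAlgebra.single n c) {n}
    (by rw [AddMonoidAlgebra.coeff_single]; exact Finsupp.support_single_subset)]
  rw [Finset.sum_singleton, AddMonoidAlgebra.coeff_single, Finsupp.single_eq_same]

lemma laN_sum {ι : Type} (t : Finset ι) (g : ι → LaG) :
    laN (∑ i ∈ t, g i) ≤ ∑ i ∈ t, laN (g i) := by
  classical
  induction t using Finset.induction_on with
  | empty => simp [laN_zero]
  | insert a t ha ih =>
    rw [Finset.sum_insert ha, Finset.sum_insert ha]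
    exact (laN_add _ _).trans (by linarith)

lemma la_eq_sum_single (P : LaG) :
    P = ∑ n ∈ P.coeff.support, AddMonoidAlgebra.single n (P.coeff n) := by
  conv_lhs => rw [← AddMonoidAlgebra.sum_coeff_single P]
  rfl

lemma laN_mul (P Q : LaG) : laN (P * Q) ≤ laN P * laN Q := by
  classical
  have e : P * Q = ∑ m ∈ P.coeff.support, ∑ n ∈ Q.coeff.support,
      AddMonoidAlgebra.single (m + n) (P.coeff m * Q.coeff n) := by
    conv_lhs => rw [la_eq_sum_single P, la_eq_sum_single Q]
    rw [Finset.sum_mul_sum]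
    simp only [AddMonoidAlgebra.single_mul_single]
  rw [e]
  refine (laN_sum _ _).trans ?_
  unfold laN
  rw [Finset.sum_mul_sum]
  apply Finset.sum_le_sum
  intro m _
  refine (laN_sum _ _).trans ?_
  apply Finset.sum_le_sum
  intro n _
  rw [laN_single, norm_mul]
  calc ‖P.coeff m‖ * ‖Q.coeff n‖ * laW (m + n) ≤ ‖P.coeff m‖ * ‖Q.coeff n‖ * (laW m * laW n) :=
        mul_le_mul_of_nonneg_left (laW_add m n) (by positivity)
    _ = _ := by ring

lemma laN_neg (P : LaG) : laN (-P) = laN P := by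
  have := laN_smul (-1) P
  simpa using this

/-- type synonym carrying the weighted norm -/
def LaTy : Type := LaG

noncomputable instance : CommRing LaTy := inferInstanceAs (CommRing LaG)

noncomputable instance : Algebra ℂ LaTy := inferInstanceAs (Algebra ℂ LaG)

/-- the group seminorm -/
noncomputable def laGS : AddGroupSeminorm LaTy where
  toFun := laN
  map_zero' := laN_zero
  add_le' := laN_add
  neg' := laN_neg

noncomputable instance : SeminormedAddCommGroup LaTy :=
  AddGroupSeminorm.toSeminormedAddCommGroup laGS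

noncomputable instance : SeminormedCommRing LaTy :=
  { (inferInstance : SeminormedAddCommGroup LaTy), (inferInstance : CommRing LaTy) with
    norm_mul_le := laN_mul }

noncomputable instance : NormedAlgebra ℂ LaTy :=
  { (inferInstance : Algebra ℂ LaTy) with
    norm_smul_le := fun c P => (laN_smul c P).le }

/-- abstract description of the weighted Wiener algebra -/
structure WB (B : Type) [NormedCommRing B] [NormedAlgebra ℂ B] where
  τ : ℤ → B
  τ_zero : τ 0 = 1
  τ_add : ∀ m n, τ (m + n) = τ m * τ n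
  τ_norm : ∀ n, ‖τ n‖ ≤ 2 ^ n.natAbs
  ind : ∀ p : B → Prop, IsClosed {x | p x} → (∀ x y, p x → p y → p (x + y)) →
    (∀ (c : ℂ) n, p (c • τ n)) → ∀ x, p x
  exists_ext : ∀ (φ : ℂ →+* ℂ) (F : Type) [NormedAddCommGroup F] [NormedSpace ℂ F]
    [CompleteSpace F] (v : ℤ → F) (C : ℝ), (∀ c, ‖φ c‖ = ‖c‖) →
    (∀ n, ‖v n‖ ≤ C * 2 ^ n.natAbs) → ∃ U : B →SL[φ] F, ∀ n, U (τ n) = v n

/-- the semilinear map with given values on the monomials -/
noncomputable def laMap (φ : ℂ →+* ℂ) {F : Type} [AddCommGroup F] [Module ℂ F] (v : ℤ → F) :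
    LaG →ₛₗ[φ] F where
  toFun P := P.coeff.sum fun n a => φ a • v n
  map_add' P Q := by
    rw [AddMonoidAlgebra.coeff_add]
    refine Finsupp.sum_add_index' (fun n => ?_) (fun n a b => ?_)
    · rw [map_zero, zero_smul]
    · rw [map_add, add_smul]
  map_smul' c P := by
    rw [AddMonoidAlgebra.coeff_smul]
    refine (Finsupp.sum_smul_index' (fun n => ?_)).trans ?_
    · rw [map_zero, zero_smul]
    · rw [Finsupp.smul_sum]
      refine Finset.sum_congr rfl fun n _ => ?_
      simp only [smul_eq_mul, map_mul, mul_smul]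

lemma laMap_single (φ : ℂ →+* ℂ) {F : Type} [AddCommGroup F] [Module ℂ F] (v : ℤ → F) (n : ℤ)
    (a : ℂ) : laMap φ v (AddMonoidAlgebra.single n a) = φ a • v n := by
  change ((AddMonoidAlgebra.single n a : LaG).coeff.sum fun n a => φ a • v n) = _
  rw [AddMonoidAlgebra.coeff_single]
  refine Finsupp.sum_single_index ?_
  rw [map_zero, zero_smul]

lemma laMap_bound (φ : ℂ →+* ℂ) {F : Type} [NormedAddCommGroup F] [NormedSpace ℂ F] (v : ℤ → F)
    (C : ℝ) (hφ : ∀ c, ‖φ c‖ = ‖c‖) (hv : ∀ n, ‖v n‖ ≤ C * 2 ^ n.natAbs) (P : LaG) :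
    ‖laMap φ v P‖ ≤ C * laN P := by
  change ‖∑ n ∈ P.coeff.support, φ (P.coeff n) • v n‖ ≤ _
  refine (norm_sum_le _ _).trans ?_
  unfold laN
  rw [Finset.mul_sum]
  refine Finset.sum_le_sum fun n _ => ?_
  rw [norm_smul, hφ]
  have := mul_le_mul_of_nonneg_left (hv n) (norm_nonneg (P.coeff n))
  unfold laW
  linarith

theorem exists_WB : ∃ (B : Type) (_ : NormedCommRing B) (_ : NormedAlgebra ℂ B)
    (_ : CompleteSpace B), Nonempty (WB B) := by
  classical
  let B := UniformSpace.Completion LaTy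
  let ι : LaG →ₐ[ℂ] B :=
    { (UniformSpace.Completion.coeRingHom : LaTy →+* B) with
      commutes' := fun c => rfl }
  have hdense : DenseRange ι := UniformSpace.Completion.denseRange_coe (α := LaTy)
  have hnorm : ∀ P : LaG, ‖ι P‖ = laN P := fun P =>
    UniformSpace.Completion.norm_coe (E := LaTy) P
  refine ⟨B, inferInstance, inferInstance, inferInstance, ⟨{
    τ := fun n => ι (AddMonoidAlgebra.single n 1)
    τ_zero := ?_
    τ_add := ?_
    τ_norm := ?_
    ind := ?_
    exists_ext := ?_ }⟩⟩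
  · exact map_one ι
  · intro m n
    rw [← map_mul, AddMonoidAlgebra.single_mul_single, one_mul]
  · intro n
    rw [hnorm, laN_single]
    simp [laW]
  · intro p hc hadd hs
    refine isClosed_property hdense hc ?_
    intro P
    induction P using AddMonoidAlgebra.induction_linear with
    | zero =>
      have := hs 0 0
      rw [zero_smul] at this
      rwa [map_zero]
    | add f g hf hg =>
      rw [map_add]
      exact hadd _ _ hf hg
    | single n a =>
      have h1 : (AddMonoidAlgebra.single n a : LaG) = a • AddMonoidAlgebra.single n (1 : ℂ) := by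
        rw [AddMonoidAlgebra.smul_single, smul_eq_mul, mul_one]
      rw [h1, map_smul]
      exact hs a n
  · intro φ F _ _ _ v C hφ hv
    refine ⟨(laMap φ v).extendOfNorm ι.toLinearMap, fun n => ?_⟩
    have h1 := LinearMap.extendOfNorm_eq (f := laMap φ v) (e := ι.toLinearMap) hdense
      ⟨C, fun P => by
        have h2 : ‖ι.toLinearMap P‖ = laN P := hnorm P
        rw [h2]
        exact laMap_bound φ v C hφ hv P⟩ (AddMonoidAlgebra.single n 1)
    rw [laMap_single, map_one, one_smul] at h1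
    exact h1

end Wiener


section Scalar

/-- the operations on the weighted Wiener algebra that are needed -/
structure Sc (B : Type) [NormedCommRing B] [NormedAlgebra ℂ B] where
  T : B
  S : B
  ST : S * T = 1
  F : (ℤ → Prop) → B →L[ℂ] B
  F_F : ∀ q q' x, F q (F q' x) = F (fun n => q n ∧ q' n) x
  F_bot : ∀ q : ℤ → Prop, (∀ n, ¬ q n) → ∀ x, F q x = 0
  F_sum : ∀ q1 q2 q3 : ℤ → Prop, (∀ n, (q1 n ∧ ¬ q2 n ∧ ¬ q3 n) ∨ (¬ q1 n ∧ q2 n ∧ ¬ q3 n) ∨
    (¬ q1 n ∧ ¬ q2 n ∧ q3 n)) → ∀ x, F q1 x + F q2 x + F q3 x = x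
  F_mul : ∀ q q' q'' : ℤ → Prop, (∀ m n, q m → q' n → q'' (m + n)) → ∀ x y,
    F q'' (F q x * F q' y) = F q x * F q' y
  F_one : ∀ q : ℤ → Prop, q 0 → F q 1 = 1
  F_one' : ∀ q : ℤ → Prop, ¬ q 0 → F q 1 = 0
  F_T : ∀ q : ℤ → Prop, q 1 → F q T = T
  F_S : ∀ q : ℤ → Prop, q (-1) → F q S = S
  σ : B →SL[starRingEnd ℂ] B
  κ : B →SL[starRingEnd ℂ] B
  σ_mul : ∀ x y, σ (x * y) = σ x * σ y
  κ_mul : ∀ x y, κ (x * y) = κ x * κ y
  σσ : ∀ x, σ (σ x) = x
  κκ : ∀ x, κ (κ x) = x
  κσ : ∀ x, κ (σ x) = σ (κ x)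
  σ_one : σ 1 = 1
  κ_one : κ 1 = 1
  σ_S : σ S = T
  κ_S : κ S = S
  κ_T : κ T = T
  σF : ∀ q x, σ (F q x) = F (fun n => q (-n)) (σ x)
  κF : ∀ q x, κ (F q x) = F q (κ x)
  c0 : B →L[ℂ] ℂ
  F_zero : ∀ x, F (fun n => n = 0) x = c0 x • (1 : B)
  ε : B →L[ℂ] ℂ
  ε_mul : ∀ x y, ε (x * y) = ε x * ε y
  ε_one : ε 1 = 1
  ε_S : ε S = 1
  ε_T : ε T = 1
  ε_σ : ∀ x, ε (σ x) = conj (ε x)
  ε_κ : ∀ x, ε (κ x) = conj (ε x)
  δ : B →L[ℂ] ℂ
  δ_mul : ∀ x y, δ (x * y) = δ x * ε y + ε x * δ y
  δ_one : δ 1 = 0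
  δ_S : δ S = -1
  δ_T : δ T = 1
  δ_σ : ∀ x, δ (σ x) = - conj (δ x)
  δ_κ : ∀ x, δ (κ x) = conj (δ x)

variable {B : Type} [NormedCommRing B] [NormedAlgebra ℂ B]

lemma WB.ind_eq (W : WB B) {F : Type} [TopologicalSpace F] [T2Space F] [Add F] (f g : B → F)
    (hf : Continuous f) (hg : Continuous g) (haf : ∀ x y, f (x + y) = f x + f y)
    (hag : ∀ x y, g (x + y) = g x + g y)
    (h : ∀ (c : ℂ) n, f (c • W.τ n) = g (c • W.τ n)) : ∀ x, f x = g x := by
  refine W.ind (fun x => f x = g x) (isClosed_eq hf hg) ?_ h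
  intro x y hx hy
  rw [haf, hag, hx, hy]

theorem exists_Sc [CompleteSpace B] (W : WB B) : Nonempty (Sc B) := by
  classical
  have hid : ∀ c : ℂ, ‖RingHom.id ℂ c‖ = ‖c‖ := fun c => rfl
  have hst : ∀ c : ℂ, ‖starRingEnd ℂ c‖ = ‖c‖ := fun c => Complex.norm_conj c
  have hF := fun q : ℤ → Prop => W.exists_ext (RingHom.id ℂ) B
    (fun n => if q n then W.τ n else 0) 1 hid (fun n => by
      rw [one_mul]
      by_cases h : q n
      · rw [if_pos h]; exact W.τ_norm n
      · rw [if_neg h, norm_zero]; positivity)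
  choose F hFτ using hF
  obtain ⟨σ, hσ⟩ := W.exists_ext (starRingEnd ℂ) B (fun n => W.τ (-n)) 1 hst (fun n => by
    rw [one_mul]
    have := W.τ_norm (-n)
    rwa [Int.natAbs_neg] at this)
  obtain ⟨κ, hκ⟩ := W.exists_ext (starRingEnd ℂ) B (fun n => W.τ n) 1 hst (fun n => by
    rw [one_mul]
    exact W.τ_norm n)
  obtain ⟨c0, hc0⟩ := W.exists_ext (RingHom.id ℂ) ℂ (fun n => if n = 0 then 1 else 0) 1 hid
    (fun n => by
      rw [one_mul]
      by_cases h : n = 0
      · rw [if_pos h, h]; simp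
      · rw [if_neg h, norm_zero]; positivity)
  obtain ⟨ε, hε⟩ := W.exists_ext (RingHom.id ℂ) ℂ (fun _ => 1) 1 hid (fun n => by
    rw [one_mul, norm_one]
    exact one_le_pow₀ (by norm_num))
  obtain ⟨δ, hδ⟩ := W.exists_ext (RingHom.id ℂ) ℂ (fun n => (n : ℂ)) 1 hid (fun n => by
    rw [one_mul, Complex.norm_intCast, ← Int.cast_abs, Int.abs_eq_natAbs, Int.cast_natCast]
    exact_mod_cast (Nat.lt_two_pow_self (n := n.natAbs)).le)
  have hFs : ∀ q (c : ℂ) n, F q (c • W.τ n) = c • (if q n then W.τ n else 0) := fun q c n => by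
    rw [map_smulₛₗ, hFτ]; rfl
  have hσs : ∀ (c : ℂ) n, σ (c • W.τ n) = conj c • W.τ (-n) := fun c n => by
    rw [map_smulₛₗ, hσ]
  have hκs : ∀ (c : ℂ) n, κ (c • W.τ n) = conj c • W.τ n := fun c n => by
    rw [map_smulₛₗ, hκ]
  have hεs : ∀ (c : ℂ) n, ε (c • W.τ n) = c := fun c n => by
    rw [map_smulₛₗ, hε]; simp
  have hδs : ∀ (c : ℂ) n, δ (c • W.τ n) = c * n := fun c n => by
    rw [map_smulₛₗ, hδ]; simp
  have hc0s : ∀ (c : ℂ) n, c0 (c • W.τ n) = c * (if n = 0 then 1 else 0) := fun c n => by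
    rw [map_smulₛₗ, hc0]; simp
  have hmul : ∀ (c d : ℂ) m n, (c • W.τ m) * (d • W.τ n) = (c * d) • W.τ (m + n) := by
    intro c d m n
    rw [smul_mul_smul_comm, W.τ_add]
  -- bilinear induction
  have ind2 : ∀ {G : Type} [TopologicalSpace G] [T2Space G] [Add G] (f g : B → B → G),
      (∀ y, Continuous fun x => f x y) → (∀ y, Continuous fun x => g x y) →
      (∀ x, Continuous fun y => f x y) → (∀ x, Continuous fun y => g x y) →
      (∀ x x' y, f (x + x') y = f x y + f x' y) → (∀ x x' y, g (x + x') y = g x y + g x' y) →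
      (∀ x y y', f x (y + y') = f x y + f x y') → (∀ x y y', g x (y + y') = g x y + g x y') →
      (∀ (c d : ℂ) m n, f (c • W.τ m) (d • W.τ n) = g (c • W.τ m) (d • W.τ n)) →
      ∀ x y, f x y = g x y := by
    intro G _ _ _ f g h1 h2 h3 h4 h5 h6 h7 h8 h9 x y
    refine W.ind_eq (fun x => f x y) (fun x => g x y) (h1 y) (h2 y) (fun x x' => h5 x x' y)
      (fun x x' => h6 x x' y) ?_ x
    intro c m
    exact W.ind_eq (fun y => f (c • W.τ m) y) (fun y => g (c • W.τ m) y) (h3 _) (h4 _)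
      (fun y y' => h7 _ y y') (fun y y' => h8 _ y y') (fun d n => h9 c d m n) y
  refine ⟨{
    T := W.τ 1
    S := W.τ (-1)
    ST := ?_
    F := F
    F_F := ?_
    F_bot := ?_
    F_sum := ?_
    F_mul := ?_
    F_one := ?_
    F_one' := ?_
    F_T := ?_
    F_S := ?_
    σ := σ
    κ := κ
    σ_mul := ?_
    κ_mul := ?_
    σσ := ?_
    κκ := ?_
    κσ := ?_
    σ_one := ?_
    κ_one := ?_
    σ_S := ?_
    κ_S := ?_
    κ_T := ?_
    σF := ?_
    κF := ?_
    c0 := c0
    F_zero := ?_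
    ε := ε
    ε_mul := ?_
    ε_one := ?_
    ε_S := ?_
    ε_T := ?_
    ε_σ := ?_
    ε_κ := ?_
    δ := δ
    δ_mul := ?_
    δ_one := ?_
    δ_S := ?_
    δ_T := ?_
    δ_σ := ?_
    δ_κ := ?_ }⟩
  · rw [← W.τ_add, neg_add_cancel, W.τ_zero]
  · intro q q'
    refine W.ind_eq _ _ ((F q).continuous.comp (F q').continuous) (F _).continuous
      (fun x y => by rw [map_add, map_add]) (fun x y => map_add _ _ _) ?_
    intro c n
    rw [hFs, hFs]
    by_cases h' : q' n
    · rw [if_pos h', hFs]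
      by_cases h : q n
      · rw [if_pos h, if_pos ⟨h, h'⟩]
      · rw [if_neg h, if_neg (fun hh => h hh.1)]
    · rw [if_neg h', if_neg (fun hh => h' hh.2), smul_zero, map_zero]
  · intro q hq
    refine W.ind_eq (fun x => F q x) (fun _ => 0) (F q).continuous continuous_const
      (fun x y => map_add _ _ _) (fun x y => by simp) ?_
    intro c n
    rw [hFs, if_neg (hq n), smul_zero]
  · intro q1 q2 q3 hq
    refine W.ind_eq (fun x => F q1 x + F q2 x + F q3 x) (fun x => x)
      (((F q1).continuous.add (F q2).continuous).add (F q3).continuous) continuous_id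
      (fun x y => by simp only [map_add]; abel) (fun x y => rfl) ?_
    intro c n
    simp only [hFs]
    rcases hq n with ⟨h1, h2, h3⟩ | ⟨h1, h2, h3⟩ | ⟨h1, h2, h3⟩
    · rw [if_pos h1, if_neg h2, if_neg h3]; simp
    · rw [if_neg h1, if_pos h2, if_neg h3]; simp
    · rw [if_neg h1, if_neg h2, if_pos h3]; simp
  · intro q q' q'' hq
    refine ind2 (fun x y => F q'' (F q x * F q' y)) (fun x y => F q x * F q' y) ?_ ?_ ?_ ?_ ?_ ?_ ?_
      ?_ ?_
    · intro y; fun_prop
    · intro y; fun_prop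
    · intro y; fun_prop
    · intro y; fun_prop
    · intro x x' y; simp only [map_add, add_mul]
    · intro x x' y; simp only [map_add, add_mul]
    · intro x x' y; simp only [map_add, mul_add]
    · intro x x' y; simp only [map_add, mul_add]
    · intro c d m n
      simp only [hFs]
      by_cases h : q m
      · by_cases h' : q' n
        · rw [if_pos h, if_pos h', hmul, hFs, if_pos (hq m n h h')]
        · rw [if_neg h', smul_zero, mul_zero, map_zero]
      · rw [if_neg h, smul_zero, zero_mul, map_zero]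
  · intro q h
    rw [← W.τ_zero, hFτ, if_pos h]
  · intro q h
    rw [← W.τ_zero, hFτ, if_neg h]
  · intro q h
    rw [hFτ, if_pos h]
  · intro q h
    rw [hFτ, if_pos h]
  · refine ind2 (fun x y => σ (x * y)) (fun x y => σ x * σ y) ?_ ?_ ?_ ?_ ?_ ?_ ?_ ?_ ?_
    · intro y; fun_prop
    · intro y; fun_prop
    · intro y; fun_prop
    · intro y; fun_prop
    · intro x x' y; simp only [map_add, add_mul]
    · intro x x' y; simp only [map_add, add_mul]
    · intro x x' y; simp only [map_add, mul_add]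
    · intro x x' y; simp only [map_add, mul_add]
    · intro c d m n
      simp only [hmul, hσs, map_mul]
      rw [neg_add]
  · refine ind2 (fun x y => κ (x * y)) (fun x y => κ x * κ y) ?_ ?_ ?_ ?_ ?_ ?_ ?_ ?_ ?_
    · intro y; fun_prop
    · intro y; fun_prop
    · intro y; fun_prop
    · intro y; fun_prop
    · intro x x' y; simp only [map_add, add_mul]
    · intro x x' y; simp only [map_add, add_mul]
    · intro x x' y; simp only [map_add, mul_add]
    · intro x x' y; simp only [map_add, mul_add]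
    · intro c d m n
      simp only [hmul, hκs, map_mul]
  · refine W.ind_eq (fun x => σ (σ x)) (fun x => x) (σ.continuous.comp σ.continuous) continuous_id
      (fun x y => by simp only [map_add]) (fun x y => rfl) ?_
    intro c n
    simp only [hσs, neg_neg, Complex.conj_conj]
  · refine W.ind_eq (fun x => κ (κ x)) (fun x => x) (κ.continuous.comp κ.continuous) continuous_id
      (fun x y => by simp only [map_add]) (fun x y => rfl) ?_
    intro c n
    simp only [hκs, Complex.conj_conj]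
  · refine W.ind_eq (fun x => κ (σ x)) (fun x => σ (κ x)) (κ.continuous.comp σ.continuous)
      (σ.continuous.comp κ.continuous)
      (fun x y => by simp only [map_add]) (fun x y => by simp only [map_add]) ?_
    intro c n
    simp only [hκs, hσs]
  · rw [← W.τ_zero, hσ, neg_zero]
  · rw [← W.τ_zero, hκ]
  · rw [hσ, neg_neg]
  · rw [hκ]
  · rw [hκ]
  · intro q
    refine W.ind_eq (fun x => σ (F q x)) (fun x => F (fun n => q (-n)) (σ x))
      (σ.continuous.comp (F q).continuous) ((F _).continuous.comp σ.continuous)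
      (fun x y => by simp only [map_add]) (fun x y => by simp only [map_add]) ?_
    intro c n
    simp only [hσs, hFs, neg_neg]
    by_cases h : q n
    · rw [if_pos h, if_pos h, hσs]
    · rw [if_neg h, if_neg h, smul_zero, map_zero, smul_zero]
  · intro q
    refine W.ind_eq (fun x => κ (F q x)) (fun x => F q (κ x))
      (κ.continuous.comp (F q).continuous) ((F _).continuous.comp κ.continuous)
      (fun x y => by simp only [map_add]) (fun x y => by simp only [map_add]) ?_
    intro c n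
    simp only [hκs, hFs]
    by_cases h : q n
    · rw [if_pos h, hκs]
    · rw [if_neg h, smul_zero, map_zero, smul_zero]
  · refine W.ind_eq (fun x => F (fun n => n = 0) x) (fun x => c0 x • (1 : B)) (F _).continuous
      (c0.continuous.smul continuous_const) (fun x y => by simp only [map_add])
      (fun x y => by simp only [map_add, add_smul]) ?_
    intro c n
    simp only [hFs, hc0s]
    by_cases h : n = 0
    · rw [if_pos h, if_pos h, h, W.τ_zero, mul_one]
    · rw [if_neg h, if_neg h, smul_zero, mul_zero, zero_smul]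
  · refine ind2 (fun x y => ε (x * y)) (fun x y => ε x * ε y) ?_ ?_ ?_ ?_ ?_ ?_ ?_ ?_ ?_
    · intro y; fun_prop
    · intro y; fun_prop
    · intro y; fun_prop
    · intro y; fun_prop
    · intro x x' y; simp only [map_add, add_mul]
    · intro x x' y; simp only [map_add, add_mul]
    · intro x x' y; simp only [map_add, mul_add]
    · intro x x' y; simp only [map_add, mul_add]
    · intro c d m n
      simp only [hmul, hεs]
  · rw [← W.τ_zero, hε]
  · rw [hε]
  · rw [hε]
  · refine W.ind_eq (fun x => ε (σ x)) (fun x => conj (ε x)) (ε.continuous.comp σ.continuous)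
      (Complex.continuous_conj.comp ε.continuous)
      (fun x y => by simp only [map_add]) (fun x y => by simp only [map_add]) ?_
    intro c n
    simp only [hσs, hεs]
  · refine W.ind_eq (fun x => ε (κ x)) (fun x => conj (ε x)) (ε.continuous.comp κ.continuous)
      (Complex.continuous_conj.comp ε.continuous)
      (fun x y => by simp only [map_add]) (fun x y => by simp only [map_add]) ?_
    intro c n
    simp only [hκs, hεs]
  · refine ind2 (fun x y => δ (x * y)) (fun x y => δ x * ε y + ε x * δ y) ?_ ?_ ?_ ?_ ?_ ?_ ?_ ?_ ?_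
    · intro y; fun_prop
    · intro y; fun_prop
    · intro y; fun_prop
    · intro y; fun_prop
    · intro x x' y; simp only [map_add, add_mul]
    · intro x x' y; simp only [map_add]; ring
    · intro x x' y; simp only [map_add, mul_add]
    · intro x x' y; simp only [map_add]; ring
    · intro c d m n
      simp only [hmul, hεs, hδs]
      push_cast
      ring
  · rw [← W.τ_zero, hδ]; simp
  · rw [hδ]; simp
  · rw [hδ]; simp
  · refine W.ind_eq (fun x => δ (σ x)) (fun x => -conj (δ x)) (δ.continuous.comp σ.continuous)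
      (Complex.continuous_conj.comp δ.continuous).neg
      (fun x y => by simp only [map_add]) (fun x y => by simp only [map_add]; ring) ?_
    intro c n
    simp only [hσs, hδs, map_mul]
    simp
  · refine W.ind_eq (fun x => δ (κ x)) (fun x => conj (δ x)) (δ.continuous.comp κ.continuous)
      (Complex.continuous_conj.comp δ.continuous)
      (fun x y => by simp only [map_add]) (fun x y => by simp only [map_add]) ?_
    intro c n
    simp only [hκs, hδs, map_mul]
    simp

end Scalar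


section Mat

/-- `2 × 2` matrices -/
def MA (B : Type) : Type := Matrix (Fin 2) (Fin 2) B

section inst
variable {B : Type} [NormedCommRing B] [NormedAlgebra ℂ B]
noncomputable instance : NormedRing (MA B) := Matrix.linftyOpNormedRing
noncomputable instance : NormedAlgebra ℂ (MA B) := Matrix.linftyOpNormedAlgebra

instance [CompleteSpace B] : CompleteSpace (MA B) := by
  have : CompleteSpace (Fin 2 → Fin 2 → B) := inferInstance
  exact this
end inst

/-- abstract matrix algebra -/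
structure MatAlg (B A : Type) [NormedCommRing B] [NormedAlgebra ℂ B] [NormedRing A]
    [NormedAlgebra ℂ A] where
  en : Fin 2 → Fin 2 → A →L[ℂ] B
  mkM : (Fin 2 → Fin 2 → B) → A
  en_mk : ∀ f i j, en i j (mkM f) = f i j
  ext : ∀ x y, (∀ i j, en i j x = en i j y) → x = y
  mk_cont : Continuous mkM
  mul : ∀ x y i j, en i j (x * y) = en i 0 x * en 0 j y + en i 1 x * en 1 j y
  one : ∀ i j, en i j 1 = if i = j then 1 else 0

theorem exists_MatAlg (B : Type) [NormedCommRing B] [NormedAlgebra ℂ B] [CompleteSpace B] :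
    ∃ (A : Type) (_ : NormedRing A) (_ : NormedAlgebra ℂ A) (_ : CompleteSpace A),
      Nonempty (MatAlg B A) := by
  refine ⟨MA B, inferInstance, inferInstance, inferInstance, ⟨{
    en := fun i j =>
      { toFun := fun x => x i j
        map_add' := fun x y => rfl
        map_smul' := fun c x => rfl
        cont := by
          have h : Continuous (fun x : Fin 2 → Fin 2 → B => x i j) :=
            (continuous_apply j).comp (continuous_apply i)
          exact h }
    mkM := fun f => f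
    en_mk := fun f i j => rfl
    ext := fun x y h => funext fun i => funext fun j => h i j
    mk_cont := continuous_id (X := Fin 2 → Fin 2 → B)
    mul := ?_
    one := ?_ }⟩⟩
  · intro x y i j
    have h : (x * y : MA B) i j = ∑ k, x i k * y k j :=
      Matrix.mul_apply (M := (x : Matrix _ _ B))
    rw [Fin.sum_univ_two] at h
    exact h
  · intro i j
    exact Matrix.one_apply

section abs

set_option linter.unusedSectionVars false

variable {B A : Type} [NormedCommRing B] [NormedAlgebra ℂ B] [NormedRing A] [NormedAlgebra ℂ A]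
  (M : MatAlg B A)

include M

lemma MatAlg.cont_mk {X : Type} [TopologicalSpace X] (f : X → Fin 2 → Fin 2 → B)
    (hf : ∀ i j, Continuous fun x => f x i j) : Continuous fun x => M.mkM (f x) := by
  have h : Continuous f := continuous_pi fun i => continuous_pi fun j => hf i j
  exact M.mk_cont.comp h

/-- entrywise linear map -/
noncomputable def MatAlg.lin (G : Fin 2 → Fin 2 → B →L[ℂ] B) : A →L[ℂ] A where
  toFun x := M.mkM fun i j => G i j (M.en i j x)
  map_add' x y := M.ext _ _ fun i j => by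
    rw [map_add, M.en_mk, M.en_mk, M.en_mk, map_add, map_add]
  map_smul' c x := M.ext _ _ fun i j => by
    rw [RingHom.id_apply, map_smul, M.en_mk, M.en_mk, map_smul, map_smul]
  cont := M.cont_mk _ fun i j => (G i j).continuous.comp (M.en i j).continuous

lemma MatAlg.lin_apply (G : Fin 2 → Fin 2 → B →L[ℂ] B) (x : A) (i j : Fin 2) :
    M.en i j (M.lin G x) = G i j (M.en i j x) := M.en_mk _ _ _

/-- real linear map from an additive map of the entries, with transposition -/
noncomputable def MatAlg.st (σ : B →SL[starRingEnd ℂ] B) : A →L[ℝ] A :=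
  AddMonoidHom.toRealLinearMap
    { toFun := fun x : A => M.mkM fun i j => σ (M.en j i x)
      map_zero' := M.ext _ _ fun i j => by rw [M.en_mk, map_zero, map_zero, map_zero]
      map_add' := fun x y => M.ext _ _ fun i j => by
        rw [map_add, M.en_mk, M.en_mk, M.en_mk, map_add, map_add] }
    (M.cont_mk _ fun i j => σ.continuous.comp (M.en j i).continuous)

lemma MatAlg.st_apply (σ : B →SL[starRingEnd ℂ] B) (x : A) (i j : Fin 2) :
    M.en i j (M.st σ x) = σ (M.en j i x) := M.en_mk _ _ _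

/-- real linear map from an additive map of the entries -/
noncomputable def MatAlg.cj (κ : B →SL[starRingEnd ℂ] B) : A →L[ℝ] A :=
  AddMonoidHom.toRealLinearMap
    { toFun := fun x : A => M.mkM fun i j => κ (M.en i j x)
      map_zero' := M.ext _ _ fun i j => by rw [M.en_mk, map_zero, map_zero]
      map_add' := fun x y => M.ext _ _ fun i j => by
        rw [map_add, M.en_mk, M.en_mk, M.en_mk, map_add, map_add] }
    (M.cont_mk _ fun i j => κ.continuous.comp (M.en i j).continuous)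

lemma MatAlg.cj_apply (κ : B →SL[starRingEnd ℂ] B) (x : A) (i j : Fin 2) :
    M.en i j (M.cj κ x) = κ (M.en i j x) := M.en_mk _ _ _

/-- scalar matrices -/
noncomputable def MatAlg.sc (t : B) : A := M.mkM fun i j => if i = j then t else 0

lemma MatAlg.sc_apply (t : B) (i j : Fin 2) : M.en i j (M.sc t) = if i = j then t else 0 :=
  M.en_mk _ _ _

lemma MatAlg.sc_mul (t : B) (x : A) (i j : Fin 2) : M.en i j (M.sc t * x) = t * M.en i j x := by
  rw [M.mul, M.sc_apply, M.sc_apply]
  fin_cases i <;> simp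

lemma MatAlg.mul_sc (t : B) (x : A) (i j : Fin 2) : M.en i j (x * M.sc t) = M.en i j x * t := by
  rw [M.mul, M.sc_apply, M.sc_apply]
  fin_cases j <;> simp

/-- matrix units -/
noncomputable def MatAlg.E (i j : Fin 2) : A := M.mkM fun a b => if a = i ∧ b = j then 1 else 0

lemma MatAlg.E_apply (i j a b : Fin 2) :
    M.en a b (M.E i j) = if a = i ∧ b = j then 1 else 0 := M.en_mk _ _ _

lemma MatAlg.mul_E (x : A) (i j a b : Fin 2) :
    M.en a b (x * M.E i j) = if b = j then M.en a i x else 0 := by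
  rw [M.mul, M.E_apply, M.E_apply]
  by_cases h : b = j
  · simp only [h, and_true, if_true]
    fin_cases i <;> simp
  · simp [h]

lemma MatAlg.E_mul (x : A) (i j a b : Fin 2) :
    M.en a b (M.E i j * x) = if a = i then M.en j b x else 0 := by
  rw [M.mul, M.E_apply, M.E_apply]
  by_cases h : a = i
  · simp only [h, true_and, if_true]
    fin_cases j <;> simp
  · simp [h]

omit M

/-- positive part -/
def qp (i j : Fin 2) (n : ℤ) : Prop := 1 ≤ n ∨ (n = 0 ∧ i = 1 ∧ j = 0)

/-- diagonal constants -/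
def q0 (i j : Fin 2) (n : ℤ) : Prop := n = 0 ∧ i = j

/-- negative part -/
def qm (i j : Fin 2) (n : ℤ) : Prop := n ≤ -1 ∨ (n = 0 ∧ i = 0 ∧ j = 1)

lemma q_p0 (i j : Fin 2) (n : ℤ) : ¬ (qp i j n ∧ q0 i j n) := by
  rintro ⟨h1 | ⟨h1, h2, h3⟩, h4, h5⟩
  · omega
  · subst h2; subst h3; exact absurd h5 (by decide)

lemma q_pm (i j : Fin 2) (n : ℤ) : ¬ (qp i j n ∧ qm i j n) := by
  rintro ⟨h1 | ⟨h1, h2, h3⟩, h4 | ⟨h4, h5, h6⟩⟩
  · omega
  · omega
  · omega
  · subst h2; exact absurd h5 (by decide)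

lemma q_0m (i j : Fin 2) (n : ℤ) : ¬ (q0 i j n ∧ qm i j n) := by
  rintro ⟨⟨h1, h2⟩, h4 | ⟨h4, h5, h6⟩⟩
  · omega
  · subst h5; subst h6; exact absurd h2 (by decide)

lemma q_all (i j : Fin 2) (n : ℤ) : (qm i j n ∧ ¬ q0 i j n ∧ ¬ qp i j n) ∨
    (¬ qm i j n ∧ q0 i j n ∧ ¬ qp i j n) ∨ (¬ qm i j n ∧ ¬ q0 i j n ∧ qp i j n) := by
  have h1 := q_p0 i j n
  have h2 := q_pm i j n
  have h3 := q_0m i j n
  have h : qm i j n ∨ q0 i j n ∨ qp i j n := by
    rcases lt_trichotomy n 0 with hn | hn | hn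
    · exact Or.inl (Or.inl (by omega))
    · have : (i = 0 ∧ j = 1) ∨ i = j ∨ (i = 1 ∧ j = 0) := by
        fin_cases i <;> fin_cases j <;> simp
      rcases this with h | h | h
      · exact Or.inl (Or.inr ⟨hn, h⟩)
      · exact Or.inr (Or.inl ⟨hn, h⟩)
      · exact Or.inr (Or.inr (Or.inr ⟨hn, h⟩))
    · exact Or.inr (Or.inr (Or.inl (by omega)))
  tauto

lemma q_neg_p (i j : Fin 2) : (fun n : ℤ => qp j i (-n)) = qm i j := by
  funext n
  apply propext
  unfold qp qm
  constructor
  · rintro (h | ⟨h1, h2, h3⟩)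
    · left; omega
    · right; exact ⟨by omega, h3, h2⟩
  · rintro (h | ⟨h1, h2, h3⟩)
    · left; omega
    · right; exact ⟨by omega, h3, h2⟩

lemma q_neg_m (i j : Fin 2) : (fun n : ℤ => qm j i (-n)) = qp i j := by
  funext n
  apply propext
  unfold qp qm
  constructor
  · rintro (h | ⟨h1, h2, h3⟩)
    · left; omega
    · right; exact ⟨by omega, h3, h2⟩
  · rintro (h | ⟨h1, h2, h3⟩)
    · left; omega
    · right; exact ⟨by omega, h3, h2⟩

lemma q_neg_0 (i j : Fin 2) : (fun n : ℤ => q0 j i (-n)) = q0 i j := by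
  funext n
  apply propext
  unfold q0
  constructor
  · rintro ⟨h1, h2⟩
    exact ⟨by omega, h2.symm⟩
  · rintro ⟨h1, h2⟩
    exact ⟨by omega, h2.symm⟩

lemma Sc.F_self (D : Sc B) (q : ℤ → Prop) (x : B) : D.F q (D.F q x) = D.F q x := by
  rw [D.F_F]
  congr 2
  funext n
  simp

lemma Sc.F_disj (D : Sc B) (q q' : ℤ → Prop) (h : ∀ n, ¬ (q n ∧ q' n)) (x : B) :
    D.F q (D.F q' x) = 0 := by
  rw [D.F_F]
  exact D.F_bot _ h x

theorem exists_loop_of_Sc (M : MatAlg B A) (D : Sc B) :
    ∃ L : LoopAlg A, ∀ x, L.S * x = x * L.S := by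
  have key : ∀ x : A, M.lin (fun i j => D.F (qp i j)) x = x → ∀ i j,
      D.F (qp i j) (M.en i j x) = M.en i j x := by
    intro x hx i j
    have h := congrArg (fun y : A => M.en i j y) hx
    simp only [M.lin_apply] at h
    exact h
  refine ⟨{
    E := M.E
    E_mul := ?_
    E_one := ?_
    S := M.sc D.S
    T := M.sc D.T
    S_mul_T := ?_
    T_mul_S := ?_
    S_comm := ?_
    T_comm := ?_
    st := M.st D.σ
    st_mul := ?_
    st_st := ?_
    st_smul := ?_
    st_E := ?_
    st_S := ?_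
    cj := M.cj D.κ
    cj_mul := ?_
    cj_cj := ?_
    cj_smul := ?_
    cj_E := ?_
    cj_S := ?_
    cj_T := ?_
    cj_st := ?_
    Pp := M.lin (fun i j => D.F (qp i j))
    P0 := M.lin (fun i j => D.F (q0 i j))
    Pm := M.lin (fun i j => D.F (qm i j))
    P_sum := ?_
    Pp_Pp := ?_
    Pp_P0 := ?_
    Pp_Pm := ?_
    P0_Pp := ?_
    P0_P0 := ?_
    P0_Pm := ?_
    Pm_Pp := ?_
    Pm_P0 := ?_
    Pm_Pm := ?_
    st_Pp := ?_
    st_P0 := ?_
    st_Pm := ?_
    cj_Pp := ?_
    cj_P0 := ?_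
    cj_Pm := ?_
    d := fun i => D.c0.comp (M.en i i)
    P0_eq := ?_
    P0_E := ?_
    Pp_E := ?_
    Pp_TE := ?_
    Pm_E := ?_
    Pm_SE := ?_
    Pp_mul := ?_
    Pp_E_mul := ?_
    Pp_mul_E := ?_
    low1 := ?_
    low2 := ?_
    low3 := ?_
    low4 := ?_
    ev := fun i j => D.ε.comp (M.en i j)
    ev_mul := ?_
    ev_E := ?_
    ev_S := ?_
    ev_T := ?_
    ev_st := ?_
    ev_cj := ?_
    dv := fun i j => D.δ.comp (M.en i j)
    dv_mul := ?_
    dv_E := ?_
    dv_S := ?_
    dv_T := ?_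
    dv_st := ?_
    dv_cj := ?_ }, fun x => M.ext _ _ fun a b => by
      change M.en a b (M.sc D.S * x) = M.en a b (x * M.sc D.S)
      rw [M.sc_mul, M.mul_sc, mul_comm]⟩
  · -- E_mul
    intro i j k l
    refine M.ext _ _ fun a b => ?_
    rw [M.E_mul, M.E_apply]
    by_cases h : j = k
    · rw [if_pos h, M.E_apply]
      by_cases ha : a = i
      · simp [ha, h]
      · simp [ha]
    · rw [if_neg h, map_zero]
      simp [h]
  · -- E_one
    refine M.ext _ _ fun a b => ?_
    rw [map_add, M.E_apply, M.E_apply, M.one]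
    fin_cases a <;> fin_cases b <;> simp
  · -- S_mul_T
    refine M.ext _ _ fun a b => ?_
    rw [M.sc_mul, M.sc_apply, M.one]
    by_cases h : a = b
    · rw [if_pos h, if_pos h, D.ST]
    · rw [if_neg h, if_neg h, mul_zero]
  · refine M.ext _ _ fun a b => ?_
    rw [M.sc_mul, M.sc_apply, M.one]
    by_cases h : a = b
    · rw [if_pos h, if_pos h, mul_comm, D.ST]
    · rw [if_neg h, if_neg h, mul_zero]
  · intro i j
    refine M.ext _ _ fun a b => ?_
    rw [M.sc_mul, M.mul_sc, mul_comm]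
  · intro i j
    refine M.ext _ _ fun a b => ?_
    rw [M.sc_mul, M.mul_sc, mul_comm]
  · -- st_mul
    intro x y
    refine M.ext _ _ fun a b => ?_
    rw [M.st_apply, M.mul, M.mul]
    simp only [M.st_apply, map_add, D.σ_mul]
    ring
  · intro x
    refine M.ext _ _ fun a b => ?_
    rw [M.st_apply, M.st_apply, D.σσ]
  · intro c x
    refine M.ext _ _ fun a b => ?_
    rw [M.st_apply, map_smul (M.en b a), map_smulₛₗ, map_smul (M.en a b), M.st_apply]
  · intro i j
    refine M.ext _ _ fun a b => ?_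
    rw [M.st_apply, M.E_apply, M.E_apply]
    by_cases h : b = i ∧ a = j
    · rw [if_pos h, if_pos ⟨h.2, h.1⟩, D.σ_one]
    · rw [if_neg h, if_neg (fun hh => h ⟨hh.2, hh.1⟩), map_zero]
  · refine M.ext _ _ fun a b => ?_
    rw [M.st_apply, M.sc_apply, M.sc_apply]
    by_cases h : b = a
    · rw [if_pos h, if_pos h.symm, D.σ_S]
    · rw [if_neg h, if_neg (Ne.symm h), map_zero]
  · -- cj_mul
    intro x y
    refine M.ext _ _ fun a b => ?_
    rw [M.cj_apply, M.mul, M.mul]
    simp only [M.cj_apply, map_add, D.κ_mul]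
  · intro x
    refine M.ext _ _ fun a b => ?_
    rw [M.cj_apply, M.cj_apply, D.κκ]
  · intro c x
    refine M.ext _ _ fun a b => ?_
    rw [M.cj_apply, map_smul (M.en a b), map_smulₛₗ, map_smul (M.en a b), M.cj_apply]
  · intro i j
    refine M.ext _ _ fun a b => ?_
    rw [M.cj_apply, M.E_apply]
    by_cases h : a = i ∧ b = j
    · rw [if_pos h, D.κ_one]
    · rw [if_neg h, map_zero]
  · refine M.ext _ _ fun a b => ?_
    rw [M.cj_apply, M.sc_apply]
    by_cases h : a = b
    · rw [if_pos h, D.κ_S]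
    · rw [if_neg h, map_zero]
  · refine M.ext _ _ fun a b => ?_
    rw [M.cj_apply, M.sc_apply]
    by_cases h : a = b
    · rw [if_pos h, D.κ_T]
    · rw [if_neg h, map_zero]
  · intro x
    refine M.ext _ _ fun a b => ?_
    rw [M.cj_apply, M.st_apply, M.st_apply, M.cj_apply, D.κσ]
  · -- P_sum
    intro x
    refine M.ext _ _ fun a b => ?_
    rw [map_add, map_add, M.lin_apply, M.lin_apply, M.lin_apply]
    exact D.F_sum _ _ _ (q_all a b) _
  · exact fun x => M.ext _ _ fun a b => by rw [M.lin_apply, M.lin_apply, D.F_self]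
  · exact fun x => M.ext _ _ fun a b => by
      rw [M.lin_apply, M.lin_apply, map_zero]; exact D.F_disj _ _ (q_p0 a b) _
  · exact fun x => M.ext _ _ fun a b => by
      rw [M.lin_apply, M.lin_apply, map_zero]; exact D.F_disj _ _ (q_pm a b) _
  · exact fun x => M.ext _ _ fun a b => by
      rw [M.lin_apply, M.lin_apply, map_zero]; exact D.F_disj _ _ (fun n h => q_p0 a b n ⟨h.2, h.1⟩) _
  · exact fun x => M.ext _ _ fun a b => by rw [M.lin_apply, M.lin_apply, D.F_self]
  · exact fun x => M.ext _ _ fun a b => by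
      rw [M.lin_apply, M.lin_apply, map_zero]; exact D.F_disj _ _ (q_0m a b) _
  · exact fun x => M.ext _ _ fun a b => by
      rw [M.lin_apply, M.lin_apply, map_zero]; exact D.F_disj _ _ (fun n h => q_pm a b n ⟨h.2, h.1⟩) _
  · exact fun x => M.ext _ _ fun a b => by
      rw [M.lin_apply, M.lin_apply, map_zero]; exact D.F_disj _ _ (fun n h => q_0m a b n ⟨h.2, h.1⟩) _
  · exact fun x => M.ext _ _ fun a b => by rw [M.lin_apply, M.lin_apply, D.F_self]
  · intro x
    refine M.ext _ _ fun a b => ?_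
    rw [M.st_apply, M.lin_apply, M.lin_apply, M.st_apply, D.σF, q_neg_p]
  · intro x
    refine M.ext _ _ fun a b => ?_
    rw [M.st_apply, M.lin_apply, M.lin_apply, M.st_apply, D.σF, q_neg_0]
  · intro x
    refine M.ext _ _ fun a b => ?_
    rw [M.st_apply, M.lin_apply, M.lin_apply, M.st_apply, D.σF, q_neg_m]
  · intro x
    refine M.ext _ _ fun a b => ?_
    rw [M.cj_apply, M.lin_apply, M.lin_apply, M.cj_apply, D.κF]
  · intro x
    refine M.ext _ _ fun a b => ?_
    rw [M.cj_apply, M.lin_apply, M.lin_apply, M.cj_apply, D.κF]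
  · intro x
    refine M.ext _ _ fun a b => ?_
    rw [M.cj_apply, M.lin_apply, M.lin_apply, M.cj_apply, D.κF]
  · -- P0_eq
    intro x
    refine M.ext _ _ fun a b => ?_
    rw [map_add, map_smul, map_smul, M.lin_apply, ContinuousLinearMap.comp_apply, ContinuousLinearMap.comp_apply,
      M.E_apply, M.E_apply]
    by_cases h : a = b
    · have h1 : q0 a b = fun n => n = 0 := by
        funext n
        simp [q0, h]
      rw [h1, D.F_zero, ← h]
      fin_cases a <;> simp
    · rw [D.F_bot _ (fun n hn => h hn.2)]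
      have h1 : ¬ (a = 0 ∧ b = 0) := fun hh => h (hh.1.trans hh.2.symm)
      have h2 : ¬ (a = 1 ∧ b = 1) := fun hh => h (hh.1.trans hh.2.symm)
      rw [if_neg h1, if_neg h2, smul_zero, smul_zero, add_zero]
  · -- P0_E
    intro i
    refine M.ext _ _ fun a b => ?_
    rw [M.lin_apply, M.E_apply]
    by_cases h : a = i ∧ b = i
    · rw [if_pos h, D.F_one _ ⟨rfl, h.1.trans h.2.symm⟩]
    · rw [if_neg h, map_zero]
  · refine M.ext _ _ fun a b => ?_
    rw [M.lin_apply, M.E_apply]
    by_cases h : a = 1 ∧ b = 0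
    · rw [if_pos h, D.F_one _ (Or.inr ⟨rfl, h⟩)]
    · rw [if_neg h, map_zero]
  · refine M.ext _ _ fun a b => ?_
    rw [M.lin_apply, M.sc_mul, M.E_apply]
    by_cases h : a = 0 ∧ b = 1
    · rw [if_pos h, mul_one, D.F_T _ (Or.inl le_rfl)]
    · rw [if_neg h, mul_zero, map_zero]
  · refine M.ext _ _ fun a b => ?_
    rw [M.lin_apply, M.E_apply]
    by_cases h : a = 0 ∧ b = 1
    · rw [if_pos h, D.F_one _ (Or.inr ⟨rfl, h⟩)]
    · rw [if_neg h, map_zero]
  · refine M.ext _ _ fun a b => ?_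
    rw [M.lin_apply, M.sc_mul, M.E_apply]
    by_cases h : a = 1 ∧ b = 0
    · rw [if_pos h, mul_one, D.F_S _ (Or.inl le_rfl)]
    · rw [if_neg h, mul_zero, map_zero]
  · -- Pp_mul
    intro x y hx hy
    have hx' := key x hx
    have hy' := key y hy
    refine M.ext _ _ fun a b => ?_
    rw [M.lin_apply, M.mul, map_add]
    have h1 : ∀ k, D.F (qp a b) (M.en a k x * M.en k b y) = M.en a k x * M.en k b y := by
      intro k
      rw [← hx' a k, ← hy' k b]
      refine D.F_mul _ _ _ ?_ _ _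
      rintro m n (h1 | ⟨h1, h2, h3⟩) (h4 | ⟨h4, h5, h6⟩)
      · left; omega
      · left; omega
      · left; omega
      · rw [h3] at h5; exact absurd h5 (by decide)
    rw [h1, h1]
  · -- Pp_E_mul
    intro i x hx
    have hx' := key x hx
    refine M.ext _ _ fun a b => ?_
    rw [M.lin_apply, M.E_mul]
    by_cases h : a = i
    · rw [if_pos h, ← h, hx']
    · rw [if_neg h, map_zero]
  · intro i x hx
    have hx' := key x hx
    refine M.ext _ _ fun a b => ?_
    rw [M.lin_apply, M.mul_E]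
    by_cases h : b = i
    · rw [if_pos h, ← h, hx']
    · rw [if_neg h, map_zero]
  · -- low1
    intro x hx
    have hx' := key x hx
    refine M.ext _ _ fun a b => ?_
    rw [M.lin_apply, M.mul_E, map_zero]
    by_cases h : b = 1
    · rw [if_pos h, ← hx' a 0]
      refine D.F_disj _ _ ?_ _
      rintro n ⟨h1 | ⟨h1, h2, h3⟩, h4 | ⟨h4, h5, h6⟩⟩
      · omega
      · omega
      · omega
      · rw [h2] at h5; exact absurd h5 (by decide)
    · rw [if_neg h, map_zero]
  · -- low2
    intro x hx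
    have hx' := key x hx
    refine M.ext _ _ fun a b => ?_
    rw [M.lin_apply, M.E_mul, map_zero]
    by_cases h : a = 0
    · rw [if_pos h, ← hx' 1 b]
      refine D.F_disj _ _ ?_ _
      rintro n ⟨h1 | ⟨h1, h2, h3⟩, h4 | ⟨h4, h5, h6⟩⟩
      · omega
      · omega
      · omega
      · rw [h3] at h6; exact absurd h6 (by decide)
    · rw [if_neg h, map_zero]
  · -- low3
    intro x hx
    have hx' := key x hx
    refine M.ext _ _ fun a b => ?_
    have h0 : (M.sc D.S * M.E 1 0 : A) = M.E 1 0 * M.sc D.S := by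
      refine M.ext _ _ fun a b => ?_
      rw [M.sc_mul, M.mul_sc, mul_comm]
    rw [h0, ← mul_assoc, M.lin_apply, M.mul_sc, M.mul_E, map_zero]
    by_cases h : b = 0
    · rw [if_pos h, ← hx' a 1, ← D.F_S (fun n => n = -1) rfl,
        ← D.F_mul _ _ (fun n => 0 ≤ n) ?_ _ _]
      · refine D.F_disj _ _ ?_ _
        rintro n ⟨h1 | ⟨h1, h2, h3⟩, h4⟩
        · have : 0 ≤ n := h4
          omega
        · rw [h] at h3; exact absurd h3 (by decide)
      · rintro m n (h1 | ⟨h1, h2, h3⟩) h4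
        · have : n = -1 := h4
          omega
        · exact absurd h3 (by decide)
    · rw [if_neg h, zero_mul, map_zero]
  · -- low4
    intro x hx
    have hx' := key x hx
    refine M.ext _ _ fun a b => ?_
    rw [mul_assoc, M.lin_apply, M.sc_mul, M.E_mul, map_zero]
    by_cases h : a = 1
    · rw [if_pos h, ← hx' 0 b, mul_comm, ← D.F_S (fun n => n = -1) rfl,
        ← D.F_mul _ _ (fun n => 0 ≤ n) ?_ _ _]
      · refine D.F_disj _ _ ?_ _
        rintro n ⟨h1 | ⟨h1, h2, h3⟩, h4⟩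
        · have : 0 ≤ n := h4
          omega
        · rw [h] at h2; exact absurd h2 (by decide)
      · rintro m n (h1 | ⟨h1, h2, h3⟩) h4
        · have : n = -1 := h4
          omega
        · exact absurd h2 (by decide)
    · rw [if_neg h, mul_zero, map_zero]
  · -- ev_mul
    intro i j x y
    simp only [ContinuousLinearMap.comp_apply, M.mul, map_add, D.ε_mul]
  · intro i j k l
    rw [ContinuousLinearMap.comp_apply, M.E_apply]
    by_cases h : i = k ∧ j = l
    · rw [if_pos h, if_pos h, D.ε_one]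
    · rw [if_neg h, if_neg h, map_zero]
  · intro i j
    rw [ContinuousLinearMap.comp_apply, M.sc_apply]
    by_cases h : i = j
    · rw [if_pos h, if_pos h, D.ε_S]
    · rw [if_neg h, if_neg h, map_zero]
  · intro i j
    rw [ContinuousLinearMap.comp_apply, M.sc_apply]
    by_cases h : i = j
    · rw [if_pos h, if_pos h, D.ε_T]
    · rw [if_neg h, if_neg h, map_zero]
  · intro i j x
    rw [ContinuousLinearMap.comp_apply, M.st_apply, ContinuousLinearMap.comp_apply, D.ε_σ]
  · intro i j x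
    rw [ContinuousLinearMap.comp_apply, M.cj_apply, ContinuousLinearMap.comp_apply, D.ε_κ]
  · -- dv_mul
    intro i j x y
    simp only [ContinuousLinearMap.comp_apply, M.mul, map_add, D.δ_mul]
    ring
  · intro i j k l
    rw [ContinuousLinearMap.comp_apply, M.E_apply]
    by_cases h : i = k ∧ j = l
    · rw [if_pos h, D.δ_one]
    · rw [if_neg h, map_zero]
  · intro i j
    rw [ContinuousLinearMap.comp_apply, M.sc_apply]
    by_cases h : i = j
    · rw [if_pos h, if_pos h, D.δ_S]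
    · rw [if_neg h, if_neg h, map_zero]
  · intro i j
    rw [ContinuousLinearMap.comp_apply, M.sc_apply]
    by_cases h : i = j
    · rw [if_pos h, if_pos h, D.δ_T]
    · rw [if_neg h, if_neg h, map_zero]
  · intro i j x
    rw [ContinuousLinearMap.comp_apply, M.st_apply, ContinuousLinearMap.comp_apply, D.δ_σ]
  · intro i j x
    rw [ContinuousLinearMap.comp_apply, M.cj_apply, ContinuousLinearMap.comp_apply, D.δ_κ]

end abs

end Mat

/-! ### weighted `ℓ¹` sequences -/

/-- the weight -/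
noncomputable def wt (n : ℤ) : ℝ := 2 ^ n.natAbs

lemma wt_pos (n : ℤ) : 0 < wt n := by unfold wt; positivity

lemma wt_zero : wt 0 = 1 := by simp [wt]

lemma wt_neg (n : ℤ) : wt (-n) = wt n := by simp [wt]

lemma one_le_wt (n : ℤ) : 1 ≤ wt n := one_le_pow₀ (by norm_num)

lemma wt_add (m n : ℤ) : wt (m + n) ≤ wt m * wt n := by
  unfold wt
  rw [← pow_add]
  exact pow_le_pow_right₀ (by norm_num) (Int.natAbs_add_le m n)

lemma wt_nat (n : ℕ) : wt (n : ℤ) = 2 ^ n := by simp [wt]

/-- weighted `ℓ¹` sequences (indexed by `ℤ`) with values in `R` -/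
structure PW (R A : Type) [NormedAddCommGroup R] [NormedSpace ℂ R] [NormedAddCommGroup A]
    [NormedSpace ℂ A] where
  mon : ℤ → R →L[ℂ] A
  mon_norm : ∀ n r, ‖mon n r‖ = wt n * ‖r‖
  co : ℤ → A →L[ℂ] R
  co_mon : ∀ m n r, co m (mon n r) = if m = n then r else 0
  hn : ∀ x, HasSum (fun n => wt n * ‖co n x‖) ‖x‖
  hs : ∀ x, HasSum (fun n => mon n (co n x)) x

section PWs
variable {R A : Type} [NormedAddCommGroup R] [NormedSpace ℂ R] [NormedAddCommGroup A]
  [NormedSpace ℂ A] (T : PW R A)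

include T

lemma PW.ind_eq {F : Type} [TopologicalSpace F] [T2Space F] [Add F] (f g : A → F)
    (hf : Continuous f) (hg : Continuous g) (haf : ∀ x y, f (x + y) = f x + f y)
    (hag : ∀ x y, g (x + y) = g x + g y)
    (h : ∀ n r, f (T.mon n r) = g (T.mon n r)) : ∀ x, f x = g x := by
  classical
  intro x
  have h0 : f 0 = g 0 := by
    have := h 0 0
    rwa [map_zero] at this
  have hsum : ∀ s : Finset ℤ, f (∑ n ∈ s, T.mon n (T.co n x)) = g (∑ n ∈ s, T.mon n (T.co n x)) := by
    intro s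
    induction s using Finset.induction_on with
    | empty => simpa using h0
    | insert a s ha ih => rw [Finset.sum_insert ha, haf, hag, h, ih]
  have h1 : Filter.Tendsto (fun s : Finset ℤ => f (∑ n ∈ s, T.mon n (T.co n x))) Filter.atTop
      (nhds (f x)) := (hf.tendsto x).comp (T.hs x)
  have h2 : Filter.Tendsto (fun s : Finset ℤ => g (∑ n ∈ s, T.mon n (T.co n x))) Filter.atTop
      (nhds (g x)) := (hg.tendsto x).comp (T.hs x)
  have h3 : (fun s : Finset ℤ => f (∑ n ∈ s, T.mon n (T.co n x))) =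
      fun s : Finset ℤ => g (∑ n ∈ s, T.mon n (T.co n x)) := funext hsum
  rw [h3] at h1
  exact tendsto_nhds_unique h1 h2

lemma PW.ext_co (x y : A) (h : ∀ n, T.co n x = T.co n y) : x = y := by
  have h1 := T.hs x
  have h2 := T.hs y
  have h3 : (fun n => T.mon n (T.co n x)) = fun n => T.mon n (T.co n y) := by
    funext n; rw [h]
  rw [h3] at h1
  exact h1.unique h2

section
variable {F : Type} [NormedAddCommGroup F] [CompleteSpace F]

lemma PW.summ (v : ℤ → R →+ F) (C : ℝ) (hv : ∀ n r, ‖v n r‖ ≤ C * (wt n * ‖r‖)) (x : A) :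
    Summable (fun n => v n (T.co n x)) :=
  Summable.of_norm_bounded ((T.hn x).summable.mul_left C) (fun n => hv n _)

/-- additive map given on the monomials -/
noncomputable def PW.ex (v : ℤ → R →+ F) (C : ℝ) (hv : ∀ n r, ‖v n r‖ ≤ C * (wt n * ‖r‖)) :
    A →+ F where
  toFun x := ∑' n, v n (T.co n x)
  map_zero' := by simp
  map_add' x y := by
    simp only [map_add]
    exact (T.summ v C hv x).tsum_add (T.summ v C hv y)

lemma PW.ex_hs (v : ℤ → R →+ F) (C : ℝ) (hv : ∀ n r, ‖v n r‖ ≤ C * (wt n * ‖r‖)) (x : A) :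
    HasSum (fun n => v n (T.co n x)) (T.ex v C hv x) := (T.summ v C hv x).hasSum

lemma PW.ex_mon (v : ℤ → R →+ F) (C : ℝ) (hv : ∀ n r, ‖v n r‖ ≤ C * (wt n * ‖r‖)) (n : ℤ) (r : R) :
    T.ex v C hv (T.mon n r) = v n r := by
  change ∑' m, v m (T.co m (T.mon n r)) = _
  rw [tsum_eq_single n]
  · rw [T.co_mon, if_pos rfl]
  · intro m hm
    rw [T.co_mon, if_neg hm, map_zero]

lemma PW.ex_norm (v : ℤ → R →+ F) (C : ℝ) (hv : ∀ n r, ‖v n r‖ ≤ C * (wt n * ‖r‖)) (x : A) :
    ‖T.ex v C hv x‖ ≤ C * ‖x‖ :=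
  tsum_of_norm_bounded ((T.hn x).mul_left C) (fun n => hv n _)

lemma PW.ex_cont (v : ℤ → R →+ F) (C : ℝ) (hv : ∀ n r, ‖v n r‖ ≤ C * (wt n * ‖r‖)) :
    Continuous (T.ex v C hv) :=
  AddMonoidHomClass.continuous_of_bound _ C (T.ex_norm v C hv)

/-- real linear map given on the monomials -/
noncomputable def PW.exR [NormedSpace ℝ F] (v : ℤ → R →+ F) (C : ℝ)
    (hv : ∀ n r, ‖v n r‖ ≤ C * (wt n * ‖r‖)) : A →L[ℝ] F :=
  AddMonoidHom.toRealLinearMap (T.ex v C hv) (T.ex_cont v C hv)

lemma PW.exR_mon [NormedSpace ℝ F] (v : ℤ → R →+ F) (C : ℝ)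
    (hv : ∀ n r, ‖v n r‖ ≤ C * (wt n * ‖r‖)) (n : ℤ) (r : R) :
    T.exR v C hv (T.mon n r) = v n r := T.ex_mon v C hv n r

lemma PW.exR_norm [NormedSpace ℝ F] (v : ℤ → R →+ F) (C : ℝ)
    (hv : ∀ n r, ‖v n r‖ ≤ C * (wt n * ‖r‖)) (x : A) :
    ‖T.exR v C hv x‖ ≤ C * ‖x‖ := T.ex_norm v C hv x

lemma PW.exR_hs [NormedSpace ℝ F] (v : ℤ → R →+ F) (C : ℝ)
    (hv : ∀ n r, ‖v n r‖ ≤ C * (wt n * ‖r‖)) (x : A) :
    HasSum (fun n => v n (T.co n x)) (T.exR v C hv x) := T.ex_hs v C hv x

/-- complex linear map given on the monomials -/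
noncomputable def PW.exL [NormedSpace ℂ F] (v : ℤ → R →L[ℂ] F) (C : ℝ)
    (hv : ∀ n r, ‖v n r‖ ≤ C * (wt n * ‖r‖)) : A →L[ℂ] F :=
  LinearMap.mkContinuous
    { toFun := T.ex (fun n => ((v n : R →ₗ[ℂ] F) : R →+ F)) C hv
      map_add' := map_add _
      map_smul' := fun c x => by
        have h1 := T.ex_hs (fun n => ((v n : R →ₗ[ℂ] F) : R →+ F)) C hv (c • x)
        have h2 := (T.ex_hs (fun n => ((v n : R →ₗ[ℂ] F) : R →+ F)) C hv x).const_smul c
        refine h1.unique ?_
        have h3 : (fun n => (fun n => ((v n : R →ₗ[ℂ] F) : R →+ F)) n (T.co n (c • x))) =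
            fun n => c • ((fun n => ((v n : R →ₗ[ℂ] F) : R →+ F)) n (T.co n x)) := by
          funext n
          change v n (T.co n (c • x)) = c • v n (T.co n x)
          rw [map_smul, map_smul]
        rw [h3]
        exact h2 } C (T.ex_norm _ C hv)

lemma PW.exL_mon [NormedSpace ℂ F] (v : ℤ → R →L[ℂ] F) (C : ℝ)
    (hv : ∀ n r, ‖v n r‖ ≤ C * (wt n * ‖r‖)) (n : ℤ) (r : R) :
    T.exL v C hv (T.mon n r) = v n r := T.ex_mon _ C hv n r

lemma PW.exL_norm [NormedSpace ℂ F] (v : ℤ → R →L[ℂ] F) (C : ℝ)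
    (hv : ∀ n r, ‖v n r‖ ≤ C * (wt n * ‖r‖)) (x : A) :
    ‖T.exL v C hv x‖ ≤ C * ‖x‖ := T.ex_norm _ C hv x

lemma PW.exL_hs [NormedSpace ℂ F] (v : ℤ → R →L[ℂ] F) (C : ℝ)
    (hv : ∀ n r, ‖v n r‖ ≤ C * (wt n * ‖r‖)) (x : A) :
    HasSum (fun n => v n (T.co n x)) (T.exL v C hv x) := T.ex_hs _ C hv x

end

end PWs

section bil
variable {R A R' A' F : Type} [NormedAddCommGroup R] [NormedSpace ℂ R] [NormedAddCommGroup A]
  [NormedSpace ℂ A] (T : PW R A) [NormedAddCommGroup R'] [NormedSpace ℂ R'] [NormedAddCommGroup A']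
  [NormedSpace ℂ A'] (T' : PW R' A') [NormedAddCommGroup F] [NormedSpace ℂ F] [CompleteSpace F]

/-- inner step -/
noncomputable def PW.ex2a (b : ℤ → R →L[ℂ] R' →L[ℂ] F) (C : ℝ) (hC : 0 ≤ C)
    (hb : ∀ n r s, ‖b n r s‖ ≤ C * ‖r‖ * (wt n * ‖s‖)) : R →L[ℂ] A' →L[ℂ] F :=
  LinearMap.mkContinuous
    { toFun := fun r => T'.exL (fun n => b n r) (C * ‖r‖) (fun n s => hb n r s)
      map_add' := fun r r' => by
        ext y
        revert y
        refine T'.ind_eq _ _ (ContinuousLinearMap.continuous _) (ContinuousLinearMap.continuous _)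
          (fun x y => map_add _ _ _) (fun x y => map_add _ _ _) ?_
        intro n s
        rw [_root_.add_apply, T'.exL_mon, T'.exL_mon, T'.exL_mon, map_add,
          _root_.add_apply]
      map_smul' := fun c r => by
        ext y
        revert y
        refine T'.ind_eq _ _ (ContinuousLinearMap.continuous _) (ContinuousLinearMap.continuous _)
          (fun x y => map_add _ _ _) (fun x y => map_add _ _ _) ?_
        intro n s
        rw [RingHom.id_apply, _root_.smul_apply, T'.exL_mon, T'.exL_mon, map_smul,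
          _root_.smul_apply] } C
    (fun r => ContinuousLinearMap.opNorm_le_bound _ (by positivity) fun y => T'.exL_norm _ _ _ y)

lemma PW.ex2a_mon (b : ℤ → R →L[ℂ] R' →L[ℂ] F) (C : ℝ) (hC : 0 ≤ C)
    (hb : ∀ n r s, ‖b n r s‖ ≤ C * ‖r‖ * (wt n * ‖s‖)) (r : R) (n : ℤ) (s : R') :
    PW.ex2a T' b C hC hb r (T'.mon n s) = b n r s :=
  T'.exL_mon (fun n => b n r) (C * ‖r‖) (fun n s => hb n r s) n s

lemma PW.ex2a_norm (b : ℤ → R →L[ℂ] R' →L[ℂ] F) (C : ℝ) (hC : 0 ≤ C)
    (hb : ∀ n r s, ‖b n r s‖ ≤ C * ‖r‖ * (wt n * ‖s‖)) (r : R) :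
    ‖PW.ex2a T' b C hC hb r‖ ≤ C * ‖r‖ :=
  ContinuousLinearMap.opNorm_le_bound _ (by positivity) fun y =>
    T'.exL_norm (fun n => b n r) (C * ‖r‖) (fun n s => hb n r s) y

/-- bilinear map given on the monomials -/
noncomputable def PW.ex2 (b : ℤ → ℤ → R →L[ℂ] R' →L[ℂ] F)
    (hb : ∀ m n r s, ‖b m n r s‖ ≤ wt m * ‖r‖ * (wt n * ‖s‖)) : A →L[ℂ] A' →L[ℂ] F :=
  T.exL (fun m => PW.ex2a T' (b m) (wt m) (wt_pos m).le (hb m)) 1 (fun m r => by
    rw [one_mul]; exact PW.ex2a_norm T' (b m) (wt m) (wt_pos m).le (hb m) r)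

lemma PW.ex2_mon (b : ℤ → ℤ → R →L[ℂ] R' →L[ℂ] F)
    (hb : ∀ m n r s, ‖b m n r s‖ ≤ wt m * ‖r‖ * (wt n * ‖s‖)) (m n : ℤ) (r : R) (s : R') :
    PW.ex2 T T' b hb (T.mon m r) (T'.mon n s) = b m n r s := by
  unfold PW.ex2
  rw [T.exL_mon, PW.ex2a_mon]

lemma PW.ex2_norm (b : ℤ → ℤ → R →L[ℂ] R' →L[ℂ] F)
    (hb : ∀ m n r s, ‖b m n r s‖ ≤ wt m * ‖r‖ * (wt n * ‖s‖)) (x : A) (y : A') :
    ‖PW.ex2 T T' b hb x y‖ ≤ ‖x‖ * ‖y‖ := by
  have h1 := T.exL_norm (fun m => PW.ex2a T' (b m) (wt m) (wt_pos m).le (hb m)) 1 (fun m r => by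
    rw [one_mul]; exact PW.ex2a_norm T' (b m) (wt m) (wt_pos m).le (hb m) r) x
  rw [one_mul] at h1
  exact (ContinuousLinearMap.le_opNorm _ y).trans (mul_le_mul_of_nonneg_right h1 (norm_nonneg _))

end bil

section model
variable (R : Type) [NormedAddCommGroup R] [NormedSpace ℂ R]

/-- the model of `PW` -/
noncomputable def pwL : PW R (lp (fun _ : ℤ => R) 1) := by
  classical
  have hw : ∀ n, ((wt n : ℝ) : ℂ) ≠ 0 := fun n => by exact_mod_cast (wt_pos n).ne'
  have hwn : ∀ n, ‖((wt n : ℝ) : ℂ)‖ = wt n := fun n => by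
    rw [Complex.norm_real, Real.norm_eq_abs, abs_of_pos (wt_pos n)]
  have hco : ∀ (n : ℤ) (x : lp (fun _ : ℤ => R) 1),
      wt n * ‖(((wt n : ℝ) : ℂ)⁻¹ • lp.evalCLM ℂ (fun _ : ℤ => R) 1 n) x‖ = ‖x n‖ := by
    intro n x
    have h1 : (((wt n : ℝ) : ℂ)⁻¹ • lp.evalCLM ℂ (fun _ : ℤ => R) 1 n) x =
      ((wt n : ℝ) : ℂ)⁻¹ • x n := rfl
    rw [h1, norm_smul, norm_inv, hwn, ← mul_assoc, mul_inv_cancel₀ (wt_pos n).ne', one_mul]
  exact
  { mon := fun n => ((wt n : ℝ) : ℂ) • lp.singleContinuousLinearMap ℂ (fun _ : ℤ => R) 1 n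
    mon_norm := by
      intro n r
      have h1 : (((wt n : ℝ) : ℂ) • lp.singleContinuousLinearMap ℂ (fun _ : ℤ => R) 1 n) r =
        ((wt n : ℝ) : ℂ) • lp.single 1 n r := rfl
      rw [h1]
      refine (norm_smul (((wt n : ℝ) : ℂ)) (lp.single (E := fun _ : ℤ => R) 1 n r)).trans ?_
      rw [hwn, lp.norm_single (by norm_num)]
    co := fun n => ((wt n : ℝ) : ℂ)⁻¹ • lp.evalCLM ℂ (fun _ : ℤ => R) 1 n
    co_mon := by
      intro m n r
      have h1 : (((wt m : ℝ) : ℂ)⁻¹ • lp.evalCLM ℂ (fun _ : ℤ => R) 1 m)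
          ((((wt n : ℝ) : ℂ) • lp.singleContinuousLinearMap ℂ (fun _ : ℤ => R) 1 n) r) =
        ((wt m : ℝ) : ℂ)⁻¹ • (((wt n : ℝ) : ℂ) • (Pi.single n r : ℤ → R) m) := rfl
      rw [h1]
      by_cases h : m = n
      · subst h
        rw [if_pos rfl, Pi.single_eq_same, smul_smul, inv_mul_cancel₀ (hw m), one_smul]
      · rw [if_neg h, Pi.single_eq_of_ne h, smul_zero, smul_zero]
    hn := by
      intro x
      have h1 := lp.hasSum_norm (E := fun _ : ℤ => R) (p := 1) (by norm_num) x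
      simp only [ENNReal.toReal_one, Real.rpow_one] at h1
      have h2 : (fun n : ℤ => wt n * ‖(((wt n : ℝ) : ℂ)⁻¹ • lp.evalCLM ℂ (fun _ : ℤ => R) 1 n) x‖)
          = fun n : ℤ => ‖x n‖ := by
        funext n; exact hco n x
      rw [h2]
      exact h1
    hs := by
      intro x
      have h1 := lp.hasSum_single (E := fun _ : ℤ => R) (p := 1) (by norm_num) x
      have h2 : (fun n : ℤ => (((wt n : ℝ) : ℂ) • lp.singleContinuousLinearMap ℂ
          (fun _ : ℤ => R) 1 n) ((((wt n : ℝ) : ℂ)⁻¹ • lp.evalCLM ℂ (fun _ : ℤ => R) 1 n) x))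
          = fun n : ℤ => lp.single 1 n (x n) := by
        funext n
        have h3 : (((wt n : ℝ) : ℂ) • lp.singleContinuousLinearMap ℂ
          (fun _ : ℤ => R) 1 n) ((((wt n : ℝ) : ℂ)⁻¹ • lp.evalCLM ℂ (fun _ : ℤ => R) 1 n) x) =
          ((wt n : ℝ) : ℂ) • lp.single 1 n (((wt n : ℝ) : ℂ)⁻¹ • x n) :=
          rfl
        rw [h3, lp.single_smul, smul_smul, mul_inv_cancel₀ (hw n), one_smul]
      rw [h2]
      exact h1 }

/-- the concrete space -/
def TWt (R : Type) [NormedAddCommGroup R] : Type := lp (fun _ : ℤ => R) 1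

noncomputable instance : NormedAddCommGroup (TWt R) :=
  inferInstanceAs (NormedAddCommGroup (lp (fun _ : ℤ => R) 1))

noncomputable instance : NormedSpace ℂ (TWt R) :=
  inferInstanceAs (NormedSpace ℂ (lp (fun _ : ℤ => R) 1))

instance [CompleteSpace R] : CompleteSpace (TWt R) :=
  inferInstanceAs (CompleteSpace (lp (fun _ : ℤ => R) 1))

/-- the model of `PW` -/
noncomputable def pwM : PW R (TWt R) := pwL R

end model

/-! ### the algebra -/

section ring
variable (R : Type) [NormedRing R] [NormedAlgebra ℂ R] [CompleteSpace R]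

/-- product of monomials -/
noncomputable def mulb (m n : ℤ) : R →L[ℂ] R →L[ℂ] TWt R :=
  (ContinuousLinearMap.compL ℂ R R (TWt R) ((pwM R).mon (m + n))).comp (ContinuousLinearMap.mul ℂ R)

set_option linter.unusedSectionVars false

lemma mulb_apply (m n : ℤ) (r s : R) : mulb R m n r s = (pwM R).mon (m + n) (r * s) := rfl

lemma mulb_norm (m n : ℤ) (r s : R) : ‖mulb R m n r s‖ ≤ wt m * ‖r‖ * (wt n * ‖s‖) := by
  rw [mulb_apply, (pwM R).mon_norm]
  calc wt (m + n) * ‖r * s‖ ≤ (wt m * wt n) * (‖r‖ * ‖s‖) :=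
        mul_le_mul (wt_add m n) (norm_mul_le r s) (norm_nonneg _)
          (mul_nonneg (wt_pos m).le (wt_pos n).le)
    _ = _ := by ring

/-- the product -/
noncomputable def mulL : TWt R →L[ℂ] TWt R →L[ℂ] TWt R :=
  PW.ex2 (pwM R) (pwM R) (mulb R) (mulb_norm R)

lemma mulL_mon (m n : ℤ) (r s : R) :
    mulL R ((pwM R).mon m r) ((pwM R).mon n s) = (pwM R).mon (m + n) (r * s) :=
  PW.ex2_mon (pwM R) (pwM R) (mulb R) (mulb_norm R) m n r s

lemma mulL_assoc (x y z : TWt R) : mulL R (mulL R x y) z = mulL R x (mulL R y z) := by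
  revert x
  refine (pwM R).ind_eq _ _ (by fun_prop) (by fun_prop)
    (fun x y => by simp only [map_add, _root_.add_apply])
    (fun x y => by simp only [map_add, _root_.add_apply]) ?_
  intro m r
  revert y
  refine (pwM R).ind_eq _ _ (by fun_prop) (by fun_prop)
    (fun x y => by simp only [map_add, _root_.add_apply])
    (fun x y => by simp only [map_add, _root_.add_apply]) ?_
  intro n s
  revert z
  refine (pwM R).ind_eq _ _ (by fun_prop) (by fun_prop)
    (fun x y => by simp only [map_add])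
    (fun x y => by simp only [map_add]) ?_
  intro k t
  rw [mulL_mon, mulL_mon, mulL_mon, mulL_mon, add_assoc, mul_assoc]

lemma one_mulL (x : TWt R) : mulL R ((pwM R).mon 0 1) x = x := by
  revert x
  refine (pwM R).ind_eq _ _ (by fun_prop) (by fun_prop)
    (fun x y => by simp only [map_add]) (fun x y => rfl) ?_
  intro n s
  rw [mulL_mon, zero_add, one_mul]

lemma mulL_one (x : TWt R) : mulL R x ((pwM R).mon 0 1) = x := by
  revert x
  refine (pwM R).ind_eq _ _ (by fun_prop) (by fun_prop)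
    (fun x y => by simp only [map_add, _root_.add_apply]) (fun x y => rfl) ?_
  intro n s
  rw [mulL_mon, add_zero, mul_one]

noncomputable instance : NormedRing (TWt R) :=
  { (inferInstance : NormedAddCommGroup (TWt R)) with
    mul := fun x y => mulL R x y
    one := (pwM R).mon 0 1
    mul_assoc := mulL_assoc R
    one_mul := one_mulL R
    mul_one := mulL_one R
    left_distrib := fun x y z => map_add (mulL R x) y z
    right_distrib := fun x y z => by
      change mulL R (x + y) z = mulL R x z + mulL R y z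
      rw [map_add, _root_.add_apply]
    zero_mul := fun x => by
      change mulL R 0 x = 0
      rw [map_zero, _root_.zero_apply]
    mul_zero := fun x => map_zero (mulL R x)
    norm_mul_le := fun x y => PW.ex2_norm (pwM R) (pwM R) (mulb R) (mulb_norm R) x y }

noncomputable instance : NormedAlgebra ℂ (TWt R) :=
  { Algebra.ofModule (R := ℂ) (A := TWt R)
      (fun c x y => by
        change mulL R (c • x) y = c • mulL R x y
        rw [map_smul, _root_.smul_apply])
      (fun c x y => map_smul (mulL R x) c y) with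
    norm_smul_le := fun c x => (norm_smul c x).le }

end ring

/-- weighted `ℓ¹` algebra of Laurent series with coefficients in `R` -/
structure TW (R A : Type) [NormedRing R] [NormedAlgebra ℂ R] [NormedRing A] [NormedAlgebra ℂ A]
    extends PW R A where
  mon_mul : ∀ m n r s, mon m r * mon n s = mon (m + n) (r * s)
  mon_one : mon 0 1 = 1

theorem exists_TW (R : Type) [NormedRing R] [NormedAlgebra ℂ R] [CompleteSpace R] :
    ∃ (A : Type) (_ : NormedRing A) (_ : NormedAlgebra ℂ A) (_ : CompleteSpace A),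
      Nonempty (TW R A) :=
  ⟨TWt R, inferInstance, inferInstance, inferInstance,
    ⟨{ toPW := pwM R
       mon_mul := mulL_mon R
       mon_one := rfl }⟩⟩

/-- commutativity -/
theorem mulL_comm (R : Type) [NormedCommRing R] [NormedAlgebra ℂ R] [CompleteSpace R]
    (x y : TWt R) : mulL R x y = mulL R y x := by
  revert x
  refine (pwM R).ind_eq _ _ (by fun_prop) (by fun_prop)
    (fun x y => by simp only [map_add, _root_.add_apply])
    (fun x y => by simp only [map_add]) ?_
  intro m r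
  revert y
  refine (pwM R).ind_eq _ _ (by fun_prop) (by fun_prop)
    (fun x y => by simp only [map_add])
    (fun x y => by simp only [map_add, _root_.add_apply]) ?_
  intro n s
  rw [mulL_mon, mulL_mon, add_comm, mul_comm]

noncomputable instance : NormedCommRing (TWt ℂ) :=
  { (inferInstance : NormedRing (TWt ℂ)) with
    mul_comm := mulL_comm ℂ }

theorem exists_TWc : ∃ (B : Type) (_ : NormedCommRing B) (_ : NormedAlgebra ℂ B)
    (_ : CompleteSpace B), Nonempty (TW ℂ B) :=
  ⟨TWt ℂ, inferInstance, inferInstanceAs (NormedAlgebra ℂ (TWt ℂ)), inferInstance,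
    ⟨{ toPW := pwM ℂ
       mon_mul := mulL_mon ℂ
       mon_one := rfl }⟩⟩

/-! ### two variable induction and the scalar algebra `B` -/

section ind2
variable {R A R' A' : Type} [NormedAddCommGroup R] [NormedSpace ℂ R] [NormedAddCommGroup A]
  [NormedSpace ℂ A] (T : PW R A) [NormedAddCommGroup R'] [NormedSpace ℂ R'] [NormedAddCommGroup A']
  [NormedSpace ℂ A'] (T' : PW R' A')

include T T' in
lemma PW.ind2 {G : Type} [TopologicalSpace G] [T2Space G] [Add G] (f g : A → A' → G)
    (h1 : ∀ y, Continuous fun x => f x y) (h2 : ∀ y, Continuous fun x => g x y)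
    (h3 : ∀ x, Continuous fun y => f x y) (h4 : ∀ x, Continuous fun y => g x y)
    (h5 : ∀ x x' y, f (x + x') y = f x y + f x' y) (h6 : ∀ x x' y, g (x + x') y = g x y + g x' y)
    (h7 : ∀ x y y', f x (y + y') = f x y + f x y') (h8 : ∀ x y y', g x (y + y') = g x y + g x y')
    (h9 : ∀ m r n s, f (T.mon m r) (T'.mon n s) = g (T.mon m r) (T'.mon n s)) :
    ∀ x y, f x y = g x y := by
  intro x y
  refine T.ind_eq (fun x => f x y) (fun x => g x y) (h1 y) (h2 y) (fun x x' => h5 x x' y)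
    (fun x x' => h6 x x' y) ?_ x
  intro m r
  exact T'.ind_eq (fun y => f (T.mon m r) y) (fun y => g (T.mon m r) y) (h3 _) (h4 _)
    (fun y y' => h7 _ y y') (fun y y' => h8 _ y y') (fun n s => h9 m r n s) y

end ind2

/-- combination of a sequence of vectors of norm at most `1` -/
noncomputable def sumX {B : Type} [NormedAddCommGroup B] [NormedSpace ℂ B] [CompleteSpace B]
    (w : ℕ → B) (hw : ∀ n, ‖w n‖ ≤ 1) : X1 →L[ℝ] B := by
  have hb : ∀ (x : X1) n, ‖((x n : ℝ) : ℂ) • w n‖ ≤ ‖x n‖ := fun x n => by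
    rw [norm_smul, Complex.norm_real]
    exact mul_le_of_le_one_right (norm_nonneg _) (hw n)
  have hx : ∀ x : X1, HasSum (fun n => ‖x n‖) ‖x‖ := fun x => by
    have h1 := lp.hasSum_norm (E := fun _ : ℕ => ℝ) (p := 1) (by norm_num) x
    simpa only [ENNReal.toReal_one, Real.rpow_one] using h1
  have hs : ∀ x : X1, Summable (fun n => ((x n : ℝ) : ℂ) • w n) := fun x =>
    Summable.of_norm_bounded (hx x).summable (hb x)
  let f : X1 →+ B :=
    { toFun := fun x => ∑' n, ((x n : ℝ) : ℂ) • w n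
      map_zero' := by
        have : ∀ n, (((0 : X1) n : ℝ) : ℂ) • w n = 0 := fun n => by
          rw [lp.coeFn_zero]; simp
        simp only [this, tsum_zero]
      map_add' := fun x y => by
        rw [← (hs x).tsum_add (hs y)]
        refine tsum_congr fun n => ?_
        rw [lp.coeFn_add, Pi.add_apply, Complex.ofReal_add, add_smul] }
  exact AddMonoidHom.toRealLinearMap f (AddMonoidHomClass.continuous_of_bound f 1 (fun x => by
    rw [one_mul]
    exact tsum_of_norm_bounded (hx x) (hb x)))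

lemma sumX_hs {B : Type} [NormedAddCommGroup B] [NormedSpace ℂ B] [CompleteSpace B]
    (w : ℕ → B) (hw : ∀ n, ‖w n‖ ≤ 1) (x : X1) :
    HasSum (fun n => ((x n : ℝ) : ℂ) • w n) (sumX w hw x) := by
  have hb : ∀ n, ‖((x n : ℝ) : ℂ) • w n‖ ≤ ‖x n‖ := fun n => by
    rw [norm_smul, Complex.norm_real]
    exact mul_le_of_le_one_right (norm_nonneg _) (hw n)
  have hx : HasSum (fun n => ‖x n‖) ‖x‖ := by
    have h1 := lp.hasSum_norm (E := fun _ : ℕ => ℝ) (p := 1) (by norm_num) x
    simpa only [ENNReal.toReal_one, Real.rpow_one] using h1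
  have hs : Summable (fun n => ((x n : ℝ) : ℂ) • w n) :=
    Summable.of_norm_bounded hx.summable hb
  exact hs.hasSum

section scalar
set_option linter.unusedSectionVars false
variable {B : Type} [NormedCommRing B] [NormedAlgebra ℂ B] [CompleteSpace B] (T : TW ℂ B)

/-- powers of `t` -/
noncomputable def tau (n : ℤ) : B := T.mon n 1

lemma mon_eq (n : ℤ) (c : ℂ) : T.mon n c = c • tau T n := by
  unfold tau
  rw [← map_smul, smul_eq_mul, mul_one]

lemma tau_norm (n : ℤ) : ‖tau T n‖ = wt n := by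
  unfold tau
  rw [T.mon_norm, norm_one, mul_one]

/-- the involution of `B` -/
noncomputable def sBB : B →L[ℝ] B :=
  T.exR (fun n => ((T.mon (-n) : ℂ →ₗ[ℂ] B) : ℂ →+ B).comp (starRingEnd ℂ : ℂ →+ ℂ)) 1
    (fun n r => by
      change ‖T.mon (-n) (conj r)‖ ≤ _
      rw [T.mon_norm, wt_neg, Complex.norm_conj, one_mul])

lemma sBB_mon (n : ℤ) (c : ℂ) : sBB T (T.mon n c) = T.mon (-n) (conj c) :=
  T.exR_mon _ _ _ n c

lemma sBB_mul (x y : B) : sBB T (x * y) = sBB T x * sBB T y := by
  revert x y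
  refine PW.ind2 T.toPW T.toPW _ _ (fun y => by fun_prop) (fun y => by fun_prop)
    (fun x => by fun_prop) (fun x => by fun_prop)
    (fun x x' y => by simp only [map_add, add_mul]) (fun x x' y => by simp only [map_add, add_mul])
    (fun x y y' => by simp only [map_add, mul_add]) (fun x y y' => by simp only [map_add, mul_add])
    ?_
  intro m r n s
  rw [T.mon_mul, sBB_mon, sBB_mon, sBB_mon, T.mon_mul, neg_add, map_mul]

lemma sBB_sBB (x : B) : sBB T (sBB T x) = x := by
  revert x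
  refine T.ind_eq _ _ (by fun_prop) (by fun_prop) (fun x y => by simp only [map_add])
    (fun x y => rfl) ?_
  intro n c
  rw [sBB_mon, sBB_mon, neg_neg, Complex.conj_conj]

lemma sBB_smul (c : ℂ) (x : B) : sBB T (c • x) = (conj c) • sBB T x := by
  revert x
  refine T.ind_eq _ _ (by fun_prop) (by fun_prop) (fun x y => by simp only [map_add, smul_add])
    (fun x y => by simp only [map_add, smul_add]) ?_
  intro n d
  rw [← map_smul, sBB_mon, sBB_mon, ← map_smul, smul_eq_mul, smul_eq_mul, map_mul]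

lemma sBB_tau (n : ℤ) : sBB T (tau T n) = tau T (-n) := by
  unfold tau
  rw [sBB_mon, map_one]

lemma co_sBB (n : ℤ) (x : B) : T.co n (sBB T x) = conj (T.co (-n) x) := by
  revert x
  refine T.ind_eq _ _ (by fun_prop) ?_ (fun x y => by simp only [map_add])
    (fun x y => by simp only [map_add]) ?_
  · exact Complex.continuous_conj.comp (T.co (-n)).continuous
  intro m c
  rw [sBB_mon, T.co_mon, T.co_mon]
  by_cases h : n = -m
  · rw [if_pos h, if_pos (by omega)]
  · rw [if_neg h, if_neg (by omega), map_zero]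

/-- primitive -/
noncomputable def IntB : B →L[ℂ] B :=
  T.exL (fun n => if n = 0 then 0 else ((Complex.I * n)⁻¹ : ℂ) • T.mon n) 1 (fun n r => by
    rw [one_mul]
    by_cases h : n = 0
    · rw [if_pos h, _root_.zero_apply, norm_zero]
      exact mul_nonneg (wt_pos n).le (norm_nonneg _)
    · rw [if_neg h, _root_.smul_apply, norm_smul, T.mon_norm]
      refine mul_le_of_le_one_left (mul_nonneg (wt_pos n).le (norm_nonneg _)) ?_
      rw [norm_inv, norm_mul, Complex.norm_I, one_mul, Complex.norm_intCast]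
      apply inv_le_one_of_one_le₀
      rw [← Int.cast_abs]
      exact_mod_cast Int.one_le_abs h)

lemma IntB_mon (n : ℤ) (c : ℂ) :
    IntB T (T.mon n c) = (if n = 0 then 0 else ((Complex.I * n)⁻¹ : ℂ) • T.mon n) c :=
  T.exL_mon _ _ _ n c

lemma co_IntB (n : ℤ) (x : B) :
    T.co n (IntB T x) = if n = 0 then 0 else T.co n x / (Complex.I * n) := by
  by_cases h : n = 0
  · rw [if_pos h]
    revert x
    refine T.ind_eq _ _ (by fun_prop) continuous_const (fun x y => by simp only [map_add])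
      (fun x y => by simp) ?_
    intro m c
    rw [IntB_mon]
    by_cases hm : m = 0
    · rw [if_pos hm, _root_.zero_apply, map_zero]
    · rw [if_neg hm, _root_.smul_apply, map_smul, T.co_mon, if_neg (by omega), smul_zero]
  · rw [if_neg h]
    revert x
    refine T.ind_eq _ _ (by fun_prop) (by fun_prop) (fun x y => by simp only [map_add])
      (fun x y => by rw [map_add]; ring) ?_
    intro m c
    rw [IntB_mon]
    by_cases hm : m = 0
    · rw [if_pos hm, _root_.zero_apply, map_zero, T.co_mon, if_neg (by omega), zero_div]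
    · rw [if_neg hm, _root_.smul_apply, map_smul, T.co_mon]
      by_cases hmn : n = m
      · rw [if_pos hmn, hmn, smul_eq_mul]; field_simp
      · rw [if_neg hmn, smul_zero, zero_div]

open Classical in
/-- evaluation on the circle -/
noncomputable def eB (z : ℂ) : B →L[ℂ] ℂ :=
  T.exL (fun n => if ‖z‖ = 1 then (z ^ n) • ContinuousLinearMap.id ℂ ℂ else 0) 1 (fun n r => by
    rw [one_mul]
    by_cases h : ‖z‖ = 1
    · rw [if_pos h, _root_.smul_apply, norm_smul, norm_zpow, h, _root_.one_zpow, one_mul]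
      exact le_mul_of_one_le_left (norm_nonneg _) (one_le_wt n)
    · rw [if_neg h, _root_.zero_apply, norm_zero]
      exact mul_nonneg (wt_pos n).le (norm_nonneg _))

lemma eB_mon {z : ℂ} (h : ‖z‖ = 1) (n : ℤ) (c : ℂ) : eB T z (T.mon n c) = z ^ n * c := by
  unfold eB
  rw [T.exL_mon, if_pos h]
  rfl

lemma eB_mul {z : ℂ} (h : ‖z‖ = 1) (x y : B) : eB T z (x * y) = eB T z x * eB T z y := by
  revert x y
  refine PW.ind2 T.toPW T.toPW _ _ (fun y => by fun_prop) (fun y => by fun_prop)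
    (fun x => by fun_prop) (fun x => by fun_prop)
    (fun x x' y => by simp only [map_add, add_mul]) (fun x x' y => by simp only [map_add, add_mul])
    (fun x y y' => by simp only [map_add, mul_add]) (fun x y y' => by simp only [map_add, mul_add])
    ?_
  intro m r n s
  have hz : z ≠ 0 := by intro h0; rw [h0, norm_zero] at h; exact zero_ne_one h
  rw [T.mon_mul, eB_mon T h, eB_mon T h, eB_mon T h, zpow_add₀ hz]
  ring

lemma conj_zpow {z : ℂ} (h : ‖z‖ = 1) (n : ℤ) : conj (z ^ n) = z ^ (-n) := by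
  have h1 : conj z = z⁻¹ := (Complex.inv_eq_conj h).symm
  rw [map_zpow₀, h1, _root_.inv_zpow, _root_.zpow_neg]

lemma eB_sBB {z : ℂ} (h : ‖z‖ = 1) (x : B) : eB T z (sBB T x) = conj (eB T z x) := by
  revert x
  refine T.ind_eq _ _ (by fun_prop) ?_ (fun x y => by simp only [map_add])
    (fun x y => by simp only [map_add]) ?_
  · exact Complex.continuous_conj.comp (eB T z).continuous
  intro n c
  rw [sBB_mon, eB_mon T h, eB_mon T h, map_mul, conj_zpow h]

lemma eB_sum {z : ℂ} (h : ‖z‖ = 1) (x : B) :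
    HasSum (fun n : ℤ => T.co n x * z ^ n) (eB T z x) := by
  have h1 := (T.hs x).mapL (eB T z)
  have h2 : (fun n : ℤ => T.co n x * z ^ n) = fun n => eB T z (T.mon n (T.co n x)) := by
    funext n
    rw [eB_mon T h, mul_comm]
  rw [h2]
  exact h1

lemma wt_even (n : ℕ) : wt (2 * n + 2) = 4 ^ (n + 1) := by
  unfold wt
  have : (2 * (n : ℤ) + 2).natAbs = 2 * (n + 1) := by omega
  rw [this, pow_mul]; norm_num

lemma wt_odd (n : ℕ) : wt (2 * n + 1) = 4 ^ (n + 1) / 2 := by
  unfold wt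
  have : (2 * (n : ℤ) + 1).natAbs = 2 * n + 1 := by omega
  rw [this, pow_succ, pow_mul, pow_succ]; norm_num; ring

/-- the vectors for `kL` -/
noncomputable def wk (n : ℕ) : B := (((1 / 4 ^ (n + 1) / (2 * n + 2) : ℝ)) : ℂ) • tau T (2 * n + 2)

/-- the vectors for `thL` -/
noncomputable def wth (n : ℕ) : B := (((1 / 4 ^ (n + 1) : ℝ)) : ℂ) • tau T (2 * n + 2)

/-- the vectors for `QL` -/
noncomputable def wQ (n : ℕ) : B := (((1 / 4 ^ (n + 1) : ℝ)) : ℂ) • tau T (2 * n + 1)

lemma wk_norm (n : ℕ) : ‖wk T n‖ ≤ 1 := by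
  unfold wk
  rw [norm_smul, tau_norm, wt_even, Complex.norm_real, Real.norm_eq_abs, abs_of_nonneg (by positivity)]
  have h1 : (0 : ℝ) < 2 * n + 2 := by positivity
  have h2 : (0 : ℝ) < 4 ^ (n + 1) := by positivity
  have : (1 / 4 ^ (n + 1) / (2 * (n : ℝ) + 2)) * 4 ^ (n + 1) = 1 / (2 * (n : ℝ) + 2) := by
    field_simp
  rw [this, div_le_one h1]
  have : (0 : ℝ) ≤ n := Nat.cast_nonneg n
  linarith

lemma wth_norm (n : ℕ) : ‖wth T n‖ ≤ 1 := by
  unfold wth
  rw [norm_smul, tau_norm, wt_even, Complex.norm_real, Real.norm_eq_abs, abs_of_nonneg (by positivity)]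
  have h2 : (0 : ℝ) < 4 ^ (n + 1) := by positivity
  rw [one_div, inv_mul_cancel₀ h2.ne']

lemma wQ_norm (n : ℕ) : ‖wQ T n‖ ≤ 1 := by
  unfold wQ
  rw [norm_smul, tau_norm, wt_odd, Complex.norm_real, Real.norm_eq_abs, abs_of_nonneg (by positivity)]
  have h2 : (0 : ℝ) < 4 ^ (n + 1) := by positivity
  have : (1 / 4 ^ (n + 1) : ℝ) * (4 ^ (n + 1) / 2) = 1 / 2 := by field_simp
  rw [this]; norm_num

/-- `kL`, `thL`, `QL` -/
noncomputable def kLB : X1 →L[ℝ] B := sumX (wk T) (wk_norm T)
/-- `kL`, `thL`, `QL` -/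
noncomputable def thLB : X1 →L[ℝ] B := sumX (wth T) (wth_norm T)
/-- `kL`, `thL`, `QL` -/
noncomputable def QLB : X1 →L[ℝ] B := sumX (wQ T) (wQ_norm T)

lemma kLB_hs (x : X1) : HasSum (fun n : ℕ => (((x n / 4 ^ (n + 1) / (2 * n + 2) : ℝ)) : ℂ) •
    tau T (2 * n + 2)) (kLB T x) := by
  have h1 := sumX_hs (wk T) (wk_norm T) x
  have h2 : (fun n : ℕ => ((x n : ℝ) : ℂ) • wk T n) =
      fun n : ℕ => (((x n / 4 ^ (n + 1) / (2 * n + 2) : ℝ)) : ℂ) • tau T (2 * n + 2) := by
    funext n
    unfold wk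
    rw [smul_smul, ← Complex.ofReal_mul]
    congr 2
    ring
  rw [h2] at h1
  exact h1

lemma thLB_hs (x : X1) : HasSum (fun n : ℕ => (((x n / 4 ^ (n + 1) : ℝ)) : ℂ) •
    tau T (2 * n + 2)) (thLB T x) := by
  have h1 := sumX_hs (wth T) (wth_norm T) x
  have h2 : (fun n : ℕ => ((x n : ℝ) : ℂ) • wth T n) =
      fun n : ℕ => (((x n / 4 ^ (n + 1) : ℝ)) : ℂ) • tau T (2 * n + 2) := by
    funext n
    unfold wth
    rw [smul_smul, ← Complex.ofReal_mul]
    congr 2
    ring
  rw [h2] at h1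
  exact h1

lemma QLB_hs (x : X1) : HasSum (fun n : ℕ => (((x n / 4 ^ (n + 1) : ℝ)) : ℂ) •
    tau T (2 * n + 1)) (QLB T x) := by
  have h1 := sumX_hs (wQ T) (wQ_norm T) x
  have h2 : (fun n : ℕ => ((x n : ℝ) : ℂ) • wQ T n) =
      fun n : ℕ => (((x n / 4 ^ (n + 1) : ℝ)) : ℂ) • tau T (2 * n + 1) := by
    funext n
    unfold wQ
    rw [smul_smul, ← Complex.ofReal_mul]
    congr 2
    ring
  rw [h2] at h1
  exact h1

lemma co_tau (m n : ℤ) : T.co m (tau T n) = if m = n then 1 else 0 := T.co_mon m n 1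

lemma co_kLB (x : X1) (m : ℤ) : T.co m (kLB T x) =
    if 0 < m ∧ Even m then (((x (m.toNat / 2 - 1) / 4 ^ (m.toNat / 2) / m : ℝ)) : ℂ) else 0 := by
  have h1 := (kLB_hs T x).mapL (T.co m)
  by_cases h : 0 < m ∧ Even m
  · rw [if_pos h]
    obtain ⟨h0, k, hk⟩ := h
    have hm : m = 2 * ((m.toNat / 2 - 1 : ℕ) : ℤ) + 2 := by omega
    have h2 := hasSum_single (f := fun n : ℕ => T.co m ((((x n / 4 ^ (n + 1) / (2 * n + 2) : ℝ)) : ℂ) •
      tau T (2 * n + 2))) (m.toNat / 2 - 1) (by
        intro n hn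
        rw [map_smul, co_tau, if_neg (by omega), smul_zero])
    refine h1.unique ?_
    have h3 : T.co m ((((x (m.toNat / 2 - 1) / 4 ^ ((m.toNat / 2 - 1) + 1) /
        (2 * ((m.toNat / 2 - 1 : ℕ) : ℝ) + 2) : ℝ)) : ℂ) • tau T (2 * ((m.toNat / 2 - 1 : ℕ) : ℤ) + 2)) =
        (((x (m.toNat / 2 - 1) / 4 ^ (m.toNat / 2) / m : ℝ)) : ℂ) := by
      rw [map_smul, co_tau, if_pos hm, smul_eq_mul, mul_one]
      have e1 : m.toNat / 2 - 1 + 1 = m.toNat / 2 := by omega
      have e2 : (2 * ((m.toNat / 2 - 1 : ℕ) : ℝ) + 2) = (m : ℝ) := by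
        have : (m : ℝ) = ((2 * ((m.toNat / 2 - 1 : ℕ) : ℤ) + 2 : ℤ) : ℝ) := by rw [← hm]
        rw [this]; push_cast; ring
      rw [e1, e2]
    rw [← h3]
    exact h2
  · rw [if_neg h]
    refine h1.unique ?_
    have h2 : (fun n : ℕ => T.co m ((((x n / 4 ^ (n + 1) / (2 * n + 2) : ℝ)) : ℂ) •
      tau T (2 * n + 2))) = fun _ => 0 := by
      funext n
      rw [map_smul, co_tau, if_neg, smul_zero]
      intro hmn
      exact h ⟨by omega, ⟨(n : ℤ) + 1, by omega⟩⟩
    rw [h2]
    exact hasSum_zero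

lemma co_thLB (x : X1) (m : ℤ) : T.co m (thLB T x) =
    if 0 < m ∧ Even m then (((x (m.toNat / 2 - 1) / 4 ^ (m.toNat / 2) : ℝ)) : ℂ) else 0 := by
  have h1 := (thLB_hs T x).mapL (T.co m)
  by_cases h : 0 < m ∧ Even m
  · rw [if_pos h]
    obtain ⟨h0, k, hk⟩ := h
    have hm : m = 2 * ((m.toNat / 2 - 1 : ℕ) : ℤ) + 2 := by omega
    have h2 := hasSum_single (f := fun n : ℕ => T.co m ((((x n / 4 ^ (n + 1) : ℝ)) : ℂ) •
      tau T (2 * n + 2))) (m.toNat / 2 - 1) (by
        intro n hn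
        rw [map_smul, co_tau, if_neg (by omega), smul_zero])
    refine h1.unique ?_
    have h3 : T.co m ((((x (m.toNat / 2 - 1) / 4 ^ ((m.toNat / 2 - 1) + 1) : ℝ)) : ℂ) •
        tau T (2 * ((m.toNat / 2 - 1 : ℕ) : ℤ) + 2)) =
        (((x (m.toNat / 2 - 1) / 4 ^ (m.toNat / 2) : ℝ)) : ℂ) := by
      rw [map_smul, co_tau, if_pos hm, smul_eq_mul, mul_one]
      have e1 : m.toNat / 2 - 1 + 1 = m.toNat / 2 := by omega
      rw [e1]
    rw [← h3]
    exact h2
  · rw [if_neg h]
    refine h1.unique ?_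
    have h2 : (fun n : ℕ => T.co m ((((x n / 4 ^ (n + 1) : ℝ)) : ℂ) •
      tau T (2 * n + 2))) = fun _ => 0 := by
      funext n
      rw [map_smul, co_tau, if_neg, smul_zero]
      intro hmn
      exact h ⟨by omega, ⟨(n : ℤ) + 1, by omega⟩⟩
    rw [h2]
    exact hasSum_zero

lemma co_QLB (x : X1) (m : ℤ) : T.co m (QLB T x) =
    if 0 < m ∧ Odd m then (((x (m.toNat / 2) / 4 ^ (m.toNat / 2 + 1) : ℝ)) : ℂ) else 0 := by
  have h1 := (QLB_hs T x).mapL (T.co m)
  by_cases h : 0 < m ∧ Odd m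
  · rw [if_pos h]
    obtain ⟨h0, k, hk⟩ := h
    have hm : m = 2 * ((m.toNat / 2 : ℕ) : ℤ) + 1 := by omega
    have h2 := hasSum_single (f := fun n : ℕ => T.co m ((((x n / 4 ^ (n + 1) : ℝ)) : ℂ) •
      tau T (2 * n + 1))) (m.toNat / 2) (by
        intro n hn
        rw [map_smul, co_tau, if_neg (by omega), smul_zero])
    refine h1.unique ?_
    have h3 : T.co m ((((x (m.toNat / 2) / 4 ^ ((m.toNat / 2) + 1) : ℝ)) : ℂ) •
        tau T (2 * ((m.toNat / 2 : ℕ) : ℤ) + 1)) =
        (((x (m.toNat / 2) / 4 ^ (m.toNat / 2 + 1) : ℝ)) : ℂ) := by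
      rw [map_smul, co_tau, if_pos hm, smul_eq_mul, mul_one]
    rw [← h3]
    exact h2
  · rw [if_neg h]
    refine h1.unique ?_
    have h2 : (fun n : ℕ => T.co m ((((x n / 4 ^ (n + 1) : ℝ)) : ℂ) •
      tau T (2 * n + 1))) = fun _ => 0 := by
      funext n
      rw [map_smul, co_tau, if_neg, smul_zero]
      intro hmn
      exact h ⟨by omega, ⟨(n : ℤ), by omega⟩⟩
    rw [h2]
    exact hasSum_zero

lemma eB_tau {z : ℂ} (h : ‖z‖ = 1) (n : ℤ) : eB T z (tau T n) = z ^ n := by
  unfold tau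
  rw [eB_mon T h, mul_one]

lemma eB_kLB (x : X1) {z : ℂ} (h : ‖z‖ = 1) : eB T z (kLB T x) = kapF x z := by
  have h1 := (kLB_hs T x).mapL (eB T z)
  rw [← h1.tsum_eq]
  unfold kapF
  refine tsum_congr fun n => ?_
  rw [map_smul, eB_tau T h, smul_eq_mul]
  congr 1

lemma eB_thLB (x : X1) {z : ℂ} (h : ‖z‖ = 1) : eB T z (thLB T x) = thF x z := by
  have h1 := (thLB_hs T x).mapL (eB T z)
  rw [← h1.tsum_eq]
  unfold thF
  refine tsum_congr fun n => ?_
  rw [map_smul, eB_tau T h, smul_eq_mul]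
  congr 1

lemma cf_bound (x : B) : Summable (fun n : ℕ => ‖(4 : ℝ) ^ (n + 1) * (T.co (2 * n + 2) x).im‖) ∧
    ∑' n : ℕ, ‖(4 : ℝ) ^ (n + 1) * (T.co (2 * n + 2) x).im‖ ≤ ‖x‖ := by
  have hi : Function.Injective (fun n : ℕ => (2 * (n : ℤ) + 2)) := by
    intro a b hab
    have : 2 * (a : ℤ) + 2 = 2 * (b : ℤ) + 2 := hab
    omega
  have h1 := (T.hn x).summable
  have h2 := h1.comp_injective hi
  have h3 : ∀ n : ℕ, ‖(4 : ℝ) ^ (n + 1) * (T.co (2 * n + 2) x).im‖ ≤
      wt (2 * (n : ℤ) + 2) * ‖T.co (2 * (n : ℤ) + 2) x‖ := by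
    intro n
    rw [norm_mul, wt_even, Real.norm_eq_abs, Real.norm_eq_abs, abs_of_pos (by positivity)]
    exact mul_le_mul_of_nonneg_left (Complex.abs_im_le_norm _) (by positivity)
  have h4 : Summable (fun n : ℕ => ‖(4 : ℝ) ^ (n + 1) * (T.co (2 * n + 2) x).im‖) :=
    Summable.of_nonneg_of_le (fun n => norm_nonneg _) h3 h2
  refine ⟨h4, ?_⟩
  rw [← (T.hn x).tsum_eq]
  refine (h4.tsum_le_tsum h3 h2).trans ?_
  exact tsum_comp_le_tsum_of_inj h1 (fun n => mul_nonneg (wt_pos n).le (norm_nonneg _)) hi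

/-- coefficient extraction -/
noncomputable def cfB : B →L[ℝ] X1 := by
  let g : B → X1 := fun x => ⟨fun n : ℕ => (4 : ℝ) ^ (n + 1) * (T.co (2 * n + 2) x).im,
    memℓp_gen (by
      simp only [ENNReal.toReal_one, Real.rpow_one]
      exact (cf_bound T x).1)⟩
  have hg : ∀ x (n : ℕ), g x n = (4 : ℝ) ^ (n + 1) * (T.co (2 * n + 2) x).im := fun x n => rfl
  let f : B →+ X1 :=
    { toFun := g
      map_zero' := by
        ext n
        rw [hg, map_zero]; simp
      map_add' := fun x y => by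
        ext n
        rw [lp.coeFn_add, Pi.add_apply, hg, hg, hg, map_add, Complex.add_im]; ring }
  exact AddMonoidHom.toRealLinearMap f (AddMonoidHomClass.continuous_of_bound f 1 (fun x => by
    rw [one_mul]
    have h1 := lp.hasSum_norm (E := fun _ : ℕ => ℝ) (p := 1) (by norm_num) (f x)
    simp only [ENNReal.toReal_one, Real.rpow_one] at h1
    rw [← h1.tsum_eq]
    exact (cf_bound T x).2))

lemma cfB_apply (x : B) (n : ℕ) : cfB T x n = 4 ^ (n + 1) * (T.co (2 * n + 2) x).im := rfl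

end scalar

/-! ### the two variable algebra `A` -/

section alg
set_option linter.unusedSectionVars false
variable {B : Type} [NormedCommRing B] [NormedAlgebra ℂ B] [CompleteSpace B] (T : TW ℂ B)
variable {A1 : Type} [NormedRing A1] [NormedAlgebra ℂ A1] [CompleteSpace A1]
variable {A : Type} [NormedRing A] [NormedAlgebra ℂ A] [CompleteSpace A] (U : TW A1 A)
  (L : LoopAlg A1)

lemma L_st_one : L.st 1 = 1 := by
  have h1 : ∀ x, L.st 1 * x = x := by
    intro x
    have h2 := L.st_mul (L.st x) 1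
    rw [mul_one, L.st_st] at h2
    exact h2.symm
  have h3 := h1 1
  rwa [mul_one] at h3

lemma L_ev_one (i j : Fin 2) : L.ev i j 1 = if i = j then 1 else 0 := by
  rw [← L.E_one, map_add, L.ev_E, L.ev_E]
  fin_cases i <;> fin_cases j <;> simp

lemma L_d_one (i : Fin 2) : L.d i 1 = 1 := by
  have h1 : L.P0 1 = L.E 0 0 + L.E 1 1 := by
    rw [← L.E_one, map_add, L.P0_E, L.P0_E]
  have h2 := L.P0_eq 1
  rw [h1] at h2
  have h3 := congrArg (L.ev i i) h2
  rw [map_add, map_add, map_smul, map_smul, L.ev_E, L.ev_E] at h3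
  fin_cases i
  · simpa using h3.symm
  · simpa using h3.symm

/-- matrix units -/
noncomputable def EA (i j : Fin 2) : A := U.mon 0 (L.E i j)

lemma EA_mul (i j k l : Fin 2) : EA U L i j * EA U L k l = if j = k then EA U L i l else 0 := by
  unfold EA
  rw [U.mon_mul, L.E_mul, add_zero]
  by_cases h : j = k
  · rw [if_pos h, if_pos h]
  · rw [if_neg h, if_neg h, map_zero]

lemma EA_one : EA U L 0 0 + EA U L 1 1 = 1 := by
  unfold EA
  rw [← map_add, L.E_one, U.mon_one]

/-- `S` -/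
noncomputable def SA : A := U.mon 0 L.S

lemma SA_comm (hS : ∀ x, L.S * x = x * L.S) (x : A) : SA U L * x = x * SA U L := by
  revert x
  refine U.ind_eq _ _ (by fun_prop) (by fun_prop) (fun x y => by rw [mul_add])
    (fun x y => by rw [add_mul]) ?_
  intro n r
  unfold SA
  rw [U.mon_mul, U.mon_mul, zero_add, add_zero, hS]

/-- the embedding of `B` -/
noncomputable def iA : B →L[ℂ] A :=
  T.exL (fun n => (U.mon n).comp (ContinuousLinearMap.toSpanSingleton ℂ (1 : A1))) ‖(1 : A1)‖
    (fun n r => by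
      rw [ContinuousLinearMap.comp_apply, ContinuousLinearMap.toSpanSingleton_apply, U.mon_norm,
        norm_smul]
      apply le_of_eq; ring)

lemma iA_mon (n : ℤ) (c : ℂ) : iA T U (T.mon n c) = U.mon n (c • (1 : A1)) := by
  unfold iA
  rw [T.exL_mon, ContinuousLinearMap.comp_apply, ContinuousLinearMap.toSpanSingleton_apply]

lemma iA_tau (n : ℤ) : iA T U (tau T n) = U.mon n 1 := by
  unfold tau
  rw [iA_mon, one_smul]

lemma iA_one : iA T U 1 = 1 := by
  rw [← T.mon_one, iA_mon, one_smul, U.mon_one]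

lemma iA_mul (x y : B) : iA T U (x * y) = iA T U x * iA T U y := by
  revert x y
  refine PW.ind2 T.toPW T.toPW _ _ (fun y => by fun_prop) (fun y => by fun_prop)
    (fun x => by fun_prop) (fun x => by fun_prop)
    (fun x x' y => by simp only [map_add, add_mul]) (fun x x' y => by simp only [map_add, add_mul])
    (fun x y y' => by simp only [map_add, mul_add]) (fun x y y' => by simp only [map_add, mul_add])
    ?_
  intro m r n s
  rw [T.mon_mul, iA_mon, iA_mon, iA_mon, U.mon_mul, smul_mul_smul_comm, mul_one]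

lemma iA_comm (b : B) (x : A) : iA T U b * x = x * iA T U b := by
  revert b x
  refine PW.ind2 T.toPW U.toPW _ _ (fun y => by fun_prop) (fun y => by fun_prop)
    (fun x => by fun_prop) (fun x => by fun_prop)
    (fun x x' y => by simp only [map_add, add_mul]) (fun x x' y => by simp only [map_add, mul_add])
    (fun x y y' => by simp only [mul_add]) (fun x y y' => by simp only [add_mul])
    ?_
  intro m r n s
  rw [iA_mon, U.mon_mul, U.mon_mul, add_comm, smul_one_mul, mul_smul_one]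

lemma iA_mon_mul (m n : ℤ) (c : ℂ) (r : A1) :
    iA T U (T.mon m c) * U.mon n r = U.mon (m + n) (c • r) := by
  rw [iA_mon, U.mon_mul, smul_one_mul]

/-- the involution -/
noncomputable def stA : A →L[ℝ] A :=
  U.exR (fun n => ((U.mon (-n) : A1 →ₗ[ℂ] A) : A1 →+ A).comp ((L.st : A1 →ₗ[ℝ] A1) : A1 →+ A1))
    ‖L.st‖ (fun n r => by
      change ‖U.mon (-n) (L.st r)‖ ≤ _
      rw [U.mon_norm, wt_neg]
      calc wt n * ‖L.st r‖ ≤ wt n * (‖L.st‖ * ‖r‖) :=
            mul_le_mul_of_nonneg_left (L.st.le_opNorm r) (wt_pos n).le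
        _ = _ := by ring)

lemma stA_mon (n : ℤ) (r : A1) : stA U L (U.mon n r) = U.mon (-n) (L.st r) :=
  U.exR_mon _ _ _ n r

lemma stA_mul (x y : A) : stA U L (x * y) = stA U L y * stA U L x := by
  revert x y
  refine PW.ind2 U.toPW U.toPW _ _ (fun y => by fun_prop) (fun y => by fun_prop)
    (fun x => by fun_prop) (fun x => by fun_prop)
    (fun x x' y => by simp only [map_add, add_mul]) (fun x x' y => by simp only [map_add, mul_add])
    (fun x y y' => by simp only [map_add, mul_add]) (fun x y y' => by simp only [map_add, add_mul])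
    ?_
  intro m r n s
  rw [U.mon_mul, stA_mon, stA_mon, stA_mon, U.mon_mul, L.st_mul, neg_add, add_comm]

lemma stA_stA (x : A) : stA U L (stA U L x) = x := by
  revert x
  refine U.ind_eq _ _ (by fun_prop) (by fun_prop) (fun x y => by simp only [map_add])
    (fun x y => rfl) ?_
  intro n r
  rw [stA_mon, stA_mon, neg_neg, L.st_st]

lemma stA_smul (c : ℂ) (x : A) : stA U L (c • x) = (conj c) • stA U L x := by
  revert x
  refine U.ind_eq _ _ (by fun_prop) (by fun_prop) (fun x y => by simp only [map_add, smul_add])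
    (fun x y => by simp only [map_add, smul_add]) ?_
  intro n r
  rw [← map_smul, stA_mon, stA_mon, L.st_smul, map_smul]

lemma stA_EA (i j : Fin 2) : stA U L (EA U L i j) = EA U L j i := by
  unfold EA
  rw [stA_mon, L.st_E, neg_zero]

lemma stA_iA (b : B) : stA U L (iA T U b) = iA T U (sBB T b) := by
  revert b
  refine T.ind_eq _ _ (by fun_prop) (by fun_prop) (fun x y => by simp only [map_add])
    (fun x y => by simp only [map_add]) ?_
  intro n c
  rw [iA_mon, stA_mon, sBB_mon, iA_mon, L.st_smul, L_st_one]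

lemma stSA : stA U L (SA U L) = U.mon 0 L.T := by
  unfold SA
  rw [stA_mon, L.st_S, neg_zero]

lemma stSA_mul : stA U L (SA U L) * SA U L = 1 := by
  rw [stSA]
  unfold SA
  rw [U.mon_mul, L.T_mul_S, add_zero, U.mon_one]

/-- coefficientwise linear map -/
noncomputable def cwA (G : A1 →L[ℂ] A1) : A →L[ℂ] A :=
  U.exL (fun n => (U.mon n).comp G) ‖G‖ (fun n r => by
    rw [ContinuousLinearMap.comp_apply, U.mon_norm]
    calc wt n * ‖G r‖ ≤ wt n * (‖G‖ * ‖r‖) :=
          mul_le_mul_of_nonneg_left (G.le_opNorm r) (wt_pos n).le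
      _ = _ := by ring)

lemma cwA_mon (G : A1 →L[ℂ] A1) (n : ℤ) (r : A1) : cwA U G (U.mon n r) = U.mon n (G r) := by
  unfold cwA
  rw [U.exL_mon, ContinuousLinearMap.comp_apply]

lemma cwA_iA (G : A1 →L[ℂ] A1) (b : B) (x : A) : cwA U G (iA T U b * x) = iA T U b * cwA U G x := by
  revert b x
  refine PW.ind2 T.toPW U.toPW _ _ (fun y => by fun_prop) (fun y => by fun_prop)
    (fun x => by fun_prop) (fun x => by fun_prop)
    (fun x x' y => by simp only [map_add, add_mul]) (fun x x' y => by simp only [map_add, add_mul])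
    (fun x y y' => by simp only [map_add, mul_add]) (fun x y y' => by simp only [map_add, mul_add])
    ?_
  intro m r n s
  rw [iA_mon_mul, cwA_mon, cwA_mon, iA_mon_mul, map_smul]

/-- coefficientwise functional -/
noncomputable def cwB (g : A1 →L[ℂ] ℂ) : A →L[ℂ] B :=
  U.exL (fun n => (T.mon n).comp g) ‖g‖ (fun n r => by
    rw [ContinuousLinearMap.comp_apply, T.mon_norm]
    calc wt n * ‖g r‖ ≤ wt n * (‖g‖ * ‖r‖) :=
          mul_le_mul_of_nonneg_left (g.le_opNorm r) (wt_pos n).le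
      _ = _ := by ring)

lemma cwB_mon (g : A1 →L[ℂ] ℂ) (n : ℤ) (r : A1) : cwB T U g (U.mon n r) = T.mon n (g r) := by
  unfold cwB
  rw [U.exL_mon, ContinuousLinearMap.comp_apply]

lemma cwB_one (g : A1 →L[ℂ] ℂ) (h : g 1 = 1) : cwB T U g 1 = 1 := by
  rw [← U.mon_one, cwB_mon, h, T.mon_one]

lemma ev_mulA (i j : Fin 2) (x y : A) : cwB T U (L.ev i j) (x * y) =
    cwB T U (L.ev i 0) x * cwB T U (L.ev 0 j) y + cwB T U (L.ev i 1) x * cwB T U (L.ev 1 j) y := by
  revert x y
  refine PW.ind2 U.toPW U.toPW _ _ (fun y => by fun_prop) (fun y => by fun_prop)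
    (fun x => by fun_prop) (fun x => by fun_prop)
    (fun x x' y => by simp only [map_add, add_mul])
    (fun x x' y => by simp only [map_add, add_mul]; abel)
    (fun x y y' => by simp only [map_add, mul_add])
    (fun x y y' => by simp only [map_add, mul_add]; abel)
    ?_
  intro m r n s
  rw [U.mon_mul, cwB_mon, cwB_mon, cwB_mon, cwB_mon, cwB_mon, T.mon_mul, T.mon_mul, L.ev_mul,
    map_add]

lemma ev_EA (i j k l : Fin 2) :
    cwB T U (L.ev i j) (EA U L k l) = if i = k ∧ j = l then 1 else 0 := by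
  unfold EA
  rw [cwB_mon, L.ev_E]
  by_cases h : i = k ∧ j = l
  · rw [if_pos h, if_pos h, T.mon_one]
  · rw [if_neg h, if_neg h, map_zero]

lemma ev_iA (i j : Fin 2) (b : B) :
    cwB T U (L.ev i j) (iA T U b) = if i = j then b else 0 := by
  revert b
  refine T.ind_eq _ _ (by fun_prop) ?_ (fun x y => by simp only [map_add])
    (fun x y => ?_) ?_
  · by_cases h : i = j
    · simp only [h, if_true]; exact continuous_id
    · simp only [h, if_false]; exact continuous_const
  · by_cases h : i = j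
    · simp only [h, if_true]
    · simp only [h, if_false, add_zero]
  intro n c
  rw [iA_mon, cwB_mon, map_smul, L_ev_one]
  by_cases h : i = j
  · rw [if_pos h, if_pos h, smul_eq_mul, mul_one]
  · rw [if_neg h, if_neg h, smul_zero, map_zero]

lemma ev_SA (i j : Fin 2) : cwB T U (L.ev i j) (SA U L) = if i = j then 1 else 0 := by
  unfold SA
  rw [cwB_mon, L.ev_S]
  by_cases h : i = j
  · rw [if_pos h, if_pos h, T.mon_one]
  · rw [if_neg h, if_neg h, map_zero]

lemma ev_stA (i j : Fin 2) (x : A) :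
    cwB T U (L.ev i j) (stA U L x) = sBB T (cwB T U (L.ev j i) x) := by
  revert x
  refine U.ind_eq _ _ (by fun_prop) (by fun_prop) (fun x y => by simp only [map_add])
    (fun x y => by simp only [map_add]) ?_
  intro n r
  rw [stA_mon, cwB_mon, cwB_mon, sBB_mon, L.ev_st]

open Classical in
/-- projection to a set of powers of `t` -/
noncomputable def prA (q : ℤ → Prop) : A →L[ℂ] A :=
  U.exL (fun n => if q n then U.mon n else 0) 1 (fun n r => by
    rw [one_mul]
    by_cases h : q n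
    · rw [if_pos h, U.mon_norm]
    · rw [if_neg h, _root_.zero_apply, norm_zero]
      exact mul_nonneg (wt_pos n).le (norm_nonneg _))

lemma prA_pos (q : ℤ → Prop) (n : ℤ) (h : q n) (r : A1) : prA U q (U.mon n r) = U.mon n r := by
  unfold prA
  rw [U.exL_mon, if_pos h]

lemma prA_neg (q : ℤ → Prop) (n : ℤ) (h : ¬ q n) (r : A1) : prA U q (U.mon n r) = 0 := by
  unfold prA
  rw [U.exL_mon, if_neg h, _root_.zero_apply]

lemma co_prA (q : ℤ → Prop) (n : ℤ) (h : q n) (x : A) : U.co n (prA U q x) = U.co n x := by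
  revert x
  refine U.ind_eq _ _ (by fun_prop) (by fun_prop) (fun x y => by simp only [map_add])
    (fun x y => by simp only [map_add]) ?_
  intro m r
  by_cases hm : q m
  · rw [prA_pos U q m hm]
  · rw [prA_neg U q m hm, map_zero, U.co_mon, if_neg (fun e : n = m => hm (e ▸ h))]

lemma co_prA' (q : ℤ → Prop) (n : ℤ) (h : ¬ q n) (x : A) : U.co n (prA U q x) = 0 := by
  revert x
  refine U.ind_eq _ _ (by fun_prop) continuous_const (fun x y => by simp only [map_add])
    (fun x y => by simp) ?_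
  intro m r
  by_cases hm : q m
  · rw [prA_pos U q m hm, U.co_mon, if_neg (fun e : n = m => h (e ▸ hm))]
  · rw [prA_neg U q m hm, map_zero]

/-- nonnegative powers of `t` -/
noncomputable def PA : A →L[ℂ] A := prA U (fun n => 0 ≤ n)

/-- nonnegative powers of `t` -/
def posA (x : A) : Prop := PA U x = x

lemma PA_mon {n : ℤ} (h : 0 ≤ n) (r : A1) : PA U (U.mon n r) = U.mon n r :=
  prA_pos U _ n h r

lemma PA_mon' {n : ℤ} (h : ¬ 0 ≤ n) (r : A1) : PA U (U.mon n r) = 0 :=
  prA_neg U _ n h r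

lemma posA_mul (x y : A) (hx : posA U x) (hy : posA U y) : posA U (x * y) := by
  have key : ∀ x y : A, PA U (PA U x * PA U y) = PA U x * PA U y := by
    refine PW.ind2 U.toPW U.toPW _ _ (fun y => by fun_prop) (fun y => by fun_prop)
      (fun x => by fun_prop) (fun x => by fun_prop)
      (fun x x' y => by simp only [map_add, add_mul]) (fun x x' y => by simp only [map_add, add_mul])
      (fun x y y' => by simp only [map_add, mul_add]) (fun x y y' => by simp only [map_add, mul_add])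
      ?_
    intro m r n s
    by_cases hm : 0 ≤ m
    · by_cases hn : 0 ≤ n
      · rw [PA_mon U hm, PA_mon U hn, U.mon_mul, PA_mon U (by omega)]
      · rw [PA_mon' U hn, mul_zero, map_zero]
    · rw [PA_mon' U hm, zero_mul, map_zero]
  unfold posA at *
  have h1 := key x y
  rwa [hx, hy] at h1

lemma posA_add (x y : A) (hx : posA U x) (hy : posA U y) : posA U (x + y) := by
  unfold posA at *
  rw [map_add, hx, hy]

lemma posA_smul (c : ℂ) (x : A) (hx : posA U x) : posA U (c • x) := by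
  unfold posA at *
  rw [map_smul, hx]

lemma posA_closed : IsClosed {x | posA U x} :=
  isClosed_eq (PA U).continuous continuous_id

lemma posA_mon {n : ℤ} (h : 0 ≤ n) (r : A1) : posA U (U.mon n r) := PA_mon U h r

lemma iA_kLB_hs (x : X1) : HasSum (fun n : ℕ => (((x n / 4 ^ (n + 1) / (2 * n + 2) : ℝ)) : ℂ) •
    U.mon (2 * n + 2) 1) (iA T U (kLB T x)) := by
  have h1 := (kLB_hs T x).mapL (iA T U)
  simp only [map_smul, iA_tau] at h1
  exact h1

lemma posA_kL (x : X1) : posA U (iA T U (kLB T x)) := by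
  have h1 := iA_kLB_hs T U x
  have h2 := h1.mapL (PA U)
  have h3 : ∀ n : ℕ, PA U ((((x n / 4 ^ (n + 1) / (2 * n + 2) : ℝ)) : ℂ) •
    U.mon (2 * n + 2) 1) = (((x n / 4 ^ (n + 1) / (2 * n + 2) : ℝ)) : ℂ) •
    U.mon (2 * n + 2) 1 := by
    intro n
    rw [map_smul, PA_mon U (by omega)]
  simp only [h3] at h2
  exact h2.unique h1

/-- the Stieltjes integral on monomials -/
noncomputable def Jb (m n : ℤ) : A1 →L[ℂ] ℂ →L[ℂ] A :=
  if 0 ≤ m ∧ 1 ≤ n then ((n : ℂ) / ((m : ℂ) + n)) •
    (ContinuousLinearMap.compL ℂ ℂ A1 A (U.mon (m + n))).comp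
      (ContinuousLinearMap.lsmul ℂ ℂ : ℂ →L[ℂ] A1 →L[ℂ] A1).flip else 0

lemma Jb_apply {m n : ℤ} (h : 0 ≤ m ∧ 1 ≤ n) (r : A1) (c : ℂ) :
    Jb U m n r c = ((n : ℂ) / ((m : ℂ) + n)) • U.mon (m + n) (c • r) := by
  unfold Jb
  rw [if_pos h]
  rfl

lemma Jb_apply' {m n : ℤ} (h : ¬ (0 ≤ m ∧ 1 ≤ n)) (r : A1) (c : ℂ) :
    Jb U m n r c = 0 := by
  unfold Jb
  rw [if_neg h]
  rfl

lemma Jb_norm (m n : ℤ) (r : A1) (c : ℂ) : ‖Jb U m n r c‖ ≤ wt m * ‖r‖ * (wt n * ‖c‖) := by
  by_cases h : 0 ≤ m ∧ 1 ≤ n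
  · rw [Jb_apply U h, norm_smul, U.mon_norm, norm_smul]
    have h1 : ‖(n : ℂ) / ((m : ℂ) + n)‖ ≤ 1 := by
      have h2 : ((m : ℂ) + n) = ((m + n : ℤ) : ℂ) := by push_cast; ring
      rw [h2, norm_div, Complex.norm_intCast, Complex.norm_intCast]
      have h3 : (0 : ℝ) < ((m + n : ℤ) : ℝ) := by
        have : 0 < m + n := by omega
        exact_mod_cast this
      have h4 : (0 : ℝ) < (n : ℝ) := by
        have : 0 < n := by omega
        exact_mod_cast this
      rw [abs_of_pos h3, abs_of_pos h4, div_le_one h3]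
      push_cast
      have : (0 : ℝ) ≤ (m : ℝ) := by exact_mod_cast h.1
      linarith
    calc ‖(n : ℂ) / ((m : ℂ) + n)‖ * (wt (m + n) * (‖c‖ * ‖r‖))
        ≤ 1 * ((wt m * wt n) * (‖c‖ * ‖r‖)) :=
          mul_le_mul h1 (mul_le_mul_of_nonneg_right (wt_add m n)
            (mul_nonneg (norm_nonneg _) (norm_nonneg _)))
            (mul_nonneg (wt_pos _).le (mul_nonneg (norm_nonneg _) (norm_nonneg _))) zero_le_one
      _ = _ := by ring
  · rw [Jb_apply' U h, norm_zero]
    exact mul_nonneg (mul_nonneg (wt_pos m).le (norm_nonneg _))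
      (mul_nonneg (wt_pos n).le (norm_nonneg _))

/-- the Stieltjes integral -/
noncomputable def JA : A →L[ℂ] B →L[ℂ] A := PW.ex2 U.toPW T.toPW (Jb U) (Jb_norm U)

lemma JA_mon (m n : ℤ) (r : A1) (c : ℂ) :
    JA T U (U.mon m r) (T.mon n c) = Jb U m n r c :=
  PW.ex2_mon U.toPW T.toPW (Jb U) (Jb_norm U) m n r c

lemma JA_tau (m n : ℕ) (i j : Fin 2) :
    JA T U (iA T U (tau T m) * (SA U L * EA U L i j)) (tau T (n + 1)) =
    (((n : ℂ) + 1) / ((m : ℂ) + n + 1)) • (iA T U (tau T (m + n + 1)) * (SA U L * EA U L i j)) := by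
  have h1 : ∀ k : ℤ, iA T U (tau T k) * (SA U L * EA U L i j) = U.mon k (L.S * L.E i j) := by
    intro k
    unfold SA EA
    rw [iA_tau, U.mon_mul, U.mon_mul, add_zero, add_zero, one_mul]
  rw [h1, h1]
  unfold tau
  rw [JA_mon, Jb_apply U ⟨by omega, by omega⟩, one_smul, ← add_assoc]
  congr 1
  push_cast
  ring

lemma posA_JA (x : A) (Q : B) : posA U (JA T U x Q) := by
  unfold posA
  revert x Q
  refine PW.ind2 U.toPW T.toPW _ _ (fun y => by fun_prop) (fun y => by fun_prop)
    (fun x => by fun_prop) (fun x => by fun_prop)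
    (fun x x' y => by simp only [map_add, _root_.add_apply])
    (fun x x' y => by simp only [map_add, _root_.add_apply])
    (fun x y y' => by simp only [map_add]) (fun x y y' => by simp only [map_add])
    ?_
  intro m r n s
  rw [JA_mon]
  by_cases h : 0 ≤ m ∧ 1 ≤ n
  · rw [Jb_apply U h, map_smul, PA_mon U (by omega)]
  · rw [Jb_apply' U h, map_zero]

open Classical in
lemma piA_hv (z : ℂ) (n : ℤ) (r : A1) :
    ‖(if ‖z‖ = 1 then (z ^ n) • ContinuousLinearMap.id ℂ A1 else 0) r‖ ≤ 1 * (wt n * ‖r‖) := by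
  rw [one_mul]
  by_cases h : ‖z‖ = 1
  · rw [if_pos h, _root_.smul_apply, norm_smul, norm_zpow, h, _root_.one_zpow, one_mul]
    exact le_mul_of_one_le_left (norm_nonneg _) (one_le_wt n)
  · rw [if_neg h, _root_.zero_apply, norm_zero]
    exact mul_nonneg (wt_pos n).le (norm_nonneg _)

open Classical in
/-- evaluation on the circle -/
noncomputable def piA (z : ℂ) : A →L[ℂ] A1 :=
  U.exL (fun n => if ‖z‖ = 1 then (z ^ n) • ContinuousLinearMap.id ℂ A1 else 0) 1 (piA_hv z)

lemma piA_mon {z : ℂ} (h : ‖z‖ = 1) (n : ℤ) (r : A1) : piA U z (U.mon n r) = z ^ n • r := by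
  unfold piA
  rw [U.exL_mon, if_pos h]
  rfl

lemma piA_norm (z : ℂ) (x : A) : ‖piA U z x‖ ≤ ‖x‖ := by
  have := U.exL_norm _ 1 (piA_hv z) x
  rw [one_mul] at this
  exact this

lemma ne_zero_of_norm {z : ℂ} (h : ‖z‖ = 1) : z ≠ 0 := by
  intro h0; rw [h0, norm_zero] at h; exact zero_ne_one h

lemma piA_mul {z : ℂ} (h : ‖z‖ = 1) (x y : A) : piA U z (x * y) = piA U z x * piA U z y := by
  revert x y
  refine PW.ind2 U.toPW U.toPW _ _ (fun y => by fun_prop) (fun y => by fun_prop)
    (fun x => by fun_prop) (fun x => by fun_prop)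
    (fun x x' y => by simp only [map_add, add_mul]) (fun x x' y => by simp only [map_add, add_mul])
    (fun x y y' => by simp only [map_add, mul_add]) (fun x y y' => by simp only [map_add, mul_add])
    ?_
  intro m r n s
  rw [U.mon_mul, piA_mon U h, piA_mon U h, piA_mon U h, smul_mul_smul_comm,
    zpow_add₀ (ne_zero_of_norm h)]

lemma piA_EA {z : ℂ} (h : ‖z‖ = 1) (i j : Fin 2) : piA U z (EA U L i j) = L.E i j := by
  unfold EA
  rw [piA_mon U h, _root_.zpow_zero, one_smul]

lemma piA_SA {z : ℂ} (h : ‖z‖ = 1) : piA U z (SA U L) = L.S := by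
  unfold SA
  rw [piA_mon U h, _root_.zpow_zero, one_smul]

lemma piA_iA {z : ℂ} (h : ‖z‖ = 1) (b : B) : piA U z (iA T U b) = eB T z b • 1 := by
  revert b
  refine T.ind_eq _ _ (by fun_prop) (by fun_prop) (fun x y => by simp only [map_add])
    (fun x y => by simp only [map_add, add_smul]) ?_
  intro n c
  rw [iA_mon, piA_mon U h, eB_mon T h, smul_smul]

lemma piA_stA {z : ℂ} (h : ‖z‖ = 1) (x : A) : piA U z (stA U L x) = L.st (piA U z x) := by
  revert x
  refine U.ind_eq _ _ (by fun_prop) (by fun_prop) (fun x y => by simp only [map_add])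
    (fun x y => by simp only [map_add]) ?_
  intro n r
  rw [stA_mon, piA_mon U h, piA_mon U h, L.st_smul, conj_zpow h]

lemma piA_cwA {z : ℂ} (h : ‖z‖ = 1) (G : A1 →L[ℂ] A1) (x : A) :
    piA U z (cwA U G x) = G (piA U z x) := by
  revert x
  refine U.ind_eq _ _ (by fun_prop) (by fun_prop) (fun x y => by simp only [map_add])
    (fun x y => by simp only [map_add]) ?_
  intro n r
  rw [cwA_mon, piA_mon U h, piA_mon U h, map_smul]

lemma eB_cwB {z : ℂ} (h : ‖z‖ = 1) (g : A1 →L[ℂ] ℂ) (x : A) :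
    eB T z (cwB T U g x) = g (piA U z x) := by
  revert x
  refine U.ind_eq _ _ (by fun_prop) (by fun_prop) (fun x y => by simp only [map_add])
    (fun x y => by simp only [map_add]) ?_
  intro n r
  rw [cwB_mon, piA_mon U h, eB_mon T h, map_smul, smul_eq_mul]

lemma pip_bound {z : ℂ} (hz : ‖z‖ < 2) {n : ℤ} (h : 0 ≤ n) (r : A1) :
    ‖z ^ n.toNat • r‖ ≤ wt n * ‖r‖ := by
  rw [norm_smul, norm_pow]
  refine mul_le_mul_of_nonneg_right ?_ (norm_nonneg _)
  obtain ⟨k, rfl⟩ := Int.eq_ofNat_of_zero_le h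
  rw [Int.toNat_natCast, wt_nat]
  exact pow_le_pow_left₀ (norm_nonneg _) hz.le k

lemma pip_hv (z : ℂ) (n : ℤ) (r : A1) : ‖(if ‖z‖ < 2 ∧ 0 ≤ n then
    (z ^ n.toNat) • ContinuousLinearMap.id ℂ A1 else 0) r‖ ≤ 1 * (wt n * ‖r‖) := by
  rw [one_mul]
  by_cases h : ‖z‖ < 2 ∧ 0 ≤ n
  · rw [if_pos h, _root_.smul_apply]
    exact pip_bound h.1 h.2 r
  · rw [if_neg h, _root_.zero_apply, norm_zero]
    exact mul_nonneg (wt_pos n).le (norm_nonneg _)

/-- evaluation of the nonnegative powers inside the disc of radius 2 -/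
noncomputable def pip (z : ℂ) : A →L[ℂ] A1 :=
  U.exL (fun n => if ‖z‖ < 2 ∧ 0 ≤ n then (z ^ n.toNat) • ContinuousLinearMap.id ℂ A1 else 0) 1
    (pip_hv z)

lemma pip_norm (z : ℂ) (x : A) : ‖pip U z x‖ ≤ ‖x‖ := by
  have := U.exL_norm (fun n => if ‖z‖ < 2 ∧ 0 ≤ n then
    (z ^ n.toNat) • ContinuousLinearMap.id ℂ A1 else 0) 1 (pip_hv z) x
  rwa [one_mul] at this

lemma pip_mon {z : ℂ} (hz : ‖z‖ < 2) {n : ℤ} (h : 0 ≤ n) (r : A1) :
    pip U z (U.mon n r) = z ^ n.toNat • r := by
  unfold pip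
  rw [U.exL_mon, if_pos ⟨hz, h⟩]
  rfl

lemma pip_mon' (z : ℂ) {n : ℤ} (h : ¬ 0 ≤ n) (r : A1) : pip U z (U.mon n r) = 0 := by
  unfold pip
  rw [U.exL_mon, if_neg (fun hh => h hh.2), _root_.zero_apply]

lemma pip_eq {z : ℂ} (h : ‖z‖ = 1) (x : A) (hx : posA U x) : pip U z x = piA U z x := by
  have h2 : ‖z‖ < 2 := by rw [h]; norm_num
  have key : ∀ x : A, pip U z x = piA U z (PA U x) := by
    refine U.ind_eq _ _ (by fun_prop) (by fun_prop) (fun x y => by simp only [map_add])
      (fun x y => by simp only [map_add]) ?_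
    intro n r
    by_cases hn : 0 ≤ n
    · rw [PA_mon U hn, pip_mon U h2 hn, piA_mon U h]
      obtain ⟨k, rfl⟩ := Int.eq_ofNat_of_zero_le hn
      rw [Int.toNat_natCast, _root_.zpow_natCast]
    · rw [PA_mon' U hn, pip_mon' U z hn, map_zero]
  rw [key x, hx]

lemma pip_mul {z : ℂ} (hz : ‖z‖ < 2) (x y : A) (hx : posA U x) (hy : posA U y) :
    pip U z (x * y) = pip U z x * pip U z y := by
  have key : ∀ x y : A, pip U z (PA U x * PA U y) = pip U z (PA U x) * pip U z (PA U y) := by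
    refine PW.ind2 U.toPW U.toPW _ _ (fun y => by fun_prop) (fun y => by fun_prop)
      (fun x => by fun_prop) (fun x => by fun_prop)
      (fun x x' y => by simp only [map_add, add_mul]) (fun x x' y => by simp only [map_add, add_mul])
      (fun x y y' => by simp only [map_add, mul_add]) (fun x y y' => by simp only [map_add, mul_add])
      ?_
    intro m r n s
    by_cases hm : 0 ≤ m
    · by_cases hn : 0 ≤ n
      · rw [PA_mon U hm, PA_mon U hn, U.mon_mul, pip_mon U hz hm, pip_mon U hz hn,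
          pip_mon U hz (by omega), smul_mul_smul_comm, ← pow_add]
        congr 2
        omega
      · rw [PA_mon' U hn, mul_zero, map_zero, mul_zero]
    · rw [PA_mon' U hm, zero_mul, map_zero, zero_mul]
  have h1 := key x y
  rwa [hx, hy] at h1

lemma pip_EA {z : ℂ} (hz : ‖z‖ < 2) (i j : Fin 2) : pip U z (EA U L i j) = L.E i j := by
  unfold EA
  rw [pip_mon U hz le_rfl]; simp

lemma pip_SA {z : ℂ} (hz : ‖z‖ < 2) : pip U z (SA U L) = L.S := by
  unfold SA
  rw [pip_mon U hz le_rfl]; simp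

lemma pip_tau {z : ℂ} (hz : ‖z‖ < 2) (n : ℕ) : pip U z (iA T U (tau T n)) = (z ^ n) • 1 := by
  rw [iA_tau, pip_mon U hz (by omega), Int.toNat_natCast]

lemma norm_sq_le {z : ℂ} (hz : ‖z‖ < 2) (n : ℕ) : ‖z ^ (2 * n)‖ ≤ 4 ^ n := by
  rw [norm_pow, pow_mul]
  refine pow_le_pow_left₀ (by positivity) ?_ n
  nlinarith [norm_nonneg z]

lemma pip_kL {z : ℂ} (hz : ‖z‖ < 2) (x : X1) :
    pip U z (iA T U (kLB T x)) = kapF x z • 1 := by
  have h1 := (iA_kLB_hs T U x).mapL (pip U z)
  have hx : HasSum (fun n => ‖x n‖) ‖x‖ := by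
    have h1 := lp.hasSum_norm (E := fun _ : ℕ => ℝ) (p := 1) (by norm_num) x
    simpa only [ENNReal.toReal_one, Real.rpow_one] using h1
  have hs : Summable (fun n : ℕ => (((x n / 4 ^ (n + 1) / (2 * n + 2) : ℝ)) : ℂ) *
      z ^ (2 * n + 2)) := by
    refine Summable.of_norm_bounded hx.summable (fun n => ?_)
    rw [norm_mul, Complex.norm_real, norm_div, norm_div]
    have h2 := norm_sq_le hz (n + 1)
    have e : 2 * n + 2 = 2 * (n + 1) := by ring
    rw [e]
    have h3 : ‖(4 : ℝ) ^ (n + 1)‖ = 4 ^ (n + 1) := by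
      rw [Real.norm_eq_abs, abs_of_pos (by positivity)]
    have h4 : (1 : ℝ) ≤ ‖(2 * (n : ℝ) + 2)‖ := by
      rw [Real.norm_eq_abs, abs_of_pos (by positivity)]
      have : (0 : ℝ) ≤ n := Nat.cast_nonneg n
      linarith
    rw [h3]
    have h5 : (0 : ℝ) < 4 ^ (n + 1) := by positivity
    calc ‖x n‖ / 4 ^ (n + 1) / ‖(2 * (n : ℝ) + 2)‖ * ‖z ^ (2 * (n + 1))‖
        ≤ ‖x n‖ / 4 ^ (n + 1) / 1 * 4 ^ (n + 1) := by
          apply mul_le_mul _ h2 (norm_nonneg _) (by positivity)
          exact div_le_div_of_nonneg_left (by positivity) one_pos h4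
      _ = ‖x n‖ := by field_simp
  have h2 := hs.hasSum.smul_const (1 : A1)
  have h3 : (fun n : ℕ => pip U z ((((x n / 4 ^ (n + 1) / (2 * n + 2) : ℝ)) : ℂ) •
    U.mon (2 * n + 2) 1)) = fun n : ℕ => ((((x n / 4 ^ (n + 1) / (2 * n + 2) : ℝ)) : ℂ) *
      z ^ (2 * n + 2)) • (1 : A1) := by
    funext n
    rw [map_smul, pip_mon U hz (by omega), smul_smul]
    congr 3
  rw [h3] at h1
  exact h1.unique h2

lemma pip_JA0 (x : A) (Q : B) : pip U 0 (JA T U x Q) = 0 := by
  revert x Q
  refine PW.ind2 U.toPW T.toPW _ _ (fun y => by fun_prop) (fun y => by fun_prop)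
    (fun x => by fun_prop) (fun x => by fun_prop)
    (fun x x' y => by simp only [map_add, _root_.add_apply])
    (fun x x' y => by simp)
    (fun x y y' => by simp only [map_add]) (fun x y y' => by simp)
    ?_
  intro m r n s
  rw [JA_mon]
  by_cases h : 0 ≤ m ∧ 1 ≤ n
  · rw [Jb_apply U h, map_smul, pip_mon U (by simp) (by omega), zero_pow (by omega), zero_smul,
      smul_zero]
  · rw [Jb_apply' U h, map_zero]

end alg

/-! ### the derivative inside the disc -/

section der
set_option linter.unusedSectionVars false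
variable {B : Type} [NormedCommRing B] [NormedAlgebra ℂ B] [CompleteSpace B] (T : TW ℂ B)
variable {A1 : Type} [NormedRing A1] [NormedAlgebra ℂ A1] [CompleteSpace A1]
variable {A : Type} [NormedRing A] [NormedAlgebra ℂ A] [CompleteSpace A] (U : TW A1 A)

lemma pow_der_bound {a : ℝ} (ha : 0 ≤ a) (ha2 : a < 2) (n : ℕ) :
    n * a ^ (n - 1) ≤ 1 / (2 - a) * 2 ^ n := by
  have h1 : ∀ n : ℕ, n * a ^ (n - 1) * (2 - a) ≤ 2 ^ n - a ^ n := by
    intro n
    induction n with
    | zero => simp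
    | succ n ih =>
      have hp : a ^ n ≤ 2 ^ n := pow_le_pow_left₀ ha ha2.le n
      have e : ((n + 1 : ℕ) : ℝ) * a ^ (n + 1 - 1) * (2 - a) =
          a * (n * a ^ (n - 1) * (2 - a)) + a ^ n * (2 - a) := by
        rw [Nat.add_sub_cancel]
        rcases Nat.eq_zero_or_pos n with h | h
        · subst h; simp
        · obtain ⟨k, rfl⟩ := Nat.exists_eq_succ_of_ne_zero h.ne'
          simp only [Nat.succ_eq_add_one, Nat.add_sub_cancel]
          push_cast
          ring
      rw [e]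
      have h2 := mul_le_mul_of_nonneg_left ih ha
      have h3 : 0 ≤ (2 - a) * (2 ^ n - a ^ n) := mul_nonneg (by linarith) (by linarith)
      have e2 : (2 : ℝ) ^ (n + 1) = 2 * 2 ^ n := by ring
      have e3 : a ^ (n + 1) = a * a ^ n := by ring
      rw [e2, e3]
      nlinarith
  have h2 : 0 < 2 - a := by linarith
  have h3 := h1 n
  have h4 : 0 ≤ a ^ n := pow_nonneg ha n
  rw [one_div, ← div_eq_inv_mul, le_div_iff₀ h2]
  linarith

lemma dA_bound {z : ℂ} {ρ : ℝ} (hz : ‖z‖ ≤ ρ) (hρ : ρ < 2) {n : ℤ} (h : 0 ≤ n) (r : A1) :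
    ‖((n.toNat : ℂ) * z ^ (n.toNat - 1)) • r‖ ≤ 1 / (2 - ρ) * (wt n * ‖r‖) := by
  obtain ⟨k, rfl⟩ := Int.eq_ofNat_of_zero_le h
  rw [Int.toNat_natCast, wt_nat, norm_smul, norm_mul, norm_pow, Complex.norm_natCast, ← mul_assoc]
  refine mul_le_mul_of_nonneg_right ?_ (norm_nonneg _)
  refine le_trans ?_ (pow_der_bound (le_trans (norm_nonneg z) hz) hρ k)
  exact mul_le_mul_of_nonneg_left (pow_le_pow_left₀ (norm_nonneg _) hz _) (Nat.cast_nonneg k)

lemma dA_hv (z : ℂ) (hz : ‖z‖ < 2) (n : ℤ) (r : A1) : ‖(if 0 ≤ n then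
    ((n.toNat : ℂ) * z ^ (n.toNat - 1)) • ContinuousLinearMap.id ℂ A1 else 0) r‖ ≤
    1 / (2 - ‖z‖) * (wt n * ‖r‖) := by
  by_cases h : 0 ≤ n
  · rw [if_pos h, _root_.smul_apply]
    exact dA_bound le_rfl hz h r
  · rw [if_neg h, _root_.zero_apply, norm_zero]
    have : 0 < 2 - ‖z‖ := by linarith
    exact mul_nonneg (by positivity) (mul_nonneg (wt_pos n).le (norm_nonneg _))

/-- the derivative of the evaluation -/
noncomputable def dA (z : ℂ) (hz : ‖z‖ < 2) : A →L[ℂ] A1 :=
  U.exL (fun n => if 0 ≤ n then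
    ((n.toNat : ℂ) * z ^ (n.toNat - 1)) • ContinuousLinearMap.id ℂ A1 else 0) (1 / (2 - ‖z‖))
    (dA_hv z hz)

lemma dA_mon {z : ℂ} (hz : ‖z‖ < 2) {n : ℤ} (h : 0 ≤ n) (r : A1) :
    dA U z hz (U.mon n r) = ((n.toNat : ℂ) * z ^ (n.toNat - 1)) • r := by
  unfold dA
  rw [U.exL_mon, if_pos h]
  rfl

lemma pip_hasDerivAt {z : ℂ} (hz : ‖z‖ < 2) (u : A) :
    HasDerivAt (fun w => pip U w u) (dA U z hz u) z := by
  set ρ : ℝ := (‖z‖ + 2) / 2 with hρdef
  have hρ1 : ‖z‖ < ρ := by rw [hρdef]; linarith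
  have hρ2 : ρ < 2 := by rw [hρdef]; linarith
  have hsum : Summable (fun n : ℤ => 1 / (2 - ρ) * (wt n * ‖U.co n u‖)) :=
    (U.hn u).summable.mul_left _
  have h1 := hasDerivAt_tsum_of_isPreconnected
    (g := fun (n : ℤ) (w : ℂ) => if 0 ≤ n then w ^ n.toNat • U.co n u else 0)
    (g' := fun (n : ℤ) (w : ℂ) => if 0 ≤ n then
      ((n.toNat : ℂ) * w ^ (n.toNat - 1)) • U.co n u else 0)
    (u := fun n : ℤ => 1 / (2 - ρ) * (wt n * ‖U.co n u‖))
    (t := ball (0 : ℂ) ρ) (y₀ := z) (y := z) hsum isOpen_ball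
    (convex_ball (0 : ℂ) ρ).isPreconnected ?_ ?_ ?_ ?_ ?_
  · have e1 : ∑' n : ℤ, (if 0 ≤ n then
        ((n.toNat : ℂ) * z ^ (n.toNat - 1)) • U.co n u else 0) = dA U z hz u := by
      have h2 := U.exL_hs (fun n => if 0 ≤ n then
        ((n.toNat : ℂ) * z ^ (n.toNat - 1)) • ContinuousLinearMap.id ℂ A1 else 0) (1 / (2 - ‖z‖))
        (dA_hv z hz) u
      have h3 : dA U z hz u = _ := h2.tsum_eq.symm
      rw [h3]
      refine tsum_congr fun n => ?_
      by_cases h : 0 ≤ n
      · rw [if_pos h, if_pos h]; rfl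
      · rw [if_neg h, if_neg h]; rfl
    rw [e1] at h1
    refine h1.congr_of_eventuallyEq ?_
    have hb : ball (0 : ℂ) ρ ∈ nhds z := isOpen_ball.mem_nhds (by simpa using hρ1)
    filter_upwards [hb] with w hw
    have hw2 : ‖w‖ < 2 := by
      have : ‖w‖ < ρ := by simpa using hw
      linarith
    have h2 := U.exL_hs (fun n => if ‖w‖ < 2 ∧ 0 ≤ n then
      (w ^ n.toNat) • ContinuousLinearMap.id ℂ A1 else 0) 1 (pip_hv w) u
    have h3 : pip U w u = _ := h2.tsum_eq.symm
    rw [h3]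
    refine tsum_congr fun n => ?_
    by_cases h : 0 ≤ n
    · rw [if_pos ⟨hw2, h⟩, if_pos h]; rfl
    · rw [if_neg (fun hh => h hh.2), if_neg h]; rfl
  · intro n w _
    by_cases h : 0 ≤ n
    · simp only [if_pos h]
      exact (hasDerivAt_pow n.toNat w).smul_const (U.co n u)
    · simp only [if_neg h]
      exact hasDerivAt_const w 0
  · intro n w hw
    have hw2 : ‖w‖ < ρ := by simpa using hw
    by_cases h : 0 ≤ n
    · simp only [if_pos h]
      exact dA_bound hw2.le hρ2 h _
    · simp only [if_neg h, norm_zero]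
      have : 0 < 2 - ρ := by linarith
      exact mul_nonneg (by positivity) (mul_nonneg (wt_pos n).le (norm_nonneg _))
  · simpa using hρ1
  · refine Summable.of_norm_bounded (U.hn u).summable (fun n => ?_)
    by_cases h : 0 ≤ n
    · rw [if_pos h]
      exact pip_bound hz h _
    · rw [if_neg h, norm_zero]
      exact mul_nonneg (wt_pos n).le (norm_nonneg _)
  · simpa using hρ1

lemma hF_summable {z : ℂ} (hz : ‖z‖ < 2) (y : X1) :
    Summable (fun n : ℕ => (((y n / 4 ^ (n + 1) * (2 * n + 1) : ℝ)) : ℂ) * z ^ (2 * n)) := by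
  have hx : HasSum (fun n => ‖y n‖) ‖y‖ := by
    have h1 := lp.hasSum_norm (E := fun _ : ℕ => ℝ) (p := 1) (by norm_num) y
    simpa only [ENNReal.toReal_one, Real.rpow_one] using h1
  refine Summable.of_norm_bounded (hx.summable.mul_left (1 / (2 - ‖z‖))) (fun n => ?_)
  have h1 := pow_der_bound (norm_nonneg z) hz (2 * n + 1)
  rw [Nat.add_sub_cancel] at h1
  have h3 : ‖(4 : ℝ) ^ (n + 1)‖ = 4 ^ (n + 1) := by
    rw [Real.norm_eq_abs, abs_of_pos (by positivity)]
  have h4 : ‖(2 * (n : ℝ) + 1)‖ = ((2 * n + 1 : ℕ) : ℝ) := by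
    rw [Real.norm_eq_abs, abs_of_pos (by positivity)]; push_cast; ring
  rw [norm_mul, Complex.norm_real, norm_mul, norm_div, h3, h4, norm_pow]
  have h5 : (2 : ℝ) ^ (2 * n + 1) ≤ 4 ^ (n + 1) := by
    have e1 : (4 : ℝ) ^ (n + 1) = 4 ^ n * 4 := pow_succ _ _
    have e2 : (2 : ℝ) ^ (2 * n + 1) = 4 ^ n * 2 := by
      rw [pow_succ, pow_mul]; norm_num
    have : (0 : ℝ) < 4 ^ n := by positivity
    rw [e1, e2]
    linarith
  have h6 : 0 < 2 - ‖z‖ := by linarith
  have h7 : (0 : ℝ) < 4 ^ (n + 1) := by positivity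
  calc ‖y n‖ / 4 ^ (n + 1) * ((2 * n + 1 : ℕ) : ℝ) * ‖z‖ ^ (2 * n)
      = ‖y n‖ / 4 ^ (n + 1) * (((2 * n + 1 : ℕ) : ℝ) * ‖z‖ ^ (2 * n)) := by ring
    _ ≤ ‖y n‖ / 4 ^ (n + 1) * (1 / (2 - ‖z‖) * 4 ^ (n + 1)) := by
        refine mul_le_mul_of_nonneg_left (h1.trans ?_) (by positivity)
        exact mul_le_mul_of_nonneg_left h5 (by positivity)
    _ = 1 / (2 - ‖z‖) * ‖y n‖ := by field_simp

lemma dA_J {z : ℂ} (hz : ‖z‖ < 2) (y : X1) (x : A) :
    dA U z hz (JA T U (PA U x) (QLB T y)) = hF y z • pip U z (PA U x) := by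
  revert x
  refine U.ind_eq _ _ (by fun_prop) (by fun_prop)
    (fun x y => by simp only [map_add, _root_.add_apply])
    (fun x y => by simp only [map_add, smul_add]) ?_
  intro m r
  by_cases hm : 0 ≤ m
  · rw [PA_mon U hm, pip_mon U hz hm]
    have h1 := ((QLB_hs T y).mapL (JA T U (U.mon m r))).mapL (dA U z hz)
    have h2 := (hF_summable hz y).hasSum.smul_const (z ^ m.toNat • r)
    refine h1.unique ?_
    have h3 : (fun n : ℕ => dA U z hz (JA T U (U.mon m r)
        ((((y n / 4 ^ (n + 1) : ℝ)) : ℂ) • tau T (2 * n + 1)))) =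
        fun n : ℕ => ((((y n / 4 ^ (n + 1) * (2 * n + 1) : ℝ)) : ℂ) * z ^ (2 * n)) •
          (z ^ m.toNat • r) := by
      funext n
      have hn : 0 ≤ m ∧ 1 ≤ (2 * (n : ℤ) + 1) := ⟨hm, by omega⟩
      unfold tau
      rw [map_smul, map_smul, JA_mon, Jb_apply U hn, map_smul, dA_mon U hz (by omega), one_smul,
        smul_smul, smul_smul, smul_smul]
      congr 1
      obtain ⟨k, rfl⟩ := Int.eq_ofNat_of_zero_le hm
      have e1 : ((k : ℤ) + (2 * (n : ℤ) + 1)).toNat = k + 2 * n + 1 := by omega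
      rw [e1, Nat.add_sub_cancel, Int.toNat_natCast, pow_add]
      have h4 : ((k : ℂ) + 2 * n + 1) ≠ 0 := by
        have : ((k + 2 * n + 1 : ℕ) : ℂ) ≠ 0 := Nat.cast_ne_zero.mpr (by omega)
        push_cast at this
        exact this
      push_cast
      have h5 : ((k : ℂ) + (2 * n + 1)) ≠ 0 := by rw [← add_assoc]; exact h4
      field_simp
      ring
    rw [h3]
    exact h2
  · rw [PA_mon' U hm, map_zero, map_zero, _root_.zero_apply, map_zero, smul_zero]

lemma pip_JA {z : ℂ} (hz : ‖z‖ < 2) (x : A) (y : X1) (hx : posA U x) :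
    HasDerivAt (fun w => pip U w (JA T U x (QLB T y))) (hF y z • pip U z x) z := by
  have h1 := pip_hasDerivAt U hz (JA T U x (QLB T y))
  have h2 := dA_J T U hz y x
  rw [show PA U x = x from hx] at h2
  rw [h2] at h1
  exact h1

include T U in
theorem twoAlg_of (L : LoopAlg A1) (hS : ∀ x, L.S * x = x * L.S) : Nonempty (TwoAlg A1 L B A) :=
  ⟨{
    τ := tau T
    τ_zero := T.mon_one
    τ_add := fun m n => by unfold tau; rw [T.mon_mul, mul_one]
    sB := sBB T
    sB_mul := sBB_mul T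
    sB_sB := sBB_sBB T
    sB_smul := sBB_smul T
    sB_τ := sBB_tau T
    co := T.co
    co_τ := co_tau T
    ext := fun x y h => T.ext_co x y h
    co_sB := co_sBB T
    Int := IntB T
    co_Int := co_IntB T
    e := eB T
    e_mul := fun z h x y => eB_mul T h x y
    e_τ := fun z h n => eB_tau T h n
    e_sB := fun z h x => eB_sBB T h x
    e_sum := fun z h x => eB_sum T h x
    kL := kLB T
    thL := thLB T
    QL := QLB T
    co_kL := co_kLB T
    co_thL := co_thLB T
    co_QL := co_QLB T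
    QL_sum := QLB_hs T
    e_kL := fun x z h => eB_kLB T x h
    e_thL := fun x z h => eB_thLB T x h
    cf := cfB T
    cf_apply := cfB_apply T
    E := EA U L
    E_mul := EA_mul U L
    E_one := EA_one U L
    S := SA U L
    S_comm := SA_comm U L hS
    ι := iA T U
    ι_one := iA_one T U
    ι_mul := iA_mul T U
    ι_comm := iA_comm T U
    st := stA U L
    st_mul := stA_mul U L
    st_st := stA_stA U L
    st_smul := stA_smul U L
    st_E := stA_EA U L
    st_ι := stA_iA T U L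
    T_mul_S := stSA_mul U L
    Pp := cwA U L.Pp
    Pp_ι := cwA_iA T U L.Pp
    Pp_SE := by
      unfold SA EA
      rw [U.mon_mul, cwA_mon]
      have h1 : L.Pp (L.S * L.E 1 0) = 0 := by
        rw [← L.Pm_SE, L.Pp_Pm]
      rw [h1, map_zero]
    Pp_TE := by
      rw [stSA]
      unfold EA
      rw [U.mon_mul, cwA_mon, L.Pp_TE]
    d := fun i => cwB T U (L.d i)
    d_one := fun i => cwB_one T U _ (L_d_one L i)
    ev := fun i j => cwB T U (L.ev i j)
    ev_mul := ev_mulA T U L
    ev_E := ev_EA T U L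
    ev_ι := ev_iA T U L
    ev_S := ev_SA T U L
    ev_st := ev_stA T U L
    J := JA T U
    J_τ := JA_tau T U L
    pos := posA U
    pos_E := fun i j => posA_mon U le_rfl _
    pos_S := posA_mon U le_rfl _
    pos_ι := fun n => by
      rw [iA_tau]
      exact posA_mon U (by omega) _
    pos_kL := posA_kL T U
    pos_mul := posA_mul U
    pos_add := posA_add U
    pos_smul := posA_smul U
    pos_closed := posA_closed U
    pos_J := posA_JA T U
    π := piA U
    π_mul := fun z h x y => piA_mul U h x y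
    π_E := fun z h i j => piA_EA U L h i j
    π_S := fun z h => piA_SA U L h
    π_ι := fun z h b => piA_iA T U h b
    π_st := fun z h x => piA_stA U L h x
    π_Pp := fun z h x => piA_cwA U h L.Pp x
    π_d := fun z h i x => eB_cwB T U h (L.d i) x
    π_ev := fun z h i j x => eB_cwB T U h (L.ev i j) x
    π_norm := fun z _ x => piA_norm U z x
    πp := pip U
    πp_norm := fun z _ x => pip_norm U z x
    πp_eq := fun z h x hx => pip_eq U h x hx
    πp_mul := fun z hz x y hx hy => pip_mul U hz x y hx hy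
    πp_E := fun z hz i j => pip_EA U L hz i j
    πp_S := fun z hz => pip_SA U L hz
    πp_τ := fun z hz n => pip_tau T U hz n
    πp_kL := fun z hz x => pip_kL T U hz x
    πp_J := fun z hz x y hx => pip_JA T U hz x y hx
    πp_J0 := fun x Q => pip_JA0 T U x Q }⟩

end der


/-- JOB W-A: such algebras exist. -/
theorem exists_twoAlg : ∃ (A1 : Type) (_ : NormedRing A1) (_ : NormedAlgebra ℂ A1)
    (_ : CompleteSpace A1) (L : LoopAlg A1) (B : Type) (_ : NormedCommRing B)
    (_ : NormedAlgebra ℂ B) (_ : CompleteSpace B) (A : Type) (_ : NormedRing A)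
    (_ : NormedAlgebra ℂ A) (_ : CompleteSpace A), Nonempty (TwoAlg A1 L B A) := by
  obtain ⟨B0, _, _, _, ⟨W⟩⟩ := exists_WB
  obtain ⟨D⟩ := exists_Sc W
  obtain ⟨A1, hA1, hA2, hA3, ⟨M⟩⟩ := exists_MatAlg B0
  obtain ⟨L, hS⟩ := exists_loop_of_Sc M D
  obtain ⟨B, hB1, hB2, hB3, ⟨T⟩⟩ := exists_TWc
  obtain ⟨A, h1, h2, h3, ⟨U⟩⟩ := exists_TW A1
  exact ⟨A1, hA1, hA2, hA3, L, B, hB1, hB2, hB3, A, h1, h2, h3, twoAlg_of T U L hS⟩



end Pool.Agent.Helper87.VT
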