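import Mathlib
import Pool.Agent.Helper87.VT.Two

set_option autoImplicit false

open Set Metric Matrix
open scoped ContDiff ComplexConjugate

namespace Pool.Agent.Helper87.VT

open Pool.Agent.Helper87.CMC (LoopAlg)

section auxWB
variable {A1 : Type} [NormedRing A1] [NormedAlgebra ℂ A1] {L : LoopAlg A1}
  {B : Type} [NormedCommRing B] [NormedAlgebra ℂ B]
  {A : Type} [NormedRing A] [NormedAlgebra ℂ A] (M : TwoAlg A1 L B A)

theorem contDiff_kB_aux : ContDiff ℝ ∞ (fun p : ℝ × E0 => kB M p.2) := by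
  unfold kB
  refine ContDiff.add ?_ ?_
  · have h1 : ContDiff ℝ ∞ (fun p : ℝ × E0 => ((1 + p.2.1 : ℝ) : ℂ)) :=
      Complex.ofRealCLM.contDiff.comp
        (contDiff_const.add (contDiff_fst.comp contDiff_snd))
    exact h1.smul contDiff_const
  · exact M.kL.contDiff.comp (contDiff_fst.comp (contDiff_snd.comp contDiff_snd))

theorem contDiff_MB_aux : ContDiff ℝ ∞ (MB M) := by
  have hι : ContDiff ℝ ∞ (fun b => M.ι b) := (M.ι.restrictScalars ℝ).contDiff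
  have hk := contDiff_kB_aux M
  have hε : ContDiff ℝ ∞ (fun p : ℝ × E0 => ((p.1 : ℝ) : ℂ)) :=
    Complex.ofRealCLM.contDiff.comp contDiff_fst
  have h1 : ContDiff ℝ ∞ (fun p : ℝ × E0 => M.ι (kB M p.2 * M.τ 1)) :=
    hι.comp (hk.mul contDiff_const)
  have h2 : ContDiff ℝ ∞ (fun p : ℝ × E0 => M.ι (kB M p.2 ^ 2)) :=
    hι.comp (hk.pow 2)
  have h3 : ContDiff ℝ ∞ (fun p : ℝ × E0 => (p.1 : ℂ) • M.ι (kB M p.2 * M.τ 1)) := hε.smul h1
  have h4 : ContDiff ℝ ∞ (fun p : ℝ × E0 => ((p.1 : ℂ) ^ 2) • M.ι (kB M p.2 ^ 2)) :=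
    (hε.pow 2).smul h2
  have h5 : ContDiff ℝ ∞ (fun p : ℝ × E0 =>
      ((p.1 : ℂ) • M.ι (kB M p.2 * M.τ 1)) * (M.S * (M.E 1 1 - M.E 0 0))) :=
    h3.mul contDiff_const
  have h6 : ContDiff ℝ ∞ (fun p : ℝ × E0 =>
      (((p.1 : ℂ) ^ 2) • M.ι (kB M p.2 ^ 2)) * (M.S * M.E 1 0)) := h4.mul contDiff_const
  exact (contDiff_const.add h5).sub h6

theorem contDiff_QB_aux : ContDiff ℝ ∞ (fun p : ℝ × E0 => QB M p.2) :=
  M.QL.contDiff.comp (contDiff_snd.comp (contDiff_snd.comp contDiff_snd))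

/-- `J` as a real bilinear map -/
noncomputable def Jr : A →L[ℝ] B →L[ℝ] A :=
  (ContinuousLinearMap.restrictScalarsL ℂ B A ℝ ℝ).comp (M.J.restrictScalars ℝ)

theorem Jr_apply (x : A) (y : B) : Jr M x y = M.J x y := rfl

/-- the linear operator `F ↦ ε J (F * m) Q` -/
noncomputable def Rop (p : ℝ × E0) : A →L[ℝ] A :=
  p.1 • (((Jr M).flip (QB M p.2)).comp ((ContinuousLinearMap.mul ℝ A).flip (MB M p)))

theorem Rop_apply (p : ℝ × E0) (F : A) :
    Rop M p F = p.1 • M.J (F * MB M p) (QB M p.2) := rfl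

theorem contDiff_Rop : ContDiff ℝ ∞ (Rop M) := by
  have h1 : ContDiff ℝ ∞ (fun p : ℝ × E0 => (Jr M).flip (QB M p.2)) :=
    (Jr M).flip.contDiff.comp (contDiff_QB_aux M)
  have h2 : ContDiff ℝ ∞ (fun p : ℝ × E0 => (ContinuousLinearMap.mul ℝ A).flip (MB M p)) :=
    (ContinuousLinearMap.mul ℝ A).flip.contDiff.comp (contDiff_MB_aux M)
  have h3 : ContDiff ℝ ∞ (fun p : ℝ × E0 => ((Jr M).flip (QB M p.2)).comp
      ((ContinuousLinearMap.mul ℝ A).flip (MB M p))) := h1.clm_comp h2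
  exact (contDiff_fst (𝕜 := ℝ) (n := ∞) (E := ℝ) (F := E0)).smul h3

end auxWB

/-- JOB WB. -/
theorem exists_F2 {A1 : Type} [NormedRing A1] [NormedAlgebra ℂ A1] [CompleteSpace A1]
    {L : LoopAlg A1} {B : Type} [NormedCommRing B] [NormedAlgebra ℂ B] [CompleteSpace B]
    {A : Type} [NormedRing A] [NormedAlgebra ℂ A] [CompleteSpace A] (M : TwoAlg A1 L B A) :
    ∃ (r C : ℝ) (F2 : ℝ × E0 → A), F2Data M r C F2 := by
  have hR0 : Rop M 0 = 0 := by
    unfold Rop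
    simp
  have hRc : ContinuousAt (Rop M) 0 := (contDiff_Rop M).continuous.continuousAt
  have hMc : ContinuousAt (MB M) 0 := (contDiff_MB_aux M).continuous.continuousAt
  obtain ⟨r1, hr1, h1⟩ := Metric.continuousAt_iff.1 hRc (1 / 2) (by norm_num)
  obtain ⟨r2, hr2, h2⟩ := Metric.continuousAt_iff.1 hMc 1 one_pos
  set r := min r1 r2 with hr
  have hrpos : 0 < r := lt_min hr1 hr2
  have hRn : ∀ p ∈ ball (0 : ℝ × E0) r, ‖Rop M p‖ < 1 / 2 := by
    intro p hp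
    have := h1 (lt_of_lt_of_le (mem_ball.1 hp) (min_le_left _ _))
    rwa [hR0, dist_zero_right] at this
  have hMn : ∀ p ∈ ball (0 : ℝ × E0) r, ‖MB M p‖ ≤ ‖MB M 0‖ + 1 := by
    intro p hp
    have h3 := h2 (lt_of_lt_of_le (mem_ball.1 hp) (min_le_right _ _))
    rw [dist_eq_norm] at h3
    have h4 : ‖MB M p‖ ≤ ‖MB M 0‖ + ‖MB M p - MB M 0‖ := by
      have h5 : MB M p = MB M 0 + (MB M p - MB M 0) := by abel
      calc ‖MB M p‖ = ‖MB M 0 + (MB M p - MB M 0)‖ := by rw [← h5]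
        _ ≤ _ := norm_add_le _ _
    linarith
  let v : ℝ × E0 → A := fun p => M.J (MB M p) (QB M p.2)
  have hv : ContDiff ℝ ∞ v := by
    have h3 : ContDiff ℝ ∞ (fun p : ℝ × E0 => Jr M (MB M p)) :=
      (Jr M).contDiff.comp (contDiff_MB_aux M)
    exact h3.clm_apply (contDiff_QB_aux M)
  let F2 : ℝ × E0 → A := fun p => (Ring.inverse (1 - Rop M p)) (v p)
  have hunit : ∀ p ∈ ball (0 : ℝ × E0) r, IsUnit (1 - Rop M p) := by
    intro p hp
    have h3 : ‖Rop M p‖ < 1 := (hRn p hp).trans (by norm_num)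
    exact (Units.oneSub (Rop M p) h3).isUnit
  have heq : ∀ p ∈ ball (0 : ℝ × E0) r, F2 p = v p + Rop M p (F2 p) := by
    intro p hp
    have h3 := Ring.mul_inverse_cancel _ (hunit p hp)
    have h4 : (1 - Rop M p) (F2 p) = v p := by
      have h5 := congrArg (fun T : A →L[ℝ] A => T (v p)) h3
      exact h5
    have h6 : (1 - Rop M p) (F2 p) = F2 p - Rop M p (F2 p) := rfl
    rw [h6] at h4
    rw [← h4]
    abel
  refine ⟨r, 2 * ‖M.J‖ * (‖MB M 0‖ + 1) * ‖M.QL‖ + 1, F2, hrpos, by positivity, ?_, ?_, ?_⟩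
  · intro p hp
    apply ContDiffAt.contDiffWithinAt
    have h3 : ContDiffAt ℝ ∞ (fun p => Ring.inverse (1 - Rop M p)) p := by
      obtain ⟨u, hu⟩ := hunit p hp
      have h4 : ContDiffAt ℝ ∞ Ring.inverse (1 - Rop M p) := by
        rw [← hu]
        exact contDiffAt_ringInverse ℝ u
      exact h4.comp p ((contDiff_const.sub (contDiff_Rop M)).contDiffAt)
    exact h3.clm_apply hv.contDiffAt
  · intro p hp
    have h3 := heq p hp
    rw [Rop_apply] at h3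
    have h4 : (1 + (p.1 : ℂ) • F2 p) * MB M p = MB M p + (p.1 : ℂ) • (F2 p * MB M p) := by
      rw [add_mul, one_mul, smul_mul_assoc]
    rw [h4, map_add, map_smul]
    rw [ContinuousLinearMap.add_apply, ContinuousLinearMap.smul_apply, Complex.coe_smul]
    exact h3
  · intro p hp
    have h3 := heq p hp
    have h4 : ‖F2 p‖ ≤ ‖v p‖ + (1 / 2) * ‖F2 p‖ := by
      calc ‖F2 p‖ = ‖v p + Rop M p (F2 p)‖ := by rw [← h3]
        _ ≤ ‖v p‖ + ‖Rop M p (F2 p)‖ := norm_add_le _ _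
        _ ≤ ‖v p‖ + ‖Rop M p‖ * ‖F2 p‖ := by
            gcongr
            exact (Rop M p).le_opNorm _
        _ ≤ ‖v p‖ + (1 / 2) * ‖F2 p‖ := by
            gcongr
            exact (hRn p hp).le
    have h5 : ‖v p‖ ≤ ‖M.J‖ * (‖MB M 0‖ + 1) * (‖M.QL‖ * ‖p.2.2.2‖) := by
      calc ‖v p‖ ≤ ‖M.J (MB M p)‖ * ‖QB M p.2‖ := (M.J (MB M p)).le_opNorm _
        _ ≤ (‖M.J‖ * ‖MB M p‖) * (‖M.QL‖ * ‖p.2.2.2‖) := by
            gcongr
            · exact M.J.le_opNorm _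
            · exact M.QL.le_opNorm _
        _ ≤ _ := by
            gcongr
            exact hMn p hp
    have h6 : 0 ≤ ‖p.2.2.2‖ := norm_nonneg _
    nlinarith



end Pool.Agent.Helper87.VT
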