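import Mathlib
import Pool.Agent.Helper87.VT.Two

set_option autoImplicit false

open Set Metric Matrix
open scoped ContDiff ComplexConjugate

namespace Pool.Agent.Helper87.VT

open Pool.Agent.Helper87.CMC (LoopAlg)

/-- JOB WC. -/
theorem exists_X2 {A1 : Type} [NormedRing A1] [NormedAlgebra ℂ A1] [CompleteSpace A1]
    {L : LoopAlg A1} {B : Type} [NormedCommRing B] [NormedAlgebra ℂ B] [CompleteSpace B]
    {A : Type} [NormedRing A] [NormedAlgebra ℂ A] [CompleteSpace A] (M : TwoAlg A1 L B A) :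
    ∃ (r : ℝ) (X2 : ℝ × A → A), X2Data M r X2 := by
  obtain ⟨c, hc⟩ : ∃ c : ℝ × A → A, ∀ q, c q =
      q.2 + M.st q.2 + (q.1 : ℂ) • (M.st q.2 * q.2) := ⟨_, fun q => rfl⟩
  have hst : ContDiff ℝ ∞ (fun q : ℝ × A => M.st q.2) := M.st.contDiff.comp contDiff_snd
  have hcs : ContDiff ℝ ∞ c := by
    have h1 : c = fun q : ℝ × A => q.2 + M.st q.2 + q.1 • (M.st q.2 * q.2) := by
      funext q
      rw [hc]
      rfl
    rw [h1]
    exact (contDiff_snd.add hst).add (contDiff_fst.smul (hst.mul contDiff_snd))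
  obtain ⟨Op, hOp⟩ : ∃ Op : ℝ × A → (A →L[ℝ] A), Op = fun q =>
      1 + q.1 • ((M.Pp.restrictScalars ℝ).comp (ContinuousLinearMap.mul ℝ A (c q))) := ⟨_, rfl⟩
  have hOps : ContDiff ℝ ∞ Op := by
    rw [hOp]
    exact contDiff_const.add (contDiff_fst.smul (contDiff_const.clm_comp
      ((ContinuousLinearMap.mul ℝ A).contDiff.comp hcs)))
  have hOpa : ∀ q x, Op q x = x + (q.1 : ℂ) • M.Pp (c q * x) := by
    intro q x
    rw [hOp]
    rfl
  have hOp0 : Op 0 = 1 := by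
    ext x
    rw [hOpa]
    simp
  obtain ⟨r, hr, hball⟩ : ∃ r > 0, ball (0 : ℝ × A) r ⊆ Op ⁻¹' {x | IsUnit x} := by
    refine Metric.mem_nhds_iff.1 (hOps.continuous.continuousAt.preimage_mem_nhds
      (Units.isOpen.mem_nhds ?_))
    show IsUnit (Op 0)
    rw [hOp0]
    exact isUnit_one
  refine ⟨r, fun q => Ring.inverse (Op q) (-M.Pp (c q)), hr, ?_, ?_⟩
  · intro q hq
    obtain ⟨u, hu⟩ : IsUnit (Op q) := hball hq
    have h1 : ContDiffAt ℝ ∞ (Ring.inverse : (A →L[ℝ] A) → (A →L[ℝ] A)) (Op q) := by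
      rw [← hu]
      exact contDiffAt_ringInverse ℝ u
    have h2 : ContDiffAt ℝ ∞ (fun q => Ring.inverse (Op q)) q := h1.comp q hOps.contDiffAt
    have h3 : ContDiff ℝ ∞ (fun q => -M.Pp (c q)) :=
      ((M.Pp.restrictScalars ℝ).contDiff.comp hcs).neg
    exact (h2.clm_apply h3.contDiffAt).contDiffWithinAt
  · intro q hq
    have hu : IsUnit (Op q) := hball hq
    have h1 := Ring.mul_inverse_cancel (Op q) hu
    have h2 : Op q (Ring.inverse (Op q) (-M.Pp (c q))) = -M.Pp (c q) := by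
      have h3 : (Op q * Ring.inverse (Op q)) (-M.Pp (c q)) = (1 : A →L[ℝ] A) (-M.Pp (c q)) := by
        rw [h1]
      exact h3
    rw [hOpa] at h2
    rw [← hc q]
    exact h2



end Pool.Agent.Helper87.VT
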