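import Mathlib
import Pool.Agent.Helper87.VT.Two

set_option autoImplicit false

open Set Metric Matrix
open scoped ContDiff ComplexConjugate

namespace Pool.Agent.Helper87.VT

open Pool.Agent.Helper87.CMC (LoopAlg)

section WDaux

theorem wd_clm {P X Y : Type*} [NormedAddCommGroup P] [NormedSpace ℝ P] [NormedAddCommGroup X]
    [NormedSpace ℂ X] [NormedAddCommGroup Y] [NormedSpace ℂ Y] (Lc : X →L[ℂ] Y) {f : P → X} {p : P}
    (hf : ContDiffAt ℝ ∞ f p) : ContDiffAt ℝ ∞ (fun x => Lc (f x)) p :=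
  (Lc.restrictScalars ℝ).contDiff.contDiffAt.comp p hf

theorem wd_clr {P X Y : Type*} [NormedAddCommGroup P] [NormedSpace ℝ P] [NormedAddCommGroup X]
    [NormedSpace ℝ X] [NormedAddCommGroup Y] [NormedSpace ℝ Y] (Lr : X →L[ℝ] Y) {f : P → X} {p : P}
    (hf : ContDiffAt ℝ ∞ f p) : ContDiffAt ℝ ∞ (fun x => Lr (f x)) p :=
  Lr.contDiff.contDiffAt.comp p hf

theorem wd_smul {P X : Type*} [NormedAddCommGroup P] [NormedSpace ℝ P] [NormedAddCommGroup X]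
    [NormedSpace ℂ X] {c : P → ℝ} {f : P → X} {p : P} (hc : ContDiffAt ℝ ∞ c p)
    (hf : ContDiffAt ℝ ∞ f p) : ContDiffAt ℝ ∞ (fun x => ((c x : ℝ) : ℂ) • f x) p := by
  simp only [Complex.coe_smul]
  exact hc.smul hf

theorem wd_csmul {P X : Type*} [NormedAddCommGroup P] [NormedSpace ℝ P] [NormedAddCommGroup X]
    [NormedSpace ℂ X] (c : ℂ) {f : P → X} {p : P}
    (hf : ContDiffAt ℝ ∞ f p) : ContDiffAt ℝ ∞ (fun x => c • f x) p :=
  hf.const_smul c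

theorem wd_mul {P X : Type*} [NormedAddCommGroup P] [NormedSpace ℝ P] [NormedRing X]
    [NormedAlgebra ℂ X] {f g : P → X} {p : P} (hf : ContDiffAt ℝ ∞ f p)
    (hg : ContDiffAt ℝ ∞ g p) : ContDiffAt ℝ ∞ (fun x => f x * g x) p :=
  hf.mul hg

theorem wd_inv {P X : Type*} [NormedAddCommGroup P] [NormedSpace ℝ P] [NormedRing X]
    [NormedAlgebra ℂ X] [CompleteSpace X] {f : P → X} {p : P} (hf : ContDiffAt ℝ ∞ f p)
    (h1 : f p = 1) : ContDiffAt ℝ ∞ (fun x => Ring.inverse (f x)) p := by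
  have h2 : ContDiffAt ℝ ∞ (Ring.inverse : X → X) (f p) := by
    rw [h1]
    exact contDiffAt_ringInverse ℝ (1 : Xˣ)
  exact h2.comp p hf

variable {A1 : Type} [NormedRing A1] [NormedAlgebra ℂ A1] {L : LoopAlg A1}
  {B : Type} [NormedCommRing B] [NormedAlgebra ℂ B] [CompleteSpace B]
  {A : Type} [NormedRing A] [NormedAlgebra ℂ A] [CompleteSpace A] (M : TwoAlg A1 L B A)

omit [CompleteSpace B] [CompleteSpace A] in
theorem wd_kB (p : ℝ × E0) : ContDiffAt ℝ ∞ (fun p : ℝ × E0 => kB M p.2) p := by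
  unfold kB
  refine ContDiffAt.add (wd_smul ?_ contDiffAt_const) (wd_clr _ ?_)
  · exact contDiffAt_const.add (contDiffAt_snd.fst)
  · exact contDiffAt_snd.snd.fst

omit [CompleteSpace B] [CompleteSpace A] in
theorem wd_rB (p : ℝ × E0) : ContDiffAt ℝ ∞ (fun p : ℝ × E0 => rB M p.2) p := by
  unfold rB
  exact (wd_kB M p).sub (wd_clr _ contDiffAt_snd.snd.fst)

omit [CompleteSpace B] [CompleteSpace A] in
theorem wd_N2 (p : ℝ × E0) : ContDiffAt ℝ ∞ (N2 M) p := by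
  unfold N2
  have hk := wd_kB M p
  have h1 : ContDiffAt ℝ ∞ (fun p : ℝ × E0 => M.ι (M.sB (kB M p.2))) p := wd_clm _ (wd_clr _ hk)
  have h2 : ContDiffAt ℝ ∞ (fun p : ℝ × E0 => M.ι (kB M p.2)) p := wd_clm _ hk
  exact (((wd_mul (wd_smul contDiffAt_fst h1) contDiffAt_const).add contDiffAt_const).sub
    contDiffAt_const).add (wd_mul (wd_smul contDiffAt_fst h2) contDiffAt_const)

omit [CompleteSpace B] [CompleteSpace A] in
theorem wd_nB (p : ℝ × E0) : ContDiffAt ℝ ∞ (nB M) p := by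
  unfold nB
  have hk := wd_kB M p
  simp only [← Complex.ofReal_pow]
  exact contDiffAt_const.add (wd_smul (contDiffAt_fst.pow 2) (wd_mul hk (wd_clr _ hk)))

omit [CompleteSpace B] [CompleteSpace A] in
theorem wd_nB0 : nB M 0 = 1 := by
  unfold nB
  simp

omit [CompleteSpace A] in
theorem wd_niB : ContDiffAt ℝ ∞ (niB M) 0 := wd_inv (wd_nB M 0) (wd_nB0 M)

omit [CompleteSpace B] [CompleteSpace A] in
theorem wd_F2 {r C : ℝ} {F2 : ℝ × E0 → A} (hF : F2Data M r C F2) :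
    ContDiffAt ℝ ∞ F2 0 ∧ F2 0 = 0 := by
  refine ⟨hF.smooth.contDiffAt (ball_mem_nhds 0 hF.r_pos), ?_⟩
  have h := hF.bound 0 (mem_ball_self hF.r_pos)
  have h2 : ‖F2 0‖ ≤ 0 := by simpa using h
  exact norm_le_zero_iff.1 h2

omit [CompleteSpace A] in
theorem wd_g2 {r C : ℝ} {F2 : ℝ × E0 → A} (hF : F2Data M r C F2) :
    ContDiffAt ℝ ∞ (g2 M F2) 0 ∧ g2 M F2 0 = 0 := by
  obtain ⟨h1, h2⟩ := wd_F2 M hF
  refine ⟨?_, ?_⟩
  · unfold g2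
    exact wd_mul (wd_clm _ (wd_niB M)) (wd_mul (wd_mul (wd_clr _ (wd_N2 M 0)) h1) (wd_N2 M 0))
  · unfold g2
    rw [h2]
    simp

omit [CompleteSpace B] [CompleteSpace A] in
theorem wd_X2 {r' : ℝ} {X2 : ℝ × A → A} (hX : X2Data M r' X2) : ContDiffAt ℝ ∞ X2 0 :=
  hX.smooth.contDiffAt (ball_mem_nhds 0 hX.r_pos)

omit [CompleteSpace A] in
theorem wd_X2h {r C : ℝ} {F2 : ℝ × E0 → A} (hF : F2Data M r C F2) {r' : ℝ} {X2 : ℝ × A → A}
    (hX : X2Data M r' X2) : ContDiffAt ℝ ∞ (X2h M F2 X2) 0 := by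
  obtain ⟨h1, h2⟩ := wd_g2 M hF
  have h3 : ContDiffAt ℝ ∞ (fun p : ℝ × E0 => (p.1, g2 M F2 p)) 0 := contDiffAt_fst.prodMk h1
  have h4 : ContDiffAt ℝ ∞ X2 ((fun p : ℝ × E0 => (p.1, g2 M F2 p)) 0) := by
    have h5 : (fun p : ℝ × E0 => (p.1, g2 M F2 p)) 0 = (0 : ℝ × A) := by
      simp only [h2]
      rfl
    rw [h5]
    exact wd_X2 M hX
  exact h4.comp (0 : ℝ × E0) h3

omit [CompleteSpace A] in
theorem wd_Phi2 {r C : ℝ} {F2 : ℝ × E0 → A} (hF : F2Data M r C F2) {r' : ℝ} {X2 : ℝ × A → A}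
    (hX : X2Data M r' X2) : ContDiffAt ℝ ∞ (Phi2 M F2 X2) 0 := by
  unfold Phi2
  exact wd_mul (wd_mul (contDiffAt_const.add (wd_smul contDiffAt_fst (wd_F2 M hF).1)) (wd_N2 M 0))
    (contDiffAt_const.add (wd_smul contDiffAt_fst (wd_X2h M hF hX)))

omit [CompleteSpace A] in
theorem wd_PhiH2 {r C : ℝ} {F2 : ℝ × E0 → A} (hF : F2Data M r C F2) {r' : ℝ} {X2 : ℝ × A → A}
    (hX : X2Data M r' X2) : ContDiffAt ℝ ∞ (PhiH2 M F2 X2) 0 := by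
  unfold PhiH2
  have hk := wd_kB M 0
  exact (((wd_mul (wd_clm _ (wd_clr _ hk)) contDiffAt_const).add
    (wd_mul (wd_clm _ hk) contDiffAt_const)).add (wd_mul (wd_F2 M hF).1 (wd_N2 M 0))).add
    (wd_mul (wd_mul (contDiffAt_const.add (wd_smul contDiffAt_fst (wd_F2 M hF).1)) (wd_N2 M 0))
      (wd_X2h M hF hX))

omit [CompleteSpace B] [CompleteSpace A] in
theorem wd_st1 : M.st 1 = 1 := by
  have h := M.st_mul 1 (M.st 1)
  rw [one_mul, M.st_st, one_mul] at h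
  exact h.symm

omit [CompleteSpace A] in
theorem wd_m1B {r C : ℝ} {F2 : ℝ × E0 → A} (hF : F2Data M r C F2) {r' : ℝ} {X2 : ℝ × A → A}
    (hX : X2Data M r' X2) : ContDiffAt ℝ ∞ (m1B M F2 X2) 0 ∧ m1B M F2 X2 0 = 1 := by
  refine ⟨?_, ?_⟩
  · unfold m1B
    have h1 : ContDiffAt ℝ ∞ (fun p : ℝ × E0 => 1 + (p.1 : ℂ) • g2 M F2 p) 0 :=
      contDiffAt_const.add (wd_smul contDiffAt_fst (wd_g2 M hF).1)
    exact wd_clm _ (wd_mul (wd_mul (wd_clr _ h1) h1)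
      (contDiffAt_const.add (wd_smul contDiffAt_fst (wd_X2h M hF hX))))
  · unfold m1B
    simp [wd_st1, M.d_one]

omit [CompleteSpace A] in
theorem wd_inv2 {r C : ℝ} {F2 : ℝ × E0 → A} (hF : F2Data M r C F2) {r' : ℝ} {X2 : ℝ × A → A}
    (hX : X2Data M r' X2) :
    ContDiffAt ℝ ∞ (fun p => Ring.inverse (nB M p * m1B M F2 X2 p)) 0 := by
  obtain ⟨h1, h2⟩ := wd_m1B M hF hX
  exact wd_inv (wd_mul (wd_nB M 0) h1) (by rw [wd_nB0, h2, one_mul])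

omit [CompleteSpace B] [CompleteSpace A] in
theorem wd_re {P : Type*} [NormedAddCommGroup P] [NormedSpace ℝ P] {f : P → B} {p : P}
    (hf : ContDiffAt ℝ ∞ f p) : ContDiffAt ℝ ∞ (fun x => reB M (f x)) p := by
  unfold reB
  exact wd_csmul _ (hf.add (wd_clr _ hf))

omit [CompleteSpace A] in
theorem wd_trn (M : TwoAlg A1 L B A) :
    ContDiffAt ℝ ∞ (fun p : ℝ × E0 => M.τ 1 * rB M p.2 * niB M p) 0 :=
  wd_mul (wd_mul contDiffAt_const (wd_rB M 0)) (wd_niB M)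

omit [CompleteSpace A] in
theorem wd_Wb {r C : ℝ} {F2 : ℝ × E0 → A} (hF : F2Data M r C F2) {r' : ℝ} {X2 : ℝ × A → A}
    (hX : X2Data M r' X2) : ContDiffAt ℝ ∞ (Wb M F2 X2) 0 := by
  unfold Wb
  exact wd_csmul _ (wd_mul (wd_inv2 M hF hX) (wd_re M (wd_csmul _
    (wd_mul (wd_mul (wd_trn M) (wd_clm _ (wd_PhiH2 M hF hX)))
      (wd_clr _ (wd_clm _ (wd_Phi2 M hF hX)))))))

omit [CompleteSpace A] in
theorem wd_Zb {r C : ℝ} {F2 : ℝ × E0 → A} (hF : F2Data M r C F2) {r' : ℝ} {X2 : ℝ × A → A}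
    (hX : X2Data M r' X2) : ContDiffAt ℝ ∞ (Zb M F2 X2) 0 := by
  unfold Zb
  have hP := wd_Phi2 M hF hX
  exact wd_mul (wd_inv2 M hF hX) ((wd_csmul _ (wd_mul (wd_mul (wd_trn M) (wd_clm _ hP))
      (wd_clr _ (wd_clm _ hP)))).add
    (wd_mul (wd_mul (wd_clr _ (wd_csmul _ (wd_trn M))) (wd_clm _ hP)) (wd_clr _ (wd_clm _ hP))))

end WDaux

/-- JOB WD. -/
theorem fB_smooth {A1 : Type} [NormedRing A1] [NormedAlgebra ℂ A1] [CompleteSpace A1]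
    {L : LoopAlg A1} {B : Type} [NormedCommRing B] [NormedAlgebra ℂ B] [CompleteSpace B]
    {A : Type} [NormedRing A] [NormedAlgebra ℂ A] [CompleteSpace A] (M : TwoAlg A1 L B A) (r C : ℝ) (F2 : ℝ × E0 → A) (hF : F2Data M r C F2)
    (r' : ℝ) (X2 : ℝ × A → A) (hX : X2Data M r' X2) :
    ContDiffAt ℝ ∞ (fB M F2 X2) 0 := by
  have hZ : ContDiffAt ℝ ∞ (fun q : ℝ × ℝ × E0 => Zb M F2 X2 (q.1, q.2.2)) 0 := by
    have h1 : ContDiffAt ℝ ∞ (fun q : ℝ × ℝ × E0 => (q.1, q.2.2)) 0 :=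
      contDiffAt_fst.prodMk contDiffAt_snd.snd
    have h2 : ContDiffAt ℝ ∞ (Zb M F2 X2) ((fun q : ℝ × ℝ × E0 => (q.1, q.2.2)) 0) := wd_Zb M hF hX
    exact h2.comp (0 : ℝ × ℝ × E0) h1
  have hW : ContDiffAt ℝ ∞ (fun q : ℝ × ℝ × E0 => Wb M F2 X2 (q.1, q.2.2)) 0 := by
    have h1 : ContDiffAt ℝ ∞ (fun q : ℝ × ℝ × E0 => (q.1, q.2.2)) 0 :=
      contDiffAt_fst.prodMk contDiffAt_snd.snd
    have h2 : ContDiffAt ℝ ∞ (Wb M F2 X2) ((fun q : ℝ × ℝ × E0 => (q.1, q.2.2)) 0) := wd_Wb M hF hX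
    exact ContDiffAt.comp (g := Wb M F2 X2) (f := fun q : ℝ × ℝ × E0 => (q.1, q.2.2))
      (0 : ℝ × ℝ × E0) h2 h1
  have hZ2 : ContDiffAt ℝ ∞ (fun q : ℝ × ℝ × E0 => Z2 M F2 X2 (q.1, q.2.2)) 0 := by
    unfold Z2
    exact wd_clm _ hZ
  have he : ContDiffAt ℝ ∞ (fun q : ℝ × ℝ × E0 => (M.e 1 (Z2 M F2 X2 (q.1, q.2.2))).re) 0 :=
    wd_clr Complex.reCLM (wd_clm _ hZ2)
  unfold fB
  refine ContDiffAt.prodMk ?_ (ContDiffAt.prodMk ?_ ?_)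
  · exact ((contDiffAt_const.sub contDiffAt_snd.fst).mul (he.pow 2)).sub contDiffAt_const
  · exact wd_clr _ (wd_re M (wd_mul hZ ((wd_clr _ hZ2).sub (wd_smul contDiffAt_snd.fst hZ2))))
  · exact wd_clr _ hW



end Pool.Agent.Helper87.VT
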