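import Mathlib
import Pool.Agent.Helper87.VT.Two

set_option autoImplicit false

open Set Metric Matrix
open scoped ContDiff ComplexConjugate

namespace Pool.Agent.Helper87.VT

open Pool.Agent.Helper87.CMC (LoopAlg)

theorem wu_unique (a : ℤ → ℂ) (h : ∀ z : ℂ, ‖z‖ = 1 → HasSum (fun n : ℤ => a n * z ^ n) 0) (k : ℤ) :
    a k = 0 := by
  have hs : Summable a := by
    have h1 := (h 1 norm_one).summable
    simpa using h1
  have hsn : Summable (fun n => ‖a n‖) := hs.norm
  have hsum : Summable (fun n : ℤ => a n • (fourier n : C(UnitAddCircle, ℂ))) :=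
    Summable.of_norm_bounded hsn (fun n => by rw [norm_smul, fourier_norm, mul_one])
  have hF : ∑' n : ℤ, a n • (fourier n : C(UnitAddCircle, ℂ)) = 0 := by
    ext x
    have h1 := (ContinuousMap.evalCLM ℂ x : C(UnitAddCircle, ℂ) →L[ℂ] ℂ).hasSum hsum.hasSum
    have hz : ‖(fourier 1 x : ℂ)‖ = 1 := by
      rw [fourier_one]
      exact Circle.norm_coe _
    have h2 := h (fourier 1 x) hz
    have h3 : (fun n : ℤ => a n * (fourier 1 x : ℂ) ^ n) =
        fun n : ℤ => (ContinuousMap.evalCLM ℂ x : C(UnitAddCircle, ℂ) →L[ℂ] ℂ)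
          (a n • (fourier n : C(UnitAddCircle, ℂ))) := by
      funext n
      show a n * (fourier 1 x : ℂ) ^ n = a n * fourier n x
      rw [fourier_one, fourier_apply, AddCircle.toCircle_zsmul, Circle.coe_zpow]
    rw [h3] at h2
    exact h1.unique h2
  have h4 := (ContinuousMap.toLp (E := ℂ) 2 AddCircle.haarAddCircle ℂ :
    C(UnitAddCircle, ℂ) →L[ℂ] MeasureTheory.Lp ℂ 2 AddCircle.haarAddCircle).hasSum hsum.hasSum
  rw [hF, map_zero] at h4
  have h5 := (innerSL ℂ (fourierLp (T := 1) 2 k)).hasSum h4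
  rw [map_zero] at h5
  have h6 : (fun n : ℤ => (innerSL ℂ (fourierLp (T := 1) 2 k))
      ((ContinuousMap.toLp (E := ℂ) 2 AddCircle.haarAddCircle ℂ :
        C(UnitAddCircle, ℂ) →L[ℂ] MeasureTheory.Lp ℂ 2 AddCircle.haarAddCircle)
        (a n • (fourier n : C(UnitAddCircle, ℂ))))) = fun n => if n = k then a n else 0 := by
    funext n
    rw [map_smul, map_smul]
    have h7 := orthonormal_iff_ite.1 (orthonormal_fourier (T := 1)) k n
    show a n • inner ℂ (fourierLp (T := 1) 2 k) (fourierLp (T := 1) 2 n) = _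
    rw [h7]
    by_cases hn : n = k
    · rw [if_pos hn, if_pos hn.symm, smul_eq_mul, mul_one]
    · rw [if_neg hn, if_neg (fun h => hn h.symm), smul_zero]
  rw [h6] at h5
  have h8 : HasSum (fun n => if n = k then a n else 0) (a k) := by
    have := hasSum_single (f := fun n => if n = k then a n else 0) k (fun b hb => if_neg hb)
    simpa using this
  exact h8.unique h5

/-- JOB WU. -/
theorem coeff_unique {A1 : Type} [NormedRing A1] [NormedAlgebra ℂ A1] [CompleteSpace A1]
    {L : LoopAlg A1} {B : Type} [NormedCommRing B] [NormedAlgebra ℂ B] [CompleteSpace B]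
    {A : Type} [NormedRing A] [NormedAlgebra ℂ A] [CompleteSpace A] (M : TwoAlg A1 L B A) (x y : B)
    (h : ∀ z : ℂ, ‖z‖ = 1 → M.e z x = M.e z y) : x = y := by
  apply M.ext
  intro n
  have h1 := wu_unique (fun k => M.co k x - M.co k y) (fun z hz => by
    have h2 := (M.e_sum z hz x).sub (M.e_sum z hz y)
    rw [h z hz, sub_self] at h2
    refine h2.congr_fun ?_
    intro k
    show (M.co k x - M.co k y) * z ^ k = M.co k x * z ^ k - M.co k y * z ^ k
    ring) n
  exact sub_eq_zero.1 h1

/-- JOB WU. -/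
theorem co_shift {A1 : Type} [NormedRing A1] [NormedAlgebra ℂ A1] [CompleteSpace A1]
    {L : LoopAlg A1} {B : Type} [NormedCommRing B] [NormedAlgebra ℂ B] [CompleteSpace B]
    {A : Type} [NormedRing A] [NormedAlgebra ℂ A] [CompleteSpace A] (M : TwoAlg A1 L B A) (m n : ℤ) (x : B) : M.co n (M.τ m * x) = M.co (n - m) x := by
  have h1 := wu_unique (fun k => M.co k (M.τ m * x) - M.co (k - m) x) (fun z hz => by
    have h2 := M.e_sum z hz (M.τ m * x)
    have hz0 : z ≠ 0 := by
      intro h0
      rw [h0, norm_zero] at hz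
      exact zero_ne_one hz
    rw [M.e_mul z hz, M.e_τ z hz] at h2
    have h3 := (M.e_sum z hz x).mul_left (z ^ m)
    have h4 : HasSum (fun k : ℤ => z ^ m * (M.co (k - m) x * z ^ (k - m)))
        (z ^ m * M.e z x) := by
      have := (Equiv.subRight m).hasSum_iff.2 h3
      exact this
    have h5 := h2.sub h4
    rw [sub_self] at h5
    refine h5.congr_fun ?_
    intro k
    show (M.co k (M.τ m * x) - M.co (k - m) x) * z ^ k = M.co k (M.τ m * x) * z ^ k -
      z ^ m * (M.co (k - m) x * z ^ (k - m))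
    have h6 : z ^ k = z ^ m * z ^ (k - m) := by
      rw [← zpow_add₀ hz0]
      congr 1
      ring
    rw [h6]
    ring) n
  exact sub_eq_zero.1 h1



end Pool.Agent.Helper87.VT
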