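import Mathlib
import Pool.Agent.Helper87.VT.Two
import Pool.Agent.Helper87.VT.MWU

set_option autoImplicit false

open Set Metric Matrix
open scoped ContDiff ComplexConjugate

namespace Pool.Agent.Helper87.VT

open Pool.Agent.Helper87.CMC (LoopAlg)



section WE0aux

variable {A1 : Type} [NormedRing A1] [NormedAlgebra ℂ A1]
  {L : LoopAlg A1} {B : Type} [NormedCommRing B] [NormedAlgebra ℂ B]
  {A : Type} [NormedRing A] [NormedAlgebra ℂ A] (M : TwoAlg A1 L B A)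

theorem we0_st_one : M.st 1 = 1 := by
  have h1 : M.st (M.st 1) = M.st (M.st 1) * M.st 1 := by
    conv_lhs => rw [← one_mul (M.st 1), M.st_mul]
  rw [M.st_st, one_mul] at h1
  exact h1.symm

theorem we0_stS_comm (x : A) : M.st M.S * x = x * M.st M.S := by
  have h1 := M.S_comm (M.st x)
  have h2 := congrArg M.st h1
  rw [M.st_mul, M.st_mul, M.st_st] at h2
  exact h2.symm

theorem we0_evE (i j : Fin 2) (b : B) (x : A) : M.ev i j (M.ι b * x) = b * M.ev i j x := by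
  rw [M.ev_mul, M.ev_ι, M.ev_ι]
  fin_cases i <;> simp

theorem we0_evS (i j : Fin 2) (x : A) : M.ev i j (M.S * x) = M.ev i j x := by
  rw [M.ev_mul, M.ev_S, M.ev_S]
  fin_cases i <;> simp

theorem we0_sB_one : M.sB 1 = 1 := by
  have h := M.sB_τ 0
  rw [neg_zero, M.τ_zero] at h
  exact h

theorem we0_evstS (i j : Fin 2) (x : A) : M.ev i j (M.st M.S * x) = M.ev i j x := by
  rw [M.ev_mul, M.ev_st, M.ev_st, M.ev_S, M.ev_S]
  fin_cases i <;> simp [we0_sB_one]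

theorem we0_N2 (u : E0) : N2 M (0, u) = M.ι (M.τ 1) * M.E 0 1 - M.ι (M.τ (-1)) * M.E 1 0 := by
  unfold N2
  simp

theorem we0_stN2 : M.st (M.ι (M.τ 1) * M.E 0 1 - M.ι (M.τ (-1)) * M.E 1 0)
    = M.ι (M.τ (-1)) * M.E 1 0 - M.ι (M.τ 1) * M.E 0 1 := by
  rw [map_sub, M.st_mul, M.st_mul, M.st_E, M.st_E, M.st_ι, M.st_ι, M.sB_τ, M.sB_τ, neg_neg,
    ← M.ι_comm, ← M.ι_comm]

theorem we0_nB (u : E0) : nB M (0, u) = 1 := by
  unfold nB
  simp

theorem we0_niB (u : E0) : niB M (0, u) = 1 := by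
  unfold niB
  rw [we0_nB, Ring.inverse_one]

theorem we0_MB (u : E0) : MB M (0, u) = M.ι (M.τ 2) * (M.S * M.E 0 1) := by
  unfold MB
  simp

/-- the coefficients -/
noncomputable def weA (y : X1) (n : ℕ) : ℂ :=
  (((y n / 4 ^ (n + 1) * (2 * n + 1) / (2 * n + 3) : ℝ)) : ℂ)

theorem we0_J (y : X1) :
    HasSum (fun n : ℕ => weA y n • (M.ι (M.τ (2 * n + 3)) * (M.S * M.E 0 1)))
      (M.J (M.ι (M.τ 2) * (M.S * M.E 0 1)) (M.QL y)) := by
  have h1 := (M.QL_sum y).mapL (M.J (M.ι (M.τ 2) * (M.S * M.E 0 1)))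
  have h2 : (fun n : ℕ => (M.J (M.ι (M.τ 2) * (M.S * M.E 0 1)))
      ((((y n / 4 ^ (n + 1) : ℝ)) : ℂ) • M.τ (2 * n + 1)))
      = fun n : ℕ => weA y n • (M.ι (M.τ (2 * n + 3)) * (M.S * M.E 0 1)) := by
    funext n
    rw [map_smul]
    have h3 := M.J_τ 2 (2 * n) 0 1
    push_cast at h3
    have h4 : (2 : ℤ) + 2 * (n : ℤ) + 1 = 2 * n + 3 := by ring
    rw [h4] at h3
    rw [h3, smul_smul]
    congr 1
    unfold weA
    push_cast
    have h5 : (2 : ℂ) + 2 * (n : ℂ) + 1 = 2 * n + 3 := by ring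
    rw [h5]
    ring
  rw [h2] at h1
  exact h1

theorem we0_P (y : X1) : ∃ P : B,
    M.J (M.ι (M.τ 2) * (M.S * M.E 0 1)) (M.QL y) = M.ι P * (M.S * M.E 0 1) ∧
    ∑' n : ℕ, weA y n • M.τ (2 * n + 2) = P * M.τ (-1) := by
  have h1 := we0_J M y
  have h2 := h1.mapL (M.ev 0 1)
  have h3 : (fun n : ℕ => (M.ev 0 1) (weA y n • (M.ι (M.τ (2 * n + 3)) * (M.S * M.E 0 1))))
      = fun n : ℕ => weA y n • M.τ (2 * n + 3) := by
    funext n
    rw [map_smul, we0_evE, we0_evS, M.ev_E]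
    simp
  rw [h3] at h2
  set P := (M.ev 0 1) (M.J (M.ι (M.τ 2) * (M.S * M.E 0 1)) (M.QL y)) with hP
  refine ⟨P, ?_, ?_⟩
  · have h4 := (h2.mapL M.ι).mul_right (M.S * M.E 0 1)
    have h5 : (fun n : ℕ => M.ι (weA y n • M.τ (2 * n + 3)) * (M.S * M.E 0 1))
        = fun n : ℕ => weA y n • (M.ι (M.τ (2 * n + 3)) * (M.S * M.E 0 1)) := by
      funext n
      rw [map_smul, smul_mul_assoc]
    rw [h5] at h4
    exact h1.unique h4
  · have h4 := h2.mul_right (M.τ (-1))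
    have h5 : (fun n : ℕ => weA y n • M.τ (2 * n + 3) * M.τ (-1))
        = fun n : ℕ => weA y n • M.τ (2 * n + 2) := by
      funext n
      rw [smul_mul_assoc, ← M.τ_add]
      congr 2
      ring
    rw [h5] at h4
    exact h4.tsum_eq

theorem we0_co_rB (u : E0) (m : ℤ) : M.co m (rB M u) = (1 - (m : ℂ)) * M.co m (kB M u) := by
  unfold rB kB
  rw [map_sub, map_add, map_smul, M.co_kL, M.co_thL]
  by_cases h : 0 < m ∧ Even m
  · rw [if_pos h, if_pos h]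
    have h0 : M.co m 1 = 0 := by
      rw [← M.τ_zero, M.co_τ, if_neg h.1.ne']
    rw [h0]
    have hm : (m : ℂ) ≠ 0 := by exact_mod_cast h.1.ne'
    have hm' : (m : ℝ) ≠ 0 := by exact_mod_cast h.1.ne'
    push_cast
    field_simp
    ring
  · rw [if_neg h, if_neg h]
    by_cases h0 : m = 0
    · subst h0
      push_cast
      ring
    · have h1 : M.co m 1 = 0 := by
        rw [← M.τ_zero, M.co_τ, if_neg h0]
      rw [h1]
      simp

theorem we0_co_one (u : E0) : M.co 1 (kB M u) = 0 := by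
  unfold kB
  rw [map_add, map_smul, M.co_kL]
  have h0 : M.co 1 1 = 0 := by
    rw [← M.τ_zero, M.co_τ, if_neg (by norm_num)]
  have h1 : ¬ ((0 : ℤ) < 1 ∧ Even (1 : ℤ)) := by
    rintro ⟨-, h⟩
    exact absurd h (by decide)
  rw [h0, if_neg h1]
  simp

end WE0aux

/-- JOB WE0. -/
theorem fB_zero {A1 : Type} [NormedRing A1] [NormedAlgebra ℂ A1] [CompleteSpace A1]
    {L : LoopAlg A1} {B : Type} [NormedCommRing B] [NormedAlgebra ℂ B] [CompleteSpace B]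
    {A : Type} [NormedRing A] [NormedAlgebra ℂ A] [CompleteSpace A] (M : TwoAlg A1 L B A) (r C : ℝ) (F2 : ℝ × E0 → A) (hF : F2Data M r C F2)
    (r' : ℝ) (X2 : ℝ × A → A) (hX : X2Data M r' X2) :
    ∃ ρ : ℝ, 0 < ρ ∧ ∀ u : E0, ‖u‖ < ρ →
      Wb M F2 X2 (0, u) = (-2 : ℂ) • reB M (Complex.I • (rB M u * (M.sB (kB M u)
        - (∑' n : ℕ, (((u.2.2 n / 4 ^ (n + 1) * (2 * n + 1) / (2 * n + 3) : ℝ)) : ℂ) •
            M.τ (2 * n + 2))))) ∧
      Zb M F2 X2 (0, u) = Complex.I • (M.τ 1 * M.sB (rB M u)) ∧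
      Z2 M F2 X2 (0, u) = M.τ 1 * M.sB (kB M u) := by
  set N0 : A := M.ι (M.τ 1) * M.E 0 1 - M.ι (M.τ (-1)) * M.E 1 0 with hN0
  set K : ℝ := ‖M.st N0‖ * C * ‖N0‖ + 1 with hK
  have hC := hF.C_pos
  have hK0 : 0 < K := by positivity
  have hr := hF.r_pos
  have hr' := hX.r_pos
  refine ⟨min r (r' / K), by positivity, fun u hu => ?_⟩
  have hur : ‖u‖ < r := lt_of_lt_of_le hu (min_le_left _ _)
  have hur' : ‖u‖ < r' / K := lt_of_lt_of_le hu (min_le_right _ _)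
  have hp : ((0 : ℝ), u) ∈ ball (0 : ℝ × E0) r := by
    rw [mem_ball_zero_iff, Prod.norm_mk, norm_zero]
    exact max_lt hr hur
  obtain ⟨P, hP1, hP2⟩ := we0_P M u.2.2
  have hF2 : F2 (0, u) = M.ι P * (M.S * M.E 0 1) := by
    rw [hF.eq _ hp, we0_MB]
    unfold QB
    rw [← hP1]
    simp
  have hN : N2 M (0, u) = N0 := we0_N2 M u
  have hg : g2 M F2 (0, u) = M.st N0 * F2 (0, u) * N0 := by
    unfold g2
    rw [we0_niB, M.ι_one, one_mul, hN]
  -- explicit `g2`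
  set G : B := P * M.τ (-1) * M.τ (-1) with hG
  have hg' : g2 M F2 (0, u) = - (M.ι G * (M.S * M.E 1 0)) := by
    rw [hg, hF2, hN0, we0_stN2]
    have e1 : (M.ι (M.τ (-1)) * M.E 1 0 - M.ι (M.τ 1) * M.E 0 1) * (M.ι P * (M.S * M.E 0 1))
        = M.ι (M.τ (-1)) * (M.ι P * (M.S * M.E 1 1)) := by
      have a1 : M.E 1 0 * (M.ι P * (M.S * M.E 0 1)) = M.ι P * (M.S * M.E 1 1) := by
        rw [← mul_assoc, ← M.ι_comm, mul_assoc, ← mul_assoc (M.E 1 0), ← M.S_comm, mul_assoc,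
          M.E_mul, if_pos rfl]
      have a2 : M.E 0 1 * (M.ι P * (M.S * M.E 0 1)) = 0 := by
        rw [← mul_assoc, ← M.ι_comm, mul_assoc, ← mul_assoc (M.E 0 1), ← M.S_comm, mul_assoc,
          M.E_mul, if_neg (by decide)]
        simp
      rw [sub_mul, mul_assoc, mul_assoc, a1, a2, mul_zero, sub_zero]
    rw [e1]
    have b1 : M.ι (M.τ (-1)) * (M.ι P * (M.S * M.E 1 1)) * (M.ι (M.τ 1) * M.E 0 1) = 0 := by
      rw [M.ι_comm (M.τ 1), mul_assoc, mul_assoc, mul_assoc, ← mul_assoc (M.E 1 1), M.E_mul,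
        if_neg (by decide)]
      simp
    have b2 : M.ι (M.τ (-1)) * (M.ι P * (M.S * M.E 1 1)) * (M.ι (M.τ (-1)) * M.E 1 0)
        = M.ι G * (M.S * M.E 1 0) := by
      have c1 : M.ι G = M.ι (M.τ (-1)) * (M.ι (M.τ (-1)) * M.ι P) := by
        rw [hG, M.ι_mul, M.ι_mul, M.ι_comm (M.τ (-1)) (M.ι P), ← mul_assoc,
          M.ι_comm (M.τ (-1)) (M.ι P)]
      rw [c1, M.ι_comm (M.τ (-1)) (M.E 1 0)]
      calc M.ι (M.τ (-1)) * (M.ι P * (M.S * M.E 1 1)) * (M.E 1 0 * M.ι (M.τ (-1)))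
          = M.ι (M.τ (-1)) * (M.ι P * (M.S * (M.E 1 1 * M.E 1 0))) * M.ι (M.τ (-1)) := by
            simp only [mul_assoc]
        _ = M.ι (M.τ (-1)) * (M.ι P * (M.S * M.E 1 0)) * M.ι (M.τ (-1)) := by
            rw [M.E_mul, if_pos rfl]
        _ = M.ι (M.τ (-1)) * (M.ι (M.τ (-1)) * (M.ι P * (M.S * M.E 1 0))) := by
            rw [mul_assoc, ← M.ι_comm (M.τ (-1)) (M.ι P * (M.S * M.E 1 0))]
        _ = _ := by simp only [mul_assoc]
    rw [mul_sub, b1, b2, zero_sub]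
  have hstg : M.st (g2 M F2 (0, u)) = - (M.ι (M.sB G) * (M.st M.S * M.E 0 1)) := by
    rw [hg', map_neg, M.st_mul, M.st_mul, M.st_ι, M.st_E, ← M.ι_comm, we0_stS_comm]
  -- the point is in the ball of `hX`
  have hq : ((0 : ℝ), g2 M F2 (0, u)) ∈ ball (0 : ℝ × A) r' := by
    rw [mem_ball_zero_iff, Prod.norm_mk, norm_zero]
    refine max_lt hr' ?_
    rw [hg]
    have b1 : ‖F2 (0, u)‖ ≤ C * ‖u‖ := by
      refine (hF.bound _ hp).trans (mul_le_mul_of_nonneg_left ?_ hC.le)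
      show ‖u.2.2‖ ≤ ‖u‖
      exact (norm_snd_le u.2).trans (norm_snd_le u)
    calc ‖M.st N0 * F2 (0, u) * N0‖ ≤ ‖M.st N0‖ * ‖F2 (0, u)‖ * ‖N0‖ :=
          (norm_mul_le _ _).trans (mul_le_mul_of_nonneg_right (norm_mul_le _ _) (norm_nonneg _))
      _ ≤ ‖M.st N0‖ * (C * ‖u‖) * ‖N0‖ := by gcongr
      _ = (‖M.st N0‖ * C * ‖N0‖) * ‖u‖ := by ring
      _ ≤ K * ‖u‖ := mul_le_mul_of_nonneg_right (by linarith) (norm_nonneg _)
      _ < K * (r' / K) := mul_lt_mul_of_pos_left hur' hK0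
      _ = r' := by field_simp
  have hX2 : X2h M F2 X2 (0, u) = M.ι (M.sB G) * (M.st M.S * M.E 0 1) := by
    have e1 := hX.eq _ hq
    unfold X2h
    simp only [Complex.ofReal_zero, zero_smul, add_zero] at e1
    show X2 (0, g2 M F2 (0, u)) = _
    rw [e1, hstg, hg', map_add, map_neg, map_neg, M.Pp_ι, M.Pp_ι, M.Pp_SE, M.Pp_TE]
    simp
  -- evaluations of `N0`
  have ev00 : M.ev 0 0 N0 = 0 := by
    rw [hN0, map_sub, we0_evE, we0_evE, M.ev_E, M.ev_E]; simp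
  have ev11 : M.ev 1 1 N0 = 0 := by
    rw [hN0, map_sub, we0_evE, we0_evE, M.ev_E, M.ev_E]; simp
  have ev01 : M.ev 0 1 N0 = M.τ 1 := by
    rw [hN0, map_sub, we0_evE, we0_evE, M.ev_E, M.ev_E]; simp
  have ev10 : M.ev 1 0 N0 = - M.τ (-1) := by
    rw [hN0, map_sub, we0_evE, we0_evE, M.ev_E, M.ev_E]; simp
  have hPhi : Phi2 M F2 X2 (0, u) = N0 := by
    unfold Phi2
    rw [hN]
    simp
  have hm1 : m1B M F2 X2 (0, u) = 1 := by
    unfold m1B
    simp only [Complex.ofReal_zero, zero_smul, add_zero, mul_one, we0_st_one, M.d_one]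
  have hPhiH : M.ev 0 0 (PhiH2 M F2 X2 (0, u)) = M.sB (kB M u) - P * M.τ (-1) := by
    unfold PhiH2
    rw [hN, hX2, hF2]
    simp only [Complex.ofReal_zero, zero_smul, add_zero, one_mul]
    rw [map_add, map_add, map_add, we0_evE, we0_evE, M.ev_E, M.ev_E, M.ev_mul, M.ev_mul 0 0 N0,
      ev00, ev01, ev10, we0_evE, we0_evE, we0_evE, we0_evE, we0_evS, we0_evS, we0_evstS,
      we0_evstS, M.ev_E, M.ev_E, M.ev_E]
    simp
    ring
  have hτ : M.τ 1 * M.τ (-1) = 1 := by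
    rw [← M.τ_add]
    exact M.τ_zero
  have hZb : Zb M F2 X2 (0, u) = Complex.I • (M.τ 1 * M.sB (rB M u)) := by
    unfold Zb
    rw [we0_nB, hm1, hPhi, we0_niB, ev00, ev11, ev01, ev10, mul_one, Ring.inverse_one, one_mul,
      M.sB_smul, Complex.conj_I, map_neg, M.sB_τ, neg_neg, map_zero, mul_one]
    have h1 : M.sB (M.τ 1 * rB M u) = M.τ (-1) * M.sB (rB M u) := by
      rw [M.sB_mul, M.sB_τ]
    show Complex.I • (M.τ 1 * rB M u * 0 * 0)
      + -Complex.I • M.sB (M.τ 1 * rB M u) * M.τ 1 * -M.τ 1 = _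
    rw [h1]
    have h2 : M.τ (-1) * M.sB (rB M u) * M.τ 1 * M.τ 1 = M.τ 1 * M.sB (rB M u) := by
      calc M.τ (-1) * M.sB (rB M u) * M.τ 1 * M.τ 1
          = (M.τ 1 * M.τ (-1)) * (M.τ 1 * M.sB (rB M u)) := by ring
        _ = _ := by rw [hτ, one_mul]
    rw [mul_zero, smul_zero, zero_add, mul_neg, smul_mul_assoc, smul_mul_assoc, h2, neg_smul,
      neg_neg]
  refine ⟨?_, hZb, ?_⟩
  · unfold Wb
    rw [we0_nB, hm1, hPhi, hPhiH, we0_niB, ev01, mul_one, Ring.inverse_one, one_mul, M.sB_τ,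
      mul_one]
    have h1 : (∑' n : ℕ, (((u.2.2 n / 4 ^ (n + 1) * (2 * n + 1) / (2 * n + 3) : ℝ)) : ℂ) •
            M.τ (2 * n + 2)) = P * M.τ (-1) := hP2
    rw [h1]
    congr 3
    show M.τ 1 * rB M u * (M.sB (kB M u) - P * M.τ (-1)) * M.τ (-1) = _
    calc M.τ 1 * rB M u * (M.sB (kB M u) - P * M.τ (-1)) * M.τ (-1)
        = (M.τ 1 * M.τ (-1)) * (rB M u * (M.sB (kB M u) - P * M.τ (-1))) := by ring
      _ = _ := by rw [hτ, one_mul]
  · unfold Z2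
    rw [hZb]
    refine M.ext _ _ (fun n => ?_)
    rw [M.co_Int, co_shift, M.co_sB]
    by_cases hn : n = 0
    · subst hn
      rw [if_pos rfl]
      have h1 : -((0 : ℤ) - 1) = 1 := by norm_num
      rw [h1, we0_co_one]
      simp
    · rw [if_neg hn, map_smul, co_shift, M.co_sB, we0_co_rB]
      have h1 : -(n - 1) = 1 - n := by ring
      rw [h1]
      have hn' : (n : ℂ) ≠ 0 := by exact_mod_cast hn
      have hI := Complex.I_ne_zero
      push_cast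
      rw [map_mul]
      have h2 : (starRingEnd ℂ) (1 - (1 - (n : ℂ))) = n := by
        have : (1 : ℂ) - (1 - n) = ((n : ℝ) : ℂ) := by push_cast; ring
        rw [this, Complex.conj_ofReal]
        push_cast
        rfl
      rw [h2, smul_eq_mul]
      field_simp



end Pool.Agent.Helper87.VT
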