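import Mathlib
import Pool.Agent.Helper87.VT.Two
import Pool.Agent.Helper87.VT.MWE0

set_option autoImplicit false

open Set Metric Matrix
open scoped ContDiff ComplexConjugate

namespace Pool.Agent.Helper87.VT

open Pool.Agent.Helper87.CMC (LoopAlg)




section WEaux
variable {A1 : Type} [NormedRing A1] [NormedAlgebra ℂ A1] {L : LoopAlg A1}
  {B : Type} [NormedCommRing B] [NormedAlgebra ℂ B]
  {A : Type} [NormedRing A] [NormedAlgebra ℂ A] (M : TwoAlg A1 L B A)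

theorem we_tau_norm (n : ℕ) : ‖M.τ (2 * n + 1)‖ ≤ 4 ^ (n + 1) * ‖M.QL‖ := by
  have h1 := M.QL_sum (lp.single 1 n (1 : ℝ))
  have h2 : HasSum (fun k : ℕ => (((((lp.single 1 n (1 : ℝ) : X1) k) / 4 ^ (k + 1) : ℝ)) : ℂ) •
      M.τ (2 * k + 1)) (((1 / 4 ^ (n + 1) : ℝ) : ℂ) • M.τ (2 * n + 1)) := by
    have h3 := hasSum_single (f := fun k : ℕ => (((((lp.single 1 n (1 : ℝ) : X1) k) / 4 ^ (k + 1) : ℝ)) : ℂ) •
      M.τ (2 * k + 1)) n (by
        intro k hk
        have h4 : (lp.single 1 n (1 : ℝ) : X1) k = 0 := lp.single_apply_ne (E := fun _ : ℕ => ℝ) 1 n (1 : ℝ) hk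
        simp only [h4]
        simp)
    have h5 : (lp.single 1 n (1 : ℝ) : X1) n = 1 := lp.single_apply_self (E := fun _ : ℕ => ℝ) 1 n (1 : ℝ)
    simp only [h5] at h3
    exact h3
  have h3 := h1.unique h2
  have h4 : ‖M.QL (lp.single 1 n (1 : ℝ))‖ ≤ ‖M.QL‖ * ‖(lp.single 1 n (1 : ℝ) : X1)‖ :=
    M.QL.le_opNorm _
  have h5 : ‖(lp.single 1 n (1 : ℝ) : X1)‖ = 1 := by
    rw [lp.norm_single (by norm_num)]
    simp
  rw [h5, h3, norm_smul, mul_one] at h4
  have h6 : ‖((1 / 4 ^ (n + 1) : ℝ) : ℂ)‖ = 1 / 4 ^ (n + 1) := by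
    rw [Complex.norm_real, Real.norm_of_nonneg (by positivity)]
  rw [h6] at h4
  have h7 : (0 : ℝ) < 4 ^ (n + 1) := by positivity
  calc ‖M.τ (2 * n + 1)‖ = 4 ^ (n + 1) * (1 / 4 ^ (n + 1) * ‖M.τ (2 * n + 1)‖) := by
        field_simp
    _ ≤ 4 ^ (n + 1) * ‖M.QL‖ := mul_le_mul_of_nonneg_left h4 h7.le

theorem we_tau_norm2 (n : ℕ) : ‖M.τ (2 * n + 2)‖ ≤ 4 ^ (n + 1) * (‖M.QL‖ * ‖M.τ 1‖) := by
  have h1 : M.τ (2 * n + 2) = M.τ (2 * n + 1) * M.τ 1 := by
    rw [← M.τ_add]; congr 1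
  rw [h1]
  calc ‖M.τ (2 * n + 1) * M.τ 1‖ ≤ ‖M.τ (2 * n + 1)‖ * ‖M.τ 1‖ := norm_mul_le _ _
    _ ≤ (4 ^ (n + 1) * ‖M.QL‖) * ‖M.τ 1‖ :=
        mul_le_mul_of_nonneg_right (we_tau_norm M n) (norm_nonneg _)
    _ = _ := by ring

/-- terms of `P'` -/
noncomputable def weT (y : X1) (n : ℕ) : B :=
  (((y n / 4 ^ (n + 1) * (2 * n + 1) / (2 * n + 3) : ℝ)) : ℂ) • M.τ (2 * n + 2)

theorem weT_norm (y : X1) (n : ℕ) : ‖weT M y n‖ ≤ ‖y n‖ * (‖M.QL‖ * ‖M.τ 1‖) := by
  unfold weT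
  rw [norm_smul, Complex.norm_real]
  have h1 : ‖y n / 4 ^ (n + 1) * (2 * n + 1) / (2 * n + 3)‖ ≤ ‖y n‖ / 4 ^ (n + 1) := by
    rw [norm_div, norm_mul, norm_div]
    have h2 : ‖(2 * (n : ℝ) + 1)‖ = 2 * n + 1 := Real.norm_of_nonneg (by positivity)
    have h3 : ‖(2 * (n : ℝ) + 3)‖ = 2 * n + 3 := Real.norm_of_nonneg (by positivity)
    have h4 : ‖(4 : ℝ) ^ (n + 1)‖ = 4 ^ (n + 1) := Real.norm_of_nonneg (by positivity)
    rw [h2, h3, h4]
    rw [mul_div_assoc]
    have h5 : (2 * (n : ℝ) + 1) / (2 * n + 3) ≤ 1 := by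
      rw [div_le_one (by positivity)]; linarith
    have h6 : 0 ≤ ‖y n‖ / 4 ^ (n + 1) := by positivity
    calc ‖y n‖ / 4 ^ (n + 1) * ((2 * (n : ℝ) + 1) / (2 * n + 3)) ≤ ‖y n‖ / 4 ^ (n + 1) * 1 :=
          mul_le_mul_of_nonneg_left h5 h6
      _ = _ := mul_one _
  calc ‖y n / 4 ^ (n + 1) * (2 * n + 1) / (2 * n + 3)‖ * ‖M.τ (2 * n + 2)‖
      ≤ (‖y n‖ / 4 ^ (n + 1)) * (4 ^ (n + 1) * (‖M.QL‖ * ‖M.τ 1‖)) :=
        mul_le_mul h1 (we_tau_norm2 M n) (norm_nonneg _) (by positivity)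
    _ = _ := by field_simp

theorem we_summ (y : X1) : Summable (fun n => ‖y n‖) := by
  have h := (lp.memℓp y).summable (by norm_num)
  simpa using h

theorem we_norm (y : X1) : ‖y‖ = ∑' n, ‖y n‖ := by
  have h := lp.norm_eq_tsum_rpow (p := 1) (by norm_num) y
  simpa using h

variable [CompleteSpace B]

theorem weT_summ (y : X1) : Summable (weT M y) :=
  Summable.of_norm_bounded ((we_summ y).mul_right _) (weT_norm M y)

/-- `P'` as a continuous linear map -/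
noncomputable def weP : X1 →L[ℝ] B :=
  LinearMap.mkContinuous
    { toFun := fun y => ∑' n, weT M y n
      map_add' := by
        intro y z
        rw [← (weT_summ M y).tsum_add (weT_summ M z)]
        congr 1
        ext n
        unfold weT
        rw [← add_smul]
        congr 1
        have : (y + z : X1) n = y n + z n := rfl
        rw [this]
        push_cast
        ring
      map_smul' := by
        intro c y
        simp only [RingHom.id_apply]
        rw [← (weT_summ M y).tsum_const_smul]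
        congr 1
        ext n
        unfold weT
        have : (c • y : X1) n = c * y n := rfl
        rw [this, ← Complex.coe_smul, smul_smul]
        congr 1
        push_cast
        ring }
    (‖M.QL‖ * ‖M.τ 1‖) (by
      intro y
      have h1 : ‖∑' n, weT M y n‖ ≤ ∑' n, ‖y n‖ * (‖M.QL‖ * ‖M.τ 1‖) :=
        tsum_of_norm_bounded ((we_summ y).mul_right _).hasSum (weT_norm M y)
      have h2 : ∑' n, ‖y n‖ * (‖M.QL‖ * ‖M.τ 1‖) = (‖M.QL‖ * ‖M.τ 1‖) * ‖y‖ := by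
        rw [tsum_mul_right, we_norm, mul_comm]
      exact h1.trans h2.le)

theorem weP_apply (y : X1) : weP M y = ∑' n, weT M y n := rfl

theorem co_weP (y : X1) (m : ℤ) :
    M.co m (weP M y) = ∑' n, M.co m (weT M y n) := by
  rw [weP_apply]
  exact (M.co m).map_tsum (weT_summ M y)

theorem co_weT (y : X1) (m : ℤ) (n : ℕ) : M.co m (weT M y n) =
    if m = 2 * n + 2 then (((y n / 4 ^ (n + 1) * (2 * n + 1) / (2 * n + 3) : ℝ)) : ℂ) else 0 := by
  unfold weT
  rw [map_smul, M.co_τ]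
  split_ifs <;> simp

theorem co_weP_pos (y : X1) (n : ℕ) : M.co (2 * n + 2) (weP M y) =
    (((y n / 4 ^ (n + 1) * (2 * n + 1) / (2 * n + 3) : ℝ)) : ℂ) := by
  rw [co_weP, tsum_eq_single n]
  · rw [co_weT, if_pos rfl]
  · intro k hk
    rw [co_weT, if_neg]
    omega

theorem co_weP_neg (y : X1) (n : ℕ) : M.co (-(2 * n + 2)) (weP M y) = 0 := by
  rw [co_weP]
  have : (fun k => M.co (-(2 * (n : ℤ) + 2)) (weT M y k)) = fun _ => 0 := by
    ext k
    rw [co_weT, if_neg]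
    omega
  rw [this]
  simp

omit [CompleteSpace B] in
theorem we_sB_one : M.sB 1 = 1 := by
  rw [← M.τ_zero, M.sB_τ]; simp

/-- linear part of `κ` -/
noncomputable def weK : E0 →L[ℝ] B :=
  (ContinuousLinearMap.toSpanSingleton ℝ (1 : B)) ∘L (ContinuousLinearMap.fst ℝ ℝ (X1 × X1)) +
    M.kL ∘L (ContinuousLinearMap.fst ℝ X1 X1) ∘L (ContinuousLinearMap.snd ℝ ℝ (X1 × X1))

/-- linear part of `ρ` -/
noncomputable def weR : E0 →L[ℝ] B :=
  weK M - M.thL ∘L (ContinuousLinearMap.fst ℝ X1 X1) ∘L (ContinuousLinearMap.snd ℝ ℝ (X1 × X1))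

/-- `P'` on `E0` -/
noncomputable def wePE : E0 →L[ℝ] B :=
  weP M ∘L (ContinuousLinearMap.snd ℝ X1 X1) ∘L (ContinuousLinearMap.snd ℝ ℝ (X1 × X1))

omit [CompleteSpace B] in
theorem weK_apply (u : E0) : weK M u = u.1 • (1 : B) + M.kL u.2.1 := rfl
omit [CompleteSpace B] in
theorem weR_apply (u : E0) : weR M u = weK M u - M.thL u.2.1 := rfl
theorem wePE_apply (u : E0) : wePE M u = weP M u.2.2 := rfl

omit [CompleteSpace B] in
theorem kB_eq (u : E0) : kB M u = 1 + weK M u := by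
  unfold kB
  rw [weK_apply]
  have h1 : ((1 + u.1 : ℝ) : ℂ) • (1 : B) = 1 + u.1 • (1 : B) := by
    rw [Complex.coe_smul, add_smul, one_smul]
  rw [h1]
  abel

omit [CompleteSpace B] in
theorem rB_eq (u : E0) : rB M u = 1 + weR M u := by
  unfold rB
  rw [kB_eq, weR_apply]
  abel

/-- `reB` as a continuous linear map -/
noncomputable def weRB : B →L[ℝ] B :=
  (1 / 2 : ℝ) • (ContinuousLinearMap.id ℝ B + M.sB)

omit [CompleteSpace B] in
theorem weRB_apply (x : B) : weRB M x = reB M x := by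
  unfold weRB reB
  have h : (1 / 2 : ℂ) = ((1 / 2 : ℝ) : ℂ) := by push_cast; rfl
  rw [h, Complex.coe_smul]
  rfl

/-- multiplication by `i` -/
noncomputable def weI : B →L[ℝ] B :=
  (Complex.I • (ContinuousLinearMap.id ℂ B)).restrictScalars ℝ

omit [CompleteSpace B] in
theorem weI_apply (x : B) : weI (B := B) x = Complex.I • x := rfl

/-- the map `x ↦ Re (e 1 (τ 1 * sB x))` -/
noncomputable def weE : B →L[ℝ] ℝ :=
  Complex.reCLM ∘L ((M.e 1).restrictScalars ℝ) ∘L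
    ((ContinuousLinearMap.mul ℝ B) (M.τ 1)) ∘L M.sB

omit [CompleteSpace B] in
theorem weE_apply (x : B) : weE M x = (M.e 1 (M.τ 1 * M.sB x)).re := rfl

omit [CompleteSpace B] in
theorem weE_eq (x : B) : weE M x = (M.e 1 x).re := by
  rw [weE_apply, M.e_mul 1 (by simp), M.e_τ 1 (by simp), M.e_sB 1 (by simp)]
  simp

omit [CompleteSpace B] in
theorem we_e_one : M.e 1 (1 : B) = 1 := by
  rw [← M.τ_zero, M.e_τ 1 (by simp)]; simp

/-- first component -/
noncomputable def wef1 (u : E0) : ℝ := (weE M (1 + weK M u)) ^ 2 - 1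
/-- second component -/
noncomputable def wef2 (u : E0) : X1 :=
  M.cf (weRB M (weI (M.sB (1 + weR M u) * (1 + weK M u))))
/-- third component -/
noncomputable def wef3 (u : E0) : X1 :=
  M.cf ((-2 : ℝ) • weRB M (weI ((1 + weR M u) * (M.sB (1 + weK M u) - wePE M u))))

theorem wef_eq (r C : ℝ) (F2 : ℝ × E0 → A) (r' : ℝ) (X2 : ℝ × A → A) (u : E0)
    (h1 : Wb M F2 X2 (0, u) = (-2 : ℂ) • reB M (Complex.I • (rB M u * (M.sB (kB M u)
        - (∑' n : ℕ, (((u.2.2 n / 4 ^ (n + 1) * (2 * n + 1) / (2 * n + 3) : ℝ)) : ℂ) •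
            M.τ (2 * n + 2))))))
    (h2 : Zb M F2 X2 (0, u) = Complex.I • (M.τ 1 * M.sB (rB M u)))
    (h3 : Z2 M F2 X2 (0, u) = M.τ 1 * M.sB (kB M u)) :
    fB M F2 X2 (0, 0, u) = (wef1 M u, wef2 M u, wef3 M u) := by
  have e1 : (∑' n : ℕ, (((u.2.2 n / 4 ^ (n + 1) * (2 * n + 1) / (2 * n + 3) : ℝ)) : ℂ) •
            M.τ (2 * n + 2)) = wePE M u := rfl
  rw [e1] at h1
  unfold fB
  simp only
  rw [h1, h2, h3]
  refine Prod.ext ?_ (Prod.ext ?_ ?_)
  · show (1 - (0 : ℝ)) * (M.e 1 (M.τ 1 * M.sB (kB M u))).re ^ 2 - 1 = wef1 M u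
    unfold wef1
    rw [weE_apply, kB_eq]
    ring
  · show M.cf (reB M (Complex.I • (M.τ 1 * M.sB (rB M u)) * (M.sB (M.τ 1 * M.sB (kB M u))
      - ((0 : ℝ) : ℂ) • (M.τ 1 * M.sB (kB M u))))) = wef2 M u
    unfold wef2
    rw [weRB_apply, weI_apply, ← kB_eq, ← rB_eq]
    congr 2
    rw [M.sB_mul, M.sB_sB, M.sB_τ, Complex.ofReal_zero, zero_smul, sub_zero, smul_mul_assoc]
    congr 1
    have h : M.τ 1 * M.τ (-1) = 1 := by rw [← M.τ_add]; simp [M.τ_zero]
    calc M.τ 1 * M.sB (rB M u) * (M.τ (-1) * kB M u)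
        = (M.τ 1 * M.τ (-1)) * (M.sB (rB M u) * kB M u) := by ring
      _ = _ := by rw [h, one_mul]
  · show M.cf ((-2 : ℂ) • reB M (Complex.I • (rB M u * (M.sB (kB M u) - wePE M u)))) = wef3 M u
    unfold wef3
    rw [weRB_apply, weI_apply, ← kB_eq, ← rB_eq]
    congr 1
    have h : (-2 : ℂ) = ((-2 : ℝ) : ℂ) := by push_cast; rfl
    rw [h, Complex.coe_smul]

theorem wef1_deriv : HasFDerivAt (wef1 M) ((2 : ℝ) • (weE M ∘L weK M)) 0 := by
  have h1 : HasFDerivAt (fun u : E0 => weE M (1 + weK M u)) (weE M ∘L weK M) 0 := by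
    have h2 : HasFDerivAt (fun u : E0 => 1 + weK M u) (weK M) 0 :=
      (weK M).hasFDerivAt.const_add 1
    exact (weE M).hasFDerivAt.comp 0 h2
  have h3 := (h1.pow 2).sub_const 1
  refine h3.congr_fderiv (ContinuousLinearMap.ext fun u => ?_)
  simp [weE_eq, we_e_one]

theorem wef2_deriv : HasFDerivAt (wef2 M)
    (M.cf ∘L weRB M ∘L weI ∘L (M.sB ∘L weR M + weK M)) 0 := by
  have h2 : HasFDerivAt (fun u : E0 => 1 + weK M u) (weK M) 0 :=
    (weK M).hasFDerivAt.const_add 1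
  have h3 : HasFDerivAt (fun u : E0 => 1 + weR M u) (weR M) 0 :=
    (weR M).hasFDerivAt.const_add 1
  have h4 : HasFDerivAt (fun u : E0 => M.sB (1 + weR M u)) (M.sB ∘L weR M) 0 :=
    M.sB.hasFDerivAt.comp 0 h3
  have h5 := h4.mul h2
  have h6 : HasFDerivAt (fun u : E0 => M.sB (1 + weR M u) * (1 + weK M u))
      (M.sB ∘L weR M + weK M) 0 := by
    refine h5.congr_fderiv (ContinuousLinearMap.ext fun u => ?_)
    simp [we_sB_one]
    try abel
  have h7 := ((M.cf ∘L weRB M ∘L weI).hasFDerivAt (x := M.sB (1 + weR M 0) * (1 + weK M 0))).comp 0 h6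
  exact h7

theorem wef3_deriv : HasFDerivAt (wef3 M)
    (M.cf ∘L ((-2 : ℝ) • (weRB M ∘L weI ∘L (weR M + M.sB ∘L weK M - wePE M)))) 0 := by
  have h2 : HasFDerivAt (fun u : E0 => 1 + weK M u) (weK M) 0 :=
    (weK M).hasFDerivAt.const_add 1
  have h3 : HasFDerivAt (fun u : E0 => 1 + weR M u) (weR M) 0 :=
    (weR M).hasFDerivAt.const_add 1
  have h4 : HasFDerivAt (fun u : E0 => M.sB (1 + weK M u) - wePE M u) (M.sB ∘L weK M - wePE M) 0 :=
    (M.sB.hasFDerivAt.comp 0 h2).sub (wePE M).hasFDerivAt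
  have h5 := h3.mul h4
  have h6 : HasFDerivAt (fun u : E0 => (1 + weR M u) * (M.sB (1 + weK M u) - wePE M u))
      (weR M + M.sB ∘L weK M - wePE M) 0 := by
    refine h5.congr_fderiv (ContinuousLinearMap.ext fun u => ?_)
    simp [we_sB_one]
    try abel
  have h7 := ((M.cf ∘L ((-2 : ℝ) • (weRB M ∘L weI))).hasFDerivAt
    (x := (1 + weR M 0) * (M.sB (1 + weK M 0) - wePE M 0))).comp 0 h6
  exact h7

omit [CompleteSpace B] in
theorem we_reI (x : B) : reB M (Complex.I • x) = (Complex.I / 2) • (x - M.sB x) := by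
  unfold reB
  rw [M.sB_smul, Complex.conj_I, smul_add, smul_smul, smul_smul, smul_sub]
  have h1 : (1 / 2 : ℂ) * Complex.I = Complex.I / 2 := by ring
  have h2 : (1 / 2 : ℂ) * -Complex.I = -(Complex.I / 2) := by ring
  rw [h1, h2, neg_smul, sub_eq_add_neg]

omit [CompleteSpace B] in
theorem we_co_thL (x : X1) (n : ℕ) :
    M.co (2 * n + 2) (M.thL x) = (((x n / 4 ^ (n + 1) : ℝ)) : ℂ) := by
  rw [M.co_thL, if_pos ⟨by positivity, ⟨(n : ℤ) + 1, by ring⟩⟩]
  have h1 : (2 * (n : ℤ) + 2).toNat / 2 = n + 1 := by omega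
  rw [h1]
  simp

omit [CompleteSpace B] in
theorem we_co_thL_neg (x : X1) (n : ℕ) : M.co (-(2 * n + 2)) (M.thL x) = 0 := by
  rw [M.co_thL, if_neg]
  rintro ⟨h, _⟩
  omega

end WEaux

/-- JOB WE. -/
theorem fB_deriv {A1 : Type} [NormedRing A1] [NormedAlgebra ℂ A1] [CompleteSpace A1]
    {L : LoopAlg A1} {B : Type} [NormedCommRing B] [NormedAlgebra ℂ B] [CompleteSpace B]
    {A : Type} [NormedRing A] [NormedAlgebra ℂ A] [CompleteSpace A] (M : TwoAlg A1 L B A) (r C : ℝ) (F2 : ℝ × E0 → A) (hF : F2Data M r C F2)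
    (r' : ℝ) (X2 : ℝ × A → A) (hX : X2Data M r' X2) :
    fB M F2 X2 0 = 0 ∧ ∃ L0 : E0 →L[ℝ] ℝ × X1 × X1,
      HasFDerivAt (fun u : E0 => fB M F2 X2 (0, 0, u)) L0 0 ∧
      ∀ u : E0, (L0 u).1 = 2 * (u.1 + ∑' n : ℕ, u.2.1 n / 4 ^ (n + 1) / (2 * n + 2)) ∧
        (∀ n, (L0 u).2.1 n = u.2.1 n / 2) ∧
        (∀ n, (L0 u).2.2 n = u.2.1 n + (2 * n + 1) / (2 * n + 3) * u.2.2 n) := by

  obtain ⟨ρ, hρ, H⟩ := fB_zero M r C F2 hF r' X2 hX
  have Heq : ∀ u : E0, ‖u‖ < ρ → fB M F2 X2 (0, 0, u) = (wef1 M u, wef2 M u, wef3 M u) := by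
    intro u hu
    obtain ⟨h1, h2, h3⟩ := H u hu
    exact wef_eq M r C F2 r' X2 u h1 h2 h3
  constructor
  · have h0 := Heq 0 (by rw [norm_zero]; exact hρ)
    have h1 : (0 : ℝ × ℝ × E0) = (0, 0, 0) := rfl
    rw [h1, h0]
    refine Prod.ext ?_ (Prod.ext ?_ ?_)
    · show wef1 M 0 = 0
      unfold wef1
      rw [weE_eq, map_zero, add_zero, we_e_one]
      simp
    · show wef2 M 0 = 0
      unfold wef2
      rw [map_zero, map_zero, add_zero, we_sB_one, mul_one, weRB_apply, weI_apply, we_reI,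
        we_sB_one]
      simp
    · show wef3 M 0 = 0
      unfold wef3
      rw [map_zero, map_zero, map_zero, add_zero, sub_zero, we_sB_one, mul_one, weRB_apply,
        weI_apply, we_reI, we_sB_one]
      simp
  · refine ⟨((2 : ℝ) • (weE M ∘L weK M)).prod
      ((M.cf ∘L weRB M ∘L weI ∘L (M.sB ∘L weR M + weK M)).prod
        (M.cf ∘L ((-2 : ℝ) • (weRB M ∘L weI ∘L (weR M + M.sB ∘L weK M - wePE M))))), ?_, ?_⟩
    · have h1 := (wef1_deriv M).prodMk ((wef2_deriv M).prodMk (wef3_deriv M))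
      refine h1.congr_of_eventuallyEq ?_
      have h2 : ∀ᶠ u : E0 in nhds 0, ‖u‖ < ρ := by
        have := Metric.ball_mem_nhds (0 : E0) hρ
        filter_upwards [this] with u hu
        simpa using hu
      filter_upwards [h2] with u hu
      exact Heq u hu
    · intro u
      refine ⟨?_, ?_, ?_⟩
      · show 2 * (weE M (weK M u)) = _
        rw [weE_eq, weK_apply, map_add]
        congr 1
        have h1 : M.e 1 (u.1 • (1 : B)) = (u.1 : ℂ) := by
          rw [← Complex.coe_smul, map_smul, we_e_one]; simp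
        rw [h1, Complex.add_re, Complex.ofReal_re, M.e_kL u.2.1 1 (by simp)]
        congr 1
        unfold kapF
        have h2 : (fun n : ℕ => (((u.2.1 n / 4 ^ (n + 1) / (2 * n + 2) : ℝ)) : ℂ) * 1 ^ (2 * n + 2))
            = fun n : ℕ => (((u.2.1 n / 4 ^ (n + 1) / (2 * n + 2) : ℝ)) : ℂ) := by
          ext n; rw [one_pow, mul_one]
        rw [h2, ← Complex.ofReal_tsum, Complex.ofReal_re]
      · intro n
        show (M.cf (weRB M (weI (M.sB (weR M u) + weK M u)))) n = _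
        rw [weRB_apply, weI_apply, we_reI, M.cf_apply]
        have h1 : M.sB (weR M u) + weK M u - M.sB (M.sB (weR M u) + weK M u)
            = M.thL u.2.1 - M.sB (M.thL u.2.1) := by
          rw [map_add, M.sB_sB, weR_apply, map_sub]
          abel
        rw [h1, map_smul, map_sub, we_co_thL, M.co_sB, we_co_thL_neg]
        have h2 : ∀ a : ℝ, ((Complex.I / 2) • ((a : ℂ) - (starRingEnd ℂ) 0)).im = a / 2 := by
          intro a
          rw [smul_eq_mul, map_zero, sub_zero]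
          have : Complex.I / 2 * (a : ℂ) = ((a / 2 : ℝ) : ℂ) * Complex.I := by push_cast; ring
          rw [this]
          simp
        rw [h2]
        have h7 : (4 : ℝ) ^ (n + 1) ≠ 0 := by positivity
        field_simp
      · intro n
        show (M.cf ((-2 : ℝ) • (weRB M (weI (weR M u + M.sB (weK M u) - wePE M u))))) n = _
        rw [weRB_apply, weI_apply, we_reI, M.cf_apply]
        have h1 : weR M u + M.sB (weK M u) - wePE M u - M.sB (weR M u + M.sB (weK M u) - wePE M u)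
            = M.sB (M.thL u.2.1) - M.thL u.2.1 + (M.sB (wePE M u) - wePE M u) := by
          rw [map_sub, map_add, M.sB_sB, weR_apply, map_sub]
          abel
        rw [h1, ← Complex.coe_smul, map_smul, map_smul, map_add, map_sub, map_sub, we_co_thL,
          M.co_sB, we_co_thL_neg, M.co_sB, wePE_apply, co_weP_pos, co_weP_neg]
        have h2 : ∀ a b : ℝ, (((-2 : ℝ) : ℂ) • ((Complex.I / 2) • ((starRingEnd ℂ) 0 - (a : ℂ)
            + ((starRingEnd ℂ) 0 - (b : ℂ))))).im = a + b := by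
          intro a b
          rw [smul_eq_mul, smul_eq_mul, map_zero]
          have : ((-2 : ℝ) : ℂ) * (Complex.I / 2 * (0 - (a : ℂ) + (0 - (b : ℂ))))
              = ((a + b : ℝ) : ℂ) * Complex.I := by push_cast; ring
          rw [this]
          simp
        rw [h2]
        have h7 : (4 : ℝ) ^ (n + 1) ≠ 0 := by positivity
        have h8 : (2 * (n : ℝ) + 3) ≠ 0 := by positivity
        field_simp



end Pool.Agent.Helper87.VT
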