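import Mathlib
import Pool.Agent.Helper87.VT.Two

set_option autoImplicit false

open Set Metric Matrix
open scoped ContDiff ComplexConjugate

namespace Pool.Agent.Helper87.VT

open Pool.Agent.Helper87.CMC (LoopAlg)

/-- JOB WI. -/
theorem banach_ift {X Y : Type} [NormedAddCommGroup X] [NormedSpace ℝ X] [CompleteSpace X]
    [NormedAddCommGroup Y] [NormedSpace ℝ Y] [CompleteSpace Y] (f : ℝ × ℝ × X → Y)
    (hf : ContDiffAt ℝ 1 f 0) (h0 : f 0 = 0) (L1 : X ≃L[ℝ] Y)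
    (hL : HasFDerivAt (fun u : X => f (0, 0, u)) (L1 : X →L[ℝ] Y) 0) (η : ℝ) (hη : 0 < η) :
    ∃ ρ : ℝ, 0 < ρ ∧ ∀ ε δ : ℝ, |ε| < ρ → |δ| < ρ → ∃ u : X, ‖u‖ ≤ η ∧ f (ε, δ, u) = 0 := by
  have hs : HasStrictFDerivAt f (fderiv ℝ f 0) 0 := hf.hasStrictFDerivAt (by norm_num)
  obtain ⟨f', hf'⟩ : ∃ f', f' = fderiv ℝ f 0 := ⟨_, rfl⟩
  rw [← hf'] at hs
  -- partial derivative
  have hpart : ∀ u : X, f' (0, 0, u) = L1 u := by
    have h1 : HasFDerivAt (fun u : X => ((0 : ℝ), (0 : ℝ), u))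
        ((ContinuousLinearMap.inr ℝ ℝ (ℝ × X)).comp (ContinuousLinearMap.inr ℝ ℝ X)) 0 :=
      ((ContinuousLinearMap.inr ℝ ℝ (ℝ × X)).comp (ContinuousLinearMap.inr ℝ ℝ X)).hasFDerivAt
    have h2 : HasFDerivAt f f' ((0 : ℝ), (0 : ℝ), (0 : X)) := hs.hasFDerivAt
    have h3 : HasFDerivAt (fun u : X => f (0, 0, u))
        (f'.comp ((ContinuousLinearMap.inr ℝ ℝ (ℝ × X)).comp (ContinuousLinearMap.inr ℝ ℝ X))) 0 :=
      HasFDerivAt.comp (0 : X) h2 h1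
    have h4 := h3.unique hL
    intro u
    have h5 := congrArg (fun T : X →L[ℝ] Y => T u) h4
    exact h5
  have hg : HasStrictFDerivAt (fun q : ℝ × ℝ × X => (q.1, q.2.1, f q))
      ((ContinuousLinearMap.fst ℝ ℝ (ℝ × X)).prod
        (((ContinuousLinearMap.fst ℝ ℝ X).comp (ContinuousLinearMap.snd ℝ ℝ (ℝ × X))).prod f')) 0 :=
    (ContinuousLinearMap.fst ℝ ℝ (ℝ × X)).hasStrictFDerivAt.prodMk
      ((((ContinuousLinearMap.fst ℝ ℝ X).comp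
        (ContinuousLinearMap.snd ℝ ℝ (ℝ × X))).hasStrictFDerivAt).prodMk hs)
  have hsurj : ((ContinuousLinearMap.fst ℝ ℝ (ℝ × X)).prod
        (((ContinuousLinearMap.fst ℝ ℝ X).comp (ContinuousLinearMap.snd ℝ ℝ (ℝ × X))).prod f')).range
        = ⊤ := by
    rw [eq_top_iff]
    rintro ⟨a, b, y⟩ -
    refine ⟨(a, b, L1.symm (y - f' (a, b, 0))), ?_⟩
    have e1 : f' (a, b, L1.symm (y - f' (a, b, 0))) = y := by
      have e2 : ((a, b, L1.symm (y - f' (a, b, 0))) : ℝ × ℝ × X)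
          = (a, b, 0) + (0, 0, L1.symm (y - f' (a, b, 0))) := by simp
      rw [e2, map_add, hpart, ContinuousLinearEquiv.apply_symm_apply]
      abel
    show (a, b, f' (a, b, L1.symm (y - f' (a, b, 0)))) = (a, b, y)
    rw [e1]
  have hmap := hg.map_nhds_eq_of_surj hsurj
  have hU : ball (0 : ℝ × ℝ × X) η ∈ nhds (0 : ℝ × ℝ × X) := ball_mem_nhds _ hη
  have himg := Filter.image_mem_map (m := fun q : ℝ × ℝ × X => (q.1, q.2.1, f q)) hU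
  rw [hmap] at himg
  obtain ⟨ρ, hρ, hball⟩ := Metric.mem_nhds_iff.1 himg
  refine ⟨ρ, hρ, ?_⟩
  intro ε δ hε hδ
  have hmem : ((ε, δ, (0 : Y)) : ℝ × ℝ × Y) ∈ ball
      ((fun q : ℝ × ℝ × X => (q.1, q.2.1, f q)) 0) ρ := by
    show dist ((ε, δ, (0 : Y)) : ℝ × ℝ × Y) (((0 : ℝ × ℝ × X).1, (0 : ℝ × ℝ × X).2.1, f 0)) < ρ
    rw [h0, Prod.dist_eq, Prod.dist_eq]
    simp only [Prod.fst_zero, Prod.snd_zero, dist_self, Real.dist_eq, sub_zero]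
    exact max_lt hε (max_lt hδ hρ)
  obtain ⟨⟨a, b, u⟩, hu, heq⟩ := hball hmem
  simp only [Prod.mk.injEq] at heq
  obtain ⟨rfl, rfl, hfu⟩ := heq
  refine ⟨u, ?_, hfu⟩
  rw [mem_ball_zero_iff] at hu
  have h6 : ‖u‖ ≤ ‖((a, b, u) : ℝ × ℝ × X)‖ := by
    rw [Prod.norm_def, Prod.norm_def]
    exact (le_max_right _ _).trans (le_max_right _ _)
  linarith



end Pool.Agent.Helper87.VT
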