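import Mathlib
import Pool.Agent.Helper87.VT.Two

set_option autoImplicit false

open Set Metric Matrix
open scoped ContDiff ComplexConjugate

namespace Pool.Agent.Helper87.VT

open Pool.Agent.Helper87.CMC (LoopAlg)

/-- JOB WL. -/
theorem L0_equiv (L0 : E0 →L[ℝ] ℝ × X1 × X1)
    (h : ∀ u : E0, (L0 u).1 = 2 * (u.1 + ∑' n : ℕ, u.2.1 n / 4 ^ (n + 1) / (2 * n + 2)) ∧
        (∀ n, (L0 u).2.1 n = u.2.1 n / 2) ∧
        (∀ n, (L0 u).2.2 n = u.2.1 n + (2 * n + 1) / (2 * n + 3) * u.2.2 n)) :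
    ∃ L1 : E0 ≃L[ℝ] ℝ × X1 × X1, (L1 : E0 →L[ℝ] ℝ × X1 × X1) = L0 := by
  have hinj : Function.Injective L0 := by
    rw [injective_iff_map_eq_zero]
    intro u hu
    obtain ⟨h1, h2, h3⟩ := h u
    rw [hu] at h1 h2 h3
    have e1 : u.2.1 = 0 := by
      ext n
      have h2n : (0 : ℝ) = u.2.1 n / 2 := h2 n
      show (u.2.1 : ∀ _ : ℕ, ℝ) n = 0
      linarith
    have e3 : u.1 = 0 := by
      rw [e1] at h1
      have h1' : (0 : ℝ) = 2 * (u.1 + ∑' n : ℕ, (0 : X1) n / 4 ^ (n + 1) / (2 * n + 2)) := h1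
      simp at h1'
      exact h1'
    have e2 : u.2.2 = 0 := by
      ext n
      have h3n : (0 : ℝ) = u.2.1 n + (2 * n + 1) / (2 * n + 3) * u.2.2 n := h3 n
      rw [e1] at h3n
      have hz : ((0 : X1) : ∀ _ : ℕ, ℝ) n = 0 := rfl
      rw [hz, zero_add] at h3n
      have hp : (0 : ℝ) < (2 * n + 1) / (2 * n + 3) := by positivity
      show (u.2.2 : ∀ _ : ℕ, ℝ) n = 0
      rcases mul_eq_zero.1 h3n.symm with h4 | h4
      · exact absurd h4 hp.ne'
      · exact h4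
    exact Prod.ext e3 (Prod.ext e1 e2)
  have hsurj : Function.Surjective L0 := by
    rintro ⟨s, v, w⟩
    let x : X1 := (2 : ℝ) • v
    let g : X1 := w - x
    have hmem : Memℓp (fun n : ℕ => ((2 * n + 3) / (2 * n + 1) : ℝ) * g n) 1 := by
      have hg : Memℓp (fun n : ℕ => g n) 1 := g.2
      rw [memℓp_gen_iff (by norm_num)] at hg ⊢
      refine Summable.of_nonneg_of_le (fun n => by positivity) (fun n => ?_) (hg.mul_left 3)
      simp only [ENNReal.toReal_one, Real.rpow_one]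
      rw [norm_mul]
      apply mul_le_mul_of_nonneg_right _ (norm_nonneg _)
      rw [Real.norm_eq_abs, abs_of_pos (by positivity), div_le_iff₀ (by positivity)]
      have : (0 : ℝ) ≤ n := Nat.cast_nonneg n
      nlinarith
    let y : X1 := ⟨_, hmem⟩
    let α : ℝ := s / 2 - ∑' n : ℕ, x n / 4 ^ (n + 1) / (2 * n + 2)
    refine ⟨(α, x, y), ?_⟩
    obtain ⟨h1, h2, h3⟩ := h (α, x, y)
    refine Prod.ext ?_ (Prod.ext ?_ ?_)
    · rw [h1]
      show 2 * (α + ∑' n : ℕ, x n / 4 ^ (n + 1) / (2 * n + 2)) = s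
      simp only [α]
      ring
    · ext n
      rw [h2 n]
      show (x : ∀ _ : ℕ, ℝ) n / 2 = (v : ∀ _ : ℕ, ℝ) n
      have : (x : ∀ _ : ℕ, ℝ) n = 2 * (v : ∀ _ : ℕ, ℝ) n := rfl
      rw [this]
      ring
    · ext n
      rw [h3 n]
      show (x : ∀ _ : ℕ, ℝ) n + (2 * n + 1) / (2 * n + 3) * (y : ∀ _ : ℕ, ℝ) n =
        (w : ∀ _ : ℕ, ℝ) n
      have e1 : (y : ∀ _ : ℕ, ℝ) n = ((2 * n + 3) / (2 * n + 1) : ℝ) * g n := rfl
      have e2 : (g : ∀ _ : ℕ, ℝ) n = (w : ∀ _ : ℕ, ℝ) n - (x : ∀ _ : ℕ, ℝ) n := rfl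
      rw [e1, e2]
      have p1 : (0 : ℝ) < 2 * n + 1 := by positivity
      have p2 : (0 : ℝ) < 2 * n + 3 := by positivity
      field_simp
      ring
  refine ⟨ContinuousLinearEquiv.ofBijective L0 (LinearMap.ker_eq_bot.2 hinj)
    (LinearMap.range_eq_top.2 hsurj), ?_⟩
  ext u <;> rfl



end Pool.Agent.Helper87.VT
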