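import Mathlib
import Pool.Agent.Helper87.VT.Two
import Pool.Agent.Helper87.VT.MWD
import Pool.Agent.Helper87.VT.MWE
import Pool.Agent.Helper87.VT.MWL
import Pool.Agent.Helper87.VT.MWI

set_option autoImplicit false

open Set Metric Matrix
open scoped ContDiff ComplexConjugate

namespace Pool.Agent.Helper87.VT

open Pool.Agent.Helper87.CMC (LoopAlg)









/-- JOB WF. -/
theorem small_solutions {A1 : Type} [NormedRing A1] [NormedAlgebra ℂ A1] [CompleteSpace A1]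
    {L : LoopAlg A1} {B : Type} [NormedCommRing B] [NormedAlgebra ℂ B] [CompleteSpace B]
    {A : Type} [NormedRing A] [NormedAlgebra ℂ A] [CompleteSpace A] (M : TwoAlg A1 L B A) (r C : ℝ) (F2 : ℝ × E0 → A) (hF : F2Data M r C F2)
    (r' : ℝ) (X2 : ℝ × A → A) (hX : X2Data M r' X2) (η : ℝ) (hη : 0 < η) :
    ∃ ρ : ℝ, 0 < ρ ∧ ∀ ε δ : ℝ, |ε| < ρ → |δ| < ρ → ∃ u : E0, ‖u‖ ≤ η ∧
      fB M F2 X2 (ε, δ, u) = 0 := by
  obtain ⟨h0, L0, hL0, hform⟩ := fB_deriv M r C F2 hF r' X2 hX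
  obtain ⟨L1, hL1⟩ := L0_equiv L0 hform
  refine banach_ift (fB M F2 X2) ((fB_smooth M r C F2 hF r' X2 hX).of_le (by simp)) h0 L1 ?_ η hη
  rw [hL1]
  exact hL0



end Pool.Agent.Helper87.VT
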