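import Mathlib
import Pool.Agent.Helper87.VT.Circ

set_option autoImplicit false

open Set Metric Matrix
open scoped ContDiff ComplexConjugate

namespace Pool.Agent.Helper87.VT

open Pool.Agent.Helper87.CMC (LoopAlg)

section whaux

theorem wh_pow (z : ℂ) (hz : ‖z‖ < 3 / 2) (n : ℕ) : ‖z‖ ^ (2 * n) ≤ (9 / 4) ^ n := by
  rw [pow_mul]
  apply pow_le_pow_left₀ (by positivity)
  have := norm_nonneg z
  nlinarith

theorem wh_x (x : X1) (n : ℕ) : |x n| ≤ ‖x‖ := by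
  have := lp.norm_apply_le_norm (p := 1) one_ne_zero x n
  rwa [Real.norm_eq_abs] at this

theorem wh_pow2 (n : ℕ) : ((9 : ℝ) / 4) ^ n / 4 ^ n = (9 / 16) ^ n := by
  rw [← div_pow]
  norm_num

theorem wh_kterm (x : X1) (n : ℕ) (z : ℂ) (hz : ‖z‖ < 3 / 2) :
    ‖(((x n / 4 ^ (n + 1) / (2 * n + 2) : ℝ)) : ℂ) * z ^ (2 * n + 2)‖ ≤ ‖x‖ * (9 / 16) ^ n := by
  rw [norm_mul, Complex.norm_real, norm_pow, Real.norm_eq_abs, abs_div, abs_div]
  have h1 : |((4 : ℝ) ^ (n + 1))| = 4 ^ (n + 1) := abs_of_pos (by positivity)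
  have h2 : |(2 * (n : ℝ) + 2)| = 2 * n + 2 := abs_of_pos (by positivity)
  rw [h1, h2]
  have h3 : ‖z‖ ^ (2 * n + 2) ≤ (9 / 4) ^ (n + 1) := by
    have := wh_pow z hz (n + 1)
    rwa [show 2 * (n + 1) = 2 * n + 2 by ring] at this
  have h4 := wh_x x n
  have hx0 := abs_nonneg (x n)
  calc |x n| / 4 ^ (n + 1) / (2 * n + 2) * ‖z‖ ^ (2 * n + 2) ≤
      |x n| / 4 ^ (n + 1) / (2 * n + 2) * (9 / 4) ^ (n + 1) := by gcongr
    _ = |x n| * ((9 / 4) ^ n / 4 ^ n) * ((9 / 16) / (2 * n + 2)) := by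
        rw [pow_succ, pow_succ]
        field_simp
        ring
    _ ≤ |x n| * ((9 / 4) ^ n / 4 ^ n) * 1 := by
        gcongr
        rw [div_le_one (by positivity)]
        have : (0 : ℝ) ≤ n := Nat.cast_nonneg n
        linarith
    _ ≤ ‖x‖ * (9 / 16) ^ n := by
        rw [mul_one, wh_pow2]
        gcongr

theorem wh_qterm (x : X1) (n : ℕ) (z : ℂ) (hz : ‖z‖ < 3 / 2) :
    ‖(((x n / 4 ^ (n + 1) : ℝ)) : ℂ) * z ^ (2 * n + 1)‖ ≤ ‖x‖ * (9 / 16) ^ n := by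
  rw [norm_mul, Complex.norm_real, norm_pow, Real.norm_eq_abs, abs_div]
  have h1 : |((4 : ℝ) ^ (n + 1))| = 4 ^ (n + 1) := abs_of_pos (by positivity)
  rw [h1]
  have h3 : ‖z‖ ^ (2 * n + 1) ≤ (9 / 4) ^ n * (3 / 2) := by
    rw [pow_succ]
    exact mul_le_mul (wh_pow z hz n) hz.le (norm_nonneg _) (by positivity)
  have h4 := wh_x x n
  have hx0 := abs_nonneg (x n)
  calc |x n| / 4 ^ (n + 1) * ‖z‖ ^ (2 * n + 1) ≤
      |x n| / 4 ^ (n + 1) * ((9 / 4) ^ n * (3 / 2)) := by gcongr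
    _ = |x n| * ((9 / 4) ^ n / 4 ^ n) * (3 / 8) := by
        rw [pow_succ]
        field_simp
        ring
    _ ≤ |x n| * ((9 / 4) ^ n / 4 ^ n) * 1 := by
        gcongr
        norm_num
    _ ≤ ‖x‖ * (9 / 16) ^ n := by
        rw [mul_one, wh_pow2]
        gcongr

theorem wh_hterm (x : X1) (n : ℕ) (z : ℂ) (hz : ‖z‖ < 3 / 2) :
    ‖(((x n / 4 ^ (n + 1) * (2 * n + 1) : ℝ)) : ℂ) * z ^ (2 * n)‖ ≤ (2 * ‖x‖) * (3 / 4) ^ n := by
  rw [norm_mul, Complex.norm_real, norm_pow, Real.norm_eq_abs, abs_mul, abs_div]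
  have h1 : |((4 : ℝ) ^ (n + 1))| = 4 ^ (n + 1) := abs_of_pos (by positivity)
  have h2 : |(2 * (n : ℝ) + 1)| = 2 * n + 1 := abs_of_pos (by positivity)
  rw [h1, h2]
  have h3 := wh_pow z hz n
  have h4 := wh_x x n
  have hx0 := abs_nonneg (x n)
  have h5 : 2 * (n : ℝ) + 1 ≤ 6 * (4 / 3) ^ n := by
    have h6 := one_add_mul_le_pow (show (-2 : ℝ) ≤ 1 / 3 by norm_num) n
    have h7 : (1 : ℝ) + 1 / 3 = 4 / 3 := by norm_num
    rw [h7] at h6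
    have : (0 : ℝ) ≤ n := Nat.cast_nonneg n
    linarith
  calc |x n| / 4 ^ (n + 1) * (2 * n + 1) * ‖z‖ ^ (2 * n) ≤
      |x n| / 4 ^ (n + 1) * (6 * (4 / 3) ^ n) * (9 / 4) ^ n := by gcongr
    _ = |x n| * (3 / 2) * (((9 / 4) ^ n / 4 ^ n) * (4 / 3) ^ n) := by
        rw [pow_succ]
        field_simp
        ring
    _ = |x n| * (3 / 2) * (3 / 4) ^ n := by
        rw [wh_pow2, ← mul_pow]
        norm_num
    _ ≤ ‖x‖ * 2 * (3 / 4) ^ n := by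
        gcongr
        norm_num
    _ = (2 * ‖x‖) * (3 / 4) ^ n := by ring

theorem wh_sum (M q : ℝ) (hq : 0 ≤ q) (hq1 : q < 1) :
    HasSum (fun n : ℕ => M * q ^ n) (M * (1 - q)⁻¹) :=
  (hasSum_geometric_of_lt_one hq hq1).mul_left M

theorem wh_kap_norm (x : X1) (z : ℂ) (hz : ‖z‖ < 3 / 2) : ‖kapF x z‖ ≤ 3 * ‖x‖ := by
  unfold kapF
  refine (tsum_of_norm_bounded (wh_sum ‖x‖ (9 / 16) (by norm_num) (by norm_num))
    (fun n => wh_kterm x n z hz)).trans ?_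
  have := norm_nonneg x
  norm_num
  linarith

theorem wh_Q_norm (x : X1) (z : ℂ) (hz : ‖z‖ < 3 / 2) : ‖QF x z‖ ≤ 3 * ‖x‖ := by
  unfold QF
  refine (tsum_of_norm_bounded (wh_sum ‖x‖ (9 / 16) (by norm_num) (by norm_num))
    (fun n => wh_qterm x n z hz)).trans ?_
  have := norm_nonneg x
  norm_num
  linarith

theorem wh_h_norm (x : X1) (z : ℂ) (hz : ‖z‖ < 3 / 2) : ‖hF x z‖ ≤ 8 * ‖x‖ := by
  unfold hF
  refine (tsum_of_norm_bounded (wh_sum (2 * ‖x‖) (3 / 4) (by norm_num) (by norm_num))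
    (fun n => wh_hterm x n z hz)).trans ?_
  have := norm_nonneg x
  norm_num
  linarith

theorem wh_kap_deriv (x : X1) (z : ℂ) (hz : ‖z‖ < 3 / 2) : HasDerivAt (kapF x) (QF x z) z := by
  unfold QF
  have hb : ∀ w : ℂ, w ∈ ball (0 : ℂ) (3 / 2) → ‖w‖ < 3 / 2 := fun w hw =>
    mem_ball_zero_iff.1 hw
  refine hasDerivAt_tsum_of_isPreconnected
    (g := fun (n : ℕ) (z : ℂ) => (((x n / 4 ^ (n + 1) / (2 * n + 2) : ℝ)) : ℂ) * z ^ (2 * n + 2))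
    (g' := fun (n : ℕ) (z : ℂ) => (((x n / 4 ^ (n + 1) : ℝ)) : ℂ) * z ^ (2 * n + 1))
    (t := ball (0 : ℂ) (3 / 2)) (y₀ := 0)
    (wh_sum ‖x‖ (9 / 16) (by norm_num) (by norm_num)).summable isOpen_ball
    (convex_ball _ _).isPreconnected ?_ (fun n y hy => wh_qterm x n y (hb y hy))
    (mem_ball_self (by norm_num)) ?_ (mem_ball_zero_iff.2 hz)
  · intro n y _
    have h1 := (hasDerivAt_pow (2 * n + 2) y).const_mul
      (((x n / 4 ^ (n + 1) / (2 * n + 2) : ℝ)) : ℂ)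
    refine h1.congr_deriv ?_
    have h2 : (2 * (n : ℂ) + 2) ≠ 0 := by
      have : ((2 * (n : ℝ) + 2 : ℝ) : ℂ) ≠ 0 := by
        apply Complex.ofReal_ne_zero.2
        positivity
      simpa using this
    have h3 : 2 * n + 2 - 1 = 2 * n + 1 := by omega
    rw [h3]
    push_cast
    field_simp
  · refine Summable.of_norm_bounded (wh_sum ‖x‖ (9 / 16) (by norm_num) (by norm_num)).summable
      (fun n => wh_kterm x n 0 (by norm_num))

theorem wh_h_diff (x : X1) : DifferentiableOn ℂ (hF x) (ball 0 (3 / 2)) := by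
  unfold hF
  refine Complex.differentiableOn_tsum_of_summable_norm
    (wh_sum (2 * ‖x‖) (3 / 4) (by norm_num) (by norm_num)).summable ?_ isOpen_ball
    (fun n w hw => wh_hterm x n w (mem_ball_zero_iff.1 hw))
  intro n
  fun_prop

theorem wh_kap_conj (x : X1) (z : ℂ) : kapF x (conj z) = conj (kapF x z) := by
  unfold kapF
  rw [Complex.conj_tsum]
  refine tsum_congr fun n => ?_
  rw [map_mul, map_pow, Complex.conj_ofReal]

theorem wh_h_conj (x : X1) (z : ℂ) : hF x (conj z) = conj (hF x z) := by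
  unfold hF
  rw [Complex.conj_tsum]
  refine tsum_congr fun n => ?_
  rw [map_mul, map_pow, Complex.conj_ofReal]

theorem wh_kap_neg (x : X1) (z : ℂ) : kapF x (-z) = kapF x z := by
  unfold kapF
  refine tsum_congr fun n => ?_
  rw [Even.neg_pow ⟨n + 1, by ring⟩]

theorem wh_h_neg (x : X1) (z : ℂ) : hF x (-z) = hF x z := by
  unfold hF
  refine tsum_congr fun n => ?_
  rw [Even.neg_pow ⟨n, by ring⟩]

theorem wh_th (x : X1) (z : ℂ) : z * QF x z = thF x z := by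
  unfold QF thF
  rw [← tsum_mul_left]
  refine tsum_congr fun n => ?_
  ring

theorem wh_kapU_deriv (u : E0) (z : ℂ) (hz : ‖z‖ < 3 / 2) :
    HasDerivAt (kapU u) (QF u.2.1 z) z := by
  unfold kapU
  exact (wh_kap_deriv u.2.1 z hz).const_add _

theorem wh_norms (u : E0) : |u.1| ≤ ‖u‖ ∧ ‖u.2.1‖ ≤ ‖u‖ ∧ ‖u.2.2‖ ≤ ‖u‖ := by
  have h1 : ‖u.1‖ ≤ ‖u‖ := norm_fst_le u
  have h2 : ‖u.2‖ ≤ ‖u‖ := norm_snd_le u
  have h3 : ‖u.2.1‖ ≤ ‖u.2‖ := norm_fst_le u.2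
  have h4 : ‖u.2.2‖ ≤ ‖u.2‖ := norm_snd_le u.2
  exact ⟨h1, h3.trans h2, h4.trans h2⟩

theorem wh_KData (u : E0) (η C3 : ℝ) (hη : 0 < η) (hu : ‖u‖ ≤ η) (hC : 8 ≤ C3) :
    KData (C3 * η) (kapU u) (hU u) := by
  obtain ⟨n1, n2, n3⟩ := wh_norms u
  refine ⟨?_, ?_, ?_, ?_, ?_, ?_, ?_, ?_⟩
  · intro z hz
    exact (wh_kapU_deriv u z (mem_ball_zero_iff.1 hz)).differentiableAt.differentiableWithinAt
  · exact wh_h_diff u.2.2
  · intro t ht
    constructor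
    · unfold kapU
      have e : ((1 + u.1 : ℝ) : ℂ) + kapF u.2.1 t - 1 = (u.1 : ℂ) + kapF u.2.1 t := by
        push_cast
        ring
      rw [e]
      refine (norm_add_le _ _).trans ?_
      rw [Complex.norm_real, Real.norm_eq_abs]
      have := wh_kap_norm u.2.1 t ht
      nlinarith
    · rw [(wh_kapU_deriv u t ht).deriv]
      refine (wh_Q_norm u.2.1 t ht).trans ?_
      nlinarith
  · intro t ht
    refine (wh_h_norm u.2.2 t ht).trans ?_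
    nlinarith
  · intro t _
    unfold kapU
    rw [wh_kap_conj, map_add, Complex.conj_ofReal]
  · intro t _
    exact wh_h_conj _ _
  · intro t _
    unfold kapU
    rw [wh_kap_neg]
  · intro t _
    exact wh_h_neg _ _

variable {A1 : Type} [NormedRing A1] [NormedAlgebra ℂ A1] {L : LoopAlg A1}
  {B : Type} [NormedCommRing B] [NormedAlgebra ℂ B]
  {A : Type} [NormedRing A] [NormedAlgebra ℂ A] (M : TwoAlg A1 L B A)

theorem wh_pos_one : M.pos 1 := by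
  rw [← M.E_one]
  exact M.pos_add _ _ (M.pos_E 0 0) (M.pos_E 1 1)

theorem wh_pos_sub (x y : A) (hx : M.pos x) (hy : M.pos y) : M.pos (x - y) := by
  have e : x - y = x + (-1 : ℂ) • y := by
    rw [neg_smul, one_smul, sub_eq_add_neg]
  rw [e]
  exact M.pos_add _ _ hx (M.pos_smul _ _ hy)

theorem wh_ι_kB (u : E0) : M.ι (kB M u) = ((1 + u.1 : ℝ) : ℂ) • (1 : A) + M.ι (M.kL u.2.1) := by
  unfold kB
  rw [map_add, map_smul, M.ι_one]

theorem wh_pos_kB (u : E0) : M.pos (M.ι (kB M u)) := by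
  rw [wh_ι_kB]
  exact M.pos_add _ _ (M.pos_smul _ _ (wh_pos_one M)) (M.pos_kL _)

theorem wh_pos_τ1 : M.pos (M.ι (M.τ 1)) := M.pos_ι 1

theorem wh_pos_τ2 : M.pos (M.ι (M.τ 2)) := M.pos_ι 2

theorem wh_pos_SE (i j : Fin 2) : M.pos (M.S * M.E i j) :=
  M.pos_mul _ _ M.pos_S (M.pos_E i j)

theorem wh_pos_MB (p : ℝ × E0) : M.pos (MB M p) := by
  unfold MB
  refine wh_pos_sub M _ _ (M.pos_add _ _ ?_ ?_) ?_
  · exact M.pos_mul _ _ (wh_pos_τ2 M) (wh_pos_SE M 0 1)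
  · refine M.pos_mul _ _ (M.pos_smul _ _ ?_) (M.pos_mul _ _ M.pos_S ?_)
    · rw [M.ι_mul]
      exact M.pos_mul _ _ (wh_pos_kB M _) (wh_pos_τ1 M)
    · exact wh_pos_sub M _ _ (M.pos_E 1 1) (M.pos_E 0 0)
  · refine M.pos_mul _ _ (M.pos_smul _ _ ?_) (wh_pos_SE M 1 0)
    rw [pow_two, M.ι_mul]
    exact M.pos_mul _ _ (wh_pos_kB M _) (wh_pos_kB M _)

theorem wh_πp_one (z : ℂ) (hz : ‖z‖ < 2) : M.πp z 1 = 1 := by
  rw [← M.E_one, map_add, M.πp_E z hz, M.πp_E z hz, L.E_one]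

theorem wh_πp_kB (z : ℂ) (hz : ‖z‖ < 2) (u : E0) : M.πp z (M.ι (kB M u)) = kapU u z • 1 := by
  rw [wh_ι_kB, map_add, map_smul, wh_πp_one M z hz, M.πp_kL z hz]
  unfold kapU
  rw [add_smul]

theorem wh_πp_MB (z : ℂ) (hz : ‖z‖ < 2) (p : ℝ × E0) :
    M.πp z (MB M p) = MM L (kapU p.2) p.1 z := by
  have p1 := wh_pos_kB M p.2
  have p2 := wh_pos_τ1 M
  have e1 : M.πp z (M.ι (M.τ 2) * (M.S * M.E 0 1)) = (z ^ 2) • (L.S * L.E 0 1) := by
    rw [M.πp_mul z hz _ _ (wh_pos_τ2 M) (wh_pos_SE M 0 1), M.πp_mul z hz _ _ M.pos_S (M.pos_E 0 1),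
      M.πp_S z hz, M.πp_E z hz]
    have : M.πp z (M.ι (M.τ 2)) = (z ^ 2) • 1 := M.πp_τ z hz 2
    rw [this, smul_mul_assoc, one_mul]
  have e2 : M.πp z (((p.1 : ℂ) • M.ι (kB M p.2 * M.τ 1)) * (M.S * (M.E 1 1 - M.E 0 0))) =
      ((p.1 : ℂ) * kapU p.2 z * z) • (L.S * (L.E 1 1 - L.E 0 0)) := by
    have pE : M.pos (M.E 1 1 - M.E 0 0) := wh_pos_sub M _ _ (M.pos_E 1 1) (M.pos_E 0 0)
    rw [M.πp_mul z hz _ _ (M.pos_smul _ _ (by
      rw [M.ι_mul]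
      exact M.pos_mul _ _ p1 p2)) (M.pos_mul _ _ M.pos_S pE),
      M.πp_mul z hz _ _ M.pos_S pE, M.πp_S z hz, map_sub, M.πp_E z hz, M.πp_E z hz, map_smul,
      M.ι_mul, M.πp_mul z hz _ _ p1 p2, wh_πp_kB M z hz]
    have : M.πp z (M.ι (M.τ 1)) = (z ^ 1) • 1 := M.πp_τ z hz 1
    rw [this, pow_one, smul_mul_smul_comm, one_mul, smul_smul, smul_mul_assoc, one_mul, mul_assoc]
  have e3 : M.πp z ((((p.1 : ℂ) ^ 2) • M.ι (kB M p.2 ^ 2)) * (M.S * M.E 1 0)) =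
      ((p.1 : ℂ) ^ 2 * kapU p.2 z ^ 2) • (L.S * L.E 1 0) := by
    rw [M.πp_mul z hz _ _ (M.pos_smul _ _ (by
      rw [pow_two, M.ι_mul]
      exact M.pos_mul _ _ p1 p1)) (wh_pos_SE M 1 0),
      M.πp_mul z hz _ _ M.pos_S (M.pos_E 1 0), M.πp_S z hz, M.πp_E z hz, map_smul,
      pow_two (kB M p.2), M.ι_mul, M.πp_mul z hz _ _ p1 p1, wh_πp_kB M z hz,
      smul_mul_smul_comm, one_mul, smul_smul, smul_mul_assoc, one_mul, pow_two (kapU p.2 z)]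
  unfold MB MM
  rw [map_sub, map_add, e1, e2, e3]

end whaux

/-- JOB WH. -/
theorem pointwise_data {A1 : Type} [NormedRing A1] [NormedAlgebra ℂ A1] [CompleteSpace A1]
    {L : LoopAlg A1} {B : Type} [NormedCommRing B] [NormedAlgebra ℂ B] [CompleteSpace B]
    {A : Type} [NormedRing A] [NormedAlgebra ℂ A] [CompleteSpace A] (M : TwoAlg A1 L B A) (r C : ℝ) (F2 : ℝ × E0 → A) (hF : F2Data M r C F2) :
    ∃ C3 ρ : ℝ, 1 ≤ C3 ∧ 0 < ρ ∧ ∀ (ε η : ℝ) (u : E0), |ε| < ρ → ‖u‖ ≤ η → 0 < η → η < ρ →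
      KData (C3 * η) (kapU u) (hU u) ∧
      FData L ε (C3 * η) (kapU u) (hU u) (fun z => M.πp z (F2 (ε, u))) ∧
      ∀ z : ℂ, ‖z‖ < 3 / 2 → z * deriv (kapU u) z = thF u.2.1 z := by
  refine ⟨10 + C, min r 1, by linarith [hF.C_pos], lt_min hF.r_pos one_pos, ?_⟩
  intro ε η u hε hu hη hηρ
  have hC := hF.C_pos
  obtain ⟨n1, n2, n3⟩ := wh_norms u
  have hεr : |ε| < r := hε.trans_le (min_le_left _ _)
  have hur : ‖u‖ < r := (hu.trans_lt hηρ).trans_le (min_le_left _ _)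
  have hmem : ((ε, u) : ℝ × E0) ∈ ball (0 : ℝ × E0) r := by
    rw [mem_ball_zero_iff, Prod.norm_def]
    exact max_lt hεr hur
  have heq := hF.eq _ hmem
  have hbd := hF.bound _ hmem
  have hposF : M.pos (F2 (ε, u)) := by
    rw [heq]
    exact M.pos_J _ _
  have hpos1 : M.pos (1 + (ε : ℂ) • F2 (ε, u)) :=
    M.pos_add _ _ (wh_pos_one M) (M.pos_smul _ _ hposF)
  have hposx : M.pos ((1 + (ε : ℂ) • F2 (ε, u)) * MB M (ε, u)) :=
    M.pos_mul _ _ hpos1 (wh_pos_MB M _)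
  refine ⟨wh_KData u η (10 + C) hη hu (by linarith), ⟨?_, ?_, ?_⟩, ?_⟩
  · show M.πp 0 (F2 (ε, u)) = 0
    rw [heq]
    exact M.πp_J0 _ _
  · intro z hz
    have hz2 : ‖z‖ < 2 := by linarith
    have h1 := M.πp_J z hz2 ((1 + (ε : ℂ) • F2 (ε, u)) * MB M (ε, u)) u.2.2 hposx
    have h2 : (fun w => M.πp w (F2 (ε, u))) =
        (fun w => M.πp w (M.J ((1 + (ε : ℂ) • F2 (ε, u)) * MB M (ε, u)) (M.QL u.2.2))) := by
      funext w
      exact congrArg (M.πp w) heq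
    have h3 : M.πp z ((1 + (ε : ℂ) • F2 (ε, u)) * MB M (ε, u)) =
        (1 + (ε : ℂ) • M.πp z (F2 (ε, u))) * MM L (kapU u) ε z := by
      rw [M.πp_mul z hz2 _ _ hpos1 (wh_pos_MB M _), map_add, map_smul, wh_πp_one M z hz2,
        wh_πp_MB M z hz2]
    rw [h3] at h1
    rw [h2]
    exact h1
  · intro z hz
    refine (M.πp_norm z (by linarith) _).trans (hbd.trans ?_)
    show C * ‖u.2.2‖ ≤ (10 + C) * η
    have h1 : ‖u.2.2‖ ≤ η := n3.trans hu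
    have h2 : C * ‖u.2.2‖ ≤ C * η := mul_le_mul_of_nonneg_left h1 hC.le
    linarith
  · intro z hz
    rw [(wh_kapU_deriv u z hz).deriv]
    exact wh_th _ _



end Pool.Agent.Helper87.VT
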