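import Mathlib
import Pool.Agent.Helper87.VT.Circ
import Pool.Agent.Helper87.VT.MWU
import Pool.Agent.Helper676.VT.J1

set_option autoImplicit false

open Set Metric Matrix
open scoped ContDiff ComplexConjugate

namespace Pool.Agent.Helper87.VT

open Pool.Agent.Helper87.CMC (LoopAlg)

open Pool.Agent.Helper87.VT.P2 (surf_deriv)







/-- point of the circle -/
noncomputable def zc (θ : ℝ) : ℂ := Complex.exp (θ * Complex.I)

theorem zc_norm (θ : ℝ) : ‖zc θ‖ = 1 := Complex.norm_exp_ofReal_mul_I θ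
theorem zc_ne (θ : ℝ) : zc θ ≠ 0 := Complex.exp_ne_zero _
theorem zc_zero : zc 0 = 1 := by unfold zc; simp
theorem zc_neg (θ : ℝ) : zc (-θ) = (zc θ)⁻¹ := by
  unfold zc; rw [← Complex.exp_neg]; congr 1; push_cast; ring
theorem zc_conj (θ : ℝ) : zc (-θ) = conj (zc θ) := by
  unfold zc; rw [← Complex.exp_conj]; congr 1; rw [map_mul, Complex.conj_ofReal, Complex.conj_I]
  push_cast; ring
theorem zc_pi (θ : ℝ) : zc (θ + Real.pi) = - zc θ := by
  unfold zc; push_cast; rw [add_mul, Complex.exp_add, Complex.exp_pi_mul_I]; ring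
theorem zc_zpow (θ : ℝ) (n : ℤ) : (zc θ) ^ n = Complex.exp (((n : ℂ) * Complex.I) * (θ : ℂ)) := by
  unfold zc; rw [← Complex.exp_int_mul]; congr 1; ring
theorem zc_deriv (θ : ℝ) : HasDerivAt zc (Complex.I * zc θ) θ := by
  have h1 : HasDerivAt (fun s : ℝ => (s : ℂ) * Complex.I) (1 * Complex.I) θ :=
    ((hasDerivAt_id θ).ofReal_comp).mul_const Complex.I
  have h2 := h1.cexp
  rw [one_mul, mul_comm] at h2
  exact h2
theorem zc_zpow_deriv (θ : ℝ) (n : ℤ) :
    HasDerivAt (fun s => (zc s) ^ n) ((n : ℂ) * Complex.I * (zc θ) ^ n) θ := by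
  have h0 : (fun s => (zc s) ^ n) = fun s : ℝ => Complex.exp (((n : ℂ) * Complex.I) * (s : ℂ)) := by
    funext s; exact zc_zpow s n
  rw [h0, zc_zpow]
  have h1 : HasDerivAt (fun s : ℝ => ((n : ℂ) * Complex.I) * (s : ℂ)) (((n : ℂ) * Complex.I) * 1) θ :=
    ((hasDerivAt_id θ).ofReal_comp).const_mul _
  have h2 := h1.cexp
  rw [mul_one] at h2
  rw [mul_comm ((n : ℂ) * Complex.I) (Complex.exp _)]
  exact h2
theorem zc_cont : Continuous zc := continuous_iff_continuousAt.2 fun θ => (zc_deriv θ).continuousAt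
theorem zc_zpow_norm (θ : ℝ) (n : ℤ) : ‖(zc θ) ^ n‖ = 1 := by
  rw [norm_zpow, zc_norm, _root_.one_zpow]
theorem zc_zpow_cont (n : ℤ) : Continuous (fun s => (zc s) ^ n) :=
  continuous_iff_continuousAt.2 fun θ => (zc_zpow_deriv θ n).continuousAt

theorem wj_int (k : ℤ) : ∫ θ in (0:ℝ)..(2 * Real.pi), (zc θ) ^ k =
    if k = 0 then (2 * Real.pi : ℂ) else 0 := by
  simp only [zc_zpow]
  split_ifs with hk
  · subst hk
    simp
  · have hc : (k : ℂ) * Complex.I ≠ 0 := mul_ne_zero (Int.cast_ne_zero.2 hk) Complex.I_ne_zero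
    rw [integral_exp_mul_complex hc]
    have h1 : (k : ℂ) * Complex.I * ((2 * Real.pi : ℝ) : ℂ) = (k : ℂ) * (2 * Real.pi * Complex.I) := by
      push_cast; ring
    rw [h1, Complex.exp_int_mul_two_pi_mul_I]
    simp

theorem wj_unique0 (a : ℤ → ℂ) (ha : Summable a)
    (h : ∀ θ : ℝ, HasSum (fun n : ℤ => a n * (zc θ) ^ n) 0) (n : ℤ) : a n = 0 := by
  have h1 : HasSum (fun m : ℤ => ∫ θ in (0:ℝ)..(2 * Real.pi), a m * (zc θ) ^ m * (zc θ) ^ (-n))
      (∫ θ in (0:ℝ)..(2 * Real.pi), (0 : ℂ)) := by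
    refine intervalIntegral.hasSum_integral_of_dominated_convergence (fun m _ => ‖a m‖) ?_ ?_ ?_ ?_ ?_
    · intro m
      exact ((continuous_const.mul (zc_zpow_cont m)).mul (zc_zpow_cont (-n))).aestronglyMeasurable
    · intro m
      refine Filter.Eventually.of_forall fun θ _ => ?_
      rw [norm_mul, norm_mul, zc_zpow_norm, zc_zpow_norm, mul_one, mul_one]
    · exact Filter.Eventually.of_forall fun θ _ => ha.norm
    · exact intervalIntegrable_const
    · refine Filter.Eventually.of_forall fun θ _ => ?_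
      have h2 := (h θ).mul_right ((zc θ) ^ (-n))
      rw [zero_mul] at h2
      exact h2
  rw [intervalIntegral.integral_zero] at h1
  have h2 : ∀ m : ℤ, ∫ θ in (0:ℝ)..(2 * Real.pi), a m * (zc θ) ^ m * (zc θ) ^ (-n) =
      if m = n then a n * (2 * Real.pi) else 0 := by
    intro m
    have h3 : ∀ θ : ℝ, a m * (zc θ) ^ m * (zc θ) ^ (-n) = a m * (zc θ) ^ (m - n) := by
      intro θ
      rw [mul_assoc, ← zpow_add₀ (zc_ne θ), sub_eq_add_neg]
    simp only [h3]
    rw [intervalIntegral.integral_const_mul, wj_int]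
    by_cases hm : m = n
    · subst hm
      simp
    · rw [if_neg hm, if_neg (sub_ne_zero.2 hm), mul_zero]
  simp only [h2] at h1
  have h4 := h1.unique (hasSum_ite_eq n (a n * (2 * Real.pi)))
  have h5 : (2 * Real.pi : ℂ) ≠ 0 := by
    have := Real.pi_ne_zero
    exact mul_ne_zero two_ne_zero (Complex.ofReal_ne_zero.2 this)
  exact (mul_eq_zero.1 h4.symm).resolve_right h5

section wj
variable {A1 : Type} [NormedRing A1] [NormedAlgebra ℂ A1]
    {L : LoopAlg A1} {B : Type} [NormedCommRing B] [NormedAlgebra ℂ B]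
    {A : Type} [NormedRing A] [NormedAlgebra ℂ A] (M : TwoAlg A1 L B A)

theorem wj_summable (x : B) : Summable (fun n : ℤ => M.co n x) := by
  have h := (M.e_sum 1 (by simp) x).summable
  simpa using h

theorem wj_coef (x : B) (b : ℤ → ℂ) (hb : Summable b)
    (h : ∀ θ : ℝ, HasSum (fun n : ℤ => b n * (zc θ) ^ n) (M.e (zc θ) x)) (n : ℤ) :
    M.co n x = b n := by
  have h1 := wj_unique0 (fun n => M.co n x - b n) ((wj_summable M x).sub hb) (fun θ => by
    have h2 := (M.e_sum (zc θ) (zc_norm θ) x).sub (h θ)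
    rw [sub_self] at h2
    simpa only [sub_mul] using h2) n
  exact sub_eq_zero.1 h1

theorem wj_sum_pi (x : B) (θ : ℝ) :
    HasSum (fun n : ℤ => ((-1 : ℂ) ^ n * M.co n x) * (zc θ) ^ n) (M.e (zc (θ + Real.pi)) x) := by
  have h := M.e_sum (zc (θ + Real.pi)) (zc_norm _) x
  have h2 : (fun n : ℤ => ((-1 : ℂ) ^ n * M.co n x) * (zc θ) ^ n) =
      fun n : ℤ => M.co n x * (zc (θ + Real.pi)) ^ n := by
    funext n
    rw [zc_pi, neg_eq_neg_one_mul (zc θ), mul_zpow]
    ring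
  rw [h2]
  exact h

theorem wj_sum_neg (x : B) (θ : ℝ) :
    HasSum (fun n : ℤ => M.co (-n) x * (zc θ) ^ n) (M.e (zc (-θ)) x) := by
  have h := M.e_sum (zc (-θ)) (zc_norm _) x
  have h2 := (Equiv.neg ℤ).hasSum_iff.2 h
  have h3 : (fun n : ℤ => M.co (-n) x * (zc θ) ^ n) =
      (fun n : ℤ => M.co n x * (zc (-θ)) ^ n) ∘ (Equiv.neg ℤ) := by
    funext n
    simp only [Function.comp_apply, Equiv.neg_apply]
    rw [zc_neg, _root_.inv_zpow, _root_.zpow_neg, inv_inv]
  rw [h3]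
  exact h2

theorem wj_summable_pi (x : B) : Summable (fun n : ℤ => (-1 : ℂ) ^ n * M.co n x) := by
  have h := (wj_sum_pi M x 0).summable
  simpa [zc_zero] using h

theorem wj_summable_neg (x : B) : Summable (fun n : ℤ => M.co (-n) x) := by
  have h := (wj_sum_neg M x 0).summable
  simpa [zc_zero] using h

theorem wj_zero (x : B) (hreal : ∀ θ : ℝ, conj (M.e (zc θ) x) = M.e (zc θ) x)
    (hodd : ∀ θ : ℝ, M.e (zc (-θ)) x = - M.e (zc θ) x)
    (hper : ∀ θ : ℝ, M.e (zc (θ + Real.pi)) x = M.e (zc θ) x)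
    (him : ∀ n : ℕ, (M.co (2 * n + 2) x).im = 0) (θ : ℝ) : M.e (zc θ) x = 0 := by
  have h1 : ∀ n, M.co n x = - M.co (-n) x := wj_coef M x _ (wj_summable_neg M x).neg (fun θ => by
    have h := (wj_sum_neg M x θ).neg
    rw [hodd, neg_neg] at h
    simpa only [neg_mul] using h)
  have h2 : ∀ n, M.co n x = (-1 : ℂ) ^ n * M.co n x :=
    wj_coef M x _ (wj_summable_pi M x) (fun θ => by
      have h := wj_sum_pi M x θ
      rw [hper] at h
      exact h)
  have hs : M.sB x = x := by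
    apply M.ext
    have h3 : ∀ n, M.co n x = conj (M.co (-n) x) := by
      refine wj_coef M x _ ?_ ?_
      · have h4 := (wj_summable_neg M x).map (starRingEnd ℂ) Complex.continuous_conj
        exact h4
      · intro θ
        have h4 := (M.e_sum (zc θ) (zc_norm θ) x).map (starRingEnd ℂ) Complex.continuous_conj
        rw [hreal] at h4
        have h5 := (Equiv.neg ℤ).hasSum_iff.2 h4
        have h6 : (fun n : ℤ => conj (M.co (-n) x) * (zc θ) ^ n) =
            (⇑(starRingEnd ℂ) ∘ fun n : ℤ => M.co n x * (zc θ) ^ n) ∘ (Equiv.neg ℤ) := by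
          funext n
          simp only [Function.comp_apply, Equiv.neg_apply]
          rw [map_mul, map_zpow₀, ← zc_conj, zc_neg, _root_.inv_zpow, _root_.zpow_neg, inv_inv]
        rw [h6]
        exact h5
    intro n
    rw [M.co_sB, ← h3]
  have h3 : ∀ n, M.co n x = conj (M.co (-n) x) := by
    intro n
    rw [← M.co_sB, hs]
  have hre : ∀ n, (M.co n x).re = 0 := by
    intro n
    have h4 := h1 n
    have h5 := h3 n
    have h6 : M.co (-n) x = - M.co n x := by rw [h4, neg_neg]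
    rw [h6] at h5
    have h7 := congrArg Complex.re h5
    simp only [map_neg, Complex.neg_re, Complex.conj_re] at h7
    linarith
  have hpos : ∀ n : ℤ, 0 < n → M.co n x = 0 := by
    intro n hn
    rcases Int.even_or_odd n with he | ho
    · obtain ⟨k, hk⟩ := he
      obtain ⟨m, hm⟩ : ∃ m : ℕ, n = 2 * (m : ℤ) + 2 := ⟨(k - 1).toNat, by omega⟩
      apply Complex.ext
      · rw [hre]; rfl
      · rw [hm, him]; rfl
    · have h4 := h2 n
      rw [Odd.neg_one_zpow ho] at h4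
      have h5 : (2 : ℂ) * M.co n x = 0 := by linear_combination h4
      exact (mul_eq_zero.1 h5).resolve_left two_ne_zero
  have hall : ∀ n : ℤ, M.co n x = 0 := by
    intro n
    rcases lt_trichotomy n 0 with hn | hn | hn
    · rw [h1, hpos (-n) (by omega), neg_zero]
    · subst hn
      have h4 := h1 0
      rw [neg_zero] at h4
      have h5 : (2 : ℂ) * M.co 0 x = 0 := by linear_combination h4
      exact (mul_eq_zero.1 h5).resolve_left two_ne_zero
    · exact hpos n hn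
  have h4 := M.e_sum (zc θ) (zc_norm θ) x
  simp only [hall, zero_mul] at h4
  exact h4.unique hasSum_zero

theorem wj_int_deriv (x : B) (θ : ℝ) :
    HasDerivAt (fun s : ℝ => M.e (zc s) (M.Int x)) (M.e (zc θ) x - M.co 0 x) θ := by
  have h1 : (fun s : ℝ => M.e (zc s) (M.Int x)) =
      fun s : ℝ => ∑' n : ℤ, M.co n (M.Int x) * (zc s) ^ n := by
    funext s
    exact (M.e_sum (zc s) (zc_norm s) (M.Int x)).tsum_eq.symm
  have h2 : ∀ n : ℤ, ∀ s : ℝ, M.co n (M.Int x) * ((n : ℂ) * Complex.I * (zc s) ^ n) =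
      (if n = 0 then 0 else M.co n x) * (zc s) ^ n := by
    intro n s
    rw [M.co_Int]
    split_ifs with hn
    · simp
    · have hn' : (n : ℂ) ≠ 0 := Int.cast_ne_zero.2 hn
      have hI := Complex.I_ne_zero
      field_simp
  have h3 : M.e (zc θ) x - M.co 0 x =
      ∑' n : ℤ, M.co n (M.Int x) * ((n : ℂ) * Complex.I * (zc θ) ^ n) := by
    simp only [h2]
    have h4 := (M.e_sum (zc θ) (zc_norm θ) x).sub (hasSum_ite_eq (0 : ℤ) (M.co 0 x))
    have h5 : (fun n : ℤ => M.co n x * (zc θ) ^ n - if n = 0 then M.co 0 x else 0) =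
        fun n : ℤ => (if n = 0 then 0 else M.co n x) * (zc θ) ^ n := by
      funext n
      by_cases hn : n = 0
      · subst hn; simp
      · simp [hn]
    rw [h5] at h4
    exact h4.tsum_eq.symm
  rw [h1, h3]
  refine hasDerivAt_tsum (u := fun n : ℤ => ‖M.co n x‖) (y₀ := (0 : ℝ)) (wj_summable M x).norm
    (fun n s => (zc_zpow_deriv s n).const_mul _) ?_ ?_ θ
  · intro n s
    rw [h2, norm_mul, zc_zpow_norm, mul_one]
    split_ifs
    · simp
    · exact le_rfl
  · exact (M.e_sum (zc 0) (zc_norm 0) (M.Int x)).summable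

end wj

/-- JOB WJ. -/
theorem bc_of_solution {A1 : Type} [NormedRing A1] [NormedAlgebra ℂ A1] [CompleteSpace A1]
    {L : LoopAlg A1} {B : Type} [NormedCommRing B] [NormedAlgebra ℂ B] [CompleteSpace B]
    {A : Type} [NormedRing A] [NormedAlgebra ℂ A] [CompleteSpace A] (M : TwoAlg A1 L B A) (F2 : ℝ × E0 → A) (X2 : ℝ × A → A)
    {ε η δ : ℝ} {κ h : ℂ → ℂ} {φ χ : ℂ → Matrix (Fin 2) (Fin 2) ℂ} {m0 m1 : ℂ → ℝ} (u : E0)
    (φH : ℂ → ℂ) (hF : Frame ε η κ h φ χ m0 m1)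
    (hH : ∀ t : ℂ, ‖t‖ < 3 / 2 → φ t 0 0 = (ε : ℂ) * φH t)
    (hW : ∀ z : ℂ, ‖z‖ = 1 → M.e z (Wb M F2 X2 (ε, u)) = (Wth κ ε φ m1 φH z : ℂ))
    (hZ : ∀ z : ℂ, ‖z‖ = 1 → M.e z (Zb M F2 X2 (ε, u)) = Zth κ ε φ m1 z)
    (hsol : fB M F2 X2 (ε, δ, u) = 0) : BC ε δ φ χ := by
  obtain ⟨hpos, hsm, -, -, -, -, hd01, hd00, hsym⟩ := surf_deriv hF
  have hε : (ε : ℂ) ≠ 0 := Complex.ofReal_ne_zero.2 hF.ε_pos.ne'
  have hlt : ∀ θ, ‖zc θ‖ < 13 / 10 := by intro θ; rw [zc_norm]; norm_num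
  have hball : ∀ θ, zc θ ∈ ball (0:ℂ) (13 / 10) := by
    intro θ; rw [mem_ball_zero_iff]; exact hlt θ
  have hdiff : ∀ i j θ, DifferentiableAt ℝ (fun t => symM (φ t) (χ t) i j) (zc θ) := by
    intro i j θ
    exact ((hsm i j).contDiffAt (isOpen_ball.mem_nhds (hball θ))).differentiableAt (by simp)
  have hD01 : ∀ θ : ℝ, HasDerivAt (fun s : ℝ => X01 φ χ (zc s))
      (-(2 * (ε : ℂ)) * Zth κ ε φ m1 (zc θ)) θ := by
    intro θ
    have h1 : DifferentiableAt ℝ (X01 φ χ) (zc θ) := hdiff 0 1 θ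
    have h2 := h1.hasFDerivAt.comp_hasDerivAt θ (zc_deriv θ)
    have h3 : fderiv ℝ (X01 φ χ) (zc θ) (Complex.I * zc θ) =
        -(2 * (ε : ℂ)) * Zth κ ε φ m1 (zc θ) := by
      rw [hd01 _ (hlt θ)]
      unfold Zth pp
      have hc : conj ((ε:ℂ) * rho κ (zc θ) / (nu κ ε (zc θ) : ℂ)) =
          (ε:ℂ) * conj (rho κ (zc θ)) / (nu κ ε (zc θ) : ℂ) := by
        rw [map_div₀, map_mul, Complex.conj_ofReal, Complex.conj_ofReal]
      rw [hc]
      push_cast
      ring
    rw [h3] at h2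
    exact h2
  have hD00 : ∀ θ : ℝ, HasDerivAt (fun s : ℝ => X00 φ χ (zc s))
      (2 * ε ^ 2 * Wth κ ε φ m1 φH (zc θ)) θ := by
    intro θ
    have h1 : DifferentiableAt ℝ (X00 φ χ) (zc θ) :=
      Complex.reCLM.differentiableAt.comp _ (hdiff 0 0 θ)
    have h2 := h1.hasFDerivAt.comp_hasDerivAt θ (zc_deriv θ)
    have h3 : fderiv ℝ (X00 φ χ) (zc θ) (Complex.I * zc θ) =
        2 * ε ^ 2 * Wth κ ε φ m1 φH (zc θ) := by
      rw [hd00 _ (hlt θ), hH _ (by rw [zc_norm]; norm_num)]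
      unfold Wth pp
      have h4 : Complex.I * zc θ * ((ε : ℂ) * rho κ (zc θ) / (nu κ ε (zc θ) : ℂ)) *
          ((ε : ℂ) * φH (zc θ)) * conj (φ (zc θ) 0 1) = ((ε ^ 2 : ℝ) : ℂ) *
          (Complex.I * zc θ * (rho κ (zc θ) / (nu κ ε (zc θ) : ℂ)) * φH (zc θ) *
            conj (φ (zc θ) 0 1)) := by
        push_cast
        ring
      rw [h4, Complex.re_ofReal_mul]
      ring
    rw [h3] at h2
    exact h2
  have hε2 : (2 * ε ^ 2 : ℝ) ≠ 0 := by
    have := hF.ε_pos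
    positivity
  -- the height
  have hWodd : ∀ θ, Wth κ ε φ m1 φH (zc (-θ)) = - Wth κ ε φ m1 φH (zc θ) := by
    intro θ
    have h1 := HasDerivAt.comp θ (hD00 (-θ)) (hasDerivAt_neg θ)
    have h2 : ((fun s : ℝ => X00 φ χ (zc s)) ∘ Neg.neg) = fun s : ℝ => X00 φ χ (zc s) := by
      funext s
      simp only [Function.comp_apply]
      rw [zc_conj, (hsym _ (hlt s)).1]
    rw [h2] at h1
    have h3 := h1.unique (hD00 θ)
    have h4 : 2 * ε ^ 2 * (Wth κ ε φ m1 φH (zc (-θ)) + Wth κ ε φ m1 φH (zc θ)) = 0 := by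
      linear_combination -h3
    have h5 := (mul_eq_zero.1 h4).resolve_left hε2
    linarith
  have hWper : ∀ θ, Wth κ ε φ m1 φH (zc (θ + Real.pi)) = Wth κ ε φ m1 φH (zc θ) := by
    intro θ
    have h1 := HasDerivAt.comp_add_const θ Real.pi (hD00 (θ + Real.pi))
    have h2 : (fun s : ℝ => X00 φ χ (zc (s + Real.pi))) = fun s : ℝ => X00 φ χ (zc s) := by
      funext s
      rw [zc_pi, (hsym _ (hlt s)).2.1]
    rw [h2] at h1
    have h3 := h1.unique (hD00 θ)
    exact mul_left_cancel₀ hε2 h3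
  have hsol3 : M.cf (Wb M F2 X2 (ε, u)) = 0 := congrArg (fun q => q.2.2) hsol
  have hsol2 : M.cf (reB M (Zb M F2 X2 (ε, u) * (M.sB (Z2 M F2 X2 (ε, u))
      - (δ : ℂ) • Z2 M F2 X2 (ε, u)))) = 0 := congrArg (fun q => q.2.1) hsol
  have hsol1 : (1 - δ) * (M.e 1 (Z2 M F2 X2 (ε, u))).re ^ 2 - 1 = 0 :=
    congrArg (fun q => q.1) hsol
  have hcf : ∀ x : B, M.cf x = 0 → ∀ n : ℕ, (M.co (2 * n + 2) x).im = 0 := by
    intro x hx n
    have h1 := M.cf_apply x n
    rw [hx] at h1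
    have h2 : (((0 : X1) : ℕ → ℝ)) n = 0 := rfl
    rw [h2] at h1
    have h3 : (4 : ℝ) ^ (n + 1) ≠ 0 := by positivity
    exact (mul_eq_zero.1 h1.symm).resolve_left h3
  have hW0 : ∀ θ, Wth κ ε φ m1 φH (zc θ) = 0 := by
    intro θ
    have h1 := wj_zero M (Wb M F2 X2 (ε, u)) (fun θ => by
        rw [hW _ (zc_norm θ), Complex.conj_ofReal])
      (fun θ => by rw [hW _ (zc_norm _), hW _ (zc_norm _), hWodd]; push_cast; rfl)
      (fun θ => by rw [hW _ (zc_norm _), hW _ (zc_norm _), hWper])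
      (hcf _ hsol3) θ
    rw [hW _ (zc_norm θ)] at h1
    exact Complex.ofReal_eq_zero.1 h1
  have hheight : ∀ θ : ℝ, X00 φ χ (zc θ) = X00 φ χ 1 := by
    intro θ
    have h1 : ∀ s : ℝ, HasDerivAt (fun s : ℝ => X00 φ χ (zc s)) 0 s := by
      intro s
      have := hD00 s
      rw [hW0, mul_zero] at this
      exact this
    have h2 := is_const_of_deriv_eq_zero (fun s => (h1 s).differentiableAt) (fun s => (h1 s).deriv) θ 0
    simp only [zc_zero] at h2
    exact h2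
  -- the horizontal position
  obtain ⟨Zf, hZf⟩ : ∃ Zf : ℝ → ℂ, Zf = fun s => - X01 φ χ (zc s) / (2 * (ε : ℂ)) := ⟨_, rfl⟩
  have h2ε : (2 * (ε : ℂ)) ≠ 0 := mul_ne_zero two_ne_zero hε
  have hXZ : ∀ θ, X01 φ χ (zc θ) = -(2 * (ε : ℂ)) * Zf θ := by
    intro θ
    rw [hZf]
    field_simp
  have hZd : ∀ θ, HasDerivAt Zf (Zth κ ε φ m1 (zc θ)) θ := by
    intro θ
    have h1 := ((hD01 θ).neg).div_const (2 * (ε : ℂ))
    have h2 : -(-(2 * (ε : ℂ)) * Zth κ ε φ m1 (zc θ)) / (2 * (ε : ℂ)) = Zth κ ε φ m1 (zc θ) := by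
      field_simp
    rw [h2] at h1
    rw [hZf]
    exact h1
  have hZneg : ∀ θ, Zf (-θ) = conj (Zf θ) := by
    intro θ
    rw [hZf]
    simp only
    rw [zc_conj, (hsym _ (hlt θ)).2.2.1, map_div₀, map_neg, map_mul, Complex.conj_ofReal]
    rw [show (starRingEnd ℂ) 2 = 2 from map_ofNat _ 2]
  have hZpi : ∀ θ, Zf (θ + Real.pi) = - Zf θ := by
    intro θ
    rw [hZf]
    simp only
    rw [zc_pi, (hsym _ (hlt θ)).2.2.2]
    ring
  have hZthneg : ∀ θ, Zth κ ε φ m1 (zc (-θ)) = - conj (Zth κ ε φ m1 (zc θ)) := by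
    intro θ
    have h1 := HasDerivAt.scomp θ (hZd (-θ)) (hasDerivAt_neg θ)
    have h2 : (Zf ∘ Neg.neg) = fun s : ℝ => star (Zf s) := by
      funext s
      exact hZneg s
    rw [h2] at h1
    have h3 := h1.unique (hZd θ).star
    have h4 : star (Zth κ ε φ m1 (zc θ)) = conj (Zth κ ε φ m1 (zc θ)) := rfl
    rw [h4] at h3
    rw [← h3]
    simp
  have hZthpi : ∀ θ, Zth κ ε φ m1 (zc (θ + Real.pi)) = - Zth κ ε φ m1 (zc θ) := by
    intro θ
    have h1 := HasDerivAt.comp_add_const θ Real.pi (hZd (θ + Real.pi))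
    have h2 : (fun s : ℝ => Zf (s + Real.pi)) = fun s : ℝ => - Zf s := by
      funext s
      exact hZpi s
    rw [h2] at h1
    exact h1.unique (hZd θ).neg
  have hZcoef : ∀ n, M.co n (Zb M F2 X2 (ε, u)) = -((-1 : ℂ) ^ n * M.co n (Zb M F2 X2 (ε, u))) := by
    refine wj_coef M _ _ (wj_summable_pi M _).neg (fun θ => ?_)
    have h1 := (wj_sum_pi M (Zb M F2 X2 (ε, u)) θ).neg
    rw [hZ _ (zc_norm _), hZthpi, neg_neg] at h1
    rw [hZ _ (zc_norm _)]
    simpa only [neg_mul] using h1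
  have hZeven : ∀ n : ℤ, Even n → M.co n (Zb M F2 X2 (ε, u)) = 0 := by
    intro n hn
    have h1 := hZcoef n
    rw [Even.neg_one_zpow hn] at h1
    have h5 : (2 : ℂ) * M.co n (Zb M F2 X2 (ε, u)) = 0 := by linear_combination h1
    exact (mul_eq_zero.1 h5).resolve_left two_ne_zero
  obtain ⟨Yf, hYf⟩ : ∃ Yf : ℝ → ℂ, Yf = fun s => M.e (zc s) (Z2 M F2 X2 (ε, u)) := ⟨_, rfl⟩
  have hYd : ∀ θ, HasDerivAt Yf (Zth κ ε φ m1 (zc θ)) θ := by
    intro θ
    have h1 := wj_int_deriv M (Zb M F2 X2 (ε, u)) θ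
    rw [hZeven 0 (by simp), sub_zero, hZ _ (zc_norm _)] at h1
    rw [hYf]
    exact h1
  have hYpi : ∀ θ, Yf (θ + Real.pi) = - Yf θ := by
    intro θ
    rw [hYf]
    have h1 := wj_sum_pi M (Z2 M F2 X2 (ε, u)) θ
    have h2 := (M.e_sum (zc θ) (zc_norm θ) (Z2 M F2 X2 (ε, u))).neg
    have h3 : (fun n : ℤ => (-1 : ℂ) ^ n * M.co n (Z2 M F2 X2 (ε, u)) * (zc θ) ^ n) =
        fun n : ℤ => -(M.co n (Z2 M F2 X2 (ε, u)) * (zc θ) ^ n) := by
      funext n
      rcases Int.even_or_odd n with hn | hn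
      · have h4 : M.co n (Z2 M F2 X2 (ε, u)) = 0 := by
          unfold Z2
          rw [M.co_Int, hZeven n hn]
          simp
        rw [h4]
        simp
      · rw [Odd.neg_one_zpow hn]
        ring
    rw [h3] at h1
    exact h1.unique h2
  have hYZ : ∀ θ, Yf θ = Zf θ := by
    intro θ
    have h1 : ∀ s : ℝ, HasDerivAt (fun s : ℝ => Yf s - Zf s) 0 s := by
      intro s
      have := (hYd s).sub (hZd s)
      rw [sub_self] at this
      exact this
    have h2 := is_const_of_deriv_eq_zero (fun s => (h1 s).differentiableAt) (fun s => (h1 s).deriv)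
      θ (θ + Real.pi)
    simp only [hYpi, hZpi] at h2
    have h3 : (2 : ℂ) * (Yf θ - Zf θ) = 0 := by linear_combination h2
    exact sub_eq_zero.1 ((mul_eq_zero.1 h3).resolve_left two_ne_zero)
  have hye : ∀ θ, M.e (zc θ) (reB M (Zb M F2 X2 (ε, u) * (M.sB (Z2 M F2 X2 (ε, u))
      - (δ : ℂ) • Z2 M F2 X2 (ε, u)))) =
      (((Zth κ ε φ m1 (zc θ) * (conj (Zf θ) - (δ : ℂ) * Zf θ)).re : ℝ) : ℂ) := by
    intro θ
    have h1 : M.e (zc θ) (Z2 M F2 X2 (ε, u)) = Zf θ := by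
      rw [← hYZ, hYf]
    have h2 : M.e (zc θ) (Zb M F2 X2 (ε, u) * (M.sB (Z2 M F2 X2 (ε, u))
      - (δ : ℂ) • Z2 M F2 X2 (ε, u))) = Zth κ ε φ m1 (zc θ) * (conj (Zf θ) - (δ : ℂ) * Zf θ) := by
      rw [M.e_mul _ (zc_norm _), hZ _ (zc_norm _), map_sub, M.e_sB _ (zc_norm _), map_smul, h1,
        smul_eq_mul]
    unfold reB
    rw [map_smul, map_add, M.e_sB _ (zc_norm _), h2, smul_eq_mul, Complex.re_eq_add_conj]
    ring
  have hy0 : ∀ θ, (Zth κ ε φ m1 (zc θ) * (conj (Zf θ) - (δ : ℂ) * Zf θ)).re = 0 := by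
    intro θ
    have h1 := wj_zero M _ (fun θ => by
        rw [hye, Complex.conj_ofReal])
      (fun θ => by
        rw [hye, hye, ← Complex.ofReal_neg]
        congr 1
        rw [hZthneg, hZneg, Complex.conj_conj]
        have h2 : -conj (Zth κ ε φ m1 (zc θ)) * (Zf θ - (δ : ℂ) * conj (Zf θ)) =
            - conj (Zth κ ε φ m1 (zc θ) * (conj (Zf θ) - (δ : ℂ) * Zf θ)) := by
          rw [map_mul, map_sub, map_mul, Complex.conj_conj, Complex.conj_ofReal]
          ring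
        rw [h2, Complex.neg_re, Complex.conj_re])
      (fun θ => by
        rw [hye, hye]
        congr 2
        rw [hZthpi, hZpi, map_neg]
        ring)
      (hcf _ hsol2) θ
    rw [hye] at h1
    exact Complex.ofReal_eq_zero.1 h1
  have hG : ∀ θ, (1 - δ) * (Zf θ).re ^ 2 + (1 + δ) * (Zf θ).im ^ 2 = 1 := by
    intro θ
    have h1 : ∀ s : ℝ, HasDerivAt (fun s : ℝ => (1 - δ) * (Zf s).re ^ 2 + (1 + δ) * (Zf s).im ^ 2)
        0 s := by
      intro s
      have hr : HasDerivAt (fun s : ℝ => (Zf s).re) (Zth κ ε φ m1 (zc s)).re s :=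
        Complex.reCLM.hasFDerivAt.comp_hasDerivAt s (hZd s)
      have hi : HasDerivAt (fun s : ℝ => (Zf s).im) (Zth κ ε φ m1 (zc s)).im s :=
        Complex.imCLM.hasFDerivAt.comp_hasDerivAt s (hZd s)
      have h2 := ((hr.pow 2).const_mul (1 - δ)).add ((hi.pow 2).const_mul (1 + δ))
      have h3 := hy0 s
      simp only [Complex.mul_re, Complex.sub_re, Complex.sub_im, Complex.conj_re, Complex.conj_im,
        Complex.mul_im, Complex.ofReal_re, Complex.ofReal_im] at h3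
      refine h2.congr_deriv ?_
      simp only [Nat.cast_ofNat]
      linear_combination 2 * h3
    have h2 := is_const_of_deriv_eq_zero (fun s => (h1 s).differentiableAt) (fun s => (h1 s).deriv) θ 0
    rw [h2]
    have h3 : (Zf 0).im = 0 := by
      have h4 := hZneg 0
      rw [neg_zero] at h4
      have h5 := congrArg Complex.im h4
      rw [Complex.conj_im] at h5
      linarith
    have h4 : M.e 1 (Z2 M F2 X2 (ε, u)) = Zf 0 := by
      rw [← hYZ, hYf]
      simp only [zc_zero]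
    rw [h4] at hsol1
    rw [h3]
    linarith
  refine ⟨hheight, fun θ => ?_⟩
  have h1 : X01 φ χ (Complex.exp (θ * Complex.I)) = ((-(2 * ε) : ℝ) : ℂ) * Zf θ := by
    have := hXZ θ
    unfold zc at this
    rw [this]
    push_cast
    ring
  rw [h1, Complex.re_ofReal_mul, Complex.im_ofReal_mul]
  have h2 := hG θ
  linear_combination (2 * ε) ^ 2 * h2




end Pool.Agent.Helper87.VT
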