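import Mathlib
import Pool.Agent.Helper87.VT.Circ
import Pool.Agent.Helper87.VT.MWH
import Pool.Agent.Helper87.VT.MWU

set_option autoImplicit false

open Set Metric Matrix
open scoped ContDiff ComplexConjugate

namespace Pool.Agent.Helper87.VT

open Pool.Agent.Helper87.CMC (LoopAlg)






section identification_aux
variable {A1 : Type} [NormedRing A1] [NormedAlgebra ℂ A1]
    {L : LoopAlg A1} {B : Type} [NormedCommRing B] [NormedAlgebra ℂ B]
    {A : Type} [NormedRing A] [NormedAlgebra ℂ A] (M : TwoAlg A1 L B A)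

theorem identification_e_one (z : ℂ) (hz : ‖z‖ = 1) : M.e z 1 = 1 := by
  rw [← M.τ_zero, M.e_τ z hz, zpow_zero]

theorem identification_π_one (z : ℂ) (hz : ‖z‖ = 1) : M.π z 1 = 1 := by
  rw [← M.E_one, map_add, M.π_E z hz, M.π_E z hz, L.E_one]

theorem identification_st_one : M.st 1 = 1 := by
  rw [← M.E_one, map_add, M.st_E, M.st_E]

theorem identification_kB (u : E0) (z : ℂ) (hz : ‖z‖ = 1) : M.e z (kB M u) = kapU u z := by
  unfold kB kapU
  rw [map_add, map_smul, identification_e_one M z hz, M.e_kL u.2.1 z hz, smul_eq_mul, mul_one]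

theorem identification_conj (z : ℂ) (hz : ‖z‖ = 1) : z ^ (-1 : ℤ) = conj z := by
  rw [_root_.zpow_neg_one]
  exact (Complex.inv_eq_conj hz)

theorem identification_N2 (ε : ℝ) (u : E0) (z : ℂ) (hz : ‖z‖ = 1) :
    M.π z (N2 M (ε, u)) = NN L (kapU u) ε z := by
  unfold N2 NN
  rw [map_add, map_sub, map_add, M.π_mul z hz, M.π_mul z hz, M.π_mul z hz, M.π_mul z hz,
    map_smul, map_smul, M.π_ι z hz, M.π_ι z hz, M.π_ι z hz, M.π_ι z hz, M.π_E z hz, M.π_E z hz,
    M.π_E z hz, M.π_E z hz, M.e_sB z hz, identification_kB M u z hz, M.e_τ z hz, M.e_τ z hz,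
    identification_conj z hz, zpow_one]
  simp only [smul_mul_assoc, one_mul, smul_smul]

theorem identification_nB (ε : ℝ) (u : E0) (z : ℂ) (hz : ‖z‖ = 1) :
    M.e z (nB M (ε, u)) = (nu (kapU u) ε z : ℂ) := by
  unfold nB nu
  rw [map_add, map_smul, M.e_mul z hz, M.e_sB z hz, identification_kB M u z hz,
    identification_e_one M z hz, hz, Complex.mul_conj, Complex.normSq_eq_norm_sq, smul_eq_mul]
  push_cast
  ring

theorem identification_inv (z : ℂ) (hz : ‖z‖ = 1) (x : B) (hx : IsUnit x) :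
    M.e z (Ring.inverse x) = (M.e z x)⁻¹ := by
  have h1 : M.e z x * M.e z (Ring.inverse x) = 1 := by
    rw [← M.e_mul z hz, Ring.mul_inverse_cancel x hx, identification_e_one M z hz]
  exact eq_inv_of_mul_eq_one_right h1

theorem identification_reB (z : ℂ) (hz : ‖z‖ = 1) (x : B) :
    M.e z (reB M x) = ((M.e z x).re : ℂ) := by
  unfold reB
  rw [map_smul, map_add, M.e_sB z hz, Complex.add_conj, smul_eq_mul]
  push_cast
  ring

theorem identification_kB_cont : Continuous (kB M) := by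
  unfold kB
  have h1 := M.kL.continuous
  fun_prop

theorem identification_nB_cont : Continuous (nB M) := by
  unfold nB
  have h1 := identification_kB_cont M
  have h2 := M.sB.continuous
  fun_prop

theorem identification_N2_cont : Continuous (N2 M) := by
  unfold N2
  have h1 := identification_kB_cont M
  have h2 := M.sB.continuous
  have h3 := M.ι.continuous
  fun_prop

theorem identification_nB_zero : nB M 0 = 1 := by
  unfold nB
  simp

theorem identification_niB_cont [CompleteSpace B] : ContinuousAt (niB M) 0 := by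
  have h1 : ContinuousAt Ring.inverse (nB M 0) := by
    rw [identification_nB_zero]
    exact NormedRing.inverse_continuousAt (1 : Bˣ)
  exact ContinuousAt.comp (f := nB M) h1 (identification_nB_cont M).continuousAt

theorem identification_F2_cont {r C : ℝ} {F2 : ℝ × E0 → A} (hF : F2Data M r C F2) :
    ContinuousAt F2 0 :=
  hF.smooth.continuousOn.continuousAt (Metric.ball_mem_nhds 0 hF.r_pos)

theorem identification_F2_zero {r C : ℝ} {F2 : ℝ × E0 → A} (hF : F2Data M r C F2) :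
    F2 0 = 0 := by
  have h := hF.bound 0 (Metric.mem_ball_self hF.r_pos)
  simpa using h

theorem identification_g2_cont [CompleteSpace B] {r C : ℝ} {F2 : ℝ × E0 → A}
    (hF : F2Data M r C F2) : ContinuousAt (g2 M F2) 0 := by
  unfold g2
  have h1 := identification_niB_cont M
  have h2 : ContinuousAt (fun p => M.ι (niB M p)) 0 := M.ι.continuous.continuousAt.comp h1
  have h3 : ContinuousAt (fun p => M.st (N2 M p)) 0 :=
    (M.st.continuous.comp (identification_N2_cont M)).continuousAt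
  have h4 := identification_F2_cont M hF
  have h5 : ContinuousAt (fun p => N2 M p) 0 := (identification_N2_cont M).continuousAt
  exact h2.mul ((h3.mul h4).mul h5)

theorem identification_g2_zero {r C : ℝ} {F2 : ℝ × E0 → A}
    (hF : F2Data M r C F2) : g2 M F2 0 = 0 := by
  unfold g2
  rw [identification_F2_zero M hF]
  simp

theorem identification_X2h_cont [CompleteSpace B] {r C : ℝ} {F2 : ℝ × E0 → A}
    (hF : F2Data M r C F2) {r' : ℝ} {X2 : ℝ × A → A} (hX : X2Data M r' X2) :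
    ContinuousAt (X2h M F2 X2) 0 := by
  have h0 : ContinuousAt X2 0 :=
    hX.smooth.continuousOn.continuousAt (Metric.ball_mem_nhds 0 hX.r_pos)
  have h1 : ContinuousAt (fun p : ℝ × E0 => (p.1, g2 M F2 p)) 0 :=
    continuousAt_fst.prodMk (identification_g2_cont M hF)
  have h2 : ContinuousAt X2 ((fun p : ℝ × E0 => (p.1, g2 M F2 p)) 0) := by
    have : (fun p : ℝ × E0 => (p.1, g2 M F2 p)) 0 = 0 := by
      show ((0 : ℝ), g2 M F2 0) = 0
      rw [identification_g2_zero M hF]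
      rfl
    rw [this]
    exact h0
  exact ContinuousAt.comp h2 h1

theorem identification_m1B_cont [CompleteSpace B] {r C : ℝ} {F2 : ℝ × E0 → A}
    (hF : F2Data M r C F2) {r' : ℝ} {X2 : ℝ × A → A} (hX : X2Data M r' X2) :
    ContinuousAt (m1B M F2 X2) 0 := by
  unfold m1B
  have h1 := identification_g2_cont M hF
  have h2 := identification_X2h_cont M hF hX
  have h3 : ContinuousAt (fun p : ℝ × E0 => ((p.1 : ℝ) : ℂ)) 0 := by fun_prop
  have h4 : ContinuousAt (fun p : ℝ × E0 => 1 + (p.1 : ℂ) • g2 M F2 p) 0 :=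
    continuousAt_const.add (h3.smul h1)
  have h5 : ContinuousAt (fun p : ℝ × E0 => 1 + (p.1 : ℂ) • X2h M F2 X2 p) 0 :=
    continuousAt_const.add (h3.smul h2)
  have h6 : ContinuousAt (fun p : ℝ × E0 => M.st (1 + (p.1 : ℂ) • g2 M F2 p)) 0 :=
    M.st.continuous.continuousAt.comp h4
  exact (M.d 1).continuous.continuousAt.comp ((h6.mul h4).mul h5)

theorem identification_m1B_zero {F2 : ℝ × E0 → A} {X2 : ℝ × A → A} :
    m1B M F2 X2 0 = 1 := by
  unfold m1B
  have : ((0 : ℝ × E0).1 : ℂ) = 0 := by simp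
  rw [this]
  simp only [zero_smul, add_zero, mul_one]
  rw [identification_st_one, M.d_one]

theorem identification_ev [CompleteSpace B] {r C : ℝ} {F2 : ℝ × E0 → A}
    (hF : F2Data M r C F2) {r' : ℝ} {X2 : ℝ × A → A} (hX : X2Data M r' X2) (ε0 : ℝ) (hε0 : 0 < ε0) :
    ∀ᶠ p in nhds (0 : ℝ × E0), IsUnit (nB M p) ∧ IsUnit (nB M p * m1B M F2 X2 p) ∧
      ‖g2 M F2 p‖ < 1 ∧ (p.1, g2 M F2 p) ∈ ball (0 : ℝ × A) r' ∧ p ∈ ball (0 : ℝ × E0) r ∧
      |p.1| < ε0 := by
  have hu : IsOpen {x : B | IsUnit x} := Units.isOpen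
  have h1 : ∀ᶠ p in nhds (0 : ℝ × E0), IsUnit (nB M p) := by
    apply (identification_nB_cont M).continuousAt.eventually
    apply hu.mem_nhds
    show IsUnit (nB M 0)
    rw [identification_nB_zero]
    exact isUnit_one
  have h2 : ∀ᶠ p in nhds (0 : ℝ × E0), IsUnit (nB M p * m1B M F2 X2 p) := by
    have hc : ContinuousAt (fun p => nB M p * m1B M F2 X2 p) 0 :=
      (identification_nB_cont M).continuousAt.mul (identification_m1B_cont M hF hX)
    apply hc.eventually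
    apply hu.mem_nhds
    show IsUnit (nB M 0 * m1B M F2 X2 0)
    rw [identification_nB_zero, identification_m1B_zero, mul_one]
    exact isUnit_one
  have hg := identification_g2_cont M hF
  have hg0 := identification_g2_zero M hF
  have h3 : ∀ᶠ p in nhds (0 : ℝ × E0), ‖g2 M F2 p‖ < 1 := by
    have hc : ContinuousAt (fun p => ‖g2 M F2 p‖) 0 := hg.norm
    apply hc.eventually_lt continuousAt_const
    rw [hg0]; simp
  have h4 : ∀ᶠ p in nhds (0 : ℝ × E0), (p.1, g2 M F2 p) ∈ ball (0 : ℝ × A) r' := by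
    have hc : ContinuousAt (fun p : ℝ × E0 => (p.1, g2 M F2 p)) 0 :=
      continuousAt_fst.prodMk hg
    apply hc.eventually
    apply Metric.isOpen_ball.mem_nhds
    show ((0 : ℝ), g2 M F2 0) ∈ ball (0 : ℝ × A) r'
    rw [hg0]
    exact Metric.mem_ball_self hX.r_pos
  have h5 : ∀ᶠ p in nhds (0 : ℝ × E0), p ∈ ball (0 : ℝ × E0) r := Metric.ball_mem_nhds 0 hF.r_pos
  have h6 : ∀ᶠ p in nhds (0 : ℝ × E0), |p.1| < ε0 := by
    have hc : ContinuousAt (fun p : ℝ × E0 => |p.1|) 0 := by fun_prop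
    apply hc.eventually_lt continuousAt_const
    simpa using hε0
  filter_upwards [h1, h2, h3, h4, h5, h6] with p a b c d e f
  exact ⟨a, b, c, d, e, f⟩

theorem identification_pt {r C : ℝ} {F2 : ℝ × E0 → A}
    (hF : F2Data M r C F2) {r' : ℝ} {X2 : ℝ × A → A} (hX : X2Data M r' X2)
    {ε0 C1 : ℝ} {Xh : ℝ × A1 → A1} (hXh : XData L ε0 C1 Xh) (ε : ℝ) (u : E0) (z : ℂ) (hz : ‖z‖ = 1)
    (hth : z * deriv (kapU u) z = thF u.2.1 z)
    (h1 : IsUnit (nB M (ε, u))) (h2 : IsUnit (nB M (ε, u) * m1B M F2 X2 (ε, u)))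
    (h3 : ‖g2 M F2 (ε, u)‖ < 1) (h4 : (ε, g2 M F2 (ε, u)) ∈ ball (0 : ℝ × A) r')
    (h5 : ((ε, u) : ℝ × E0) ∈ ball (0 : ℝ × E0) r) (h6 : |ε| < ε0) :
      M.e z (Wb M F2 X2 (ε, u)) =
        (Wth (kapU u) ε (phM L (kapU u) ε (fun w => M.πp w (F2 (ε, u))) Xh)
          (mm L (kapU u) ε (fun w => M.πp w (F2 (ε, u))) Xh 1)
          (fun w => L.ev 0 0 (PhiH L (kapU u) ε (fun w => M.πp w (F2 (ε, u))) Xh w)) z : ℂ) ∧
      M.e z (Zb M F2 X2 (ε, u)) =
        Zth (kapU u) ε (phM L (kapU u) ε (fun w => M.πp w (F2 (ε, u))) Xh)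
          (mm L (kapU u) ε (fun w => M.πp w (F2 (ε, u))) Xh 1) z := by
  obtain ⟨κ, hκ⟩ : ∃ κ, κ = kapU u := ⟨_, rfl⟩
  obtain ⟨F, hFdef⟩ : ∃ F : ℂ → A1, F = fun w => M.πp w (F2 (ε, u)) := ⟨_, rfl⟩
  rw [← hκ, ← hFdef]
  rw [← hκ] at hth
  have eN2 : M.π z (N2 M (ε, u)) = NN L κ ε z := by rw [hκ]; exact identification_N2 M ε u z hz
  have eF2 : M.π z (F2 (ε, u)) = F z := by
    rw [hFdef]
    have hpos : M.pos (F2 (ε, u)) := by
      rw [hF.eq _ h5]
      exact M.pos_J _ _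
    exact (M.πp_eq z hz _ hpos).symm
  have enu : M.e z (nB M (ε, u)) = (nu κ ε z : ℂ) := by rw [hκ]; exact identification_nB M ε u z hz
  have eni : M.e z (niB M (ε, u)) = (nu κ ε z : ℂ)⁻¹ := by
    unfold niB
    rw [identification_inv M z hz _ h1, enu]
  have eg : M.π z (g2 M F2 (ε, u)) = gg L κ ε F z := by
    unfold g2 gg
    rw [M.π_mul z hz, M.π_mul z hz, M.π_mul z hz, M.π_ι z hz, M.π_st z hz, eN2, eF2, eni,
      smul_mul_assoc, one_mul]
  have hgn : ‖gg L κ ε F z‖ < 1 := by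
    rw [← eg]
    exact lt_of_le_of_lt (M.π_norm z hz _) h3
  have eX : M.π z (X2h M F2 X2 (ε, u)) = Xh (ε, gg L κ ε F z) := by
    rw [← hXh.char ε (gg L κ ε F z) h6 hgn]
    have h := congrArg (M.π z) (hX.eq _ h4)
    rw [map_add, map_smul, map_neg, M.π_Pp z hz, M.π_Pp z hz, M.π_mul z hz, map_add, map_add,
      map_smul, M.π_mul z hz, M.π_st z hz] at h
    dsimp only at h
    rw [eg] at h
    exact h
  have ePhi : M.π z (Phi2 M F2 X2 (ε, u)) = Phi L κ ε F Xh z := by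
    unfold Phi2 Phi GG XX
    rw [M.π_mul z hz, M.π_mul z hz, map_add, map_add, map_smul, map_smul,
      identification_π_one M z hz, eF2, eN2, eX]
  have ek : M.e z (kB M u) = κ z := by rw [hκ]; exact identification_kB M u z hz
  have ePhiH : M.π z (PhiH2 M F2 X2 (ε, u)) = PhiH L κ ε F Xh z := by
    unfold PhiH2 PhiH GG
    rw [map_add, map_add, map_add, M.π_mul z hz, M.π_mul z hz, M.π_mul z hz, M.π_mul z hz,
      M.π_mul z hz, map_add, map_smul, M.π_ι z hz, M.π_ι z hz, M.e_sB z hz, M.π_E z hz, M.π_E z hz,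
      identification_π_one M z hz, eF2, eN2, eX]
    dsimp only
    rw [ek, smul_mul_assoc, smul_mul_assoc, one_mul, one_mul]
  have em : M.e z (m1B M F2 X2 (ε, u)) = (mm L κ ε F Xh 1 z : ℂ) := by
    have him := ((hXh.fac ε (gg L κ ε F z) _ _ _ h6 hgn rfl rfl rfl).2.2.1 1).1
    have eD : M.π z (1 + (ε : ℂ) • g2 M F2 (ε, u)) = 1 + (ε : ℂ) • gg L κ ε F z := by
      rw [map_add, map_smul, identification_π_one M z hz, eg]
    have eXX : M.π z (1 + (ε : ℂ) • X2h M F2 X2 (ε, u)) = 1 + (ε : ℂ) • Xh (ε, gg L κ ε F z) := by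
      rw [map_add, map_smul, identification_π_one M z hz, eX]
    unfold m1B mm PP DD XX
    rw [M.π_d z hz, M.π_mul z hz, M.π_mul z hz, M.π_st z hz]
    dsimp only
    rw [eD, eXX]
    apply Complex.ext
    · simp
    · rw [him]; simp
  have er : M.e z (rB M u) = rho κ z := by
    unfold rB rho
    rw [map_sub, ek, M.e_thL _ z hz, hth]
  have einv : M.e z (Ring.inverse (nB M (ε, u) * m1B M F2 X2 (ε, u))) =
      ((nu κ ε z : ℂ) * (mm L κ ε F Xh 1 z : ℂ))⁻¹ := by
    rw [identification_inv M z hz _ h2, M.e_mul z hz, enu, em]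
  have eτ : M.e z (M.τ 1) = z := by rw [M.e_τ z hz, zpow_one]
  have hnn : conj ((nu κ ε z : ℂ)) = (nu κ ε z : ℂ) := Complex.conj_ofReal _
  constructor
  · unfold Wb Wth phM
    rw [map_smul, M.e_mul z hz, identification_reB M z hz, einv, map_smul, M.e_mul z hz,
      M.e_mul z hz, M.e_mul z hz, M.e_mul z hz, M.e_sB z hz, M.π_ev z hz, M.π_ev z hz, ePhi, ePhiH]
    dsimp only
    rw [er, eτ, eni]
    simp only [Matrix.of_apply, smul_eq_mul]
    push_cast
    have e1 : Complex.I * (z * rho κ z * (nu κ ε z : ℂ)⁻¹ * L.ev 0 0 (PhiH L κ ε F Xh z) *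
        conj (L.ev 0 1 (Phi L κ ε F Xh z))) =
        Complex.I * z * (rho κ z / (nu κ ε z : ℂ)) * L.ev 0 0 (PhiH L κ ε F Xh z) *
        conj (L.ev 0 1 (Phi L κ ε F Xh z)) := by
      ring
    rw [e1]
    ring
  · unfold Zb Zth phM
    rw [M.e_mul z hz, map_add, einv, map_smul, M.e_mul z hz, M.e_mul z hz, M.e_mul z hz,
      M.e_mul z hz, M.e_mul z hz, M.e_mul z hz, M.e_sB z hz, M.e_sB z hz, M.e_sB z hz, map_smul,
      M.e_mul z hz, M.e_mul z hz, M.π_ev z hz, M.π_ev z hz, M.π_ev z hz, M.π_ev z hz, ePhi]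
    dsimp only
    rw [er, eτ, eni]
    simp only [Matrix.of_apply, smul_eq_mul, map_mul, map_inv₀, hnn]
    push_cast
    ring

end identification_aux

/-- JOB WK. -/
theorem identification {A1 : Type} [NormedRing A1] [NormedAlgebra ℂ A1] [CompleteSpace A1]
    {L : LoopAlg A1} {B : Type} [NormedCommRing B] [NormedAlgebra ℂ B] [CompleteSpace B]
    {A : Type} [NormedRing A] [NormedAlgebra ℂ A] [CompleteSpace A] (M : TwoAlg A1 L B A) (r C : ℝ) (F2 : ℝ × E0 → A) (hF : F2Data M r C F2)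
    (r' : ℝ) (X2 : ℝ × A → A) (hX : X2Data M r' X2)
    (ε0 C1 : ℝ) (Xh : ℝ × A1 → A1) (hXh : XData L ε0 C1 Xh) :
    ∃ ρ : ℝ, 0 < ρ ∧ ∀ (ε : ℝ) (u : E0), 0 < ε → ε < ρ → ‖u‖ < ρ → ∀ z : ℂ, ‖z‖ = 1 →
      M.e z (Wb M F2 X2 (ε, u)) =
        (Wth (kapU u) ε (phM L (kapU u) ε (fun w => M.πp w (F2 (ε, u))) Xh)
          (mm L (kapU u) ε (fun w => M.πp w (F2 (ε, u))) Xh 1)
          (fun w => L.ev 0 0 (PhiH L (kapU u) ε (fun w => M.πp w (F2 (ε, u))) Xh w)) z : ℂ) ∧
      M.e z (Zb M F2 X2 (ε, u)) =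
        Zth (kapU u) ε (phM L (kapU u) ε (fun w => M.πp w (F2 (ε, u))) Xh)
          (mm L (kapU u) ε (fun w => M.πp w (F2 (ε, u))) Xh 1) z := by
  obtain ⟨C3, ρ1, hC3, hρ1, hpw⟩ := pointwise_data M r C F2 hF
  have hev := identification_ev M hF hX ε0 hXh.ε0_pos
  obtain ⟨ρ2, hρ2, hball⟩ := Metric.eventually_nhds_iff.mp hev
  refine ⟨min ρ1 ρ2, lt_min hρ1 hρ2, ?_⟩
  intro ε u hε1 hε2 hu z hz
  have hεa : |ε| = ε := abs_of_pos hε1
  have hε3 : ε < ρ1 := lt_of_lt_of_le hε2 (min_le_left _ _)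
  have hε4 : ε < ρ2 := lt_of_lt_of_le hε2 (min_le_right _ _)
  have hu3 : ‖u‖ < ρ1 := lt_of_lt_of_le hu (min_le_left _ _)
  have hu4 : ‖u‖ < ρ2 := lt_of_lt_of_le hu (min_le_right _ _)
  have hth := (hpw ε ((‖u‖ + ρ1) / 2) u (by rw [hεa]; exact hε3) (by linarith)
    (by have := norm_nonneg u; linarith) (by linarith)).2.2 z (by rw [hz]; norm_num)
  obtain ⟨a1, a2, a3, a4, a5, a6⟩ := hball (y := (ε, u)) (by
    rw [dist_zero_right, Prod.norm_def]
    apply max_lt
    · show ‖ε‖ < ρ2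
      rw [Real.norm_eq_abs, hεa]; exact hε4
    · exact hu4)
  exact identification_pt M hF hX hXh ε u z hz hth a1 a2 a3 a4 a5 a6



end Pool.Agent.Helper87.VT
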