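import Mathlib
import Pool.Agent.Helper87.VT.Circ
import Pool.Agent.Helper87.VT.MWA
import Pool.Agent.Helper87.VT.MPX
import Pool.Agent.Helper87.VT.MWB
import Pool.Agent.Helper87.VT.MWC
import Pool.Agent.Helper87.VT.MWF
import Pool.Agent.Helper87.VT.MWH
import Pool.Agent.Helper87.VT.MWK
import Pool.Agent.Helper87.VT.MPFR
import Pool.Agent.Helper87.VT.MWJ

set_option autoImplicit false

open Set Metric Matrix
open scoped ContDiff ComplexConjugate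

namespace Pool.Agent.Helper87.VT

open Pool.Agent.Helper87.CMC (LoopAlg)



















/-- JOB WP. -/
theorem part01 : ∃ C : ℝ, 1 ≤ C ∧ ∀ η : ℝ, 0 < η → ∃ r : ℝ, 0 < r ∧ ∀ ε δ : ℝ, 0 < ε → ε < r →
    0 < δ → δ < r → ∃ (κ h : ℂ → ℂ) (φ χ : ℂ → Matrix (Fin 2) (Fin 2) ℂ) (m0 m1 : ℂ → ℝ) (η' : ℝ),
      η' ≤ C * η ∧ Frame ε η' κ h φ χ m0 m1 ∧ BC ε δ φ χ := by
  obtain ⟨A1, i1, i2, i3, L, B, i4, i5, i6, A, i7, i8, i9, ⟨M⟩⟩ := exists_twoAlg
  obtain ⟨ε0, C1, Xh, hXh⟩ := exists_XData L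
  obtain ⟨r, Cc, F2, hF2⟩ := exists_F2 M
  obtain ⟨r', X2, hX2⟩ := exists_X2 M
  obtain ⟨C3, ρ3, hC3, hρ3, hpd⟩ := pointwise_data M r Cc F2 hF2
  obtain ⟨ρi, hρi, hid⟩ := identification M r Cc F2 hF2 r' X2 hX2 ε0 C1 Xh hXh
  obtain ⟨Cf, η1, hCf, hη1, hfr⟩ := frame_of_data L ε0 C1 Xh hXh
  have hε0 := hXh.ε0_pos
  have hC30 : 0 < C3 := by linarith
  have hCf0 : 0 < Cf := by linarith
  refine ⟨Cf * C3, by nlinarith, fun η hη => ?_⟩
  obtain ⟨η0, hη0, hle1, hle2, hle3, hle4⟩ : ∃ η0 : ℝ, 0 < η0 ∧ η0 ≤ η ∧ η0 < ρ3 ∧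
      C3 * η0 < η1 ∧ η0 < ρi := by
    refine ⟨min η (min (ρ3 / 2) (min (η1 / (2 * C3)) (ρi / 2))), by positivity,
      min_le_left _ _, ?_, ?_, ?_⟩
    · have h1 : min η (min (ρ3 / 2) (min (η1 / (2 * C3)) (ρi / 2))) ≤ ρ3 / 2 :=
        (min_le_right _ _).trans (min_le_left _ _)
      linarith
    · have h1 : min η (min (ρ3 / 2) (min (η1 / (2 * C3)) (ρi / 2))) ≤ η1 / (2 * C3) :=
        (min_le_right _ _).trans ((min_le_right _ _).trans (min_le_left _ _))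
      have h2 : C3 * min η (min (ρ3 / 2) (min (η1 / (2 * C3)) (ρi / 2))) ≤
          C3 * (η1 / (2 * C3)) := mul_le_mul_of_nonneg_left h1 hC30.le
      have h3 : C3 * (η1 / (2 * C3)) = η1 / 2 := by field_simp
      rw [h3] at h2
      linarith
    · have h1 : min η (min (ρ3 / 2) (min (η1 / (2 * C3)) (ρi / 2))) ≤ ρi / 2 :=
        (min_le_right _ _).trans ((min_le_right _ _).trans (min_le_right _ _))
      linarith
  obtain ⟨ρs, hρs, hsol⟩ := small_solutions M r Cc F2 hF2 r' X2 hX2 η0 hη0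
  refine ⟨min ρs (min ρ3 (min ρi ε0)), by positivity, ?_⟩
  intro ε δ hε hεr hδ hδr
  have hεs : ε < ρs := hεr.trans_le (min_le_left _ _)
  have hε3 : ε < ρ3 := hεr.trans_le ((min_le_right _ _).trans (min_le_left _ _))
  have hεi : ε < ρi := hεr.trans_le ((min_le_right _ _).trans ((min_le_right _ _).trans
    (min_le_left _ _)))
  have hε0' : ε < ε0 := hεr.trans_le ((min_le_right _ _).trans ((min_le_right _ _).trans
    (min_le_right _ _)))
  have hδs : δ < ρs := hδr.trans_le (min_le_left _ _)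
  obtain ⟨u, hu, hfu⟩ := hsol ε δ (by rwa [abs_of_pos hε]) (by rwa [abs_of_pos hδ])
  obtain ⟨hK, hFd, -⟩ := hpd ε η0 u (by rwa [abs_of_pos hε]) hu hη0 hle2
  obtain ⟨-, hFrame, hH⟩ := hfr ε (C3 * η0) (kapU u) (hU u) (fun z => M.πp z (F2 (ε, u)))
    hε hε0' (by positivity) hle3 hK hFd
  refine ⟨kapU u, hU u, _, _, _, _, Cf * (C3 * η0), ?_, hFrame, ?_⟩
  · calc Cf * (C3 * η0) = Cf * C3 * η0 := by ring
      _ ≤ Cf * C3 * η := mul_le_mul_of_nonneg_left hle1 (by positivity)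
  · exact bc_of_solution M F2 X2 u _ hFrame hH
      (fun z hz => (hid ε u hε hεi (hu.trans_lt hle4) z hz).1)
      (fun z hz => (hid ε u hε hεi (hu.trans_lt hle4) z hz).2) hfu



end Pool.Agent.Helper87.VT
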